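import Pool.Agent.P.MP_49bf82_gt.Defs
import Pool.Agent.P.MP_e3ee0c_gt.Forms
import Pool.Agent.P.MP_e3ee0c_gt.Average
import Pool.Agent.Lib.Flow.Tools
import Pool.Agent.P.MP_49bf82_gt.SDefs

-- part Pool.Agent.P.MP_49bf82_gt.Base
section

open Manifold Set Filter Topology
open scoped ContDiff RealInnerProductSpace

namespace Pool.Agent.P.MP_49bf82_gt

open Pool.Agent.P.MP_e3ee0c_gt

/-- Near x the strict sublevel set of g is connected and dense in the level set. -/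
def Good {X : Type*} [TopologicalSpace X] (g : X → ℝ) (x : X) (T : Set X) : Prop :=
  ∃ U, IsOpen U ∧ x ∈ U ∧ U ⊆ T ∧ IsPreconnected (U ∩ {y | g y < g x}) ∧
    U ∩ {y | g y = g x} ⊆ closure (U ∩ {y | g y < g x})

/-- The pairing of ξ with the moment map written as a complex number. -/
noncomputable def pr (ξ : R2) : ℂ →L[ℝ] ℝ := ξ 0 • Complex.reCLM - ξ 1 • Complex.imCLM

theorem pr_apply (ξ : R2) (z : ℂ) : pr ξ z = ξ 0 * z.re - ξ 1 * z.im := by
  simp [pr]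

/-- An irrational direction. -/
noncomputable def theta : R2 := ![1, √2]

section model

variable {G : Type*} [NormedAddCommGroup G] [InnerProductSpace ℝ G]

/-- A skew operator A that is infinitesimally symplectic for the nondegenerate skew form B. -/
structure Pair (A : G →L[ℝ] G) (B : G →L[ℝ] G →L[ℝ] ℝ) : Prop where
  skewA : ∀ u v, ⟪A u, v⟫ = -⟪u, A v⟫
  skew : ∀ u v, B u v = -B v u
  nondeg : ∀ u, (∀ v, B u v = 0) → u = 0
  symm : ∀ u v, B (A u) v = B (A v) u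

/-- g is a Hamiltonian function of the linear field A for the form Ω near the origin. -/
structure Model (A : G →L[ℝ] G) (Ω : G → G →L[ℝ] G →L[ℝ] ℝ) (g : G → ℝ) : Prop where
  skewA : ∀ u v, ⟪A u, v⟫ = -⟪u, A v⟫
  skew : ∀ u v, Ω 0 u v = -Ω 0 v u
  nondeg : ∀ u, (∀ v, Ω 0 u v = 0) → u = 0
  smooth : ContDiffAt ℝ 1 Ω 0
  deriv : ∀ᶠ y in 𝓝 (0 : G), HasFDerivAt g (-(Ω y (A y))) y

/-- Projections to the positive part N and the negative part P of the form B (A u) u. -/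
structure Split (A : G →L[ℝ] G) (B : G →L[ℝ] G →L[ℝ] ℝ) (N P : G →L[ℝ] G) (l : ℝ) : Prop where
  pos : 0 < l
  ker : ∀ y, A y = A (N y) + A (P y)
  NN : ∀ y, N (N y) = N y
  PP : ∀ y, P (P y) = P y
  NP : ∀ y, N (P y) = 0
  PN : ∀ y, P (N y) = 0
  big : ∀ y, l * ‖N y‖ ^ 2 ≤ B (A (N y)) (N y)
  small : ∀ y, B (A (P y)) (P y) ≤ -(l * ‖P y‖ ^ 2)
  orth : ∀ y z, B (A (N y)) (P z) = 0 ∧ B (A (P z)) (N y) = 0
  rank : (∃ y, N y ≠ 0) → 1 < Module.rank ℝ (LinearMap.range (N : G →ₗ[ℝ] G))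

end model

variable {E F : Type*} [NormedAddCommGroup E] [NormedSpace ℝ E] [NormedAddCommGroup F]
  [NormedSpace ℝ F] {V W : Type*} [TopologicalSpace V] [TopologicalSpace W] [ChartedSpace E V]
  [ChartedSpace F W]

/-- A vector field that is smooth at x. -/
def VFAt [IsManifold 𝓘(ℝ, F) ∞ W] (Y : W → F) (x : W) : Prop :=
  ContMDiffAt 𝓘(ℝ, F) 𝓘(ℝ, F).tangent ∞ (fun z => (⟨z, Y z⟩ : TangentBundle 𝓘(ℝ, F) W)) x

/-- A smooth vector field. -/
def VF [IsManifold 𝓘(ℝ, F) ∞ W] (Y : W → F) : Prop := ∀ x, VFAt Y x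

/-- An invariant vector field. -/
def Inv (φ : R2 → W → W) (Y : W → F) : Prop := ∀ t x, dif F F (φ t) x (Y x) = Y (φ t x)

/-- A smooth global flow of Y. -/
structure IsFlow (Y : W → F) (P : ℝ → W → W) : Prop where
  smooth : ContMDiff (𝓘(ℝ, ℝ).prod 𝓘(ℝ, F)) 𝓘(ℝ, F) ∞ (fun q : ℝ × W => P q.1 q.2)
  zero : ∀ x, P 0 x = x
  add : ∀ s t x, P (s + t) x = P s (P t x)
  curve : ∀ x, IsMIntegralCurve (I := 𝓘(ℝ, F)) (fun t => P t x) Y

variable (E F) in
/-- The normalised moment map m as a complex valued function. -/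
structure Core (Φ : V → ℂ) (ι : ℝ × V × R2 → W) (φ : R2 → W → W) (m : W → ℂ) : Prop where
  action : IsAction F φ
  isEnd : IsEnd E F ι φ
  smoothV : ContMDiff 𝓘(ℝ, E) 𝓘(ℝ, ℂ) ∞ Φ
  smooth : ContMDiff 𝓘(ℝ, F) 𝓘(ℝ, ℂ) ∞ m
  onEnd : ∀ y : ℝ × V × R2, 0 < y.1 → m (ι y) = Real.exp y.1 * Φ y.2.1
  invariant : ∀ t x, m (φ t x) = m x

/-- m is a moment map. -/
structure Ham (σ : W → F →L[ℝ] F →L[ℝ] ℝ) (φ : R2 → W → W) (m : W → ℂ) : Prop where
  symplectic : IsSymplectic σ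
  ham : ∀ x ξ w, pr ξ (dif F ℂ m x w) = -σ x (gen F φ ξ x) w

variable (F) in
/-- A proper invariant function that is the height s far out on the end. -/
structure IsHeight (ι : ℝ × V × R2 → W) (φ : R2 → W → W) (h : W → ℝ) : Prop where
  smooth : ContMDiff 𝓘(ℝ, F) 𝓘(ℝ, ℝ) ∞ h
  invariant : ∀ t x, h (φ t x) = h x
  onEnd : ∀ y : ℝ × V × R2, 2 ≤ y.1 → h (ι y) = y.1
  big : ∀ x, 2 ≤ h x → ∃ y : ℝ × V × R2, 2 ≤ y.1 ∧ ι y = x
  compact : ∀ c, IsCompact {x | h x ≤ c}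

variable (E) in
/-- The monodromy flow with its cocycle. -/
structure Turn (Φ : V → ℂ) (f : ℝ → V → V) (a : ℝ × V → ℝ) : Prop where
  flow : IsMonodromyFlow E Φ f
  smooth : ContMDiff (𝓘(ℝ, ℝ).prod 𝓘(ℝ, E)) 𝓘(ℝ, ℝ) ∞ a
  turn : ∀ t v, Φ (f t v) = Complex.exp (a (t, v) + 2 * Real.pi * t * Complex.I) * Φ v
  cocycle : ∀ s t v, a (s + t, v) = a (s, f t v) + a (t, v)
  zero : ∀ v, a (0, v) = 0
  fix : ∀ t v, Φ v = 0 → a (t, v) = 0
  near : ∀ᶠ v in 𝓝ˢ {v | Φ v = 0}, f 1 v = v ∧ a (1, v) = 0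

/-- The lift of the monodromy flow to the product; it preserves the modulus of e^s Φ. -/
def ft (f : ℝ → V → V) (a : ℝ × V → ℝ) (t : ℝ) (y : ℝ × V × R2) : ℝ × V × R2 :=
  (y.1 - a (t, y.2.1), f t y.2.1, y.2.2)

/-- Z generates the lifted flow on the end. -/
structure IsRot [IsManifold 𝓘(ℝ, F) ∞ W] (ι : ℝ × V × R2 → W) (f : ℝ → V → V) (a : ℝ × V → ℝ)
    (Z : W → F) : Prop where
  smooth : ∀ y : ℝ × V × R2, 0 < y.1 → VFAt Z (ι y)
  curve : ∀ y t, 0 < (ft f a t y).1 → HasMFDerivAt 𝓘(ℝ, ℝ) 𝓘(ℝ, F) (fun s => ι (ft f a s y)) t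
    ((1 : ℝ →L[ℝ] ℝ).smulRight (Z (ι (ft f a t y))))

variable (F) in
/-- An equivariant flow that changes the height at bounded speed. -/
structure Mover (φ : R2 → W → W) (h : W → ℝ) (C : ℝ) (P : ℝ → W → W) : Prop where
  smooth : ContMDiff (𝓘(ℝ, ℝ).prod 𝓘(ℝ, F)) 𝓘(ℝ, F) ∞ (fun q : ℝ × W => P q.1 q.2)
  zero : ∀ x, P 0 x = x
  add : ∀ s t x, P (s + t) x = P s (P t x)
  equiv : ∀ s t x, P s (φ t x) = φ t (P s x)
  height : ∀ s x, |h (P s x) - h x| ≤ C * |s|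

variable (F) in
/-- An equivariant isotopy G of W with inverse G' that preserves m. -/
structure Isotopy (φ : R2 → W → W) (m : W → ℂ) (G G' : ℝ → W → W) : Prop where
  smooth : ContMDiff (𝓘(ℝ, ℝ).prod 𝓘(ℝ, F)) 𝓘(ℝ, F) ∞ (fun q : ℝ × W => G q.1 q.2)
  smooth' : ContMDiff (𝓘(ℝ, ℝ).prod 𝓘(ℝ, F)) 𝓘(ℝ, F) ∞ (fun q : ℝ × W => G' q.1 q.2)
  left : ∀ τ x, G' τ (G τ x) = x
  right : ∀ τ x, G τ (G' τ x) = x
  zero : ∀ x, G 0 x = x
  pres : ∀ τ x, m (G τ x) = m x
  equiv : ∀ τ t x, G τ (φ t x) = φ t (G τ x)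

section chart

variable {G : Type*} [NormedAddCommGroup G] [InnerProductSpace ℝ G]

variable (F) in
/-- A smooth chart centred at p. -/
structure SChart (e : OpenPartialHomeomorph W G) (p : W) : Prop where
  mem : p ∈ e.source
  zero : e p = 0
  smooth : ∀ x ∈ e.source, ContMDiffAt 𝓘(ℝ, F) 𝓘(ℝ, G) ∞ e x
  smooth_symm : ∀ y ∈ e.target, ContMDiffAt 𝓘(ℝ, G) 𝓘(ℝ, F) ∞ e.symm y

variable (F) in
/-- A chart centred at p in which the action is linear and orthogonal with generators A ξ. -/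
structure IsLin (ψ : R2 → W → W) (p : W) (e : OpenPartialHomeomorph W G)
    (A : R2 →L[ℝ] G →L[ℝ] G) : Prop where
  chart : SChart F e p
  skew : ∀ ξ u v, ⟪A ξ u, v⟫ = -⟪u, A ξ v⟫
  comm : ∀ ξ η u, A ξ (A η u) = A η (A ξ u)
  gen : ∀ x ∈ e.source, ∀ ξ, dif F G e x (gen F ψ ξ x) = A ξ (e x)

/-- The form σ written in the chart e. -/
noncomputable def pull (σ : W → F →L[ℝ] F →L[ℝ] ℝ) (e : OpenPartialHomeomorph W G) (y : G) :
    G →L[ℝ] G →L[ℝ] ℝ :=
  (σ (e.symm y)).bilinearComp (dif G F e.symm y) (dif G F e.symm y)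

end chart

end Pool.Agent.P.MP_49bf82_gt
end

-- part Pool.Agent.P.MP_49bf82_gt.VF
section

open Manifold Set Filter Topology
open scoped ContDiff RealInnerProductSpace

namespace Pool.Agent.P.MP_49bf82_gt

open Pool.Agent.P.MP_e3ee0c_gt

variable {F : Type*} [NormedAddCommGroup F] [NormedSpace ℝ F] [FiniteDimensional ℝ F]
  {W : Type*} [TopologicalSpace W] [ChartedSpace F W] [IsManifold 𝓘(ℝ, F) ∞ W]

section general

variable {E₀ H₀ N E₁ H₁ M₁ E₂ H₂ M₂ : Type*}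
  [NormedAddCommGroup E₀] [NormedSpace ℝ E₀] [TopologicalSpace H₀] {J : ModelWithCorners ℝ E₀ H₀}
  [TopologicalSpace N] [ChartedSpace H₀ N]
  [NormedAddCommGroup E₁] [NormedSpace ℝ E₁] [TopologicalSpace H₁] {I₁ : ModelWithCorners ℝ E₁ H₁}
  [TopologicalSpace M₁] [ChartedSpace H₁ M₁] [IsManifold I₁ ∞ M₁]
  [NormedAddCommGroup E₂] [NormedSpace ℝ E₂] [TopologicalSpace H₂] {I₂ : ModelWithCorners ℝ E₂ H₂}
  [TopologicalSpace M₂] [ChartedSpace H₂ M₂] [IsManifold I₂ ∞ M₂]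

/-- Pushing a smooth family of tangent vectors by a smooth family of maps. -/
theorem push [IsManifold J 1 N] (f : N → M₁ → M₂) (g : N → M₁) (v : N → E₁) {x₀ : N}
    (hf : ContMDiffAt (J.prod I₁) I₂ ∞ (Function.uncurry f) (x₀, g x₀))
    (hv : ContMDiffAt J I₁.tangent ∞ (fun x => (⟨g x, v x⟩ : TangentBundle I₁ M₁)) x₀) :
    ContMDiffAt J I₂.tangent ∞
      (fun x => (⟨f x (g x), mfderiv I₁ I₂ (f x) (g x) (v x)⟩ : TangentBundle I₂ M₂)) x₀ := by
  have hg : ContMDiffAt J I₁ ∞ g x₀ := (Bundle.contMDiffAt_totalSpace.1 hv).1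
  have h2 : ContMDiffAt J I₂ ∞ (fun x => f x (g x)) x₀ :=
    ContMDiffAt.comp x₀ (g := Function.uncurry f) (f := fun x => (x, g x)) hf
      (contMDiffAt_id.prodMk hg)
  exact ContMDiffAt.clm_apply_of_inCoordinates (b₁ := g) (b₂ := fun x => f x (g x))
    (ϕ := fun x => mfderiv I₁ I₂ (f x) (g x)) (v := fun x => v x)
    (hf.mfderiv f g hg (by simp)) hv h2

/-- The same for one map. -/
theorem push_one [IsManifold J 1 N] (f : M₁ → M₂) (g : N → M₁) (v : N → E₁) {x₀ : N}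
    (hf : ContMDiffAt I₁ I₂ ∞ f (g x₀))
    (hv : ContMDiffAt J I₁.tangent ∞ (fun x => (⟨g x, v x⟩ : TangentBundle I₁ M₁)) x₀) :
    ContMDiffAt J I₂.tangent ∞
      (fun x => (⟨f (g x), mfderiv I₁ I₂ f (g x) (v x)⟩ : TangentBundle I₂ M₂)) x₀ := by
  exact push (fun _ => f) g v (ContMDiffAt.comp (x₀, g x₀) (g := f) hf contMDiffAt_snd) hv

/-- Maps to the tangent bundle of a vector space. -/
theorem tangent_model_iff (b v : N → E₁) (x₀ : N) :
    ContMDiffAt J 𝓘(ℝ, E₁).tangent ∞ (fun x => (⟨b x, v x⟩ : TangentBundle 𝓘(ℝ, E₁) E₁)) x₀ ↔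
      ContMDiffAt J 𝓘(ℝ, E₁) ∞ b x₀ ∧ ContMDiffAt J 𝓘(ℝ, E₁) ∞ v x₀ := by
  rw [Bundle.contMDiffAt_totalSpace]
  simp only [trivializationAt_model_space_apply]

end general

theorem VF.contMDiff_one {Y : W → F} (hY : VF Y) :
    ContMDiff 𝓘(ℝ, F) 𝓘(ℝ, F).tangent 1 (fun z => (⟨z, Y z⟩ : TangentBundle 𝓘(ℝ, F) W)) :=
  fun x => (hY x).of_le (by simp)

theorem VFAt.dif_apply {G : Type*} [NormedAddCommGroup G] [NormedSpace ℝ G] {g : W → G} {Y : W → F}
    {x : W} (hY : VFAt Y x) (hg : ContMDiffAt 𝓘(ℝ, F) 𝓘(ℝ, G) ∞ g x) :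
    ContMDiffAt 𝓘(ℝ, F) 𝓘(ℝ, G) ∞ (fun z => dif F G g z (Y z)) x := by
  exact ((tangent_model_iff _ _ x).1 (push_one g (fun z => z) Y hg hY)).2

theorem vfAt_iff_chart {Y : W → F} (p : W) {x : W} (hx : x ∈ (chartAt F p).source) :
    VFAt Y x ↔ ContDiffAt ℝ ∞ (chartField Y p) (chartAt F p x) := by
  have hs := (chartAt F p).open_source.mem_nhds hx
  have ht := (chartAt F p).map_source hx
  constructor
  · intro hY
    have h1 := hY.dif_apply (chart_smooth p hx)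
    have h2 : ContMDiffAt 𝓘(ℝ, F) 𝓘(ℝ, F) ∞ (fun z => dif F F (chartAt F p) z (Y z))
        ((chartAt F p).symm (chartAt F p x)) := by rwa [(chartAt F p).left_inv hx]
    exact contMDiffAt_iff_contDiffAt.1 (h2.comp _ (chart_symm_smooth p ht))
  · intro hY
    have h1 := (tangent_model_iff (J := 𝓘(ℝ, F)) (chartAt F p)
      (fun z => chartField Y p (chartAt F p z)) x).2 ⟨chart_smooth p hx,
        (contMDiffAt_iff_contDiffAt.2 hY).comp x (chart_smooth p hx)⟩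
    refine (push_one (chartAt F p).symm _ _ (chart_symm_smooth p ht) h1).congr_of_eventuallyEq ?_
    filter_upwards [hs] with z hz
    refine Bundle.TotalSpace.ext ((chartAt F p).left_inv hz).symm (heq_of_eq ?_)
    rw [chartField_apply Y p hz]
    exact (dif_symm_chart p hz (Y z)).symm

theorem vfAt_of_chart {Z : F → F} (p : W) {x : W} (hx : x ∈ (chartAt F p).source)
    (hZ : ContDiffAt ℝ ∞ Z (chartAt F p x)) :
    VFAt (fun z => dif F F (chartAt F p).symm (chartAt F p z) (Z (chartAt F p z))) x := by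
  rw [vfAt_iff_chart p hx]
  refine hZ.congr_of_eventuallyEq ?_
  filter_upwards [(chartAt F p).open_target.mem_nhds ((chartAt F p).map_source hx)] with z hz
  simp only [chartField, (chartAt F p).right_inv hz]
  exact congrArg (fun L : F →L[ℝ] F => L (Z z))
    ((mdifferentiable_chart (I := 𝓘(ℝ, F)) p).comp_symm_deriv hz)

theorem VFAt.smul {c : W → ℝ} {Y : W → F} {x : W} (hY : VFAt Y x)
    (hc : ContMDiffAt 𝓘(ℝ, F) 𝓘(ℝ, ℝ) ∞ c x) : VFAt (fun z => c z • Y z) x := by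
  exact ContMDiffAt.smul_section hc hY

theorem VFAt.congr {Y Y' : W → F} {x : W} (hY : VFAt Y x) (h : Y' =ᶠ[𝓝 x] Y) : VFAt Y' x := by
  refine ContMDiffAt.congr_of_eventuallyEq hY ?_
  filter_upwards [h] with z hz
  rw [hz]

omit [FiniteDimensional ℝ F] [IsManifold 𝓘(ℝ, F) ∞ W] in
/-- Chain rule along a curve. -/
theorem hasDerivAt_comp_curve {G : Type*} [NormedAddCommGroup G] [NormedSpace ℝ G] {g : W → G}
    {γ : ℝ → W} {t : ℝ} {v : F}
    (hγ : HasMFDerivAt 𝓘(ℝ, ℝ) 𝓘(ℝ, F) γ t ((1 : ℝ →L[ℝ] ℝ).smulRight v))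
    (hg : MDifferentiableAt 𝓘(ℝ, F) 𝓘(ℝ, G) g (γ t)) :
    HasDerivAt (fun s => g (γ s)) (dif F G g (γ t) v) t := by
  have h1 : HasFDerivAt (fun s => g (γ s)) ((dif F G g (γ t)).comp ((1 : ℝ →L[ℝ] ℝ).smulRight v)) t :=
    hasMFDerivAt_iff_hasFDerivAt.1 (hg.hasMFDerivAt.comp t hγ)
  simpa using h1.hasDerivAt

end Pool.Agent.P.MP_49bf82_gt
end

-- part Pool.Agent.P.MP_49bf82_gt.MFlowA
section

open Manifold Set Filter Topology
open scoped ContDiff RealInnerProductSpace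

namespace Pool.Agent.P.MP_49bf82_gt

open Pool.Agent.P.MP_e3ee0c_gt

variable {F : Type*} [NormedAddCommGroup F] [NormedSpace ℝ F] [FiniteDimensional ℝ F]
  {W : Type*} [TopologicalSpace W] [ChartedSpace F W] [IsManifold 𝓘(ℝ, F) ∞ W]

/-- A smooth local flow of a field on an open subset of the model space. -/
theorem mflowa_model {Z : F → F} {T : Set F} (hT : IsOpen T) (hZ : ∀ z ∈ T, ContDiffAt ℝ ∞ Z z)
    {a : F} (ha : a ∈ T) : ∃ ε > 0, ∃ r > 0, ∃ P : ℝ × F → F, ContDiff ℝ ∞ P ∧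
      (∀ y, P (0, y) = y) ∧ ∀ y ∈ Metric.ball a r, ∀ t ∈ Ioo (-ε) ε,
        P (t, y) ∈ T ∧ HasDerivAt (fun s => P (s, y)) (Z (P (t, y))) t := by
  have : CompleteSpace F := FiniteDimensional.complete ℝ F
  obtain ⟨ρ0, hρ0, hb⟩ := Metric.isOpen_iff.1 hT a ha
  set ρ := ρ0 / 4 with hρ
  have hρ' : 0 < ρ := by positivity
  have hsub : Metric.closedBall a (3 * ρ) ⊆ T :=
    (Metric.closedBall_subset_ball (by rw [hρ]; linarith)).trans hb
  let f : ContDiffBump a := ⟨2 * ρ, 3 * ρ, by positivity, by linarith⟩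
  let v : F → F := fun y => f y • Z y
  have hv : ContDiff ℝ ∞ v := by
    rw [contDiff_iff_contDiffAt]
    intro y
    by_cases hy : y ∈ T
    · exact f.contDiff.contDiffAt.smul (hZ y hy)
    · have h1 : y ∉ tsupport f := by
        rw [f.tsupport_eq]; exact fun h => hy (hsub h)
      refine (contDiffAt_const (c := (0 : F))).congr_of_eventuallyEq ?_
      filter_upwards [notMem_tsupport_iff_eventuallyEq.1 h1] with z hz
      simp only [v, hz, Pi.zero_apply, zero_smul]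
  have hc : HasCompactSupport v := by
    refine HasCompactSupport.intro (isCompact_closedBall a (3 * ρ)) fun y hy => ?_
    rw [Metric.mem_closedBall, not_le] at hy
    simp only [v, f.zero_of_le_dist hy.le, zero_smul]
  obtain ⟨P, hP, h0, hd, -⟩ := Lib.Flow.exists_flow_of_hasCompactSupport (n := ⊤) (by simp) v hv hc
  have key : ∀ᶠ t in 𝓝 (0 : ℝ), ∀ y ∈ Metric.closedBall a ρ, P (t, y) ∈ Metric.ball a (2 * ρ) := by
    refine (isCompact_closedBall a ρ).eventually_forall_of_forall_eventually fun y hy => ?_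
    refine hP.continuous.continuousAt.eventually_mem (Metric.isOpen_ball.mem_nhds ?_)
    rw [h0]
    exact Metric.closedBall_subset_ball (by linarith) hy
  obtain ⟨ε, hε, hk⟩ := Metric.eventually_nhds_iff.1 key
  refine ⟨ε, hε, ρ, hρ', P, hP, h0, fun y hy t ht => ?_⟩
  have hm := hk (y := t) (by simpa [Real.dist_eq, abs_lt] using ht) y
    (Metric.ball_subset_closedBall hy)
  refine ⟨hsub (Metric.ball_subset_closedBall (Metric.ball_subset_ball (by linarith) hm)), ?_⟩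
  have := hd t y
  simp only [v, f.one_of_mem_closedBall (Metric.ball_subset_closedBall hm), one_smul] at this
  exact this

/-- A smooth local flow. -/
theorem VF.local_flow {Y : W → F} (hY : VF Y) (p : W) :
    ∃ ε > 0, ∃ U, IsOpen U ∧ p ∈ U ∧ ∃ P : ℝ × W → W, ∀ x ∈ U, P (0, x) = x ∧
      IsMIntegralCurveOn (I := 𝓘(ℝ, F)) (fun t => P (t, x)) Y (Ioo (-ε) ε) ∧
      ∀ t ∈ Ioo (-ε) ε, ContMDiffAt (𝓘(ℝ, ℝ).prod 𝓘(ℝ, F)) 𝓘(ℝ, F) ∞ P (t, x) := by
  have hZ : ∀ z ∈ (chartAt F p).target, ContDiffAt ℝ ∞ (chartField Y p) z := by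
    intro z hz
    have := (vfAt_iff_chart (Y := Y) p ((chartAt F p).map_target hz)).1 (hY _)
    rwa [(chartAt F p).right_inv hz] at this
  obtain ⟨ε, hε, r, hr, P, hP, h0, hf⟩ := mflowa_model (chartAt F p).open_target hZ
    (mem_chart_target F p)
  refine ⟨ε, hε, (chartAt F p).source ∩ chartAt F p ⁻¹' Metric.ball (chartAt F p p) r,
    (chartAt F p).isOpen_inter_preimage Metric.isOpen_ball,
    ⟨mem_chart_source F p, Metric.mem_ball_self hr⟩,
    fun q => (chartAt F p).symm (P (q.1, chartAt F p q.2)), fun x hx => ⟨?_, ?_, ?_⟩⟩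
  · simp only [h0, (chartAt F p).left_inv hx.1]
  · intro t ht
    obtain ⟨h1, h2⟩ := hf _ hx.2 t ht
    refine HasMFDerivAt.hasMFDerivWithinAt ?_
    have h3 := hasMF_dif ((chart_symm_smooth p h1).mdifferentiableAt (by simp))
    have h4 := h3.comp t (f := fun s => P (s, chartAt F p x)) h2.hasFDerivAt.hasMFDerivAt
    refine h4.congr_mfderiv ?_
    have h5 := dif_symm_chart p ((chartAt F p).map_target h1)
      (Y ((chartAt F p).symm (P (t, chartAt F p x))))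
    rw [(chartAt F p).right_inv h1] at h5
    refine ContinuousLinearMap.ext_ring ?_
    change dif F F (chartAt F p).symm (P (t, chartAt F p x))
      ((1 : ℝ) • chartField Y p (P (t, chartAt F p x))) =
        (1 : ℝ) • Y ((chartAt F p).symm (P (t, chartAt F p x)))
    rw [one_smul, one_smul]
    exact h5
  · intro t ht
    obtain ⟨h1, -⟩ := hf _ hx.2 t ht
    have h2 : ContMDiffAt (𝓘(ℝ, ℝ).prod 𝓘(ℝ, F)) 𝓘(ℝ, ℝ × F) ∞
        (fun q : ℝ × W => (q.1, chartAt F p q.2)) (t, x) :=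
      contMDiffAt_fst.prodMk_space ((chart_smooth p hx.1).comp (t, x) contMDiffAt_snd)
    exact (chart_symm_smooth p h1).comp (t, x) (hP.contMDiff.contMDiffAt.comp (t, x) h2)

end Pool.Agent.P.MP_49bf82_gt
end

-- part Pool.Agent.P.MP_49bf82_gt.MFlowB
section

open Manifold Set Filter Topology
open scoped ContDiff RealInnerProductSpace

namespace Pool.Agent.P.MP_49bf82_gt

open Pool.Agent.P.MP_e3ee0c_gt

variable {F : Type*} [NormedAddCommGroup F] [NormedSpace ℝ F] [FiniteDimensional ℝ F]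
  {W : Type*} [TopologicalSpace W] [ChartedSpace F W] [IsManifold 𝓘(ℝ, F) ∞ W]

theorem mflowb_local [T2Space W] {Y : W → F} (hY : VF Y) {P : ℝ → W → W}
    (h0 : ∀ x, P 0 x = x) (hc : ∀ x, IsMIntegralCurve (I := 𝓘(ℝ, F)) (fun t => P t x) Y) (p : W) :
    ∃ ε > 0, ∃ U, IsOpen U ∧ p ∈ U ∧ ∀ x ∈ U, ∀ t ∈ Ioo (-ε) ε,
      ContMDiffAt (𝓘(ℝ, ℝ).prod 𝓘(ℝ, F)) 𝓘(ℝ, F) ∞ (fun q : ℝ × W => P q.1 q.2) (t, x) := by
  obtain ⟨ε, hε, U, hU, hp, Q, hQ⟩ := hY.local_flow p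
  refine ⟨ε, hε, U, hU, hp, fun x hx t ht => ?_⟩
  refine ((hQ x hx).2.2 t ht).congr_of_eventuallyEq ?_
  have hmem : Ioo (-ε) ε ×ˢ U ∈ 𝓝 (t, x) := (isOpen_Ioo.prod hU).mem_nhds ⟨ht, hx⟩
  filter_upwards [hmem] with q hq
  have h := isMIntegralCurveOn_Ioo_eqOn_of_contMDiff_boundaryless (I := 𝓘(ℝ, F)) (t₀ := 0)
    (a := -ε) (b := ε) ⟨by linarith, hε⟩ hY.contMDiff_one ((hc q.2).isMIntegralCurveOn _)
    (hQ q.2 hq.2).2.1 (by rw [h0, (hQ q.2 hq.2).1])
  exact h hq.1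

omit [FiniteDimensional ℝ F] [IsManifold 𝓘(ℝ, F) ∞ W] in
theorem mflowb_step {P : ℝ → W → W} (hadd : ∀ s t x, P (s + t) x = P s (P t x)) {x : W} {t t₁ : ℝ}
    (h1 : ContMDiffAt 𝓘(ℝ, F) 𝓘(ℝ, F) ∞ (P t₁) x)
    (h2 : ContMDiffAt (𝓘(ℝ, ℝ).prod 𝓘(ℝ, F)) 𝓘(ℝ, F) ∞ (fun q : ℝ × W => P q.1 q.2)
      (t - t₁, P t₁ x)) :
    ContMDiffAt (𝓘(ℝ, ℝ).prod 𝓘(ℝ, F)) 𝓘(ℝ, F) ∞ (fun q : ℝ × W => P q.1 q.2) (t, x) := by
  have ha : ContMDiffAt (𝓘(ℝ, ℝ).prod 𝓘(ℝ, F)) 𝓘(ℝ, ℝ) ∞ (fun q : ℝ × W => q.1 - t₁) (t, x) :=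
    contMDiffAt_fst.sub contMDiffAt_const
  have hb : ContMDiffAt (𝓘(ℝ, ℝ).prod 𝓘(ℝ, F)) 𝓘(ℝ, F) ∞ (fun q : ℝ × W => P t₁ q.2) (t, x) :=
    ContMDiffAt.comp (t, x) (g := P t₁) (f := fun q : ℝ × W => q.2) h1 contMDiffAt_snd
  have hc := ContMDiffAt.comp (t, x) (g := fun q : ℝ × W => P q.1 q.2)
    (f := fun q : ℝ × W => (q.1 - t₁, P t₁ q.2)) h2 (ha.prodMk hb)
  have he : ((fun q : ℝ × W => P q.1 q.2) ∘ fun q : ℝ × W => (q.1 - t₁, P t₁ q.2)) =
      fun q : ℝ × W => P q.1 q.2 := by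
    funext q
    simp only [Function.comp_apply]
    rw [← hadd, sub_add_cancel]
  rwa [he] at hc

omit [FiniteDimensional ℝ F] [IsManifold 𝓘(ℝ, F) ∞ W] in
theorem mflowb_slice {P : ℝ → W → W} {x : W} {t : ℝ}
    (h : ContMDiffAt (𝓘(ℝ, ℝ).prod 𝓘(ℝ, F)) 𝓘(ℝ, F) ∞ (fun q : ℝ × W => P q.1 q.2) (t, x)) :
    ContMDiffAt 𝓘(ℝ, F) 𝓘(ℝ, F) ∞ (P t) x :=
  ContMDiffAt.comp x (g := fun q : ℝ × W => P q.1 q.2) (f := fun y : W => (t, y)) h
    (contMDiffAt_const.prodMk contMDiffAt_id)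

/-- A complete smooth field has a smooth flow. -/
theorem VF.flow_of_complete [T2Space W] {Y : W → F} (hY : VF Y)
    (hex : ∀ x, ∃ γ : ℝ → W, γ 0 = x ∧ IsMIntegralCurve (I := 𝓘(ℝ, F)) γ Y) :
    ∃ P, IsFlow Y P := by
  choose γ h0 hc using hex
  let P : ℝ → W → W := fun t x => γ x t
  have hP0 : ∀ x, P 0 x = x := h0
  have hPc : ∀ x, IsMIntegralCurve (I := 𝓘(ℝ, F)) (fun t => P t x) Y := hc
  have hadd : ∀ s t x, P (s + t) x = P s (P t x) := by
    intro s t x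
    have h := isMIntegralCurve_Ioo_eq_of_contMDiff_boundaryless (I := 𝓘(ℝ, F)) (t₀ := 0)
      hY.contMDiff_one ((hc x).comp_add t) (hc (γ x t)) (by simp [h0])
    exact congrFun h s
  have hslice : ∀ x t, ContMDiffAt 𝓘(ℝ, F) 𝓘(ℝ, F) ∞ (P t) x := by
    intro x t
    have hloc : ∀ t₀ : ℝ, ∀ᶠ s in 𝓝 t₀, ∀ᶠ u in 𝓝 t₀,
        ContMDiffAt 𝓘(ℝ, F) 𝓘(ℝ, F) ∞ (P s) x → ContMDiffAt 𝓘(ℝ, F) 𝓘(ℝ, F) ∞ (P u) x := by
      intro t₀
      obtain ⟨ε, hε, U, hU, hp, hs⟩ := mflowb_local hY hP0 hPc (P t₀ x)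
      have h1 : ∀ᶠ s in 𝓝 t₀, P s x ∈ U :=
        (hPc x).continuous.continuousAt.preimage_mem_nhds (hU.mem_nhds hp)
      have h2 : ∀ᶠ s in 𝓝 t₀, s ∈ Ioo (t₀ - ε / 2) (t₀ + ε / 2) :=
        Ioo_mem_nhds (by linarith) (by linarith)
      filter_upwards [h1, h2] with s hs1 hs2
      filter_upwards [h2] with u hu hsm
      exact mflowb_slice (mflowb_step hadd hsm
        (hs _ hs1 _ ⟨by linarith [hs2.2, hu.1], by linarith [hs2.1, hu.2]⟩))
    have hopen : IsOpen {s : ℝ | ContMDiffAt 𝓘(ℝ, F) 𝓘(ℝ, F) ∞ (P s) x} := by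
      rw [isOpen_iff_mem_nhds]
      intro s hs
      filter_upwards [(hloc s).self_of_nhds] with u hu
      exact hu hs
    have hclosed : IsClosed {s : ℝ | ContMDiffAt 𝓘(ℝ, F) 𝓘(ℝ, F) ∞ (P s) x} := by
      rw [← isOpen_compl_iff, isOpen_iff_mem_nhds]
      intro s hs
      filter_upwards [hloc s] with u hu hu'
      exact hs (hu.self_of_nhds hu')
    have hne : {s : ℝ | ContMDiffAt 𝓘(ℝ, F) 𝓘(ℝ, F) ∞ (P s) x}.Nonempty := by
      refine ⟨0, ?_⟩
      have : P 0 = id := funext hP0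
      show ContMDiffAt 𝓘(ℝ, F) 𝓘(ℝ, F) ∞ (P 0) x
      rw [this]
      exact contMDiffAt_id
    have huniv := IsClopen.eq_univ ⟨hclosed, hopen⟩ hne
    have ht : t ∈ {s : ℝ | ContMDiffAt 𝓘(ℝ, F) 𝓘(ℝ, F) ∞ (P s) x} := huniv ▸ mem_univ t
    exact ht
  refine ⟨P, ⟨?_, hP0, hadd, hPc⟩⟩
  rintro ⟨t, x⟩
  obtain ⟨ε, hε, U, hU, hp, hs⟩ := mflowb_local hY hP0 hPc (P t x)
  exact mflowb_step hadd (hslice x t) (hs _ hp _ ⟨by linarith, by linarith⟩)

end Pool.Agent.P.MP_49bf82_gt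
end

-- part Pool.Agent.P.MP_49bf82_gt.MFlowC
section

open Manifold Set Filter Topology
open scoped ContDiff RealInnerProductSpace

namespace Pool.Agent.P.MP_49bf82_gt

open Pool.Agent.P.MP_e3ee0c_gt

variable {F : Type*} [NormedAddCommGroup F] [NormedSpace ℝ F] [FiniteDimensional ℝ F]
  {W : Type*} [TopologicalSpace W] [ChartedSpace F W] [IsManifold 𝓘(ℝ, F) ∞ W]

/-- A field that vanishes outside a compact set is complete. -/
theorem VF.complete_of_compact [T2Space W] {Y : W → F} (hY : VF Y) {K : Set W} (hK : IsCompact K)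
    (h0 : ∀ x ∉ K, Y x = 0) (x : W) :
    ∃ γ : ℝ → W, γ 0 = x ∧ IsMIntegralCurve (I := 𝓘(ℝ, F)) γ Y := by
  have key : ∃ ε > 0, ∀ y ∈ K, ∃ γ : ℝ → W, γ 0 = y ∧
      IsMIntegralCurveOn (I := 𝓘(ℝ, F)) γ Y (Ioo (-ε) ε) := by
    refine hK.induction_on (p := fun s => ∃ ε > 0, ∀ y ∈ s, ∃ γ : ℝ → W, γ 0 = y ∧
      IsMIntegralCurveOn (I := 𝓘(ℝ, F)) γ Y (Ioo (-ε) ε)) ⟨1, one_pos, fun y hy => hy.elim⟩
      ?_ ?_ ?_
    · rintro s t hst ⟨ε, hε, h⟩
      exact ⟨ε, hε, fun y hy => h y (hst hy)⟩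
    · rintro s t ⟨ε, hε, h⟩ ⟨ε', hε', h'⟩
      refine ⟨min ε ε', lt_min hε hε', fun y hy => ?_⟩
      rcases hy with hy | hy
      · obtain ⟨γ, h1, h2⟩ := h y hy
        exact ⟨γ, h1, h2.mono (Ioo_subset_Ioo (neg_le_neg (min_le_left _ _)) (min_le_left _ _))⟩
      · obtain ⟨γ, h1, h2⟩ := h' y hy
        exact ⟨γ, h1, h2.mono (Ioo_subset_Ioo (neg_le_neg (min_le_right _ _)) (min_le_right _ _))⟩
    · intro p _
      obtain ⟨ε, hε, U, hU, hp, P, hP⟩ := hY.local_flow p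
      exact ⟨U, mem_nhdsWithin_of_mem_nhds (hU.mem_nhds hp), ε, hε,
        fun y hy => ⟨fun t => P (t, y), (hP y hy).1, (hP y hy).2.1⟩⟩
  obtain ⟨ε, hε, h⟩ := key
  refine exists_isMIntegralCurve_of_isMIntegralCurveOn (I := 𝓘(ℝ, F)) hY.contMDiff_one hε
    (fun y => ?_) x
  by_cases hy : y ∈ K
  · exact h y hy
  · exact ⟨fun _ => y, rfl,
      (isMIntegralCurve_const (I := 𝓘(ℝ, F)) (v := Y) (h0 y hy)).isMIntegralCurveOn _⟩

/-- A field along which a proper function changes at bounded speed is complete. -/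
theorem VF.complete [T2Space W] {Y : W → F} (hY : VF Y) {h : W → ℝ}
    (hh : ContMDiff 𝓘(ℝ, F) 𝓘(ℝ, ℝ) ∞ h) (hc : ∀ c, IsCompact {x | h x ≤ c}) {C : ℝ}
    (hC : ∀ x, |dif F ℝ h x (Y x)| ≤ C) (x : W) :
    ∃ γ : ℝ → W, γ 0 = x ∧ IsMIntegralCurve (I := 𝓘(ℝ, F)) γ Y := by
  refine (exists_isMIntegralCurve_iff_exists_isMIntegralCurveOn_Ioo (I := 𝓘(ℝ, F))
    hY.contMDiff_one x).2 fun a => ?_
  have hC0 : 0 ≤ C := (abs_nonneg _).trans (hC x)
  set N : ℝ := h x + C * |a| with hN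
  set c : W → ℝ := fun z => Real.smoothTransition (N + 1 - h z) with hcdef
  have hcs : ContMDiff 𝓘(ℝ, F) 𝓘(ℝ, ℝ) ∞ c :=
    (Real.smoothTransition.contDiff.comp (contDiff_const.sub contDiff_id)).contMDiff.comp hh
  have hY' : VF fun z => c z • Y z := fun z => (hY z).smul (hcs z)
  obtain ⟨γ, h1, h2⟩ := hY'.complete_of_compact (hc (N + 1)) (fun z hz => by
    have hz' : N + 1 - h z ≤ 0 := by
      have : N + 1 < h z := not_le.1 hz
      linarith
    simp only [hcdef, Real.smoothTransition.zero_of_nonpos hz', zero_smul]) x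
  have hd : ∀ t, HasDerivAt (fun s => h (γ s)) (dif F ℝ h (γ t) (c (γ t) • Y (γ t))) t :=
    fun t => hasDerivAt_comp_curve (h2 t) (hh.mdifferentiableAt (by simp))
  have hb : ∀ t, ‖dif F ℝ h (γ t) (c (γ t) • Y (γ t))‖ ≤ C := by
    intro t
    rw [map_smul, norm_smul, Real.norm_of_nonneg (Real.smoothTransition.nonneg _),
      Real.norm_eq_abs]
    exact (mul_le_of_le_one_left (abs_nonneg _) (Real.smoothTransition.le_one _)).trans (hC _)
  refine ⟨γ, h1, fun t ht => ?_⟩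
  have h3 : ‖h (γ t) - h (γ 0)‖ ≤ C * ‖t - 0‖ :=
    convex_univ.norm_image_sub_le_of_norm_hasDerivWithin_le (f := fun s => h (γ s))
      (fun s _ => (hd s).hasDerivWithinAt) (fun s _ => hb s) (mem_univ 0) (mem_univ t)
  rw [h1, sub_zero, Real.norm_eq_abs, Real.norm_eq_abs] at h3
  have h4 : |t| ≤ |a| := (abs_lt.2 ht).le.trans (le_abs_self a)
  have h5 : 1 ≤ N + 1 - h (γ t) := by
    have := (abs_le.1 h3).2
    have := mul_le_mul_of_nonneg_left h4 hC0
    linarith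
  have h6 : c (γ t) • Y (γ t) = Y (γ t) := by
    simp only [hcdef, Real.smoothTransition.one_of_one_le h5, one_smul]
  have h7 := h2 t
  simp only [h6] at h7
  exact h7.hasMFDerivWithinAt

end Pool.Agent.P.MP_49bf82_gt
end

-- part Pool.Agent.P.MP_49bf82_gt.Gen
section

open Manifold Set Filter Topology
open scoped ContDiff RealInnerProductSpace

namespace Pool.Agent.P.MP_49bf82_gt

open Pool.Agent.P.MP_e3ee0c_gt

variable {F : Type*} [NormedAddCommGroup F] [NormedSpace ℝ F] [FiniteDimensional ℝ F]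
  {W : Type*} [TopologicalSpace W] [ChartedSpace F W] [IsManifold 𝓘(ℝ, F) ∞ W]

variable {φ : R2 → W → W}

theorem IsAction.smooth_at (h : IsAction F φ) (t : R2) : ContMDiff 𝓘(ℝ, F) 𝓘(ℝ, F) ∞ (φ t) := by
  exact h.smooth.comp (contMDiff_const.prodMk contMDiff_id)

theorem IsAction.smooth_orbit (h : IsAction F φ) (x : W) :
    ContMDiff 𝓘(ℝ, R2) 𝓘(ℝ, F) ∞ (fun t => φ t x) := by
  exact h.smooth.comp (contMDiff_id.prodMk contMDiff_const)

theorem IsAction.dif_add (h : IsAction F φ) (s t : R2) (x : W) (u : F) :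
    dif F F (φ (s + t)) x u = dif F F (φ s) (φ t x) (dif F F (φ t) x u) := by
  have e : φ (s + t) = fun y => φ s (φ t y) := funext fun y => h.add s t y
  rw [e, dif_comp ((h.smooth_at s).mdifferentiableAt (by simp))
    ((h.smooth_at t).mdifferentiableAt (by simp))]
  rfl

theorem IsAction.dif_zero (h : IsAction F φ) (x : W) (u : F) : dif F F (φ 0) x u = u := by
  have e : φ 0 = id := funext fun y => h.zero y
  rw [e]
  exact congrArg (fun L : F →L[ℝ] F => L u) (mfderiv_id (I := 𝓘(ℝ, F)) (x := x))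

theorem IsAction.rv_add (h : IsAction F φ) (k : Fin 2 → ℤ) (t : R2) : φ (rv k + t) = φ t := by
  funext x
  rw [h.add]
  exact h.periodic k _

theorem IsAction.gen_vf (h : IsAction F φ) (ξ : R2) : VF (gen F φ ξ) := by
  intro x
  have hf : ContMDiff (𝓘(ℝ, F).prod 𝓘(ℝ, R2)) 𝓘(ℝ, F) ∞
      (Function.uncurry fun (x : W) (t : R2) => φ t x) :=
    h.smooth.comp (contMDiff_snd.prodMk contMDiff_fst)
  have h1 := push (J := 𝓘(ℝ, F)) (I₁ := 𝓘(ℝ, R2)) (I₂ := 𝓘(ℝ, F))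
    (fun (x : W) (t : R2) => φ t x) (fun _ => 0) (fun _ => ξ) (x₀ := x) (hf _)
    ((tangent_model_iff (J := 𝓘(ℝ, F)) (fun _ : W => (0 : R2)) (fun _ => ξ) x).2
      ⟨contMDiffAt_const, contMDiffAt_const⟩)
  refine h1.congr_of_eventuallyEq (Eventually.of_forall fun z => ?_)
  exact Bundle.TotalSpace.ext (h.zero z).symm HEq.rfl

theorem IsAction.gen_inv (h : IsAction F φ) (ξ : R2) : Inv φ (gen F φ ξ) := by
  intro t x
  have e : (fun s => φ s (φ t x)) = fun s => φ t (φ s x) := funext fun s => by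
    rw [← h.add, ← h.add, add_comm]
  unfold gen
  rw [e, dif_comp (g := φ t) (f := fun s => φ s x) ((h.smooth_at t).mdifferentiableAt (by simp))
    ((h.smooth_orbit x).mdifferentiableAt (by simp)), h.zero]
  rfl

theorem IsAction.gen_curve (h : IsAction F φ) (ξ : R2) (x : W) :
    IsMIntegralCurve (I := 𝓘(ℝ, F)) (fun s : ℝ => φ (s • ξ) x) (gen F φ ξ) := by
  intro s₀
  have e : (fun s : ℝ => φ (s • ξ) x)
      = (fun t => φ t (φ (s₀ • ξ) x)) ∘ fun s : ℝ => (s - s₀) • ξ := funext fun s => by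
    simp only [Function.comp]
    rw [← h.add, ← add_smul, sub_add_cancel]
  have h1 : HasMFDerivAt 𝓘(ℝ, ℝ) 𝓘(ℝ, R2) (fun s : ℝ => (s - s₀) • ξ) s₀
      ((1 : ℝ →L[ℝ] ℝ).smulRight ξ) := by
    have := ((hasDerivAt_id s₀).sub_const s₀).smul_const ξ
    rw [one_smul] at this
    exact this.hasFDerivAt.hasMFDerivAt
  have h2 : ∀ p : R2, p = 0 → HasMFDerivAt 𝓘(ℝ, R2) 𝓘(ℝ, F) (fun t => φ t (φ (s₀ • ξ) x)) p
      (dif R2 F (fun t => φ t (φ (s₀ • ξ) x)) 0) := by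
    rintro p rfl
    exact hasMF_dif ((h.smooth_orbit _).mdifferentiableAt (by simp))
  have h3 := (h2 _ (by simp)).comp s₀ h1
  have h4 : (dif R2 F (fun t => φ t (φ (s₀ • ξ) x)) 0).comp ((1 : ℝ →L[ℝ] ℝ).smulRight ξ)
      = (1 : ℝ →L[ℝ] ℝ).smulRight (gen F φ ξ (φ (s₀ • ξ) x)) := by
    ext
    simp [gen]
  have h5 : HasMFDerivAt 𝓘(ℝ, ℝ) 𝓘(ℝ, F)
      ((fun t => φ t (φ (s₀ • ξ) x)) ∘ fun s : ℝ => (s - s₀) • ξ) s₀
      ((1 : ℝ →L[ℝ] ℝ).smulRight (gen F φ ξ (φ (s₀ • ξ) x))) := h4 ▸ h3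
  exact h5.congr_of_eventuallyEq (Eventually.of_forall fun s => congrFun e s)

theorem IsAction.gen_of_fix (h : IsAction F φ) {ξ : R2} {x : W} (hx : ∀ s : ℝ, φ (s • ξ) x = x) :
    gen F φ ξ x = 0 := by
  have h1 := h.gen_curve ξ x
  have e : (fun s : ℝ => φ (s • ξ) x) = fun _ => x := funext hx
  rw [e] at h1
  have h2 := hasMFDerivAt_unique (h1 0) (hasMFDerivAt_const x (0 : ℝ))
  have h3 : (1 : ℝ) • gen F φ ξ x = 0 := congrArg (fun L : ℝ →L[ℝ] F => L 1) h2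
  rwa [one_smul] at h3

theorem IsAction.fix_of_gen [T2Space W] (h : IsAction F φ) {ξ : R2} {x : W}
    (hx : gen F φ ξ x = 0) (s : ℝ) : φ (s • ξ) x = x := by
  have h1 := isMIntegralCurve_Ioo_eq_of_contMDiff_boundaryless (t₀ := 0)
    (h.gen_vf ξ).contMDiff_one (h.gen_curve ξ x) (isMIntegralCurve_const hx)
    (by simp [h.zero])
  exact congrFun h1 s

/-- The action of a circle subgroup, as an action of the torus through the first factor. -/
theorem IsAction.circle (h : IsAction F φ) (k : Fin 2 → ℤ) :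
    IsAction F (fun t => φ (t 0 • rv k)) ∧
      ∀ x, gen F (fun t => φ (t 0 • rv k)) ![1, 0] x = gen F φ (rv k) x := by
  let l : R2 →L[ℝ] R2 := (ContinuousLinearMap.proj (R := ℝ) (φ := fun _ : Fin 2 => ℝ) 0).smulRight
    (rv k)
  have hl : ∀ t : R2, l t = t 0 • rv k := fun t => rfl
  refine ⟨⟨?_, fun x => ?_, fun s t x => ?_, fun j x => ?_⟩, fun x => ?_⟩
  · exact h.smooth.comp ((l.contDiff.contMDiff.comp contMDiff_fst).prodMk contMDiff_snd)
  · simp [h.zero]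
  · simp only [Pi.add_apply, add_smul, h.add]
  · have e : ((j 0 : ℤ) : ℝ) • rv k = fun i => (((j 0 • k) i : ℤ) : ℝ) := by
      funext i
      simp [rv]
    show φ (((j 0 : ℤ) : ℝ) • rv k) x = x
    rw [e]
    exact h.periodic _ x
  · have h1 := dif_comp (E := R2) (F := R2) (G := F) (g := fun t => φ t x) (f := l) (x := 0)
      ((h.smooth_orbit x).mdifferentiableAt (by simp)) l.mdifferentiableAt
    have h2 : dif R2 R2 l 0 = l := by rw [dif_fderiv, l.fderiv]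
    rw [h2, map_zero] at h1
    have h3 : l ![1, 0] = rv k := by simp [hl]
    show dif R2 F (fun t => φ (l t) x) 0 ![1, 0] = _
    rw [h1, ContinuousLinearMap.comp_apply, h3]
    rfl

end Pool.Agent.P.MP_49bf82_gt
end

-- part Pool.Agent.P.MP_49bf82_gt.FlowT
section

open Manifold Set Filter Topology
open scoped ContDiff RealInnerProductSpace

namespace Pool.Agent.P.MP_49bf82_gt

open Pool.Agent.P.MP_e3ee0c_gt

variable {F : Type*} [NormedAddCommGroup F] [NormedSpace ℝ F] [FiniteDimensional ℝ F]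
  {W : Type*} [TopologicalSpace W] [ChartedSpace F W] [IsManifold 𝓘(ℝ, F) ∞ W]

variable {φ : R2 → W → W} {Y : W → F} {P : ℝ → W → W}

theorem IsFlow.eqOn [T2Space W] (hP : IsFlow Y P) (hY : VF Y) {γ : ℝ → W} {a b : ℝ}
    (h0 : (0 : ℝ) ∈ Ioo a b) (hγ : ∀ t ∈ Ioo a b, HasMFDerivAt 𝓘(ℝ, ℝ) 𝓘(ℝ, F) γ t
      ((1 : ℝ →L[ℝ] ℝ).smulRight (Y (γ t)))) : ∀ t ∈ Ioo a b, P t (γ 0) = γ t := by
  intro t ht
  exact isMIntegralCurveOn_Ioo_eqOn_of_contMDiff_boundaryless (I := 𝓘(ℝ, F)) h0 hY.contMDiff_one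
    ((hP.curve (γ 0)).isMIntegralCurveOn _) (fun s hs => (hγ s hs).hasMFDerivWithinAt)
    (hP.zero _) ht

theorem IsFlow.equiv [T2Space W] (hP : IsFlow Y P) (hY : VF Y) (hφ : IsAction F φ) (hi : Inv φ Y)
    (s : ℝ) (t : R2) (x : W) : P s (φ t x) = φ t (P s x) := by
  have h1 : IsMIntegralCurve (I := 𝓘(ℝ, F)) (fun r => φ t (P r x)) Y := by
    intro r
    have a := (hasMF_dif (((hφ.smooth_at t) (P r x)).mdifferentiableAt (by simp))).comp r
      (hP.curve x r)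
    refine a.congr_mfderiv ?_
    ext
    change dif F F (φ t) (P r x) ((1 : ℝ) • Y (P r x)) = (1 : ℝ) • Y (φ t (P r x))
    rw [one_smul, one_smul, hi]
  have := isMIntegralCurve_Ioo_eq_of_contMDiff_boundaryless (t₀ := 0) hY.contMDiff_one
    (hP.curve (φ t x)) h1 (by simp only [hP.zero])
  exact congrFun this s

theorem IsFlow.translate (hP : IsFlow Y P) {m : W → ℂ} (hm : ContMDiff 𝓘(ℝ, F) 𝓘(ℝ, ℂ) ∞ m)
    {c : ℂ} (h : ∀ x, dif F ℂ m x (Y x) = c) (s : ℝ) (x : W) : m (P s x) = m x + s * c := by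
  have h1 : ∀ r : ℝ, HasDerivAt (fun r : ℝ => m (P r x) - r * c) 0 r := fun r => by
    have a := hasDerivAt_comp_curve (hP.curve x r) ((hm _).mdifferentiableAt (by simp))
    rw [h] at a
    have b := (Complex.ofRealCLM.hasDerivAt (x := r)).mul_const c
    exact (a.sub b).congr_deriv (by simp)
  have := is_const_of_deriv_eq_zero (fun r => (h1 r).differentiableAt) (fun r => (h1 r).deriv) s 0
  simp only [hP.zero, Complex.ofReal_zero, zero_mul, sub_zero] at this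
  exact sub_eq_iff_eq_add.1 this

theorem IsFlow.rotate (hP : IsFlow Y P) {m : W → ℂ} (hm : ContMDiff 𝓘(ℝ, F) 𝓘(ℝ, ℂ) ∞ m)
    {c : ℂ} (h : ∀ x, dif F ℂ m x (Y x) = c * m x) (s : ℝ) (x : W) :
    m (P s x) = Complex.exp (c * s) * m x := by
  have h1 : ∀ r : ℝ, HasDerivAt (fun r : ℝ => Complex.exp (-(c * r)) * m (P r x)) 0 r := fun r => by
    have a := hasDerivAt_comp_curve (hP.curve x r) ((hm _).mdifferentiableAt (by simp))
    rw [h] at a
    have b := (((Complex.ofRealCLM.hasDerivAt (x := r)).const_mul c).neg).cexp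
    have d := b.mul a
    refine d.congr_deriv ?_
    simp
    ring
  have := is_const_of_deriv_eq_zero (fun r => (h1 r).differentiableAt) (fun r => (h1 r).deriv) s 0
  simp only [hP.zero, Complex.ofReal_zero, mul_zero, neg_zero, Complex.exp_zero, one_mul] at this
  rw [← this, ← mul_assoc, ← Complex.exp_add]
  simp

/-- The flow of an invariant field along which the height changes at bounded speed. -/
theorem exists_mover [T2Space W] (hY : VF Y) (hφ : IsAction F φ) (hi : Inv φ Y) {h : W → ℝ}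
    (hh : ContMDiff 𝓘(ℝ, F) 𝓘(ℝ, ℝ) ∞ h) (hc : ∀ c, IsCompact {x | h x ≤ c}) {C : ℝ}
    (hC : ∀ x, |dif F ℝ h x (Y x)| ≤ C) : ∃ P, IsFlow Y P ∧ Mover F φ h C P := by
  obtain ⟨P, hP⟩ := hY.flow_of_complete (hY.complete hh hc hC)
  refine ⟨P, hP, hP.smooth, hP.zero, hP.add, hP.equiv hY hφ hi, fun s x => ?_⟩
  have := Convex.norm_image_sub_le_of_norm_hasDerivWithin_le (f := fun r : ℝ => h (P r x))
    (f' := fun r => dif F ℝ h (P r x) (Y (P r x))) (s := univ) (C := C) (x := 0) (y := s)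
    (fun r _ => (hasDerivAt_comp_curve (hP.curve x r)
      ((hh _).mdifferentiableAt (by simp))).hasDerivWithinAt)
    (fun r _ => hC _) convex_univ (mem_univ _) (mem_univ _)
  simpa [hP.zero] using this

end Pool.Agent.P.MP_49bf82_gt
end

-- part Pool.Agent.P.MP_49bf82_gt.SLie
section

open Manifold Set Filter Topology
open scoped ContDiff

namespace Pool.Agent.P.MP_49bf82_gt

open Pool.Agent.P.MP_e3ee0c_gt

variable {F : Type*} [NormedAddCommGroup F] [NormedSpace ℝ F]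

theorem slie_mixed {P : ℝ × F → F} {z : F} (hP : ContDiffAt ℝ ∞ P (0, z)) {X : F → F}
    (hX : ∀ᶠ y in 𝓝 z, HasDerivAt (fun t => P (t, y)) (X y) 0) (u : F) :
    HasDerivAt (fun t => fderiv ℝ (fun y => P (t, y)) z u) (fderiv ℝ X z u) 0 := by
  have h1 : ContDiffAt ℝ 1 (fderiv ℝ P) (0, z) := hP.fderiv_right (by norm_cast)
  have d1 := (h1.differentiableAt (by simp)).hasFDerivAt
  have hs : IsSymmSndFDerivAt ℝ P (0, z) := hP.isSymmSndFDerivAt (by
    rw [minSmoothness_of_isRCLikeNormedField]; norm_cast)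
  have hd : ∀ᶠ q in 𝓝 ((0 : ℝ), z), DifferentiableAt ℝ P q :=
    ((hP.of_le (show (1 : WithTop ℕ∞) ≤ ∞ by norm_cast)).eventually (by simp)).mono
      fun q hq => hq.differentiableAt (by simp)
  have c1 : HasDerivAt (fun t : ℝ => (t, z)) (1, 0) 0 :=
    (hasDerivAt_id (0 : ℝ)).prodMk (hasDerivAt_const _ z)
  have c2 : HasFDerivAt (fun y : F => ((0 : ℝ), y)) (ContinuousLinearMap.inr ℝ ℝ F) z :=
    hasFDerivAt_prodMk_right 0 z
  have e1 : (fun t => fderiv ℝ (fun y => P (t, y)) z u) =ᶠ[𝓝 0]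
      fun t => fderiv ℝ P (t, z) (0, u) := by
    filter_upwards [c1.continuousAt.eventually hd] with t ht
    have := (ht.hasFDerivAt.comp z (hasFDerivAt_prodMk_right t z)).fderiv
    exact congrArg (fun L : F →L[ℝ] F => L u) this
  have e2 : X =ᶠ[𝓝 z] fun y => fderiv ℝ P (0, y) (1, 0) := by
    filter_upwards [c2.continuousAt.eventually hd, hX] with y hy hy'
    exact hy'.unique (hy.hasFDerivAt.comp_hasDerivAt (0 : ℝ)
      ((hasDerivAt_id (0 : ℝ)).prodMk (hasDerivAt_const _ y)))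
  have g1 := ((d1.comp_hasDerivAt (0 : ℝ) c1).clm_apply
    (hasDerivAt_const _ ((0 : ℝ), u))).congr_of_eventuallyEq e1
  have g2 := ((d1.comp z c2).clm_apply (hasFDerivAt_const ((1 : ℝ), (0 : F)) _)).fderiv
  refine g1.congr_deriv ?_
  rw [e2.fderiv_eq]
  refine Eq.trans ?_ (congrArg (fun L : F →L[ℝ] F => L u) g2).symm
  simpa using hs (1, 0) (0, u)

variable {W : Type*} [TopologicalSpace W] [ChartedSpace F W] [IsManifold 𝓘(ℝ, F) ∞ W]

/-- A family of maps that starts at the identity near x with velocity Y. -/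
structure Fam (P : ℝ → W → W) (Y : W → F) (x : W) : Prop where
  smooth : ∀ᶠ q in 𝓝 ((0 : ℝ), x),
    ContMDiffAt (𝓘(ℝ, ℝ).prod 𝓘(ℝ, F)) 𝓘(ℝ, F) ∞ (fun q : ℝ × W => P q.1 q.2) q
  zero : ∀ᶠ z in 𝓝 x, P 0 z = z
  vel : ∀ᶠ z in 𝓝 x,
    HasMFDerivAt 𝓘(ℝ, ℝ) 𝓘(ℝ, F) (fun t => P t z) 0 ((1 : ℝ →L[ℝ] ℝ).smulRight (Y z))

theorem Fam.chart {P : ℝ → W → W} {Y : W → F} {x : W} (h : Fam P Y x) :
    (∀ᶠ t in 𝓝 (0 : ℝ), P t x ∈ (chartAt F x).source) ∧
    HasDerivAt (fun t => chartAt F x (P t x)) (Y x) 0 ∧ ∀ u,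
      dif F F (chartAt F x) (P 0 x) (dif F F (P 0) x u) = u ∧
      HasDerivAt (fun t => dif F F (chartAt F x) (P t x) (dif F F (P t) x u))
        (fderiv ℝ (chartField Y x) (chartAt F x x) u) 0 := by
  have hx := mem_chart_source F x
  have h0 := h.zero.self_of_nhds
  have hl := (chartAt F x).left_inv hx
  have c1 : ContinuousAt (fun t : ℝ => (t, x)) 0 := by fun_prop
  have a1 : ∀ᶠ t in 𝓝 (0 : ℝ), P t x ∈ (chartAt F x).source :=
    (ContinuousAt.comp (f := fun t : ℝ => (t, x)) h.smooth.self_of_nhds.continuousAt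
      c1).eventually_mem
      (by simpa only [Function.comp_apply, h0] using (chartAt F x).open_source.mem_nhds hx)
  have hv : ∀ᶠ z in 𝓝 x, HasDerivAt (fun t => chartAt F x (P t z))
      (dif F F (chartAt F x) z (Y z)) 0 := by
    filter_upwards [h.zero, h.vel, (chartAt F x).open_source.mem_nhds hx] with z z0 zv zs
    have := hasDerivAt_comp_curve (g := chartAt F x) zv
      (by rw [z0]; exact (chart_smooth x zs).mdifferentiableAt (by simp))
    rwa [z0] at this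
  have cs := chart_symm_smooth x (mem_chart_target F x)
  refine ⟨a1, by simpa only [dif_chart_self, ContinuousLinearMap.id_apply] using hv.self_of_nhds,
    fun u => ⟨?_, ?_⟩⟩
  · rw [h0, dif_chart_self, dif_congr (g := id) h.zero]
    exact congrArg (fun L : F →L[ℝ] F => L u) (mfderiv_id (I := 𝓘(ℝ, F)) (x := x))
  have s1 : ContMDiffAt 𝓘(ℝ, ℝ × F) (𝓘(ℝ, ℝ).prod 𝓘(ℝ, F)) ∞
      (fun q : ℝ × F => (q.1, (chartAt F x).symm q.2)) (0, chartAt F x x) :=
    contDiff_fst.contMDiff.contMDiffAt.prodMk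
      (ContMDiffAt.comp (f := fun q : ℝ × F => q.2) (0, chartAt F x x) cs
        contDiff_snd.contMDiff.contMDiffAt)
  have s2 : ContDiffAt ℝ ∞ (fun q : ℝ × F => chartAt F x (P q.1 ((chartAt F x).symm q.2)))
      (0, chartAt F x x) := by
    refine contMDiffAt_iff_contDiffAt.1 (ContMDiffAt.comp (g := chartAt F x) _
      (chart_smooth x (by simpa only [hl, h0] using hx))
      (ContMDiffAt.comp (g := fun q : ℝ × W => P q.1 q.2) _ ?_ s1))
    simpa only [hl] using h.smooth.self_of_nhds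
  have hv' : ∀ᶠ z in 𝓝 ((chartAt F x).symm (chartAt F x x)), HasDerivAt
      (fun t => chartAt F x (P t z)) (dif F F (chartAt F x) z (Y z)) 0 := by
    rw [hl]
    exact hv
  have s3 := slie_mixed s2 (X := chartField Y x) (cs.continuousAt.eventually hv') u
  refine s3.congr_of_eventuallyEq ?_
  filter_upwards [a1, c1.eventually h.smooth] with t t1 t2
  have d1 := (mflowb_slice t2).mdifferentiableAt (by simp)
  have d2 := (chart_smooth x t1).mdifferentiableAt (by simp)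
  rw [← dif_fderiv, dif_comp (g := fun z => chartAt F x (P t z)) (f := (chartAt F x).symm)
    (by rw [hl]; exact d2.comp x d1) (cs.mdifferentiableAt (by simp)), hl, dif_comp d2 d1]
  simp only [ContinuousLinearMap.comp_apply, dif_chart_symm_self]

/-- The Lie derivative of a field of bilinear forms. -/
noncomputable def lie (σ : W → F →L[ℝ] F →L[ℝ] ℝ) (Y : W → F) (x : W) (u v : F) : ℝ :=
  fderiv ℝ (chartForm σ x) (chartAt F x x) (Y x) u v +
    σ x (fderiv ℝ (chartField Y x) (chartAt F x x) u) v +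
    σ x u (fderiv ℝ (chartField Y x) (chartAt F x x) v)

theorem Fam.lie {P : ℝ → W → W} {Y : W → F} {x : W} (h : Fam P Y x)
    {σ : W → F →L[ℝ] F →L[ℝ] ℝ} (hσ : ContDiffAt ℝ ∞ (chartForm σ x) (chartAt F x x)) (u v : F) :
    HasDerivAt (fun t => σ (P t x) (dif F F (P t) x u) (dif F F (P t) x v)) (lie σ Y x u v) 0 := by
  obtain ⟨h1, h2, h3⟩ := h.chart
  have h0 := h.zero.self_of_nhds
  have d1 : HasFDerivAt (chartForm σ x) (fderiv ℝ (chartForm σ x) (chartAt F x x))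
      (chartAt F x (P 0 x)) := by
    rw [h0]
    exact (hσ.differentiableAt (by simp)).hasFDerivAt
  have d0 : HasDerivAt (fun t => chartForm σ x (chartAt F x (P t x)))
      (fderiv ℝ (chartForm σ x) (chartAt F x x) (Y x)) 0 :=
    HasFDerivAt.comp_hasDerivAt (l := chartForm σ x) (f := fun t => chartAt F x (P t x)) 0 d1 h2
  have d2 := (d0.clm_apply (h3 u).2).clm_apply (h3 v).2
  refine (d2.congr_of_eventuallyEq ?_).congr_deriv ?_
  · filter_upwards [h1] with t ht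
    exact (chartForm_apply σ x ht _ _).symm
  · rw [(h3 u).1, (h3 v).1, h0, chartForm_self]
    rfl

theorem chartOne_apply (α : W → F →L[ℝ] ℝ) (p : W) {q : W} (hq : q ∈ (chartAt F p).source)
    (u : F) : chartOne α p (chartAt F p q) (dif F F (chartAt F p) q u) = α q u := by
  simp only [chartOne, ContinuousLinearMap.comp_apply, dif_symm_chart p hq,
    (chartAt F p).left_inv hq]

theorem chartOne_self (α : W → F →L[ℝ] ℝ) (p : W) : chartOne α p (chartAt F p p) = α p := by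
  ext u
  have := chartOne_apply α p (mem_chart_source F p) u
  rwa [dif_chart_self] at this

theorem Fam.lie_one {P : ℝ → W → W} {Y : W → F} {x : W} (h : Fam P Y x)
    {α : W → F →L[ℝ] ℝ} (hα : ContDiffAt ℝ ∞ (chartOne α x) (chartAt F x x)) (u : F) :
    HasDerivAt (fun t => α (P t x) (dif F F (P t) x u))
      (fderiv ℝ (chartOne α x) (chartAt F x x) (Y x) u +
        α x (fderiv ℝ (chartField Y x) (chartAt F x x) u)) 0 := by
  obtain ⟨h1, h2, h3⟩ := h.chart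
  have h0 := h.zero.self_of_nhds
  have d1 : HasFDerivAt (chartOne α x) (fderiv ℝ (chartOne α x) (chartAt F x x))
      (chartAt F x (P 0 x)) := by
    rw [h0]
    exact (hα.differentiableAt (by simp)).hasFDerivAt
  have d0 : HasDerivAt (fun t => chartOne α x (chartAt F x (P t x)))
      (fderiv ℝ (chartOne α x) (chartAt F x x) (Y x)) 0 :=
    HasFDerivAt.comp_hasDerivAt (l := chartOne α x) (f := fun t => chartAt F x (P t x)) 0 d1 h2
  have d2 := d0.clm_apply (h3 u).2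
  refine (d2.congr_of_eventuallyEq ?_).congr_deriv ?_
  · filter_upwards [h1] with t ht
    exact (chartOne_apply α x ht _).symm
  · rw [(h3 u).1, h0, chartOne_self]

theorem IsFlow.fam {P : ℝ → W → W} {Y : W → F} (h : IsFlow Y P) (x : W) : Fam P Y x :=
  ⟨.of_forall h.smooth, .of_forall h.zero, .of_forall fun z => by
    have := h.curve z 0
    simpa only [h.zero] using this⟩

end Pool.Agent.P.MP_49bf82_gt
end

-- part Pool.Agent.P.MP_49bf82_gt.SForm
section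

open Manifold Set Filter Topology
open scoped ContDiff

namespace Pool.Agent.P.MP_49bf82_gt

open Pool.Agent.P.MP_e3ee0c_gt

variable {F : Type*} [NormedAddCommGroup F] [NormedSpace ℝ F]
  {W : Type*} [TopologicalSpace W] [ChartedSpace F W] [IsManifold 𝓘(ℝ, F) ∞ W]
  {α β : W → F →L[ℝ] ℝ} {x : W} {c g : W → ℝ} {Y : W → F} {σ : W → F →L[ℝ] F →L[ℝ] ℝ}

/-- A 1-form that is smooth at x. -/
def Sm (α : W → F →L[ℝ] ℝ) (x : W) : Prop := ContDiffAt ℝ ∞ (chartOne α x) (chartAt F x x)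

theorem sform_ev {p : W → Prop} (h : ∀ᶠ z in 𝓝 x, p z) :
    ∀ᶠ z in 𝓝 (chartAt F x x), p ((chartAt F x).symm z) := by
  refine (chart_symm_smooth x (mem_chart_target F x)).continuousAt.eventually ?_
  rwa [(chartAt F x).left_inv (mem_chart_source F x)]

theorem chartOne_congr (h : α =ᶠ[𝓝 x] β) : chartOne α x =ᶠ[𝓝 (chartAt F x x)] chartOne β x := by
  filter_upwards [sform_ev (F := F) h] with z hz
  simp only [chartOne, hz]

theorem Sm.congr (hβ : Sm β x) (h : α =ᶠ[𝓝 x] β) : Sm α x :=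
  ContDiffAt.congr_of_eventuallyEq hβ (chartOne_congr h)

theorem extD_congr (h : α =ᶠ[𝓝 x] β) (u v : F) : extD α x u v = extD β x u v := by
  simp only [extD, (chartOne_congr h).fderiv_eq]

omit [IsManifold 𝓘(ℝ, F) ∞ W] in
theorem Sm.add (hα : Sm α x) (hβ : Sm β x) : Sm (fun z => α z + β z) x ∧
    ∀ u v, extD (fun z => α z + β z) x u v = extD α x u v + extD β x u v := by
  have e : chartOne (fun z => α z + β z) x = fun z => chartOne α x z + chartOne β x z := by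
    funext z
    simp only [chartOne, ContinuousLinearMap.add_comp]
  refine ⟨by unfold Sm; rw [e]; exact ContDiffAt.add hα hβ, fun u v => ?_⟩
  simp only [extD, e]
  rw [fderiv_fun_add (hα.differentiableAt (by simp)) (hβ.differentiableAt (by simp))]
  simp only [add_apply]
  ring

theorem sform_fun {G : Type*} [NormedAddCommGroup G] [NormedSpace ℝ G] {g : W → G}
    (hg : ContMDiffAt 𝓘(ℝ, F) 𝓘(ℝ, G) ∞ g x) :
    ContDiffAt ℝ ∞ (fun z => g ((chartAt F x).symm z)) (chartAt F x x) ∧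
      fderiv ℝ (fun z => g ((chartAt F x).symm z)) (chartAt F x x) = dif F G g x := by
  have hl := (chartAt F x).left_inv (mem_chart_source F x)
  have cs := chart_symm_smooth x (mem_chart_target F x)
  have hg' : ContMDiffAt 𝓘(ℝ, F) 𝓘(ℝ, G) ∞ g ((chartAt F x).symm (chartAt F x x)) := by rwa [hl]
  refine ⟨contMDiffAt_iff_contDiffAt.1 (hg'.comp _ cs), ?_⟩
  rw [← dif_fderiv, dif_comp (hg'.mdifferentiableAt (by simp)) (cs.mdifferentiableAt (by simp)), hl]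
  ext v
  rw [ContinuousLinearMap.comp_apply, dif_chart_symm_self]

theorem Sm.smul (hα : Sm α x) (hc : ContMDiffAt 𝓘(ℝ, F) 𝓘(ℝ, ℝ) ∞ c x) :
    Sm (fun z => c z • α z) x ∧ ∀ u v, extD (fun z => c z • α z) x u v =
      c x * extD α x u v + (dif F ℝ c x u * α x v - dif F ℝ c x v * α x u) := by
  have e : chartOne (fun z => c z • α z) x =
      fun z => c ((chartAt F x).symm z) • chartOne α x z := by
    funext z
    simp only [chartOne, ContinuousLinearMap.smul_comp]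
  obtain ⟨h1, h2⟩ := sform_fun hc
  refine ⟨by unfold Sm; rw [e]; exact h1.smul hα, fun u v => ?_⟩
  simp only [extD, e]
  rw [fderiv_fun_smul (h1.differentiableAt (by simp)) (hα.differentiableAt (by simp)), h2,
    (chartAt F x).left_inv (mem_chart_source F x), chartOne_self]
  simp only [add_apply, smul_apply,
    ContinuousLinearMap.smulRight_apply, smul_eq_mul]
  ring

theorem sm_dif (hg : ContMDiffAt 𝓘(ℝ, F) 𝓘(ℝ, ℝ) ∞ g x) :
    Sm (dif F ℝ g) x ∧ ∀ u v, extD (dif F ℝ g) x u v = 0 := by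
  obtain ⟨h1, -⟩ := sform_fun hg
  have h2 : ∀ᶠ z in 𝓝 x, ContMDiffAt 𝓘(ℝ, F) 𝓘(ℝ, ℝ) 1 g z :=
    (contMDiffAt_iff_contMDiffAt_nhds (by simp)).1 (hg.of_le (by simp))
  have e : chartOne (dif F ℝ g) x =ᶠ[𝓝 (chartAt F x x)]
      fderiv ℝ (fun z => g ((chartAt F x).symm z)) := by
    filter_upwards [sform_ev (F := F) h2,
      (chartAt F x).open_target.mem_nhds (mem_chart_target F x)] with z hz hz'
    rw [← dif_fderiv, dif_comp (hz.mdifferentiableAt (by simp))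
      ((chart_symm_smooth x hz').mdifferentiableAt (by simp))]
    rfl
  refine ⟨(h1.fderiv_right (by simp)).congr_of_eventuallyEq e, fun u v => ?_⟩
  have hs := h1.isSymmSndFDerivAt (by rw [minSmoothness_of_isRCLikeNormedField]; norm_cast)
  simp only [extD, e.fderiv_eq]
  exact sub_eq_zero.2 (hs u v)

variable [FiniteDimensional ℝ F]

theorem Sm.apply (hα : Sm α x) (hY : VFAt Y x) :
    ContMDiffAt 𝓘(ℝ, F) 𝓘(ℝ, ℝ) ∞ (fun z => α z (Y z)) x ∧ ∀ u,
      fderiv ℝ (chartOne α x) (chartAt F x x) (Y x) u +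
        α x (fderiv ℝ (chartField Y x) (chartAt F x x) u) =
      extD α x (Y x) u + dif F ℝ (fun z => α z (Y z)) x u := by
  have hx := mem_chart_source F x
  have h1 := (vfAt_iff_chart x hx).1 hY
  have h2 : ContDiffAt ℝ ∞ (fun z => chartOne α x z (chartField Y x z)) (chartAt F x x) :=
    ContDiffAt.clm_apply hα h1
  have e : (fun z => α z (Y z)) =ᶠ[𝓝 x]
      fun z => chartOne α x (chartAt F x z) (chartField Y x (chartAt F x z)) := by
    filter_upwards [(chartAt F x).open_source.mem_nhds hx] with z hz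
    rw [chartField_apply Y x hz, chartOne_apply α x hz]
  refine ⟨(ContMDiffAt.comp (g := fun z => chartOne α x z (chartField Y x z)) x
    (contMDiffAt_iff_contDiffAt.2 h2) (chart_smooth x hx)).congr_of_eventuallyEq e, fun u => ?_⟩
  rw [dif_congr e, dif_comp (g := fun z => chartOne α x z (chartField Y x z))
    (h2.differentiableAt (by simp)).mdifferentiableAt
    ((chart_smooth x hx).mdifferentiableAt (by simp)), dif_chart_self, dif_fderiv,
    ((hα.differentiableAt (by simp)).hasFDerivAt.clm_apply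
      (h1.differentiableAt (by simp)).hasFDerivAt).fderiv]
  simp [extD, chartOne_self, chartField_self]

theorem sm_contract (hσ : IsSymplectic σ) (hY : VFAt Y x) :
    Sm (fun z => σ z (Y z)) x ∧ ∀ u v, lie σ Y x u v = extD (fun z => σ z (Y z)) x u v := by
  have hx := mem_chart_source F x
  have h1 := (vfAt_iff_chart x hx).1 hY
  have hs := hσ.smooth x
  have e : chartOne (fun z => σ z (Y z)) x =ᶠ[𝓝 (chartAt F x x)]
      fun z => chartForm σ x z (chartField Y x z) := by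
    filter_upwards [(chartAt F x).open_target.mem_nhds (mem_chart_target F x)] with z hz
    ext v
    have := dif_symm_chart x ((chartAt F x).map_target hz) (Y ((chartAt F x).symm z))
    rw [(chartAt F x).right_inv hz] at this
    simp only [chartOne, chartForm, chartField, ContinuousLinearMap.comp_apply,
      ContinuousLinearMap.bilinearComp_apply, this]
  refine ⟨(hs.clm_apply h1).congr_of_eventuallyEq e, fun u v => ?_⟩
  have d1 := hs.differentiableAt (by simp)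
  have skew : ∀ w a b, fderiv ℝ (chartForm σ x) (chartAt F x x) w a b =
      -fderiv ℝ (chartForm σ x) (chartAt F x x) w b a := by
    intro w a b
    have k1 := (d1.hasFDerivAt.clm_apply (hasFDerivAt_const a _)).clm_apply
      (hasFDerivAt_const b _)
    have k2 := ((d1.hasFDerivAt.clm_apply (hasFDerivAt_const b _)).clm_apply
      (hasFDerivAt_const a _)).neg
    have k3 : (fun z => chartForm σ x z a b) = -fun z => chartForm σ x z b a := by
      funext z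
      simp only [chartForm, ContinuousLinearMap.bilinearComp_apply, Pi.neg_apply]
      exact hσ.skew _ _ _
    rw [k3] at k1
    have := congrArg (fun L : F →L[ℝ] ℝ => L w) (k1.unique k2)
    simpa using this
  simp only [extD, e.fderiv_eq, lie]
  rw [(d1.hasFDerivAt.clm_apply (h1.differentiableAt (by simp)).hasFDerivAt).fderiv]
  have c := hσ.closed x (Y x) u v
  have s1 := skew u v (Y x)
  have s2 := hσ.skew x (fderiv ℝ (chartField Y x) (chartAt F x x) v) u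
  simp only [add_apply, ContinuousLinearMap.comp_apply,
    ContinuousLinearMap.flip_apply, chartForm_self, chartField_self]
  linarith

/-- The vector field dual to a 1-form. -/
noncomputable def dual (σ : W → F →L[ℝ] F →L[ℝ] ℝ) (α : W → F →L[ℝ] ℝ) (x : W) : F :=
  (σ x).inverse (α x)

omit [IsManifold 𝓘(ℝ, F) ∞ W] in
theorem sform_inv (hσ : IsSymplectic σ) (x : W) : (σ x).IsInvertible := by
  have hi : Function.Injective (σ x : F →ₗ[ℝ] F →L[ℝ] ℝ) :=
    (injective_iff_map_eq_zero _).2 fun u hu => hσ.nondeg x u fun v =>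
      congrArg (fun L : F →L[ℝ] ℝ => L v) hu
  have hr : Module.finrank ℝ F = Module.finrank ℝ (F →L[ℝ] ℝ) := by
    rw [← (LinearMap.toContinuousLinearMap (𝕜 := ℝ) (E := F) (F' := ℝ)).finrank_eq]
    exact Subspace.dual_finrank_eq.symm
  exact ⟨(LinearEquiv.ofBijective _
    ⟨hi, (LinearMap.injective_iff_surjective_of_finrank_eq_finrank hr).1 hi⟩).toContinuousLinearEquiv,
    by ext u v; rfl⟩

omit [IsManifold 𝓘(ℝ, F) ∞ W] in
theorem dual_spec (hσ : IsSymplectic σ) (α : W → F →L[ℝ] ℝ) (x : W) : σ x (dual σ α x) = α x :=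
  (sform_inv hσ x).self_apply_inverse _

omit [IsManifold 𝓘(ℝ, F) ∞ W] [FiniteDimensional ℝ F] in
theorem sigma_ext (hσ : IsSymplectic σ) {u v : F} (h : ∀ w, σ x u w = σ x v w) : u = v :=
  sub_eq_zero.1 (hσ.nondeg x _ fun w => by
    rw [map_sub, sub_apply, h, sub_self])

theorem Sm.dual (hσ : IsSymplectic σ) (hα : Sm α x) : VFAt (dual σ α) x := by
  have : CompleteSpace F := FiniteDimensional.complete ℝ F
  have hx := mem_chart_source F x
  have h0 : (chartForm σ x (chartAt F x x)).IsInvertible := by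
    rw [chartForm_self]
    exact sform_inv hσ x
  rw [vfAt_iff_chart x hx]
  refine ((ContDiffAt.comp (g := ContinuousLinearMap.inverse) (chartAt F x x)
    h0.contDiffAt_map_inverse (hσ.smooth x)).clm_apply hα).congr_of_eventuallyEq ?_
  obtain ⟨e, he⟩ := h0
  have h2 := (hσ.smooth x).continuousAt.eventually_mem (he ▸ e.nhds)
  filter_upwards [h2, (chartAt F x).open_target.mem_nhds (mem_chart_target F x)] with z h3 hz
  have h4 : (chartForm σ x z).IsInvertible := h3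
  refine (h4.inverse_apply_eq.2 ?_).symm
  ext v
  have := dif_symm_chart x ((chartAt F x).map_target hz)
    (MP_49bf82_gt.dual σ α ((chartAt F x).symm z))
  rw [(chartAt F x).right_inv hz] at this
  simp only [chartOne, chartForm, chartField, ContinuousLinearMap.comp_apply,
    ContinuousLinearMap.bilinearComp_apply, this, dual_spec hσ]

end Pool.Agent.P.MP_49bf82_gt
end

-- part Pool.Agent.P.MP_49bf82_gt.Height
section

open Manifold Set Filter Topology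
open scoped ContDiff RealInnerProductSpace

namespace Pool.Agent.P.MP_49bf82_gt

open Pool.Agent.P.MP_e3ee0c_gt

variable {E F : Type*} [NormedAddCommGroup E] [NormedSpace ℝ E] [FiniteDimensional ℝ E]
  [NormedAddCommGroup F] [NormedSpace ℝ F] [FiniteDimensional ℝ F]
  {V W : Type*} [TopologicalSpace V] [ChartedSpace E V] [IsManifold 𝓘(ℝ, E) ∞ V]
  [TopologicalSpace W] [ChartedSpace F W] [IsManifold 𝓘(ℝ, F) ∞ W]
  {Φ : V → ℂ} {ι : ℝ × V × R2 → W} {φ : R2 → W → W} {m : W → ℂ} {h : W → ℝ}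
  {f : ℝ → V → V} {a : ℝ × V → ℝ} {σ : W → F →L[ℝ] F →L[ℝ] ℝ}

omit [FiniteDimensional ℝ E] [FiniteDimensional ℝ F] [IsManifold 𝓘(ℝ, E) ∞ V]
  [IsManifold 𝓘(ℝ, F) ∞ W] in
theorem height_near (he : IsEnd E F ι φ) {c : ℝ} {y : ℝ × V × R2} (hy : 0 < y.1) (hc : c < y.1) :
    ∀ᶠ x in 𝓝 (ι y), c < ((he.localDiffeo y hy).localInverse x).1 ∧
      ι ((he.localDiffeo y hy).localInverse x) = x := by
  have hf := he.localDiffeo y hy
  have h1 : ContinuousAt (he.localDiffeo y hy).localInverse (ι y) :=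
    (he.localDiffeo y hy).localInverse_contMDiffAt.continuousAt
  have h2 : (he.localDiffeo y hy).localInverse (ι y) = y :=
    (he.localDiffeo y hy).localInverse_left_inv (he.localDiffeo y hy).localInverse_mem_target
  have h3 : ∀ᶠ z in 𝓝 ((he.localDiffeo y hy).localInverse (ι y)), c < z.1 := by
    rw [h2]
    exact (isOpen_lt continuous_const continuous_fst).mem_nhds hc
  exact (h1.eventually h3).and (he.localDiffeo y hy).localInverse_eventuallyEq_right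

theorem IsEnd.isOpen (he : IsEnd E F ι φ) {c : ℝ} (hc : 0 ≤ c) : IsOpen (ι '' {y | c < y.1}) := by
  rw [isOpen_iff_mem_nhds]
  rintro _ ⟨y, hy, rfl⟩
  filter_upwards [height_near he (hc.trans_lt hy) hy] with x hx
  exact ⟨_, hx.1, hx.2⟩

theorem IsEnd.periodic (he : IsEnd E F ι φ) (hφ : IsAction F φ) {s : ℝ} (hs : 0 < s) (v : V)
    (u : R2) (k : Fin 2 → ℤ) : ι (s, v, u + rv k) = ι (s, v, u) := by
  rw [← he.equivariant s v u (rv k) hs]
  exact hφ.periodic k _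

/-- Periodic maps on the product descend to the end. -/
theorem IsEnd.descend (he : IsEnd E F ι φ) {E₀ H₀ N : Type*} [NormedAddCommGroup E₀]
    [NormedSpace ℝ E₀] [TopologicalSpace H₀] {J : ModelWithCorners ℝ E₀ H₀} [TopologicalSpace N]
    [ChartedSpace H₀ N] {g : ℝ × V × R2 → N}
    (hg : ∀ y : ℝ × V × R2, 0 < y.1 → ContMDiffAt (I3 E) J ∞ g y)
    (hp : ∀ s v u (k : Fin 2 → ℤ), 0 < s → g (s, v, u + rv k) = g (s, v, u)) (n₀ : N) :
    ∃ g' : W → N, (∀ y : ℝ × V × R2, 0 < y.1 → g' (ι y) = g y ∧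
      ContMDiffAt 𝓘(ℝ, F) J ∞ g' (ι y)) ∧ ∀ x ∉ ι '' {y | 0 < y.1}, g' x = n₀ := by
  classical
  let g' : W → N := fun x => if hx : x ∈ ι '' {y | 0 < y.1} then g hx.choose else n₀
  have h1 : ∀ y : ℝ × V × R2, 0 < y.1 → g' (ι y) = g y := by
    intro y hy
    have hx : ι y ∈ ι '' {y | 0 < y.1} := ⟨y, hy, rfl⟩
    have h2 : g' (ι y) = g hx.choose := dif_pos hx
    obtain ⟨h3, h4⟩ := hx.choose_spec
    obtain ⟨e1, e2, k, e3⟩ := he.inj _ y h3 hy h4
    have h5 : hx.choose = (y.1, y.2.1, y.2.2 + rv k) := Prod.ext e1 (Prod.ext e2 e3)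
    rw [h2, h5, hp _ _ _ k hy]
  refine ⟨g', fun y hy => ⟨h1 y hy, ?_⟩, fun x hx => dif_neg hx⟩
  have h2 : (he.localDiffeo y hy).localInverse (ι y) = y :=
    (he.localDiffeo y hy).localInverse_left_inv (he.localDiffeo y hy).localInverse_mem_target
  have h3 : ContMDiffAt 𝓘(ℝ, F) J ∞ (g ∘ (he.localDiffeo y hy).localInverse) (ι y) :=
    ContMDiffAt.comp (ι y) (by rw [h2]; exact hg y hy)
      (he.localDiffeo y hy).localInverse_contMDiffAt
  refine h3.congr_of_eventuallyEq ?_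
  filter_upwards [height_near he hy hy] with x hx
  have := h1 _ hx.1
  rw [hx.2] at this
  exact this

theorem IsEnd.exists_height (he : IsEnd E F ι φ) (hφ : IsAction F φ) :
    ∃ h : W → ℝ, IsHeight F ι φ h := by
  have hg : ContMDiff (I3 E) 𝓘(ℝ, ℝ) ∞
      (fun y : ℝ × V × R2 => y.1 * Real.smoothTransition (y.1 - 1)) := by
    have h1 : ContDiff ℝ ∞ (fun s : ℝ => s * Real.smoothTransition (s - 1)) :=
      contDiff_id.mul (Real.smoothTransition.contDiff.comp (contDiff_id.sub contDiff_const))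
    exact h1.contMDiff.comp contMDiff_fst
  obtain ⟨h, h1, h2⟩ := he.descend (fun y _ => hg y) (fun _ _ _ _ _ => rfl) (0 : ℝ)
  have hsm : ContMDiff 𝓘(ℝ, F) 𝓘(ℝ, ℝ) ∞ h := by
    intro x
    by_cases hx : x ∈ ι '' {y | 0 < y.1}
    · obtain ⟨y, hy, rfl⟩ := hx
      exact (h1 y hy).2
    · have hx' : x ∉ ι '' {y | 1 ≤ y.1} := fun ⟨y, hy, e⟩ =>
        hx ⟨y, lt_of_lt_of_le one_pos (show (1 : ℝ) ≤ y.1 from hy), e⟩
      refine (contMDiffAt_const (c := (0 : ℝ))).congr_of_eventuallyEq ?_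
      filter_upwards [(he.closed 1 one_pos).isOpen_compl.mem_nhds hx'] with z hz
      by_cases hz' : z ∈ ι '' {y | 0 < y.1}
      · obtain ⟨y, hy, rfl⟩ := hz'
        have hlt : y.1 < 1 := not_le.1 fun h' => hz ⟨y, h', rfl⟩
        rw [(h1 y hy).1, Real.smoothTransition.zero_of_nonpos (by linarith), mul_zero]
      · exact h2 z hz'
  have hon : ∀ y : ℝ × V × R2, 2 ≤ y.1 → h (ι y) = y.1 := fun y hy => by
    rw [(h1 y (by linarith)).1, Real.smoothTransition.one_of_one_le (by linarith), mul_one]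
  refine ⟨h, hsm, fun t x => ?_, hon, fun x hx => ?_, fun c => ?_⟩
  · by_cases hx : x ∈ ι '' {y | 0 < y.1}
    · obtain ⟨⟨s, v, u⟩, hy, rfl⟩ := hx
      rw [he.equivariant s v u t hy, (h1 (s, v, u + t) hy).1, (h1 (s, v, u) hy).1]
    · rw [h2 x hx, h2]
      rintro ⟨⟨s, v, u⟩, hy, e⟩
      refine hx ⟨(s, v, u + -t), hy, ?_⟩
      rw [← he.equivariant s v u (-t) hy, e, ← hφ.add, neg_add_cancel, hφ.zero]
  · by_cases hx' : x ∈ ι '' {y | 0 < y.1}
    · obtain ⟨y, hy, rfl⟩ := hx'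
      refine ⟨y, ?_, rfl⟩
      rw [(h1 y hy).1] at hx
      have h3 := Real.smoothTransition.le_one (y.1 - 1)
      have hy' : 0 < y.1 := hy
      nlinarith
    · rw [h2 x hx'] at hx
      norm_num at hx
  · refine (he.compact (max c 2) (lt_of_lt_of_le two_pos (le_max_right _ _))).of_isClosed_subset
      (isClosed_le hsm.continuous continuous_const) ?_
    rintro x hx ⟨y, hy, rfl⟩
    have hy' : max c 2 < y.1 := hy
    have hx' : h (ι y) ≤ c := hx
    rw [hon y ((le_max_right _ _).trans hy'.le)] at hx'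
    exact absurd ((le_max_left _ _).trans_lt hy') (not_lt.2 hx')

end Pool.Agent.P.MP_49bf82_gt
end

-- part Pool.Agent.P.MP_49bf82_gt.EndD
section

open Manifold Set Filter Topology
open scoped ContDiff RealInnerProductSpace

namespace Pool.Agent.P.MP_49bf82_gt

open Pool.Agent.P.MP_e3ee0c_gt

variable {E F : Type*} [NormedAddCommGroup E] [NormedSpace ℝ E] [FiniteDimensional ℝ E]
  [NormedAddCommGroup F] [NormedSpace ℝ F] [FiniteDimensional ℝ F]
  {V W : Type*} [TopologicalSpace V] [ChartedSpace E V] [IsManifold 𝓘(ℝ, E) ∞ V]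
  [TopologicalSpace W] [ChartedSpace F W] [IsManifold 𝓘(ℝ, F) ∞ W]
  {Φ : V → ℂ} {ι : ℝ × V × R2 → W} {φ : R2 → W → W} {m : W → ℂ} {h : W → ℝ}
  {f : ℝ → V → V} {a : ℝ × V → ℝ} {σ : W → F →L[ℝ] F →L[ℝ] ℝ}

theorem IsEnd.bijective (he : IsEnd E F ι φ) {y : ℝ × V × R2} (hy : 0 < y.1) :
    Function.Bijective (dEnd E F ι y) :=
  ((he.localDiffeo y hy).mfderivToContinuousLinearEquiv (by simp)).bijective

theorem endd_mdiff (he : IsEnd E F ι φ) {y : ℝ × V × R2} (hy : 0 < y.1) :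
    MDifferentiableAt (I3 E) 𝓘(ℝ, F) ι y :=
  (he.localDiffeo y hy).mdifferentiableAt (by simp)

theorem IsEnd.gen_eq (he : IsEnd E F ι φ) {y : ℝ × V × R2} (hy : 0 < y.1) (ξ : R2) :
    gen F φ ξ (ι y) = dEnd E F ι y (0, 0, ξ) := by
  obtain ⟨s, v, u⟩ := y
  have h1 : ∀ z, z = (s, v, u) → HasMFDerivAt (I3 E) 𝓘(ℝ, F) ι z (dEnd E F ι (s, v, u)) := by
    rintro _ rfl
    exact (endd_mdiff he hy).hasMFDerivAt
  have h2 : HasMFDerivAt 𝓘(ℝ, R2) 𝓘(ℝ, R2) (fun t : R2 => u + t) 0 (ContinuousLinearMap.id ℝ R2) :=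
    ((hasFDerivAt_id (0 : R2)).const_add u).hasMFDerivAt
  have h3 := (hasMFDerivAt_const (I := 𝓘(ℝ, R2)) (I' := 𝓘(ℝ, ℝ)) s (0 : R2)).prodMk
    ((hasMFDerivAt_const (I := 𝓘(ℝ, R2)) (I' := 𝓘(ℝ, E)) v (0 : R2)).prodMk h2)
  have h4 := (HasMFDerivAt.comp (0 : R2) (h1 _ (by simp)) h3).mfderiv
  rw [gen, funext fun t => he.equivariant s v u t hy]
  exact congrArg (fun L : R2 →L[ℝ] F => L ξ) h4

/-- Chain rule through the end. -/
theorem IsEnd.dif_dEnd (he : IsEnd E F ι φ) {G : Type*} [NormedAddCommGroup G] [NormedSpace ℝ G]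
    {g : W → G} {y : ℝ × V × R2} (hy : 0 < y.1)
    (hg : MDifferentiableAt 𝓘(ℝ, F) 𝓘(ℝ, G) g (ι y)) (b : ℝ × E × R2) :
    dif F G g (ι y) (dEnd E F ι y b) = mfderiv (I3 E) 𝓘(ℝ, G) (fun z => g (ι z)) y b :=
  (congrArg (fun L : (ℝ × E × R2) →L[ℝ] G => L b) (mfderiv_comp y hg (endd_mdiff he hy))).symm

theorem hasMFDerivAt_expPhi (hΦ : ContMDiff 𝓘(ℝ, E) 𝓘(ℝ, ℂ) ∞ Φ) (y : ℝ × V × R2) :
    MDifferentiableAt (I3 E) 𝓘(ℝ, ℂ) (fun z : ℝ × V × R2 => (Real.exp z.1 : ℂ) * Φ z.2.1) y ∧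
    ∀ b : ℝ × E × R2, mfderiv (I3 E) 𝓘(ℝ, ℂ) (fun z : ℝ × V × R2 => (Real.exp z.1 : ℂ) * Φ z.2.1)
      y b = (Real.exp y.1 : ℂ) * ((b.1 : ℂ) * Φ y.2.1 + dif E ℂ Φ y.2.1 b.2.1) := by
  have h1 := HasMFDerivAt.comp y
    (Real.hasDerivAt_exp y.1).ofReal_comp.hasFDerivAt.hasMFDerivAt
    (hasMFDerivAt_fst (I := 𝓘(ℝ, ℝ)) (I' := 𝓘(ℝ, E).prod 𝓘(ℝ, R2)) y)
  have h2 := HasMFDerivAt.comp y (hasMF_dif (hΦ.mdifferentiableAt (x := y.2.1) (by simp)))
    (HasMFDerivAt.comp y (hasMFDerivAt_fst (I := 𝓘(ℝ, E)) (I' := 𝓘(ℝ, R2)) y.2)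
      (hasMFDerivAt_snd (I := 𝓘(ℝ, ℝ)) (I' := 𝓘(ℝ, E).prod 𝓘(ℝ, R2)) y))
  have h3 := h1.mul' h2
  refine ⟨h3.mdifferentiableAt, fun b => ?_⟩
  refine (congrArg (fun L : (ℝ × E × R2) →L[ℝ] ℂ => L b) h3.mfderiv).trans ?_
  show (Real.exp y.1 : ℂ) * dif E ℂ Φ y.2.1 b.2.1 + (b.1 • (Real.exp y.1 : ℂ)) * Φ y.2.1 = _
  rw [Complex.real_smul]
  ring

theorem endd_pos {c : ℝ} {y : ℝ × V × R2} (hy : c < y.1) : ∀ᶠ z : ℝ × V × R2 in 𝓝 y, c < z.1 :=
  (isOpen_lt continuous_const continuous_fst).mem_nhds hy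

theorem Core.dif_m (hc : Core E F Φ ι φ m) {y : ℝ × V × R2} (hy : 0 < y.1) (b : ℝ × E × R2) :
    dif F ℂ m (ι y) (dEnd E F ι y b) =
      (Real.exp y.1 : ℂ) * ((b.1 : ℂ) * Φ y.2.1 + dif E ℂ Φ y.2.1 b.2.1) := by
  rw [hc.isEnd.dif_dEnd hy (hc.smooth.mdifferentiableAt (by simp)),
    ← (hasMFDerivAt_expPhi hc.smoothV y).2 b]
  exact congrArg (fun L : (ℝ × E × R2) →L[ℝ] ℂ => L b)
    (Filter.EventuallyEq.mfderiv_eq ((endd_pos hy).mono hc.onEnd))

theorem IsHeight.dif_h (hh : IsHeight F ι φ h) (he : IsEnd E F ι φ) {y : ℝ × V × R2}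
    (hy : 2 < y.1) (b : ℝ × E × R2) : dif F ℝ h (ι y) (dEnd E F ι y b) = b.1 := by
  rw [he.dif_dEnd (by linarith) (hh.smooth.mdifferentiableAt (by simp))]
  have h1 := (hasMFDerivAt_fst (I := 𝓘(ℝ, ℝ)) (I' := 𝓘(ℝ, E).prod 𝓘(ℝ, R2)) y).congr_of_eventuallyEq
    (f₁ := fun z => h (ι z)) ((endd_pos hy).mono fun z hz => hh.onEnd z hz.le)
  exact congrArg (fun L : (ℝ × E × R2) →L[ℝ] ℝ => L b) h1.mfderiv

theorem Core.dense_ne (hc : Core E F Φ ι φ m)
    (hs : ∀ y : ℝ × V × R2, 0 < y.1 → Function.Surjective (dif F ℂ m (ι y))) :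
    Dense {v | Φ v ≠ 0} := by
  intro v
  by_contra hv
  have h1 : Φ =ᶠ[𝓝 v] fun _ => 0 := by
    filter_upwards [isClosed_closure.isOpen_compl.mem_nhds hv] with w hw
    by_contra c
    exact hw (subset_closure c)
  have h2 : dif E ℂ Φ v = 0 := (dif_congr h1).trans mfderiv_const
  obtain ⟨w, hw⟩ := hs (1, v, 0) one_pos 1
  obtain ⟨b, rfl⟩ := (hc.isEnd.bijective (y := (1, v, 0)) one_pos).2 w
  rw [hc.dif_m one_pos] at hw
  simp [h2, h1.self_of_nhds] at hw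

theorem Ham.surjective_iff (hH : Ham σ φ m) (x : W) :
    Function.Surjective (dif F ℂ m x) ↔ ∀ ξ, gen F φ ξ x = 0 → ξ = 0 := by
  refine ⟨fun hs ξ h0 => ?_, fun h0 => ?_⟩
  · have h1 : ∀ z, pr ξ z = 0 := fun z => by
      obtain ⟨w, rfl⟩ := hs z
      rw [hH.ham, h0]
      simp
    have h2 := h1 1
    have h3 := h1 Complex.I
    ext i
    fin_cases i
    · simpa [pr_apply] using h2
    · simpa [pr_apply] using h3
  · by_contra hs
    obtain ⟨l, l0, l1⟩ := Submodule.exists_le_ker_of_lt_top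
      (LinearMap.range (dif F ℂ m x : F →ₗ[ℝ] ℂ))
      (lt_top_iff_ne_top.2 fun c => hs (LinearMap.range_eq_top.1 c))
    have h1 : ∀ z, pr ![l 1, -l Complex.I] z = l z := fun z => by
      conv_rhs => rw [← Complex.re_add_im z, ← mul_one (z.re : ℂ), ← Complex.real_smul,
        ← Complex.real_smul, map_add, map_smul, map_smul]
      simp [pr_apply, mul_comm]
    have h2 := h0 ![l 1, -l Complex.I] (hH.symplectic.nondeg x _ fun w => by
      have := hH.ham x ![l 1, -l Complex.I] w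
      rw [h1, show l (dif F ℂ m x w) = 0 from l1 ⟨w, rfl⟩] at this
      linarith)
    refine l0 (LinearMap.ext fun z => ?_)
    rw [← h1, h2]
    simp [pr_apply]

theorem Ham.surjective_end (hH : Ham σ φ m) (he : IsEnd E F ι φ) (y : ℝ × V × R2) (hy : 0 < y.1) :
    Function.Surjective (dif F ℂ m (ι y)) := by
  refine (hH.surjective_iff _).2 fun ξ h0 => ?_
  rw [he.gen_eq hy, ← map_zero (dEnd E F ι y)] at h0
  exact congrArg (fun b : ℝ × E × R2 => b.2.2) ((he.bijective hy).1 h0)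

end Pool.Agent.P.MP_49bf82_gt
end

-- part Pool.Agent.P.MP_49bf82_gt.Cocycle
section

open Manifold Set Filter Topology
open scoped ContDiff RealInnerProductSpace

namespace Pool.Agent.P.MP_49bf82_gt

open Pool.Agent.P.MP_e3ee0c_gt

variable {E F : Type*} [NormedAddCommGroup E] [NormedSpace ℝ E] [FiniteDimensional ℝ E]
  [NormedAddCommGroup F] [NormedSpace ℝ F] [FiniteDimensional ℝ F]
  {V W : Type*} [TopologicalSpace V] [ChartedSpace E V] [IsManifold 𝓘(ℝ, E) ∞ V]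
  [TopologicalSpace W] [ChartedSpace F W] [IsManifold 𝓘(ℝ, F) ∞ W]
  {Φ : V → ℂ} {ι : ℝ × V × R2 → W} {φ : R2 → W → W} {m : W → ℂ} {h : W → ℝ}
  {f : ℝ → V → V} {a : ℝ × V → ℝ} {σ : W → F →L[ℝ] F →L[ℝ] ℝ}

theorem cocycle_norm (x t : ℝ) (z : ℂ) :
    ‖Complex.exp (x + 2 * Real.pi * t * Complex.I) * z‖ = Real.exp x * ‖z‖ := by
  rw [norm_mul, Complex.norm_exp]
  simp

theorem cocycle_half (x : ℝ) :
    Complex.exp (x + 2 * Real.pi * ((1 / 2 : ℝ) : ℂ) * Complex.I) = -(Real.exp x : ℂ) := by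
  have e : (2 * Real.pi * ((1 / 2 : ℝ) : ℂ) * Complex.I : ℂ) = Real.pi * Complex.I := by
    push_cast; ring
  rw [e, Complex.exp_add, Complex.exp_pi_mul_I, Complex.ofReal_exp]
  ring

theorem cocycle_quarter (x : ℝ) :
    Complex.exp (x + 2 * Real.pi * ((1 / 4 : ℝ) : ℂ) * Complex.I) =
      (Real.exp x : ℂ) * Complex.I := by
  have e : (2 * Real.pi * ((1 / 4 : ℝ) : ℂ) * Complex.I : ℂ) = Real.pi / 2 * Complex.I := by
    push_cast; ring
  rw [e, Complex.exp_add, Complex.exp_pi_div_two_mul_I, Complex.ofReal_exp]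

theorem IsMonodromyFlow.exists_turn (hf : IsMonodromyFlow E Φ f) (hd : Dense {v | Φ v ≠ 0}) :
    ∃ a, Turn E Φ f a := by
  obtain ⟨a, ha, ht⟩ := hf.turn
  have hn : ∀ t v, ‖Φ (f t v)‖ = Real.exp (a (t, v)) * ‖Φ v‖ := fun t v => by
    rw [ht, cocycle_norm]
  have hac : Continuous a := ha.continuous
  have hfc : Continuous fun q : ℝ × V => f q.1 q.2 := hf.smooth.continuous
  have hco : ∀ s t v, a (s + t, v) = a (s, f t v) + a (t, v) := fun s t => by
    have h1 : Continuous fun v => a (s + t, v) := hac.comp (continuous_const.prodMk continuous_id)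
    have h2 : Continuous fun v => a (s, f t v) + a (t, v) :=
      (hac.comp (continuous_const.prodMk (hfc.comp (continuous_const.prodMk continuous_id)))).add
        (hac.comp (continuous_const.prodMk continuous_id))
    refine congrFun (Continuous.ext_on hd h1 h2 fun v hv => ?_)
    have h3 := hn (s + t) v
    rw [hf.add, hn, hn, ← mul_assoc, ← Real.exp_add] at h3
    exact (Real.exp_injective (mul_right_cancel₀ (norm_ne_zero_iff.2 hv) h3)).symm
  have hz : ∀ v, a (0, v) = 0 := fun v => by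
    have := hco 0 0 v
    rw [add_zero, hf.zero] at this
    linarith
  have hnear : ∀ᶠ v in 𝓝ˢ {v | Φ v = 0}, f 1 v = v ∧ a (1, v) = 0 := by
    obtain ⟨O, hO, h1, h2⟩ := mem_nhdsSet_iff_exists.1 hf.near
    refine mem_nhdsSet_iff_exists.2 ⟨O, hO, h1, fun v hv => ⟨h2 hv, ?_⟩⟩
    have hc : IsClosed {w | a (1, w) = 0} :=
      isClosed_eq (hac.comp (continuous_const.prodMk continuous_id)) continuous_const
    refine closure_minimal (fun w hw => ?_) hc (hd.open_subset_closure_inter hO hv)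
    have h3 := hn 1 w
    have h4 : f 1 w = w := h2 hw.1
    rw [h4] at h3
    have h5 : Real.exp (a (1, w)) = Real.exp 0 :=
      mul_right_cancel₀ (norm_ne_zero_iff.2 hw.2) (by rw [Real.exp_zero, one_mul]; exact h3.symm)
    exact Real.exp_injective h5
  refine ⟨a, hf, ha, ht, hco, hz, fun t v hv => ?_, hnear⟩
  let g : ℝ →+ ℝ :=
    { toFun := fun t => a (t, v)
      map_zero' := hz v
      map_add' := fun s t => by rw [hco, hf.fix t v hv] }
  have hg : Continuous g := hac.comp (continuous_id.prodMk continuous_const)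
  have h1 : g 1 = 0 := (hnear.self_of_nhdsSet v hv).2
  have h2 := map_real_smul g hg t 1
  rw [h1, smul_zero, smul_eq_mul, mul_one] at h2
  exact h2

theorem IsMonodromyFlow.exists_neg [Nonempty V] (hf : IsMonodromyFlow E Φ f)
    (hd : Dense {v | Φ v ≠ 0}) : ∃ v, pr theta (Φ v) < 0 := by
  obtain ⟨a, -, ht⟩ := hf.turn
  have key : ∀ v, pr theta (Φ v) ≠ 0 → ∃ w, pr theta (Φ w) < 0 := fun v hv => by
    rcases lt_or_gt_of_ne hv with h | h
    · exact ⟨v, h⟩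
    · refine ⟨f (1 / 2) v, ?_⟩
      rw [ht, cocycle_half, neg_mul, map_neg, ← Complex.real_smul, map_smul, smul_eq_mul]
      have := Real.exp_pos (a (1 / 2, v))
      nlinarith
  obtain ⟨v, hv⟩ := hd.nonempty
  by_cases h : pr theta (Φ v) = 0
  · refine key (f (1 / 4) v) fun h1 => hv ?_
    rw [ht, cocycle_quarter, mul_assoc, ← Complex.real_smul, map_smul, smul_eq_mul,
      mul_eq_zero] at h1
    have h2 := h1.resolve_left (Real.exp_pos _).ne'
    rw [pr_apply] at h h2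
    simp only [theta, Matrix.cons_val_zero, Matrix.cons_val_one, one_mul, Complex.mul_re,
      Complex.mul_im, Complex.I_re, Complex.I_im, zero_mul, zero_sub, zero_add] at h h2
    have h3 : √2 * √2 = 2 := Real.mul_self_sqrt (by norm_num)
    have h4 : (Φ v).re = √2 * (Φ v).im := by linarith
    have h5 : (Φ v).im = 0 := by
      rw [h4, ← mul_assoc, h3] at h2
      linarith
    exact Complex.ext (by rw [h4, h5, mul_zero]; rfl) h5
  · exact key v h

theorem Turn.ft_zero (ht : Turn E Φ f a) (y : ℝ × V × R2) : ft f a 0 y = y := by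
  simp only [ft, ht.zero, ht.flow.zero, sub_zero]

theorem Turn.ft_add (ht : Turn E Φ f a) (s t : ℝ) (y : ℝ × V × R2) :
    ft f a (s + t) y = ft f a s (ft f a t y) := by
  simp only [ft, ht.cocycle, ht.flow.add]
  congr 1
  ring

theorem Turn.ft_smooth (ht : Turn E Φ f a) :
    ContMDiff (𝓘(ℝ, ℝ).prod (I3 E)) (I3 E) ∞ (fun q : ℝ × ℝ × V × R2 => ft f a q.1 q.2) := by
  have h1 : ContMDiff (𝓘(ℝ, ℝ).prod (I3 E)) (𝓘(ℝ, ℝ).prod 𝓘(ℝ, E)) ∞
      (fun q : ℝ × ℝ × V × R2 => (q.1, q.2.2.1)) :=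
    contMDiff_fst.prodMk (contMDiff_fst.comp (contMDiff_snd.comp contMDiff_snd))
  exact ((contMDiff_fst.comp contMDiff_snd).sub (ht.smooth.comp h1)).prodMk
    ((ht.flow.smooth.comp h1).prodMk (contMDiff_snd.comp (contMDiff_snd.comp contMDiff_snd)))

theorem Turn.ft_exp (ht : Turn E Φ f a) (t : ℝ) (y : ℝ × V × R2) :
    (Real.exp (ft f a t y).1 : ℂ) * Φ (ft f a t y).2.1 =
      Complex.exp (2 * Real.pi * Complex.I * t) * (Real.exp y.1 * Φ y.2.1) := by
  simp only [ft, ht.turn]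
  rw [Complex.ofReal_exp, Complex.ofReal_exp, ← mul_assoc, ← mul_assoc, ← Complex.exp_add,
    ← Complex.exp_add]
  congr 2
  push_cast
  ring

/-- Where Φ is small the monodromy is the identity. -/
theorem Turn.exists_delta [CompactSpace V] (ht : Turn E Φ f a) (hΦ : Continuous Φ) :
    ∃ δ > 0, ∀ v, ‖Φ v‖ < δ → f 1 v = v ∧ a (1, v) = 0 := by
  obtain ⟨O, hO, h1, h2⟩ := mem_nhdsSet_iff_exists.1 ht.near
  rcases (Oᶜ).eq_empty_or_nonempty with h | h
  · refine ⟨1, one_pos, fun v _ => h2 ?_⟩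
    by_contra hv
    exact (notMem_empty v) (h ▸ hv)
  · obtain ⟨w, hw, hmin⟩ := hO.isClosed_compl.isCompact.exists_isMinOn h hΦ.norm.continuousOn
    refine ⟨‖Φ w‖, norm_pos_iff.2 fun h0 => hw (h1 h0), fun v hv => h2 ?_⟩
    by_contra hvO
    exact absurd (hmin hvO) (not_le.2 hv)

end Pool.Agent.P.MP_49bf82_gt
end

-- part Pool.Agent.P.MP_49bf82_gt.RotF
section

open Manifold Set Filter Topology
open scoped ContDiff RealInnerProductSpace

namespace Pool.Agent.P.MP_49bf82_gt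

open Pool.Agent.P.MP_e3ee0c_gt

variable {E F : Type*} [NormedAddCommGroup E] [NormedSpace ℝ E] [FiniteDimensional ℝ E]
  [NormedAddCommGroup F] [NormedSpace ℝ F] [FiniteDimensional ℝ F]
  {V W : Type*} [TopologicalSpace V] [ChartedSpace E V] [IsManifold 𝓘(ℝ, E) ∞ V]
  [TopologicalSpace W] [ChartedSpace F W] [IsManifold 𝓘(ℝ, F) ∞ W]
  {Φ : V → ℂ} {ι : ℝ × V × R2 → W} {φ : R2 → W → W} {m : W → ℂ} {h : W → ℝ}
  {f : ℝ → V → V} {a : ℝ × V → ℝ} {σ : W → F →L[ℝ] F →L[ℝ] ℝ}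

variable {Z : W → F}

omit [FiniteDimensional ℝ F] [IsManifold 𝓘(ℝ, F) ∞ W] in
theorem rotf_mk {b b' : W} {v v' : F} (h1 : b = b') (h2 : v = v') :
    (⟨b, v⟩ : TangentBundle 𝓘(ℝ, F) W) = ⟨b', v'⟩ := by
  subst h1 h2
  rfl

omit [FiniteDimensional ℝ F] [IsManifold 𝓘(ℝ, F) ∞ W] in
theorem rotf_shift {γ : ℝ → W} {v : F} (t : ℝ)
    (hγ : HasMFDerivAt 𝓘(ℝ, ℝ) 𝓘(ℝ, F) γ 0 ((1 : ℝ →L[ℝ] ℝ).smulRight v)) :
    HasMFDerivAt 𝓘(ℝ, ℝ) 𝓘(ℝ, F) (fun s => γ (s - t)) t ((1 : ℝ →L[ℝ] ℝ).smulRight v) := by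
  have h1 : HasMFDerivAt 𝓘(ℝ, ℝ) 𝓘(ℝ, ℝ) (fun s : ℝ => s - t) t (ContinuousLinearMap.id ℝ ℝ) :=
    ((hasFDerivAt_id t).sub_const t).hasMFDerivAt
  have h2 : HasMFDerivAt 𝓘(ℝ, ℝ) 𝓘(ℝ, F) γ (t - t) ((1 : ℝ →L[ℝ] ℝ).smulRight v) := by
    rw [sub_self]
    exact hγ
  exact HasMFDerivAt.comp (f := fun s : ℝ => s - t) t h2 h1

omit [FiniteDimensional ℝ F] [IsManifold 𝓘(ℝ, F) ∞ W] in
theorem rotf_has {γ : ℝ → W} (hγ : MDifferentiableAt 𝓘(ℝ, ℝ) 𝓘(ℝ, F) γ 0) :
    HasMFDerivAt 𝓘(ℝ, ℝ) 𝓘(ℝ, F) γ 0 ((1 : ℝ →L[ℝ] ℝ).smulRight (dif ℝ F γ 0 1)) := by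
  have e : (1 : ℝ →L[ℝ] ℝ).smulRight (dif ℝ F γ 0 1) = dif ℝ F γ 0 := by
    ext
    simp
  exact (hasMF_dif hγ).congr_mfderiv e.symm

theorem rotf_ev (ht : Turn E Φ f a) {c : ℝ} {y : ℝ × V × R2} (hy : c < y.1) :
    ∀ᶠ s in 𝓝 (0 : ℝ), c < (ft f a s y).1 := by
  have h1 : Continuous fun s : ℝ => (ft f a s y).1 :=
    continuous_fst.comp (ht.ft_smooth.continuous.comp (continuous_id.prodMk continuous_const))
  refine h1.continuousAt.eventually (lt_mem_nhds (show c < (ft f a 0 y).1 from ?_))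
  rwa [ht.ft_zero]

theorem rotf_smooth (ht : Turn E Φ f a) (he : IsEnd E F ι φ) {y : ℝ × V × R2} (hy : 0 < y.1) :
    ContMDiffAt ((I3 E).prod 𝓘(ℝ, ℝ)) 𝓘(ℝ, F) ∞
      (Function.uncurry fun (z : ℝ × V × R2) (s : ℝ) => ι (ft f a s z)) (y, 0) := by
  have h1 : ContMDiffAt (I3 E) 𝓘(ℝ, F) ∞ ι (ft f a 0 y) :=
    (he.localDiffeo _ (by rwa [ht.ft_zero])).contMDiffAt
  exact ContMDiffAt.comp (f := fun q : (ℝ × V × R2) × ℝ => ft f a q.2 q.1) (y, 0) h1
    (ht.ft_smooth.comp (contMDiff_snd.prodMk contMDiff_fst) (y, 0))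

theorem rotf_zero (hZ : IsRot ι f a Z) (ht : Turn E Φ f a) {y : ℝ × V × R2} (hy : 0 < y.1) :
    HasMFDerivAt 𝓘(ℝ, ℝ) 𝓘(ℝ, F) (fun s => ι (ft f a s y)) 0
      ((1 : ℝ →L[ℝ] ℝ).smulRight (Z (ι y))) := by
  have h1 := hZ.curve y 0 (by rwa [ht.ft_zero])
  have e : Z (ι (ft f a 0 y)) = Z (ι y) := by rw [ht.ft_zero]
  exact e ▸ h1

theorem rotf_deriv (hZ : IsRot ι f a Z) (ht : Turn E Φ f a) {y : ℝ × V × R2} (hy : 0 < y.1)
    {G : Type*} [NormedAddCommGroup G] [NormedSpace ℝ G] {g : W → G}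
    (hg : ContMDiff 𝓘(ℝ, F) 𝓘(ℝ, G) ∞ g) :
    HasDerivAt (fun s => g (ι (ft f a s y))) (dif F G g (ι y) (Z (ι y))) 0 := by
  have h1 := hasDerivAt_comp_curve (rotf_zero hZ ht hy) ((hg _).mdifferentiableAt (by simp))
  rwa [ht.ft_zero] at h1

theorem Turn.exists_rot (ht : Turn E Φ f a) (he : IsEnd E F ι φ) (hφ : IsAction F φ)
    [Nonempty W] : ∃ Z : W → F, IsRot ι f a Z := by
  obtain ⟨g', hg, -⟩ := he.descend (J := 𝓘(ℝ, F).tangent)
    (g := fun y => (⟨ι (ft f a 0 y), dif ℝ F (fun s => ι (ft f a s y)) 0 1⟩ :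
      TangentBundle 𝓘(ℝ, F) W))
    (fun y hy => push (fun (z : ℝ × V × R2) (s : ℝ) => ι (ft f a s z)) (fun _ => 0) (fun _ => 1)
      (rotf_smooth ht he hy) contMDiffAt_const)
    (fun s v u k hs => by
      have h1 : (fun r => ι (ft f a r (s, v, u + rv k))) =ᶠ[𝓝 0] fun r => ι (ft f a r (s, v, u)) := by
        filter_upwards [rotf_ev ht (y := (s, v, u)) hs] with r hr
        exact he.periodic hφ hr _ _ k
      exact rotf_mk h1.eq_of_nhds (by rw [dif_congr h1]))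
    ⟨Classical.arbitrary W, (0 : F)⟩
  have key : ∀ (p : TangentBundle 𝓘(ℝ, F) W) (b : W) (v : F), p = ⟨b, v⟩ →
      p.1 = b ∧ (show F from p.2) = v := by
    rintro p b v rfl
    exact ⟨rfl, rfl⟩
  refine ⟨fun x => (g' x).2, fun y hy => ?_, fun y t hy => ?_⟩
  · refine (hg y hy).2.congr_of_eventuallyEq ?_
    filter_upwards [(he.isOpen le_rfl).mem_nhds ⟨y, hy, rfl⟩]
    rintro _ ⟨z, hz, rfl⟩
    have h1 := (key _ _ _ (hg z hz).1).1
    rw [ht.ft_zero] at h1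
    exact rotf_mk h1.symm rfl
  · have h1 := (key _ _ _ (hg _ hy).1).2
    have h2 : MDifferentiableAt 𝓘(ℝ, ℝ) 𝓘(ℝ, F) (fun s => ι (ft f a s (ft f a t y))) 0 :=
      (ContMDiffAt.comp (f := fun s : ℝ => (ft f a t y, s)) 0 (rotf_smooth ht he hy)
        (contMDiffAt_const.prodMk contMDiffAt_id)).mdifferentiableAt (by simp)
    have h3 := rotf_shift t (rotf_has h2)
    rw [← h1] at h3
    have e : (fun s => ι (ft f a (s - t) (ft f a t y))) = fun s => ι (ft f a s y) := by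
      funext s
      rw [← ht.ft_add, sub_add_cancel]
    exact h3.congr_of_eventuallyEq (Eventually.of_forall fun s => (congrFun e s).symm)

theorem IsRot.dif_m (hZ : IsRot ι f a Z) (ht : Turn E Φ f a) (hc : Core E F Φ ι φ m)
    {y : ℝ × V × R2} (hy : 0 < y.1) :
    dif F ℂ m (ι y) (Z (ι y)) = 2 * Real.pi * Complex.I * m (ι y) := by
  have h1 := rotf_deriv hZ ht hy hc.smooth
  have h2 : HasDerivAt (fun s : ℝ => Complex.exp (2 * Real.pi * Complex.I * s) * m (ι y))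
      (2 * Real.pi * Complex.I * m (ι y)) 0 := by
    have h3 := (((hasDerivAt_id (0 : ℝ)).ofReal_comp.const_mul
      (2 * Real.pi * Complex.I)).cexp).mul_const (m (ι y))
    simpa using h3
  refine h1.unique (h2.congr_of_eventuallyEq ?_)
  filter_upwards [rotf_ev ht hy] with s hs
  rw [hc.onEnd _ hs, ht.ft_exp, hc.onEnd _ hy]

theorem IsRot.dif_h [CompactSpace V] (hZ : IsRot ι f a Z) (ht : Turn E Φ f a)
    (hh : IsHeight F ι φ h) :
    ∃ C, ∀ y : ℝ × V × R2, 2 < y.1 → |dif F ℝ h (ι y) (Z (ι y))| ≤ C := by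
  have h1 : Continuous fun v : V => dif ℝ ℝ (fun s => a (s, v)) 0 1 := by
    refine continuous_iff_continuousAt.2 fun v => ?_
    have h2 := push (J := 𝓘(ℝ, E)) (I₁ := 𝓘(ℝ, ℝ)) (I₂ := 𝓘(ℝ, ℝ))
      (fun (w : V) (s : ℝ) => a (s, w)) (fun _ => 0) (fun _ => 1) (x₀ := v)
      (ht.smooth.comp (contMDiff_snd.prodMk contMDiff_fst) (v, 0)) contMDiffAt_const
    exact ((tangent_model_iff _ _ v).1 h2).2.continuousAt
  obtain ⟨C, hC⟩ := (isCompact_range h1.abs).bddAbove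
  refine ⟨C, fun y hy => ?_⟩
  have h2 := rotf_deriv hZ ht (show 0 < y.1 by linarith) hh.smooth
  have h3 : MDifferentiableAt 𝓘(ℝ, ℝ) 𝓘(ℝ, ℝ) (fun s => a (s, y.2.1)) 0 :=
    (ht.smooth.comp (contMDiff_id.prodMk contMDiff_const) 0).mdifferentiableAt (by simp)
  have h4 : HasDerivAt (fun s => a (s, y.2.1)) (dif ℝ ℝ (fun s => a (s, y.2.1)) 0 1) 0 :=
    hasDerivAt_comp_curve (g := fun x : ℝ => x) (rotf_has h3) mdifferentiableAt_id |>.congr_deriv
      (by rw [dif_fderiv, fderiv_fun_id]; rfl)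
  have h5 := h2.unique ((h4.const_sub y.1).congr_of_eventuallyEq (by
    filter_upwards [rotf_ev ht hy] with s hs
    exact hh.onEnd _ hs.le))
  rw [h5, abs_neg]
  exact hC ⟨y.2.1, rfl⟩

theorem IsRot.inv (hZ : IsRot ι f a Z) (ht : Turn E Φ f a) (he : IsEnd E F ι φ)
    (hφ : IsAction F φ) {y : ℝ × V × R2} (hy : 0 < y.1) (t : R2) :
    dif F F (φ t) (ι y) (Z (ι y)) = Z (φ t (ι y)) := by
  have h1 := rotf_zero hZ ht hy
  have h2 := rotf_zero hZ ht (y := (y.1, y.2.1, y.2.2 + t)) hy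
  have h3 := HasMFDerivAt.comp (g := φ t) 0
    (hasMF_dif ((hφ.smooth_at t _).mdifferentiableAt (by simp))) h1
  have h4 : (φ t ∘ fun s => ι (ft f a s y)) =ᶠ[𝓝 0]
      fun s => ι (ft f a s (y.1, y.2.1, y.2.2 + t)) := by
    filter_upwards [rotf_ev ht hy] with s hs
    exact he.equivariant _ _ _ t hs
  have h5 : (dif F F (φ t) (ι (ft f a 0 y))).comp ((1 : ℝ →L[ℝ] ℝ).smulRight (Z (ι y))) =
      (1 : ℝ →L[ℝ] ℝ).smulRight (Z (ι (y.1, y.2.1, y.2.2 + t))) :=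
    hasMFDerivAt_unique h3 (h2.congr_of_eventuallyEq h4)
  have h6 := congrArg (fun L : ℝ →L[ℝ] F => L 1) h5
  rw [ht.ft_zero, ← he.equivariant _ _ _ t hy] at h6
  simpa using h6

end Pool.Agent.P.MP_49bf82_gt
end

-- part Pool.Agent.P.MP_49bf82_gt.Avg
section

open Manifold Set Filter Topology
open scoped ContDiff RealInnerProductSpace

namespace Pool.Agent.P.MP_49bf82_gt

open Pool.Agent.P.MP_e3ee0c_gt

open MeasureTheory

universe u

theorem avg_nat {k : ℕ} {X : Type u} [NormedAddCommGroup X] [NormedSpace ℝ X] (n : ℕ) :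
    ∀ {B : Type u} [NormedAddCommGroup B] [NormedSpace ℝ B] [CompleteSpace B]
      {g : (Fin k → ℝ) × X → B} {w₀ : X},
      (∀ t ∈ Metric.closedBall (0 : Fin k → ℝ) 1, ContDiffAt ℝ (n + 1 : ℕ) g (t, w₀)) →
      ContDiffAt ℝ n (fun w => ∫ t in cube k, g (t, w)) w₀ := by
  have near : ∀ (j : ℕ) {B : Type u} [NormedAddCommGroup B] [NormedSpace ℝ B]
      {g : (Fin k → ℝ) × X → B} {w₀ : X},
      (∀ t ∈ Metric.closedBall (0 : Fin k → ℝ) 1, ContDiffAt ℝ (j + 1 : ℕ) g (t, w₀)) →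
      ∀ᶠ w in 𝓝 w₀, ∀ t ∈ Metric.closedBall (0 : Fin k → ℝ) 1, ContDiffAt ℝ 1 g (t, w) := by
    intro j B _ _ g w₀ hg
    refine (isCompact_closedBall (0 : Fin k → ℝ) 1).eventually_forall_of_forall_eventually
      fun t ht => ?_
    have h1 : ContDiffAt ℝ 1 g (t, w₀) := (hg t ht).of_le (by exact_mod_cast Nat.le_add_left 1 j)
    exact (continuous_swap.tendsto (w₀, t)).eventually (h1.eventually (by simp))
  induction n with
  | zero =>
    intro B _ _ _ g w₀ hg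
    rw [Nat.cast_zero, contDiffAt_zero]
    exact ⟨_, near 0 hg, fun w hw => (avg_hasFDerivAt hw).continuousAt.continuousWithinAt⟩
  | succ n ih =>
    intro B _ _ _ g w₀ hg
    rw [Nat.cast_succ, contDiffAt_succ_iff_hasFDerivAt]
    refine ⟨fun w => ∫ t in cube k, (fderiv ℝ g (t, w)).comp (ContinuousLinearMap.inr ℝ _ X),
      ⟨_, near _ hg, fun w hw => avg_hasFDerivAt hw⟩, ?_⟩
    refine ih (g := fun z => (fderiv ℝ g z).comp (ContinuousLinearMap.inr ℝ _ X)) fun t ht => ?_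
    exact ((hg t ht).fderiv_right (m := (n + 1 : ℕ)) (by norm_cast)).clm_comp contDiffAt_const

/-- Averages over the cube depend smoothly on parameters. -/
theorem avg_contDiffAt {k : ℕ} {X B : Type u} [NormedAddCommGroup X] [NormedSpace ℝ X]
    [FiniteDimensional ℝ X] [NormedAddCommGroup B] [NormedSpace ℝ B] [CompleteSpace B]
    {g : (Fin k → ℝ) × X → B} {w₀ : X}
    (hg : ∀ t ∈ Metric.closedBall (0 : Fin k → ℝ) 1, ContDiffAt ℝ ∞ g (t, w₀)) :
    ContDiffAt ℝ ∞ (fun w => ∫ t in cube k, g (t, w)) w₀ := by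
  rw [contDiffAt_infty]
  exact fun n => avg_nat n fun t ht => (hg t ht).of_le (by exact_mod_cast le_top)

/-- The average of a function with values in a closed convex set. -/
theorem avg_mem {k : ℕ} {B : Type*} [NormedAddCommGroup B] [NormedSpace ℝ B] [CompleteSpace B]
    {g : (Fin k → ℝ) → B} (hg : Continuous g) {C : Set B} (hC : Convex ℝ C) (hc : IsClosed C)
    (h : ∀ t, g t ∈ C) : ∫ t in cube k, g t ∈ C := by
  haveI : IsProbabilityMeasure (volume.restrict (cube k)) := ⟨by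
    rw [Measure.restrict_apply_univ, ← ENNReal.toReal_eq_one_iff]; exact cube_real⟩
  exact hC.integral_mem hc (Eventually.of_forall h) (integrableOn_cube hg)

theorem avg_const {k : ℕ} {B : Type*} [NormedAddCommGroup B] [NormedSpace ℝ B] [CompleteSpace B]
    (b : B) : ∫ _ in cube k, b = b := by
  rw [setIntegral_const, cube_real, one_smul]

end Pool.Agent.P.MP_49bf82_gt
end

-- part Pool.Agent.P.MP_49bf82_gt.AvgVF
section

open Manifold Set Filter Topology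
open scoped ContDiff RealInnerProductSpace

namespace Pool.Agent.P.MP_49bf82_gt

open Pool.Agent.P.MP_e3ee0c_gt

variable {F : Type*} [NormedAddCommGroup F] [NormedSpace ℝ F] [FiniteDimensional ℝ F]
  {W : Type*} [TopologicalSpace W] [ChartedSpace F W] [IsManifold 𝓘(ℝ, F) ∞ W]

variable {φ : R2 → W → W}

/-- The field pulled back by the action of t. -/
noncomputable def avgvf_A (φ : R2 → W → W) (Y : W → F) (t : R2) (x : W) : F :=
  dif F F (φ (-t)) (φ t x) (Y (φ t x))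

theorem avgvf_back (h : IsAction F φ) (t : R2) (x : W) : φ (-t) (φ t x) = x := by
  rw [← h.add, neg_add_cancel, h.zero]

theorem avgvf_smooth (h : IsAction F φ) {Y : W → F} (hY : VF Y) (p : W) (t : R2) {x : W}
    (hx : x ∈ (chartAt F p).source) :
    ContMDiffAt (𝓘(ℝ, R2).prod 𝓘(ℝ, F)) 𝓘(ℝ, F) ∞
      (fun q : R2 × W => dif F F (chartAt F p) q.2 (avgvf_A φ Y q.1 q.2)) (t, x) := by
  have hv : ContMDiffAt (𝓘(ℝ, R2).prod 𝓘(ℝ, F)) 𝓘(ℝ, F).tangent ∞
      (fun q : R2 × W => (⟨φ q.1 q.2, Y (φ q.1 q.2)⟩ : TangentBundle 𝓘(ℝ, F) W)) (t, x) :=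
    ContMDiffAt.comp (t, x) (g := fun z => (⟨z, Y z⟩ : TangentBundle 𝓘(ℝ, F) W))
      (f := fun q : R2 × W => φ q.1 q.2) (hY (φ t x)) (h.smooth (t, x))
  have hn : ContMDiff ((𝓘(ℝ, R2).prod 𝓘(ℝ, F)).prod 𝓘(ℝ, F)) (𝓘(ℝ, R2).prod 𝓘(ℝ, F)) ∞
      (fun r : (R2 × W) × W => (-r.1.1, r.2)) :=
    ((contDiff_neg.contMDiff).comp (contMDiff_fst.comp contMDiff_fst)).prodMk contMDiff_snd
  have h1 := push (fun q : R2 × W => φ (-q.1)) (fun q : R2 × W => φ q.1 q.2)
    (fun q : R2 × W => Y (φ q.1 q.2)) (x₀ := (t, x)) ((h.smooth.comp hn) _) hv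
  have h2 := push_one (chartAt F p) (fun q : R2 × W => φ (-q.1) (φ q.1 q.2))
    (fun q : R2 × W => avgvf_A φ Y q.1 q.2) (x₀ := (t, x))
    (chart_smooth p (by rw [avgvf_back h]; exact hx)) h1
  have h3 : ContMDiffAt (𝓘(ℝ, R2).prod 𝓘(ℝ, F)) 𝓘(ℝ, F) ∞
      (fun q : R2 × W => dif F F (chartAt F p) (φ (-q.1) (φ q.1 q.2)) (avgvf_A φ Y q.1 q.2))
      (t, x) := ((tangent_model_iff _ _ _).1 h2).2
  simpa only [avgvf_back h] using h3

theorem avgvf_cont (h : IsAction F φ) {Y : W → F} (hY : VF Y) (x : W) :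
    Continuous fun t => avgvf_A φ Y t x := by
  refine continuous_iff_continuousAt.2 fun t => ?_
  have h1 := (avgvf_smooth h hY x t (mem_chart_source F x)).continuousAt
  have h2 := ContinuousAt.comp (f := fun s : R2 => (s, x)) h1 (by fun_prop)
  simpa only [Function.comp_def, dif_chart_self, ContinuousLinearMap.id_apply] using h2

theorem avgvf_periodic (h : IsAction F φ) (Y : W → F) (m : Fin 2 → ℤ) (t : R2) (x : W) :
    avgvf_A φ Y (rv m + t) x = avgvf_A φ Y t x := by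
  have h1 : -(rv m + t) = rv (-m) + -t := by
    funext i
    simp [rv]
    ring
  rw [avgvf_A, avgvf_A, h1, h.rv_add, h.rv_add]

theorem avgvf_shift (h : IsAction F φ) (Y : W → F) (s t : R2) (x : W) :
    dif F F (φ s) x (avgvf_A φ Y (s + t) x) = avgvf_A φ Y t (φ s x) := by
  have h1 := h.dif_add s (-(s + t)) (φ (s + t) x) (Y (φ (s + t) x))
  rw [avgvf_back h] at h1
  have h2 : s + -(s + t) = -t := by abel
  rw [avgvf_A, ← h1, h2, avgvf_A, ← h.add, add_comm t s]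

/-- Averaging a vector field over the torus. -/
theorem IsAction.average (h : IsAction F φ) {Y : W → F} (hY : VF Y) :
    ∃ Z : W → F, VF Z ∧ Inv φ Z ∧ ∀ x (C : Set F), Convex ℝ C → IsClosed C →
      (∀ t, dif F F (φ (-t)) (φ t x) (Y (φ t x)) ∈ C) → Z x ∈ C := by
  have hi : ∀ x, MeasureTheory.IntegrableOn (fun t => avgvf_A φ Y t x) (cube 2) :=
    fun x => integrableOn_cube (avgvf_cont h hY x)
  refine ⟨fun x => ∫ t in cube 2, avgvf_A φ Y t x, fun p => ?_, fun s x => ?_,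
    fun x C hC hc hm => avg_mem (avgvf_cont h hY x) hC hc hm⟩
  · rw [vfAt_iff_chart p (mem_chart_source F p)]
    have h1 : chartField (fun x => ∫ t in cube 2, avgvf_A φ Y t x) p = fun z => ∫ t in cube 2,
        dif F F (chartAt F p) ((chartAt F p).symm z) (avgvf_A φ Y t ((chartAt F p).symm z)) :=
      funext fun z => (ContinuousLinearMap.integral_comp_comm _ (hi _)).symm
    rw [h1]
    refine avg_contDiffAt (g := fun r : R2 × F => dif F F (chartAt F p) ((chartAt F p).symm r.2)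
      (avgvf_A φ Y r.1 ((chartAt F p).symm r.2))) fun t _ => ?_
    have h2 : ContMDiffAt 𝓘(ℝ, R2 × F) (𝓘(ℝ, R2).prod 𝓘(ℝ, F)) ∞
        (fun r : R2 × F => (r.1, (chartAt F p).symm r.2)) (t, chartAt F p p) :=
      (contDiff_fst.contMDiff _).prodMk (ContMDiffAt.comp (t, chartAt F p p)
        (f := fun r : R2 × F => r.2) (chart_symm_smooth p (mem_chart_target F p))
        (contDiff_snd.contMDiff _))
    have h3 := avgvf_smooth h hY p t
      ((chartAt F p).map_target (mem_chart_target F p))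
    exact contMDiffAt_iff_contDiffAt.1 (ContMDiffAt.comp (t, chartAt F p p)
      (f := fun r : R2 × F => (r.1, (chartAt F p).symm r.2)) h3 h2)
  · rw [← ContinuousLinearMap.integral_comp_comm _ (hi x),
      ← avg_translate (f := fun t => dif F F (φ s) x (avgvf_A φ Y t x))
        (fun m t => by rw [avgvf_periodic h]) s]
    simp only [avgvf_shift h]

/-- Invariant fields with values in an invariant family of closed convex sets. -/
theorem IsAction.exists_field [T2Space W] [SigmaCompactSpace W] (h : IsAction F φ)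
    (C : W → Set F) (hC : ∀ x, Convex ℝ (C x)) (hc : ∀ x, IsClosed (C x))
    (hi : ∀ t x, ∀ y ∈ C x, dif F F (φ t) x y ∈ C (φ t x))
    (hl : ∀ x, ∃ Y : W → F, ∀ᶠ z in 𝓝 x, VFAt Y z ∧ Y z ∈ C z) :
    ∃ Z : W → F, VF Z ∧ Inv φ Z ∧ ∀ x, Z x ∈ C x := by
  obtain ⟨Y, hY⟩ := exists_contMDiffSection_forall_mem_convex_of_local (n := ⊤) (F_fiber := F)
    𝓘(ℝ, F) (TangentSpace 𝓘(ℝ, F) : W → Type _) C hC (fun x => by
      obtain ⟨Y, hY⟩ := hl x
      exact ⟨_, hY, Y, fun z hz => hz.1.contMDiffWithinAt, fun z hz => hz.2⟩)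
  obtain ⟨Z, hZ, hZi, hZm⟩ := h.average (Y := fun x => Y x) fun x => Y.contMDiff x
  refine ⟨Z, hZ, hZi, fun x => hZm x (C x) (hC x) (hc x) fun t => ?_⟩
  have h1 := hi (-t) (φ t x) _ (hY (φ t x))
  rwa [avgvf_back h] at h1

end Pool.Agent.P.MP_49bf82_gt
end

-- part Pool.Agent.P.MP_49bf82_gt.Lift
section

open Manifold Set Filter Topology
open scoped ContDiff RealInnerProductSpace

namespace Pool.Agent.P.MP_49bf82_gt

open Pool.Agent.P.MP_e3ee0c_gt

variable {F : Type*} [NormedAddCommGroup F] [NormedSpace ℝ F] [FiniteDimensional ℝ F]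
  {W : Type*} [TopologicalSpace W] [ChartedSpace F W] [IsManifold 𝓘(ℝ, F) ∞ W]

variable {G : Type*} [NormedAddCommGroup G] [NormedSpace ℝ G] [FiniteDimensional ℝ G]

omit [FiniteDimensional ℝ F] [FiniteDimensional ℝ G] in
theorem lift_smooth {m : W → G} (hm : ContMDiff 𝓘(ℝ, F) 𝓘(ℝ, G) ∞ m) (p : W) {x : W}
    (hx : x ∈ (chartAt F p).source) :
    ContDiffAt ℝ ∞ (fun z => m ((chartAt F p).symm z)) (chartAt F p x) :=
  contMDiffAt_iff_contDiffAt.1
    ((hm _).comp _ (chart_symm_smooth p ((chartAt F p).map_source hx)))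

omit [FiniteDimensional ℝ F] [FiniteDimensional ℝ G] in
theorem lift_fderiv {m : W → G} (hm : ContMDiff 𝓘(ℝ, F) 𝓘(ℝ, G) ∞ m) (p : W) {x : W}
    (hx : x ∈ (chartAt F p).source) (v : F) :
    fderiv ℝ (fun z => m ((chartAt F p).symm z)) (chartAt F p x) v =
      dif F G m x (dif F F (chartAt F p).symm (chartAt F p x) v) := by
  rw [← dif_fderiv, dif_comp ((hm _).mdifferentiableAt (by simp))
    ((chart_symm_smooth p ((chartAt F p).map_source hx)).mdifferentiableAt (by simp)),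
    (chartAt F p).left_inv hx]
  rfl

omit [FiniteDimensional ℝ F] [FiniteDimensional ℝ G] in
theorem lift_smooth' {m : W → G} (hm : ContMDiff 𝓘(ℝ, F) 𝓘(ℝ, G) ∞ m) (p : W) {x : W}
    (hx : x ∈ (chartAt F p).source) :
    ContDiffAt ℝ ∞ (fderiv ℝ (fun z => m ((chartAt F p).symm z))) (chartAt F p x) :=
  (lift_smooth hm p hx).fderiv_right (by simp)

omit [FiniteDimensional ℝ F] in
theorem lift_inv {m : W → G} (hm : ContMDiff 𝓘(ℝ, F) 𝓘(ℝ, G) ∞ m) {p : W}
    (hs : Function.Surjective (dif F G m p)) : ∃ R : G →L[ℝ] F, ∀ᶠ x in 𝓝 p,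
      x ∈ (chartAt F p).source ∧
      ((fderiv ℝ (fun z => m ((chartAt F p).symm z)) (chartAt F p x)).comp R).IsInvertible := by
  have : CompleteSpace G := FiniteDimensional.complete ℝ G
  have hp := mem_chart_source F p
  obtain ⟨R, hR⟩ := (dif F G m p).exists_rightInverse_of_surjective
    (LinearMap.range_eq_top.2 hs)
  have h0 : (fderiv ℝ (fun z => m ((chartAt F p).symm z)) (chartAt F p p)).comp R =
      (ContinuousLinearEquiv.refl ℝ G : G →L[ℝ] G) := by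
    ext v
    rw [ContinuousLinearMap.comp_apply, lift_fderiv hm p hp, dif_chart_symm_self]
    exact congrArg (fun L : G →L[ℝ] G => L v) hR
  have h1 : ContinuousAt
      (fun x => (fderiv ℝ (fun z => m ((chartAt F p).symm z)) (chartAt F p x)).comp R) p :=
    ((lift_smooth' hm p hp).continuousAt.comp ((chartAt F p).continuousAt hp)).clm_comp
      continuousAt_const
  have h2 := h1.eventually_mem (h0 ▸ (ContinuousLinearEquiv.refl ℝ G).nhds)
  refine ⟨R, ?_⟩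
  filter_upwards [(chartAt F p).open_source.mem_nhds hp, h2] with x hx hx2
  exact ⟨hx, hx2⟩

/-- Local lifts through a submersion. -/
theorem local_lift {m w : W → G} (hm : ContMDiff 𝓘(ℝ, F) 𝓘(ℝ, G) ∞ m)
    (hw : ContMDiff 𝓘(ℝ, F) 𝓘(ℝ, G) ∞ w) {p : W} (hs : Function.Surjective (dif F G m p)) {y : F}
    (hy : dif F G m p y = w p) :
    ∃ Y : W → F, Y p = y ∧ ∀ᶠ x in 𝓝 p, VFAt Y x ∧ dif F G m x (Y x) = w x := by
  have : CompleteSpace G := FiniteDimensional.complete ℝ G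
  obtain ⟨R, hR⟩ := lift_inv hm hs
  have hp := mem_chart_source F p
  refine ⟨fun x => dif F F (chartAt F p).symm (chartAt F p x)
    ((fun z => y + R (((fderiv ℝ (fun z => m ((chartAt F p).symm z)) z).comp R).inverse
      (w ((chartAt F p).symm z) - fderiv ℝ (fun z => m ((chartAt F p).symm z)) z y)))
        (chartAt F p x)), ?_, ?_⟩
  · simp only
    rw [dif_chart_symm_self, lift_fderiv hm p hp, dif_chart_symm_self, (chartAt F p).left_inv hp,
      hy, sub_self, map_zero, map_zero, add_zero]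
  · filter_upwards [hR] with x hx
    have h1 := lift_smooth' hm p hx.1
    have h0 : ContDiffAt ℝ ∞
        (fun z => (fderiv ℝ (fun z => m ((chartAt F p).symm z)) z).comp R) (chartAt F p x) :=
      h1.clm_comp contDiffAt_const
    have h2 := (ContDiffAt.comp (g := ContinuousLinearMap.inverse) (chartAt F p x)
      hx.2.contDiffAt_map_inverse h0).clm_apply
      ((lift_smooth hw p hx.1).sub (h1.clm_apply (contDiffAt_const (c := y))))
    have h3 : ContDiffAt ℝ ∞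
        (fun z => y + R (((fderiv ℝ (fun z => m ((chartAt F p).symm z)) z).comp R).inverse
          (w ((chartAt F p).symm z) - fderiv ℝ (fun z => m ((chartAt F p).symm z)) z y)))
        (chartAt F p x) := contDiffAt_const.add (R.contDiff.contDiffAt.comp _ h2)
    refine ⟨vfAt_of_chart p hx.1 h3, ?_⟩
    rw [← lift_fderiv hm p hx.1, map_add, ← ContinuousLinearMap.comp_apply _ R,
      hx.2.self_apply_inverse, (chartAt F p).left_inv hx.1, add_sub_cancel]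

theorem isOpen_surjective {m : W → G} (hm : ContMDiff 𝓘(ℝ, F) 𝓘(ℝ, G) ∞ m) :
    IsOpen {x | Function.Surjective (dif F G m x)} := by
  refine isOpen_iff_mem_nhds.2 fun p hs => ?_
  obtain ⟨R, hR⟩ := lift_inv hm hs
  filter_upwards [hR] with x hx v
  obtain ⟨u, hu⟩ := hx.2.surjective v
  exact ⟨_, (lift_fderiv hm p hx.1 (R u)).symm.trans hu⟩

/-- On a compact manifold a function without degenerate zeros is large at its critical points. -/
theorem exists_gap [CompactSpace W] {g : W → ℝ} (hg : ContMDiff 𝓘(ℝ, F) 𝓘(ℝ, ℝ) ∞ g)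
    (h : ∀ x, dif F ℝ g x = 0 → g x ≠ 0) : ∃ δ > 0, ∀ x, dif F ℝ g x = 0 → δ ≤ |g x| := by
  have h1 : {x | dif F ℝ g x = 0} = {x | Function.Surjective (dif F ℝ g x)}ᶜ := by
    ext x
    constructor
    · intro h0 hs
      obtain ⟨v, hv⟩ := hs 1
      rw [show dif F ℝ g x = 0 from h0] at hv
      exact zero_ne_one hv
    · intro hs
      by_contra h0
      obtain ⟨v, hv⟩ := DFunLike.ne_iff.1 h0
      refine hs fun t => ⟨(t / dif F ℝ g x v) • v, ?_⟩
      rw [map_smul, smul_eq_mul, div_mul_cancel₀ _ hv]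
  have h2 : IsCompact {x | dif F ℝ g x = 0} := by
    rw [h1]
    exact (isOpen_surjective hg).isClosed_compl.isCompact
  exact h2.exists_forall_le' (f := fun x => |g x|) hg.continuous.abs.continuousOn
    fun x hx => abs_pos.2 (h x hx)

end Pool.Agent.P.MP_49bf82_gt
end

-- part Pool.Agent.P.MP_49bf82_gt.Fields
section

open Manifold Set Filter Topology
open scoped ContDiff RealInnerProductSpace

namespace Pool.Agent.P.MP_49bf82_gt

open Pool.Agent.P.MP_e3ee0c_gt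

variable {E F : Type*} [NormedAddCommGroup E] [NormedSpace ℝ E] [FiniteDimensional ℝ E]
  [NormedAddCommGroup F] [NormedSpace ℝ F] [FiniteDimensional ℝ F]
  {V W : Type*} [TopologicalSpace V] [ChartedSpace E V] [IsManifold 𝓘(ℝ, E) ∞ V]
  [TopologicalSpace W] [ChartedSpace F W] [IsManifold 𝓘(ℝ, F) ∞ W]
  {Φ : V → ℂ} {ι : ℝ × V × R2 → W} {φ : R2 → W → W} {m : W → ℂ} {h : W → ℝ}
  {f : ℝ → V → V} {a : ℝ × V → ℝ} {σ : W → F →L[ℝ] F →L[ℝ] ℝ}

theorem fields_local {w : W → ℂ} (hm : ContMDiff 𝓘(ℝ, F) 𝓘(ℝ, ℂ) ∞ m)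
    (hh : ContMDiff 𝓘(ℝ, F) 𝓘(ℝ, ℝ) ∞ h) (hw : ContMDiff 𝓘(ℝ, F) 𝓘(ℝ, ℂ) ∞ w) {p : W}
    (hs : Function.Surjective (dif F ℂ m p)) {u : F} (hu : dif F ℂ m p u = w p) {n : ℝ}
    (hn : |dif F ℝ h p u| < n) :
    ∃ Y : W → F, ∀ᶠ z in 𝓝 p, VFAt Y z ∧ dif F ℂ m z (Y z) = w z ∧ |dif F ℝ h z (Y z)| < n := by
  obtain ⟨Y, hY, hev⟩ := local_lift hm hw hs hu
  have h1 : ContinuousAt (fun z => |dif F ℝ h z (Y z)|) p :=
    ((hev.self_of_nhds.1.dif_apply (hh p)).continuousAt).abs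
  have h2 : ∀ᶠ z in 𝓝 p, |dif F ℝ h z (Y z)| < n :=
    h1.eventually (gt_mem_nhds (by simpa only [hY] using hn))
  refine ⟨Y, ?_⟩
  filter_upwards [hev, h2] with z hz hz2
  exact ⟨hz.1, hz.2, hz2⟩

theorem fields_bound {w : W → ℂ} (hm : ContMDiff 𝓘(ℝ, F) 𝓘(ℝ, ℂ) ∞ m)
    (hh : ContMDiff 𝓘(ℝ, F) 𝓘(ℝ, ℝ) ∞ h) (hw : ContMDiff 𝓘(ℝ, F) 𝓘(ℝ, ℂ) ∞ w)
    (hs : ∀ x, Function.Surjective (dif F ℂ m x)) {K : Set W} (hK : IsCompact K) :
    ∃ n : ℝ, ∀ x ∈ K, ∃ u, dif F ℂ m x u = w x ∧ |dif F ℝ h x u| < n := by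
  refine hK.induction_on
    (p := fun s => ∃ n : ℝ, ∀ x ∈ s, ∃ u, dif F ℂ m x u = w x ∧ |dif F ℝ h x u| < n)
    ⟨0, fun x hx => hx.elim⟩ ?_ ?_ ?_
  · rintro s t hst ⟨n, hn⟩
    exact ⟨n, fun x hx => hn x (hst hx)⟩
  · rintro s t ⟨n, hn⟩ ⟨k, hk⟩
    refine ⟨max n k, ?_⟩
    rintro x (hx | hx)
    · obtain ⟨u, h1, h2⟩ := hn x hx
      exact ⟨u, h1, h2.trans_le (le_max_left _ _)⟩
    · obtain ⟨u, h1, h2⟩ := hk x hx
      exact ⟨u, h1, h2.trans_le (le_max_right _ _)⟩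
  · intro p _
    obtain ⟨u, hu⟩ := hs p (w p)
    obtain ⟨Y, hY⟩ := fields_local hm hh hw (hs p) hu (lt_add_one _)
    exact ⟨_, mem_nhdsWithin_of_mem_nhds hY, _, fun x hx => ⟨Y x, hx.2.1, hx.2.2⟩⟩

theorem fields_inv {G : Type*} [NormedAddCommGroup G] [NormedSpace ℝ G] {g : W → G}
    (hφ : IsAction F φ) (hg : ContMDiff 𝓘(ℝ, F) 𝓘(ℝ, G) ∞ g) (hi : ∀ t x, g (φ t x) = g x)
    (t : R2) (x : W) (u : F) : dif F G g (φ t x) (dif F F (φ t) x u) = dif F G g x u := by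
  have h1 := dif_comp (g := g) (f := φ t) (x := x) ((hg _).mdifferentiableAt (by simp))
    ((hφ.smooth_at t x).mdifferentiableAt (by simp))
  have h2 : (fun y => g (φ t y)) = g := funext (hi t)
  rw [h2] at h1
  rw [h1]; rfl

omit [FiniteDimensional ℝ F] [IsManifold 𝓘(ℝ, F) ∞ W] in
theorem fields_convex (m : W → ℂ) (h : W → ℝ) (x : W) (c : ℂ) (n : ℝ) :
    Convex ℝ {u : F | dif F ℂ m x u = c ∧ |dif F ℝ h x u| ≤ n} ∧
      IsClosed {u : F | dif F ℂ m x u = c ∧ |dif F ℝ h x u| ≤ n} := by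
  have e : {u : F | dif F ℂ m x u = c ∧ |dif F ℝ h x u| ≤ n} =
      (dif F ℂ m x) ⁻¹' {c} ∩ (dif F ℝ h x) ⁻¹' Icc (-n) n := by
    ext u; simp [abs_le]
  rw [e]
  exact ⟨((convex_singleton c).linear_preimage (dif F ℂ m x).toLinearMap).inter
      ((convex_Icc _ _).linear_preimage (dif F ℝ h x).toLinearMap),
    (isClosed_singleton.preimage (dif F ℂ m x).continuous).inter
      (isClosed_Icc.preimage (dif F ℝ h x).continuous)⟩

theorem Core.exists_lift [T2Space W] [SigmaCompactSpace W] (hc : Core E F Φ ι φ m)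
    (hh : IsHeight F ι φ h) (hs : ∀ x, Function.Surjective (dif F ℂ m x)) (c : ℂ) :
    ∃ (Y : W → F) (C : ℝ), VF Y ∧ Inv φ Y ∧ (∀ x, dif F ℂ m x (Y x) = c) ∧
      ∀ x, |dif F ℝ h x (Y x)| ≤ C := by
  have hw : ContMDiff 𝓘(ℝ, F) 𝓘(ℝ, ℂ) ∞ (fun _ : W => c) := contMDiff_const
  obtain ⟨n, hn⟩ := fields_bound hc.smooth hh.smooth hw hs (hh.compact 3)
  have key : ∀ x, ∃ u, dif F ℂ m x u = c ∧ |dif F ℝ h x u| < n := by
    intro x
    by_cases hx : h x ≤ 3
    · exact hn x hx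
    have hx' : 3 < h x := not_le.1 hx
    obtain ⟨y, hy, rfl⟩ := hh.big x (by linarith)
    rw [hh.onEnd y hy] at hx'
    have h3 : h (ι (3, y.2.1, y.2.2)) ≤ 3 := (hh.onEnd (3, y.2.1, y.2.2) (by norm_num)).le
    obtain ⟨u, h1, h2⟩ := hn _ h3
    obtain ⟨b, rfl⟩ := (hc.isEnd.bijective (y := (3, y.2.1, y.2.2)) (by norm_num)).2 u
    rw [hc.dif_m (by norm_num)] at h1
    rw [hh.dif_h hc.isEnd (by norm_num)] at h2
    refine ⟨dEnd E F ι y (Real.exp (3 - y.1) • b), ?_, ?_⟩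
    · rw [hc.dif_m (by linarith), ← h1]
      have e : (Real.exp y.1 : ℂ) * (Real.exp (3 - y.1) : ℂ) = (Real.exp 3 : ℂ) := by
        rw [← Complex.ofReal_mul, ← Real.exp_add]; simp
      simp only [Prod.smul_fst, Prod.smul_snd, map_smul, smul_eq_mul, Complex.real_smul,
        Complex.ofReal_mul]
      rw [← e]; ring
    · rw [hh.dif_h hc.isEnd (by linarith), Prod.smul_fst, smul_eq_mul, abs_mul,
        abs_of_pos (Real.exp_pos _)]
      have : Real.exp (3 - y.1) ≤ 1 := Real.exp_le_one_iff.2 (by linarith)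
      exact (mul_le_of_le_one_left (abs_nonneg _) this).trans_lt h2
  obtain ⟨Y, h1, h2, h3⟩ := hc.action.exists_field
    (fun x => {u : F | dif F ℂ m x u = c ∧ |dif F ℝ h x u| ≤ n})
    (fun x => (fields_convex m h x c n).1) (fun x => (fields_convex m h x c n).2)
    (fun t x u hu => ⟨by rw [fields_inv hc.action hc.smooth hc.invariant]; exact hu.1,
      by rw [fields_inv hc.action hh.smooth hh.invariant]; exact hu.2⟩)
    (fun x => by
      obtain ⟨u, h1, h2⟩ := key x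
      obtain ⟨Y, hY⟩ := fields_local hc.smooth hh.smooth hw (hs x) h1 h2
      exact ⟨Y, hY.mono fun z hz => ⟨hz.1, hz.2.1, hz.2.2.le⟩⟩)
  exact ⟨Y, n, h1, h2, fun x => (h3 x).1, fun x => (h3 x).2⟩

theorem Core.exists_rot [CompactSpace V] [T2Space W] [SigmaCompactSpace W]
    (hc : Core E F Φ ι φ m) (hh : IsHeight F ι φ h) (hs : ∀ x, Function.Surjective (dif F ℂ m x))
    (ht : Turn E Φ f a) {Z : W → F} (hZ : IsRot ι f a Z) :
    ∃ (Y : W → F) (C : ℝ), VF Y ∧ Inv φ Y ∧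
      (∀ x, dif F ℂ m x (Y x) = 2 * Real.pi * Complex.I * m x) ∧
      (∀ x, |dif F ℝ h x (Y x)| ≤ C) ∧ ∀ y : ℝ × V × R2, 3 ≤ y.1 → Y (ι y) = Z (ι y) := by
  have hw : ContMDiff 𝓘(ℝ, F) 𝓘(ℝ, ℂ) ∞ (fun x : W => 2 * Real.pi * Complex.I * m x) :=
    ((contDiff_const.mul contDiff_id : ContDiff ℝ ∞
      (fun z : ℂ => 2 * Real.pi * Complex.I * z)).contMDiff).comp hc.smooth
  obtain ⟨n, hn⟩ := fields_bound hc.smooth hh.smooth hw hs (hh.compact 3)
  obtain ⟨k, hk⟩ := hZ.dif_h ht hh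
  obtain ⟨Y, h1, h2, h3⟩ := hc.action.exists_field
    (fun x => {u : F | dif F ℂ m x u = 2 * Real.pi * Complex.I * m x ∧
      |dif F ℝ h x u| ≤ max n k} ∩ {u : F | 3 ≤ h x → u = Z x})
    (fun x => (fields_convex m h x _ _).1.inter (by
      by_cases hx : 3 ≤ h x
      · simp [hx]
      · simpa [hx] using convex_univ))
    (fun x => (fields_convex m h x _ _).2.inter (by
      by_cases hx : 3 ≤ h x
      · simp [hx]
      · simp [hx]))
    (fun t x u hu => by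
      refine ⟨⟨?_, ?_⟩, fun hx => ?_⟩
      · rw [fields_inv hc.action hc.smooth hc.invariant, hc.invariant]; exact hu.1.1
      · rw [fields_inv hc.action hh.smooth hh.invariant]; exact hu.1.2
      · rw [hh.invariant] at hx
        obtain ⟨y, hy, rfl⟩ := hh.big x (by linarith)
        rw [hu.2 hx]
        exact hZ.inv ht hc.isEnd hc.action (by linarith) t)
    (fun x => by
      by_cases hx : h x < 3
      · obtain ⟨u, h1, h2⟩ := hn x hx.le
        obtain ⟨Y, hY⟩ := fields_local hc.smooth hh.smooth hw (hs x) h1 h2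
        refine ⟨Y, ?_⟩
        filter_upwards [hY, (hh.smooth.continuous.continuousAt (x := x)).eventually
          (gt_mem_nhds hx)] with z hz hz3
        exact ⟨hz.1, ⟨hz.2.1, hz.2.2.le.trans (le_max_left _ _)⟩,
          fun h3 => absurd hz3 (not_lt.2 h3)⟩
      · have hx2 : 2 < h x := by linarith [not_lt.1 hx]
        refine ⟨Z, ?_⟩
        filter_upwards [(hh.smooth.continuous.continuousAt (x := x)).eventually
          (lt_mem_nhds hx2)] with z hz
        obtain ⟨y, hy, rfl⟩ := hh.big z hz.le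
        rw [hh.onEnd y hy] at hz
        exact ⟨hZ.smooth y (by linarith), ⟨hZ.dif_m ht hc (by linarith),
          (hk y hz).trans (le_max_right _ _)⟩, fun _ => rfl⟩)
  refine ⟨Y, max n k, h1, h2, fun x => (h3 x).1.1, fun x => (h3 x).1.2, fun y hy => ?_⟩
  exact (h3 (ι y)).2 (by rw [hh.onEnd y (by linarith)]; exact hy)

end Pool.Agent.P.MP_49bf82_gt
end

-- part Pool.Agent.P.MP_49bf82_gt.SAdm
section

open Manifold Set Filter Topology
open scoped ContDiff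

namespace Pool.Agent.P.MP_49bf82_gt

open Pool.Agent.P.MP_e3ee0c_gt

variable {F : Type*} [NormedAddCommGroup F] [NormedSpace ℝ F] [FiniteDimensional ℝ F]
  {W : Type*} [TopologicalSpace W] [ChartedSpace F W] [IsManifold 𝓘(ℝ, F) ∞ W]
  {x : W} {c : W → ℝ} {Y Y' : W → F} {σ : W → F →L[ℝ] F →L[ℝ] ℝ} {m : W → ℂ}
  {P : ℝ → W → W} {φ : R2 → W → W} {g g' : W → W}

/-- The flow of Y preserves σ on the levels of m, infinitesimally at x. -/
structure Adm (σ : W → F →L[ℝ] F →L[ℝ] ℝ) (m : W → ℂ) (Y : W → F) (x : W) : Prop where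
  vf : VFAt Y x
  ker : ∀ u v, dif F ℂ m x u = 0 → dif F ℂ m x v = 0 → extD (fun z => σ z (Y z)) x u v = 0

/-- The map g preserves σ on the level of m at x. -/
structure PK (σ : W → F →L[ℝ] F →L[ℝ] ℝ) (m : W → ℂ) (g : W → W) (x : W) : Prop where
  md : MDifferentiableAt 𝓘(ℝ, F) 𝓘(ℝ, F) g x
  ker : ∀ u, dif F ℂ m x u = 0 → dif F ℂ m (g x) (dif F F g x u) = 0
  form : ∀ u v, dif F ℂ m x u = 0 → dif F ℂ m x v = 0 →
    σ (g x) (dif F F g x u) (dif F F g x v) = σ x u v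

theorem VFAt.add (hY : VFAt Y x) (hY' : VFAt Y' x) : VFAt (fun z => Y z + Y' z) x :=
  ContMDiffAt.add_section hY hY'

theorem Adm.congr (h : Adm σ m Y x) (e : Y' =ᶠ[𝓝 x] Y) : Adm σ m Y' x :=
  ⟨h.vf.congr e, fun u v hu hv => by
    rw [extD_congr (β := fun z => σ z (Y z)) (e.mono fun z hz => by simp only [hz])]
    exact h.ker u v hu hv⟩

theorem Adm.add (hσ : IsSymplectic σ) (h : Adm σ m Y x) (h' : Adm σ m Y' x) :
    Adm σ m (fun z => Y z + Y' z) x :=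
  ⟨h.vf.add h'.vf, fun u v hu hv => by
    simp only [map_add]
    rw [((sm_contract hσ h.vf).1.add (sm_contract hσ h'.vf).1).2, h.ker u v hu hv,
      h'.ker u v hu hv, add_zero]⟩

theorem Adm.smul (hσ : IsSymplectic σ) (hm : ContMDiff 𝓘(ℝ, F) 𝓘(ℝ, ℂ) ∞ m) (h : Adm σ m Y x)
    {k : ℂ → ℝ} (hk : ContDiff ℝ ∞ k) : Adm σ m (fun z => k (m z) • Y z) x := by
  have hc : ContMDiffAt 𝓘(ℝ, F) 𝓘(ℝ, ℝ) ∞ (fun z => k (m z)) x := hk.contMDiff.comp hm x
  have hd : ∀ u, dif F ℂ m x u = 0 → dif F ℝ (fun z => k (m z)) x u = 0 := fun u hu => by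
    rw [dif_comp (hk.contMDiff.mdifferentiableAt (by simp)) (hm.mdifferentiableAt (by simp)),
      ContinuousLinearMap.comp_apply, hu, map_zero]
  refine ⟨h.vf.smul hc, fun u v hu hv => ?_⟩
  simp only [map_smul]
  rw [((sm_contract hσ h.vf).1.smul hc).2, h.ker u v hu hv, hd u hu, hd v hv]
  simp

/-- Locally Hamiltonian fields. -/
theorem adm_dual (hσ : IsSymplectic σ) {α : W → F →L[ℝ] ℝ} {θ : W → ℝ}
    (hθ : ContMDiffAt 𝓘(ℝ, F) 𝓘(ℝ, ℝ) ∞ θ x) (e : α =ᶠ[𝓝 x] dif F ℝ θ) :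
    Adm σ m (dual σ α) x :=
  ⟨((sm_dif hθ).1.congr e).dual hσ, fun u v _ _ => by
    simp only [dual_spec hσ]
    rw [extD_congr e, (sm_dif hθ).2]⟩

omit [FiniteDimensional ℝ F] [IsManifold 𝓘(ℝ, F) ∞ W] in
theorem IsFlow.slice (hP : IsFlow Y P) (t : ℝ) (x : W) :
    MDifferentiableAt 𝓘(ℝ, F) 𝓘(ℝ, F) (P t) x :=
  (mflowb_slice (hP.smooth (t, x))).mdifferentiableAt (by simp)

omit [FiniteDimensional ℝ F] [IsManifold 𝓘(ℝ, F) ∞ W] in
theorem dif_id' (e : ∀ z, g z = z) (x : W) (u : F) : dif F F g x u = u := by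
  rw [show g = id from funext e]
  exact congrArg (fun L : F →L[ℝ] F => L u) (mfderiv_id (I := 𝓘(ℝ, F)) (x := x))

omit [FiniteDimensional ℝ F] [IsManifold 𝓘(ℝ, F) ∞ W] in
theorem IsFlow.const (hP : IsFlow Y P) (Ω : W → F → F → ℝ) (u v : F) (t : ℝ)
    (h : ∀ r ∈ uIcc 0 t, HasDerivAt (fun s => Ω (P s (P r x))
      (dif F F (P s) (P r x) (dif F F (P r) x u)) (dif F F (P s) (P r x) (dif F F (P r) x v))) 0 0) :
    Ω (P t x) (dif F F (P t) x u) (dif F F (P t) x v) = Ω x u v := by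
  have h1 : ∀ r ∈ uIcc 0 t, HasDerivAt
      (fun s => Ω (P s x) (dif F F (P s) x u) (dif F F (P s) x v)) 0 r := by
    intro r hr
    have h2 := h r hr
    rw [← sub_self r] at h2
    have h3 := h2.comp_sub_const r r
    refine (h3.congr_of_eventuallyEq (.of_forall fun s => ?_)).congr_deriv (sub_self r)
    have e : P s = fun z => P (s - r) (P r z) := funext fun z => by rw [← hP.add, sub_add_cancel]
    have e2 := dif_comp (hP.slice (s - r) (P r x)) (hP.slice r x)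
    rw [← e] at e2
    simp only [e2, ContinuousLinearMap.comp_apply]
    rw [← hP.add, sub_add_cancel]
  have h4 := (convex_uIcc (𝕜 := ℝ) 0 t).norm_image_sub_le_of_norm_hasDerivWithin_le (C := 0)
    (fun r hr => (h1 r hr).hasDerivWithinAt) (fun r _ => by simp) left_mem_uIcc right_mem_uIcc
  rw [zero_mul, norm_le_zero_iff, sub_eq_zero, hP.zero, dif_id' hP.zero, dif_id' hP.zero] at h4
  exact h4

omit [FiniteDimensional ℝ F] [IsManifold 𝓘(ℝ, F) ∞ W] in
theorem ker_pres (hm : ContMDiff 𝓘(ℝ, F) 𝓘(ℝ, ℂ) ∞ m) (hg : MDifferentiableAt 𝓘(ℝ, F) 𝓘(ℝ, F) g x)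
    {L : ℂ → ℂ} (hL : Differentiable ℝ L) (e : ∀ z, m (g z) = L (m z)) {u : F}
    (hu : dif F ℂ m x u = 0) : dif F ℂ m (g x) (dif F F g x u) = 0 := by
  have h1 := dif_comp (g := m) (hm.mdifferentiableAt (by simp)) hg
  rw [funext e, dif_comp (hL _).mdifferentiableAt (hm.mdifferentiableAt (by simp))] at h1
  have h2 := congrArg (fun A : F →L[ℝ] ℂ => A u) h1
  simp only [ContinuousLinearMap.comp_apply, hu, map_zero] at h2
  exact h2.symm

theorem IsFlow.pk (hP : IsFlow Y P) (hσ : IsSymplectic σ) (hm : ContMDiff 𝓘(ℝ, F) 𝓘(ℝ, ℂ) ∞ m)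
    {L : ℝ → ℂ → ℂ} (hL : ∀ s, Differentiable ℝ (L s)) (e : ∀ s z, m (P s z) = L s (m z)) {t : ℝ}
    (h : ∀ r ∈ uIcc 0 t, Adm σ m Y (P r x)) : PK σ m (P t) x := by
  refine ⟨hP.slice t x, fun u hu => ker_pres hm (hP.slice t x) (hL t) (e t) hu,
    fun u v hu hv => hP.const (fun z a b => σ z a b) u v t fun r hr => ?_⟩
  refine ((hP.fam _).lie (hσ.smooth _) _ _).congr_deriv ?_
  rw [(sm_contract hσ (h r hr).vf).2]
  exact (h r hr).ker _ _ (ker_pres hm (hP.slice r x) (hL r) (e r) hu)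
    (ker_pres hm (hP.slice r x) (hL r) (e r) hv)

/-- Conversely, the generator of a flow that preserves the form on the level is admissible. -/
theorem IsFlow.adm (hP : IsFlow Y P) (hY : VF Y) (hσ : IsSymplectic σ)
    (h : ∀ t, PK σ m (P t) x) : Adm σ m Y x := by
  refine ⟨hY x, fun u v hu hv => ?_⟩
  rw [← (sm_contract hσ (hY x)).2]
  refine ((hP.fam x).lie (hσ.smooth x) u v).unique ?_
  simp only [fun t => (h t).form u v hu hv]
  exact hasDerivAt_const _ _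

omit [FiniteDimensional ℝ F] [IsManifold 𝓘(ℝ, F) ∞ W] in
theorem PK.comp (h' : PK σ m g' (g x)) (h : PK σ m g x) : PK σ m (fun z => g' (g z)) x := by
  refine ⟨h'.md.comp x h.md, fun u hu => ?_, fun u v hu hv => ?_⟩
  · rw [dif_comp h'.md h.md]
    exact h'.ker _ (h.ker u hu)
  · rw [dif_comp h'.md h.md, ← h.form u v hu hv]
    exact h'.form _ _ (h.ker u hu) (h.ker v hv)

theorem IsAction.flow (h : IsAction F φ) (ξ : R2) : IsFlow (gen F φ ξ) fun s => φ (s • ξ) :=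
  ⟨h.smooth.comp ((contMDiff_fst.smul contMDiff_const).prodMk contMDiff_snd),
    fun x => by simp only [zero_smul, h.zero], fun s t x => by simp only [add_smul, h.add],
    h.gen_curve ξ⟩

/-- A Hamiltonian action preserves the form. -/
theorem Ham.pres (hH : Ham σ φ m) (hφ : IsAction F φ) (hm : ContMDiff 𝓘(ℝ, F) 𝓘(ℝ, ℂ) ∞ m)
    (t : R2) (x : W) (u v : F) : σ (φ t x) (dif F F (φ t) x u) (dif F F (φ t) x v) = σ x u v := by
  have h1 := (hφ.flow t).const (x := x) (fun z a b => σ z a b) u v 1 fun r _ => by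
    refine (((hφ.flow t).fam _).lie (hH.symplectic.smooth _) _ _).congr_deriv ?_
    have hθ : ContMDiff 𝓘(ℝ, F) 𝓘(ℝ, ℝ) ∞ fun z => (-pr t) (m z) :=
      (-pr t).contDiff.contMDiff.comp hm
    rw [(sm_contract hH.symplectic (hφ.gen_vf t _)).2,
      extD_congr (β := dif F ℝ fun z => (-pr t) (m z)) (.of_forall fun z => ?_), (sm_dif (hθ _)).2]
    ext w
    rw [dif_comp (-pr t).mdifferentiableAt (hm.mdifferentiableAt (by simp)), dif_fderiv,
      (-pr t).fderiv]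
    simp [hH.ham]
  simpa only [one_smul] using h1

/-- The dual of an invariant form is invariant. -/
theorem Ham.dual_inv (hH : Ham σ φ m) (hφ : IsAction F φ) (hm : ContMDiff 𝓘(ℝ, F) 𝓘(ℝ, ℂ) ∞ m)
    {α : W → F →L[ℝ] ℝ} {t : R2} (h : ∀ u, α (φ t x) (dif F F (φ t) x u) = α x u) :
    dif F F (φ t) x (dual σ α x) = dual σ α (φ t x) := by
  refine sigma_ext hH.symplectic (x := φ t x) fun w => ?_
  obtain ⟨u, rfl⟩ : ∃ u, dif F F (φ t) x u = w := by
    refine ⟨dif F F (φ (-t)) (φ t x) w, ?_⟩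
    have h1 := hφ.dif_add t (-t) (φ t x) w
    rw [add_neg_cancel, hφ.dif_zero, ← hφ.add, neg_add_cancel, hφ.zero] at h1
    exact h1.symm
  rw [hH.pres hφ hm, dual_spec hH.symplectic, dual_spec hH.symplectic, h]

omit [IsManifold 𝓘(ℝ, F) ∞ W] in
theorem Ham.dif_dual (hH : Ham σ φ m) (α : W → F →L[ℝ] ℝ) (x : W) (ξ : R2) :
    pr ξ (dif F ℂ m x (dual σ α x)) = α x (gen F φ ξ x) := by
  rw [hH.ham, hH.symplectic.skew, neg_neg, dual_spec hH.symplectic]

theorem IsFlow.agree [T2Space W] {P' : ℝ → W → W} (hP : IsFlow Y P) (hP' : IsFlow Y' P') (hY : VF Y)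
    {a b : ℝ} (h0 : (0 : ℝ) ∈ Ioo a b) (h : ∀ t ∈ Ioo a b, Y (P' t x) = Y' (P' t x)) :
    ∀ t ∈ Ioo a b, P t x = P' t x := fun t ht => by
  have := hP.eqOn hY (γ := fun s => P' s x) h0 (fun s hs => by
    rw [h s hs]
    exact hP'.curve x s) t ht
  rwa [hP'.zero] at this

end Pool.Agent.P.MP_49bf82_gt
end

-- part Pool.Agent.P.MP_49bf82_gt.SAngle
section

open Manifold Set Filter Topology
open scoped ContDiff

namespace Pool.Agent.P.MP_49bf82_gt

open Pool.Agent.P.MP_e3ee0c_gt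

variable {E F : Type*} [NormedAddCommGroup E] [NormedSpace ℝ E] [FiniteDimensional ℝ E]
  [NormedAddCommGroup F] [NormedSpace ℝ F] [FiniteDimensional ℝ F]
  {V W : Type*} [TopologicalSpace V] [ChartedSpace E V] [IsManifold 𝓘(ℝ, E) ∞ V]
  [TopologicalSpace W] [ChartedSpace F W] [IsManifold 𝓘(ℝ, F) ∞ W]
  {Φ : V → ℂ} {ι : ℝ × V × R2 → W} {φ : R2 → W → W} {m : W → ℂ} {h : W → ℝ}
  {σ : W → F →L[ℝ] F →L[ℝ] ℝ} {e : W → F →L[ℝ] R2}

theorem IsEnd.dEnd_shift (he : IsEnd E F ι φ) (hφ : IsAction F φ) {y : ℝ × V × R2} (hy : 0 < y.1)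
    (t : R2) (b : ℝ × E × R2) :
    dif F F (φ t) (ι y) (dEnd E F ι y b) = dEnd E F ι (y.1, y.2.1, y.2.2 + t) b := by
  have h1 := mfderiv_comp y ((hφ.smooth_at t (ι y)).mdifferentiableAt (by simp)) (endd_mdiff he hy)
  have s2 := hasMFDerivAt_snd (I := 𝓘(ℝ, ℝ)) (I' := 𝓘(ℝ, E).prod 𝓘(ℝ, R2)) y
  have h2 := (hasMFDerivAt_fst (I := 𝓘(ℝ, ℝ)) (I' := 𝓘(ℝ, E).prod 𝓘(ℝ, R2)) y).prodMk
    ((HasMFDerivAt.comp y (hasMFDerivAt_fst (I := 𝓘(ℝ, E)) (I' := 𝓘(ℝ, R2)) y.2) s2).prodMk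
      (HasMFDerivAt.comp y ((hasFDerivAt_id y.2.2).add_const t).hasMFDerivAt
        (HasMFDerivAt.comp y (hasMFDerivAt_snd (I := 𝓘(ℝ, E)) (I' := 𝓘(ℝ, R2)) y.2) s2)))
  have h3 := (HasMFDerivAt.comp y
    (endd_mdiff he (y := (y.1, y.2.1, y.2.2 + t)) hy).hasMFDerivAt h2).congr_of_eventuallyEq
      (f₁ := φ t ∘ ι) ((endd_pos hy).mono fun z hz => he.equivariant z.1 z.2.1 z.2.2 t hz)
  exact congrArg (fun L : (ℝ × E × R2) →L[ℝ] F => L b) (h1.symm.trans h3.mfderiv)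

theorem IsEnd.dEnd_eq (he : IsEnd E F ι φ) (hφ : IsAction F φ) {y z : ℝ × V × R2} (hy : 0 < y.1)
    (hz : 0 < z.1) (hyz : ι y = ι z) (b : ℝ × E × R2) : dEnd E F ι y b = dEnd E F ι z b := by
  obtain ⟨e1, e2, k, e3⟩ := he.inj y z hy hz hyz
  have h1 := he.dEnd_shift hφ hz (rv k) b
  rw [dif_id' (g := φ (rv k)) (hφ.periodic k)] at h1
  rw [h1]
  congr 2
  exact Prod.ext e1 (Prod.ext e2 e3)

theorem angle_loc (he : IsEnd E F ι φ) {y : ℝ × V × R2} (hy : 0 < y.1) :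
    ∃ θ : W → R2, ∀ᶠ x in 𝓝 (ι y), ContMDiffAt 𝓘(ℝ, F) 𝓘(ℝ, R2) ∞ θ x ∧
      ∃ z : ℝ × V × R2, 0 < z.1 ∧ ι z = x ∧ ∀ b, dif F R2 θ x (dEnd E F ι z b) = b.2.2 := by
  have hf := he.localDiffeo y hy
  refine ⟨fun x => (hf.localInverse x).2.2, ?_⟩
  filter_upwards [height_near he hy hy,
    hf.localInverse_open_source.mem_nhds hf.localInverse_mem_source] with x h1 h2
  have h3 : ContMDiffAt 𝓘(ℝ, F) 𝓘(ℝ, R2) ∞ (fun x => (hf.localInverse x).2.2) x :=
    contMDiffAt_snd.comp x (contMDiffAt_snd.comp x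
      (hf.localInverse_contMDiffOn.contMDiffAt (hf.localInverse_open_source.mem_nhds h2)))
  refine ⟨h3, hf.localInverse x, h1.1, h1.2, fun b => ?_⟩
  have h4 := he.dif_dEnd (g := fun x => (hf.localInverse x).2.2) h1.1
    (by rw [h1.2]; exact h3.mdifferentiableAt (by simp)) b
  rw [h1.2] at h4
  rw [h4]
  have h5 := (HasMFDerivAt.comp (hf.localInverse x)
    (hasMFDerivAt_snd (I := 𝓘(ℝ, E)) (I' := 𝓘(ℝ, R2)) (hf.localInverse x).2)
    (hasMFDerivAt_snd (I := 𝓘(ℝ, ℝ)) (I' := 𝓘(ℝ, E).prod 𝓘(ℝ, R2))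
      (hf.localInverse x))).congr_of_eventuallyEq
      (f₁ := fun z => (hf.localInverse (ι z)).2.2) (by
        filter_upwards [hf.localInverse.open_target.mem_nhds (hf.localInverse.map_source h2)]
          with z hz
        rw [hf.localInverse_left_inv hz]
        rfl)
  exact congrArg (fun L : (ℝ × E × R2) →L[ℝ] R2 => L b) h5.mfderiv

variable (E) in
/-- The angle form on the end. -/
def IsAngle (ι : ℝ × V × R2 → W) (e : W → F →L[ℝ] R2) : Prop :=
  ∀ y : ℝ × V × R2, 0 < y.1 → ∀ b, e (ι y) (dEnd E F ι y b) = b.2.2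

theorem IsEnd.exists_angle (he : IsEnd E F ι φ) (hφ : IsAction F φ) :
    ∃ e : W → F →L[ℝ] R2, IsAngle E ι e := by
  have key : ∀ x, ∃ l : F →L[ℝ] R2, ∀ y : ℝ × V × R2, 0 < y.1 → ι y = x →
      ∀ b, l (dEnd E F ι y b) = b.2.2 := by
    intro x
    by_cases hx : ∃ y : ℝ × V × R2, 0 < y.1 ∧ ι y = x
    · obtain ⟨y₀, h0, rfl⟩ := hx
      obtain ⟨θ, hθ⟩ := angle_loc he h0
      obtain ⟨-, z, h1, h2, h3⟩ := hθ.self_of_nhds
      exact ⟨_, fun y hy e b => by rw [he.dEnd_eq hφ hy h1 (e.trans h2.symm), h3]⟩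
    · exact ⟨0, fun y hy e => (hx ⟨y, hy, e⟩).elim⟩
  choose e h using key
  exact ⟨e, fun y hy => h _ y hy rfl⟩

theorem IsAngle.loc (ha : IsAngle E ι e) (he : IsEnd E F ι φ) {y : ℝ × V × R2} (hy : 0 < y.1) :
    ∃ θ : W → R2, ∀ᶠ x in 𝓝 (ι y), ContMDiffAt 𝓘(ℝ, F) 𝓘(ℝ, R2) ∞ θ x ∧ e x = dif F R2 θ x := by
  obtain ⟨θ, hθ⟩ := angle_loc he hy
  refine ⟨θ, hθ.mono ?_⟩
  rintro _ ⟨h1, z, hz, rfl, h2⟩
  refine ⟨h1, ContinuousLinearMap.ext fun w => ?_⟩
  obtain ⟨b, rfl⟩ := (he.bijective hz).2 w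
  rw [ha z hz, h2]

theorem IsAngle.inv (ha : IsAngle E ι e) (he : IsEnd E F ι φ) (hφ : IsAction F φ)
    {y : ℝ × V × R2} (hy : 0 < y.1) (t : R2) (w : F) :
    e (φ t (ι y)) (dif F F (φ t) (ι y) w) = e (ι y) w := by
  obtain ⟨b, rfl⟩ := (he.bijective hy).2 w
  rw [he.dEnd_shift hφ hy, show φ t (ι y) = ι (y.1, y.2.1, y.2.2 + t) from
    he.equivariant _ _ _ t hy, ha y hy, ha (y.1, y.2.1, y.2.2 + t) hy]

theorem IsAngle.gen (ha : IsAngle E ι e) (he : IsEnd E F ι φ) {y : ℝ × V × R2} (hy : 0 < y.1)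
    (ξ : R2) : e (ι y) (gen F φ ξ (ι y)) = ξ := by
  rw [he.gen_eq hy, ha y hy]

/-- A cutoff that vanishes below height 3 and is 1 above height 4. -/
theorem vf_cut (hh : IsHeight F ι φ h) {Y : W → F}
    (hY : ∀ y : ℝ × V × R2, 0 < y.1 → VFAt Y (ι y)) :
    VF fun x => Real.smoothTransition (h x - 3) • Y x := by
  intro x
  by_cases hx : 2 ≤ h x
  · obtain ⟨y, hy, rfl⟩ := hh.big x hx
    exact (hY y (by linarith)).smul
      ((Real.smoothTransition.contDiff.comp (contDiff_id.sub contDiff_const)).contMDiff.comp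
        hh.smooth _)
  · refine VFAt.congr (Y := fun _ => 0) (Bundle.contMDiffAt_zeroSection ℝ _) ?_
    filter_upwards [(hh.smooth.continuous.continuousAt (x := x)).eventually
      (gt_mem_nhds (not_le.1 hx))] with z hz
    rw [Real.smoothTransition.zero_of_nonpos (by linarith), zero_smul]

theorem dif_gen_inv {G : Type*} [NormedAddCommGroup G] [NormedSpace ℝ G] {g : W → G}
    (hφ : IsAction F φ) (hg : ContMDiff 𝓘(ℝ, F) 𝓘(ℝ, G) ∞ g) (hi : ∀ t x, g (φ t x) = g x)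
    (ξ : R2) (x : W) : dif F G g x (gen F φ ξ x) = 0 := by
  have h1 := dif_comp (g := g) (f := fun t => φ t x) (x := 0) (hg.mdifferentiableAt (by simp))
    ((hφ.smooth_orbit x).mdifferentiableAt (by simp))
  simp only [hi, hφ.zero] at h1
  have h2 : dif R2 G (fun _ : R2 => g x) 0 = 0 := mfderiv_const
  exact (congrArg (fun L : R2 →L[ℝ] G => L ξ) (h1.symm.trans h2) :)

/-- A lift that does not turn the angle far out on the end. -/
theorem Core.exists_flat [T2Space W] [SigmaCompactSpace W] (hc : Core E F Φ ι φ m)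
    (hh : IsHeight F ι φ h) (hs : ∀ x, Function.Surjective (dif F ℂ m x)) (ha : IsAngle E ι e) :
    ∃ (Y : W → F) (C : ℝ), VF Y ∧ Inv φ Y ∧ (∀ x, dif F ℂ m x (Y x) = 1) ∧
      (∀ x, |dif F ℝ h x (Y x)| ≤ C) ∧ ∀ x, 4 ≤ h x → e x (Y x) = 0 := by
  obtain ⟨Y, C, h1, h2, h3, h4⟩ := hc.exists_lift hh hs 1
  have eg : ∀ (ξ : R2) x, gen F φ ξ x = ξ 0 • gen F φ ![1, 0] x + ξ 1 • gen F φ ![0, 1] x := by
    intro ξ x
    unfold gen
    rw [← map_smul, ← map_smul, ← map_add]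
    congr 1
    ext i
    fin_cases i <;> simp
  have h5 : ∀ y : ℝ × V × R2, 0 < y.1 → VFAt (fun x => gen F φ (-e x (Y x)) x) (ι y) := by
    intro y hy
    obtain ⟨θ, hθ⟩ := ha.loc hc.isEnd hy
    have h6 : ContMDiffAt 𝓘(ℝ, F) 𝓘(ℝ, R2) ∞ (fun x => -e x (Y x)) (ι y) :=
      (((h1 _).dif_apply hθ.self_of_nhds.1).congr_of_eventuallyEq
        (hθ.mono fun x hx => by simp only [hx.2])).neg
    have h7 := fun i : Fin 2 => (contDiff_apply ℝ ℝ i).contMDiff.contMDiffAt.comp (ι y) h6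
    exact (((hc.action.gen_vf ![1, 0] _).smul (h7 0)).add
      ((hc.action.gen_vf ![0, 1] _).smul (h7 1))).congr (.of_forall fun x => eg _ x)
  refine ⟨fun x => Y x + Real.smoothTransition (h x - 3) • gen F φ (-e x (Y x)) x, C,
    fun x => (h1 x).add (vf_cut hh h5 x), fun t x => ?_, fun x => ?_, fun x => ?_, fun x hx => ?_⟩
  · simp only [map_add, map_smul, hh.invariant, h2 t x, hc.action.gen_inv _ t x]
    by_cases hx : 2 ≤ h x
    · obtain ⟨y, hy, rfl⟩ := hh.big x hx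
      rw [← h2 t, ha.inv hc.isEnd hc.action (by linarith)]
    · rw [Real.smoothTransition.zero_of_nonpos (by linarith), zero_smul, zero_smul]
  · simp only [map_add, map_smul, dif_gen_inv hc.action hc.smooth hc.invariant, h3, smul_zero,
      add_zero]
  · simp only [map_add, map_smul, dif_gen_inv hc.action hh.smooth hh.invariant, smul_zero,
      add_zero, h4]
  · obtain ⟨y, hy, rfl⟩ := hh.big x (by linarith)
    simp only [map_add, map_smul, ha.gen hc.isEnd (show 0 < y.1 by linarith)]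
    rw [Real.smoothTransition.one_of_one_le (by linarith), one_smul, add_neg_cancel]

end Pool.Agent.P.MP_49bf82_gt
end

-- part Pool.Agent.P.MP_49bf82_gt.SPull
section

open Manifold Set Filter Topology
open scoped ContDiff

namespace Pool.Agent.P.MP_49bf82_gt

open Pool.Agent.P.MP_e3ee0c_gt

variable {E F : Type*} [NormedAddCommGroup E] [NormedSpace ℝ E] [FiniteDimensional ℝ E]
  [NormedAddCommGroup F] [NormedSpace ℝ F] [FiniteDimensional ℝ F]
  {V W : Type*} [TopologicalSpace V] [ChartedSpace E V] [IsManifold 𝓘(ℝ, E) ∞ V]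
  [TopologicalSpace W] [ChartedSpace F W] [IsManifold 𝓘(ℝ, F) ∞ W]
  {Φ : V → ℂ} {ι : ℝ × V × R2 → W} {φ : R2 → W → W} {m : W → ℂ} {h : W → ℝ}
  {σ : W → F →L[ℝ] F →L[ℝ] ℝ} {e : W → F →L[ℝ] R2}

variable (E) in
/-- A flat invariant connection form that is the angle form far out on the end. -/
structure Conn (ι : ℝ × V × R2 → W) (φ : R2 → W → W) (m : W → ℂ) (h : W → ℝ) (ρ N : ℝ)
    (A : W → F →L[ℝ] R2) : Prop where
  loc : ∀ x, ‖m x‖ ≤ ρ ∨ N ≤ h x →
    ∃ θ : W → R2, ContMDiffAt 𝓘(ℝ, F) 𝓘(ℝ, R2) ∞ θ x ∧ A =ᶠ[𝓝 x] dif F R2 θ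
  inv : ∀ x, ‖m x‖ ≤ ρ ∨ N ≤ h x → ∀ t w, A (φ t x) (dif F F (φ t) x w) = A x w
  gen : ∀ x, ‖m x‖ ≤ ρ ∨ N ≤ h x → ∀ ξ, A x (gen F φ ξ x) = ξ
  far : ∀ y : ℝ × V × R2, N ≤ y.1 → ∀ b, A (ι y) (dEnd E F ι y b) = b.2.2
  big : 4 ≤ N

omit [FiniteDimensional ℝ F] [IsManifold 𝓘(ℝ, F) ∞ W] in
theorem spull_lin {θ : W → R2} {A : W → F →L[ℝ] R2} {x : W}
    (hθ : ContMDiffAt 𝓘(ℝ, F) 𝓘(ℝ, R2) ∞ θ x) (hA : A =ᶠ[𝓝 x] dif F R2 θ) (l : R2 →L[ℝ] ℝ)
    [IsManifold 𝓘(ℝ, F) ∞ W] :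
    ContMDiffAt 𝓘(ℝ, F) 𝓘(ℝ, ℝ) ∞ (fun z => l (θ z)) x ∧
      (fun z => l.comp (A z)) =ᶠ[𝓝 x] dif F ℝ fun z => l (θ z) := by
  refine ⟨l.contDiff.contMDiff.contMDiffAt.comp x hθ, ?_⟩
  have h2 : ∀ᶠ z in 𝓝 x, ContMDiffAt 𝓘(ℝ, F) 𝓘(ℝ, R2) 1 θ z :=
    (contMDiffAt_iff_contMDiffAt_nhds (by simp)).1 (hθ.of_le (by simp))
  filter_upwards [hA, h2] with z h3 h4
  rw [dif_comp l.mdifferentiableAt (h4.mdifferentiableAt (by simp)), dif_fderiv, l.fderiv, h3]

theorem Core.exists_conn [T2Space W] [SigmaCompactSpace W] (hc : Core E F Φ ι φ m)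
    (hh : IsHeight F ι φ h) (hs : ∀ x, Function.Surjective (dif F ℂ m x)) (ρ : ℝ) :
    ∃ (N : ℝ) (A : W → F →L[ℝ] R2), Conn E ι φ m h ρ N A := by
  obtain ⟨e, ha⟩ := hc.isEnd.exists_angle hc.action
  obtain ⟨Y, C, h1, h2, h3, h4, h5⟩ := hc.exists_flat hh hs ha
  obtain ⟨P, hP, hM⟩ := exists_mover h1 hc.action h2 hh.smooth hh.compact h4
  obtain ⟨M, hb⟩ := (hh.compact 3).exists_bound_of_continuousOn hc.smooth.continuous.continuousOn
  obtain ⟨T, hT⟩ : ∃ T, T = |ρ| + |M| + 1 := ⟨_, rfl⟩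
  have hT0 : 0 ≤ T := by rw [hT]; positivity
  have hN : ∀ x, 5 + |C| * T ≤ h x → ∀ r ∈ uIcc 0 T, 4 < h (P r x) := by
    intro x hx r hr
    rw [uIcc_of_le hT0] at hr
    have a1 := (abs_le.1 (hM.height r x)).1
    have a2 : C * |r| ≤ |C| * T :=
      mul_le_mul (le_abs_self C) (by rw [abs_of_nonneg hr.1]; exact hr.2) (abs_nonneg r)
        (abs_nonneg C)
    linarith
  have hE : ∀ x, ‖m x‖ ≤ ρ ∨ 5 + |C| * T ≤ h x → ∃ y : ℝ × V × R2, 0 < y.1 ∧ ι y = P T x := by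
    intro x hx
    have : 2 ≤ h (P T x) := by
      rcases hx with hx | hx
      · by_contra hcon
        have a1 := hb (P T x) (show h (P T x) ≤ 3 by linarith)
        rw [hP.translate hc.smooth h3, mul_one] at a1
        have a2 := norm_sub_le (m x + T) (m x)
        rw [add_sub_cancel_left, Complex.norm_real, Real.norm_of_nonneg hT0] at a2
        linarith [le_abs_self ρ, le_abs_self M]
      · linarith [hN x hx T right_mem_uIcc]
    obtain ⟨y, hy, e⟩ := hh.big _ this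
    exact ⟨y, by linarith, e⟩
  have hsm : ∀ x, ContMDiffAt 𝓘(ℝ, F) 𝓘(ℝ, F) ∞ (P T) x := fun x => mflowb_slice (hP.smooth (T, x))
  refine ⟨5 + |C| * T, fun x => (e (P T x)).comp (dif F F (P T) x), fun x hx => ?_,
    fun x hx t w => ?_, fun x hx ξ => ?_, fun y hy b => ?_, by linarith [mul_nonneg (abs_nonneg C) hT0]⟩
  · obtain ⟨y, hy, ey⟩ := hE x hx
    obtain ⟨θ, hθ⟩ := ha.loc hc.isEnd hy
    rw [ey] at hθ
    refine ⟨fun z => θ (P T z), hθ.self_of_nhds.1.comp x (hsm x), ?_⟩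
    filter_upwards [(hsm x).continuousAt.eventually hθ] with z hz
    rw [dif_comp (hz.1.mdifferentiableAt (by simp)) (hP.slice T z), hz.2]
  · obtain ⟨y, hy, ey⟩ := hE x hx
    have a1 := dif_comp (hP.slice T (φ t x)) ((hc.action.smooth_at t x).mdifferentiableAt (by simp))
    have a2 := dif_comp ((hc.action.smooth_at t (P T x)).mdifferentiableAt (by simp)) (hP.slice T x)
    simp only [hM.equiv] at a1
    have a3 := congrArg (fun L : F →L[ℝ] F => L w) (a1.symm.trans a2)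
    simp only [ContinuousLinearMap.comp_apply] at a3 ⊢
    rw [a3, hM.equiv, ← ey, ha.inv hc.isEnd hc.action hy]
  · obtain ⟨y, hy, ey⟩ := hE x hx
    have a1 := dif_comp (g := P T) (f := fun t => φ t x) (x := 0) (hP.slice T _)
      ((hc.action.smooth_orbit x).mdifferentiableAt (by simp))
    simp only [hM.equiv, hc.action.zero] at a1
    have a2 : gen F φ ξ (P T x) = dif F F (P T) x (gen F φ ξ x) :=
      congrArg (fun L : R2 →L[ℝ] F => L ξ) a1
    rw [ContinuousLinearMap.comp_apply, ← a2, ← ey, ha.gen hc.isEnd hy]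
  · have hy2 : 2 ≤ y.1 := by linarith [mul_nonneg (abs_nonneg C) hT0]
    rw [← ha y (by linarith) b]
    funext i
    refine hP.const (x := ι y) (fun z u _ => e z u i) (dEnd E F ι y b) 0 T fun r hr => ?_
    have a1 := hN (ι y) (by rwa [hh.onEnd y hy2]) r hr
    obtain ⟨z, hz, ez⟩ := hh.big (P r (ι y)) (by linarith)
    obtain ⟨θ, hθ⟩ := ha.loc hc.isEnd (show 0 < z.1 by linarith)
    rw [ez] at hθ
    obtain ⟨a2, a3⟩ := spull_lin hθ.self_of_nhds.1 (hθ.mono fun _ h => h.2)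
      (ContinuousLinearMap.proj i)
    have a4 := (sm_dif a2).1.congr a3
    refine ((hP.fam _).lie_one a4 _).congr_deriv ?_
    rw [(a4.apply (h1 _)).2, extD_congr a3, (sm_dif a2).2, zero_add,
      dif_congr (g := fun _ => (0 : ℝ))]
    · exact congrArg (fun L : F →L[ℝ] ℝ => L _) mfderiv_const
    · filter_upwards [(hh.smooth.continuous.continuousAt (x := P r (ι y))).eventually
        (lt_mem_nhds a1)] with w hw
      simp [h5 w hw.le]

end Pool.Agent.P.MP_49bf82_gt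
end

-- part Pool.Agent.P.MP_49bf82_gt.Fix
section

open Manifold Set Filter Topology
open scoped ContDiff RealInnerProductSpace

namespace Pool.Agent.P.MP_49bf82_gt

open Pool.Agent.P.MP_e3ee0c_gt

variable {F : Type*} [NormedAddCommGroup F] [NormedSpace ℝ F] [FiniteDimensional ℝ F]
  {W : Type*} [TopologicalSpace W] [ChartedSpace F W] [IsManifold 𝓘(ℝ, F) ∞ W]

variable {φ : R2 → W → W}

omit [FiniteDimensional ℝ F] [IsManifold 𝓘(ℝ, F) ∞ W] in
theorem fix_all [T2Space W] (h : IsAction F φ) {ξ : R2} (h0 : ξ 0 ≠ 0)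
    (hi : Irrational (ξ 1 / ξ 0)) {x : W} (hx : ∀ s : ℝ, φ (s • ξ) x = x) (t : R2) :
    φ t x = x := by
  let S : AddSubgroup ℝ :=
    { carrier := {b | φ ![0, b] x = x}
      add_mem' := fun {a b} ha hb => by
        have e : (![0, a + b] : R2) = ![0, a] + ![0, b] := by simp
        change φ ![0, a + b] x = x
        rw [e, h.add, hb, ha]
      zero_mem' := by
        have e : (![0, 0] : R2) = 0 := by simp
        change φ ![0, 0] x = x
        rw [e, h.zero]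
      neg_mem' := fun {a} ha => by
        have e : (![0, -a] : R2) + ![0, a] = 0 := by simp
        change φ ![0, -a] x = x
        have := h.add ![0, -a] ![0, a] x
        rwa [e, h.zero, ha, eq_comm] at this }
  have hc : IsClosed (S : Set ℝ) := by
    refine isClosed_eq (h.smooth.continuous.comp (f := fun b : ℝ => ((![0, b] : R2), x)) ?_)
      continuous_const
    fun_prop
  have h1 : AddSubgroup.closure {ξ 1 / ξ 0, 1} ≤ S := by
    rw [AddSubgroup.closure_le]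
    rintro b (rfl | rfl)
    · have e : (![0, ξ 1 / ξ 0] : R2) = (fun i => (((![-1, 0] : Fin 2 → ℤ) i : ℤ) : ℝ)) +
          (ξ 0)⁻¹ • ξ := by
        ext i
        fin_cases i
        · simp [h0]
        · simp [div_eq_inv_mul]
      change φ ![0, ξ 1 / ξ 0] x = x
      rw [e, h.add, hx, h.periodic]
    · have e : (![0, 1] : R2) = fun i => (((![0, 1] : Fin 2 → ℤ) i : ℤ) : ℝ) := by
        ext i
        fin_cases i <;> simp
      change φ ![0, 1] x = x
      rw [e, h.periodic]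
  have h2 : Dense (S : Set ℝ) :=
    (dense_addSubgroupClosure_pair_iff.2 (by rwa [div_one])).mono h1
  have h3 : ∀ b, φ ![0, b] x = x := fun b => hc.closure_subset (h2 b)
  have e : t = ![0, t 1 - t 0 / ξ 0 * ξ 1] + (t 0 / ξ 0) • ξ := by
    ext i
    fin_cases i
    · simp [h0]
    · simp
  rw [e, h.add, hx, h3]

/-- A point fixed by a line is fixed by a circle subgroup. -/
theorem IsAction.fix_circle [T2Space W] (h : IsAction F φ) {ξ : R2} (hξ : ξ ≠ 0) {x : W}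
    (hx : ∀ s : ℝ, φ (s • ξ) x = x) :
    ∃ k : Fin 2 → ℤ, rv k ≠ 0 ∧ ∀ s : ℝ, φ (s • rv k) x = x := by
  have n01 : rv ![0, 1] ≠ 0 := fun e => by simpa [rv] using congrFun e 1
  by_cases h0 : ξ 0 = 0
  · have h1 : ξ 1 ≠ 0 := fun h1 => hξ (by
      ext i
      fin_cases i
      · exact h0
      · exact h1)
    refine ⟨![0, 1], n01, fun s => ?_⟩
    have e : s • rv ![0, 1] = (s / ξ 1) • ξ := by
      ext i
      fin_cases i
      · simp [rv, h0]
      · simp [rv, h1]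
    rw [e, hx]
  by_cases hi : Irrational (ξ 1 / ξ 0)
  · exact ⟨![0, 1], n01, fun s => fix_all h h0 hi hx _⟩
  obtain ⟨q, hq⟩ := not_not.1 hi
  have hd : (q.den : ℝ) ≠ 0 := by exact_mod_cast q.den_nz
  refine ⟨![q.den, q.num], fun e => hd (by simpa [rv] using congrFun e 0), fun s => ?_⟩
  have e : s • rv ![q.den, q.num] = (s * q.den / ξ 0) • ξ := by
    ext i
    fin_cases i
    · simp [rv, h0]
    · rw [Rat.cast_def, div_eq_div_iff hd h0] at hq
      simp only [rv, Pi.smul_apply, smul_eq_mul]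
      change s * (q.num : ℝ) = s * q.den / ξ 0 * ξ 1
      field_simp
      linear_combination s * hq
  rw [e, hx]

/-- A point fixed by an irrational line is fixed by the torus. -/
theorem IsAction.fix_theta [T2Space W] (h : IsAction F φ) {x : W}
    (hx : ∀ s : ℝ, φ (s • theta) x = x) (t : R2) : φ t x = x :=
  fix_all h (ξ := theta) (by simp [theta]) (by simpa [theta] using irrational_sqrt_two) hx t

/-- A function with zero differential on a connected open set is constant there. -/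
theorem const_of_mfderiv {E₀ H₀ N G : Type*} [NormedAddCommGroup E₀] [NormedSpace ℝ E₀]
    [TopologicalSpace H₀] {J : ModelWithCorners ℝ E₀ H₀} [J.Boundaryless] [TopologicalSpace N]
    [ChartedSpace H₀ N] [IsManifold J ∞ N] [NormedAddCommGroup G] [NormedSpace ℝ G] {g : N → G}
    {U : Set N} (hU : IsOpen U) (hc : IsPreconnected U)
    (hg : ∀ x ∈ U, HasMFDerivAt J 𝓘(ℝ, G) g x 0) {x y : N} (hx : x ∈ U) (hy : y ∈ U) :
    g x = g y := by
  refine hc.induction₂' (fun a b => g a = g b) (fun p hp => ?_) (fun _ _ _ _ _ _ => Eq.trans)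
    hx hy
  have hT : IsOpen ((extChartAt J p).target ∩ (extChartAt J p).symm ⁻¹' U) :=
    (continuousOn_extChartAt_symm p).isOpen_inter_preimage (isOpen_extChartAt_target p) hU
  have hd : ∀ z ∈ (extChartAt J p).target ∩ (extChartAt J p).symm ⁻¹' U,
      HasFDerivAt (g ∘ (extChartAt J p).symm) (0 : E₀ →L[ℝ] G) z := by
    intro z hz
    have h1 := ((contMDiffOn_extChartAt_symm (I := J) (n := ∞) p).contMDiffAt
      ((isOpen_extChartAt_target p).mem_nhds hz.1)).mdifferentiableAt (by simp)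
    have h2 := (hg _ hz.2).comp z h1.hasMFDerivAt
    rw [ContinuousLinearMap.zero_comp] at h2
    exact hasMFDerivAt_iff_hasFDerivAt.1 h2
  have h3 := hT.isOpen_inter_preimage_of_fderiv_eq_zero (𝕜 := ℝ)
    (fun z hz => (hd z hz).differentiableAt.differentiableWithinAt)
    (fun z hz => (hd z hz).fderiv) {g p}
  have h4 := (continuousAt_extChartAt (I := J) p).preimage_mem_nhds (h3.mem_nhds
    ⟨⟨mem_extChartAt_target p, by simpa using hp⟩, by simp⟩)
  filter_upwards [nhdsWithin_le_nhds h4, nhdsWithin_le_nhds (extChartAt_source_mem_nhds (I := J) p)]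
    with y h5 h6
  have h7 : g ((extChartAt J p).symm (extChartAt J p y)) = g p := h5.2
  rw [(extChartAt J p).left_inv h6] at h7
  exact ⟨h7.symm, h7⟩

end Pool.Agent.P.MP_49bf82_gt
end

-- part Pool.Agent.P.MP_49bf82_gt.Norm
section

open Manifold Set Filter Topology
open scoped ContDiff RealInnerProductSpace

namespace Pool.Agent.P.MP_49bf82_gt

open Pool.Agent.P.MP_e3ee0c_gt

variable {E F : Type*} [NormedAddCommGroup E] [NormedSpace ℝ E] [FiniteDimensional ℝ E]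
  [NormedAddCommGroup F] [NormedSpace ℝ F] [FiniteDimensional ℝ F]
  {V W : Type*} [TopologicalSpace V] [ChartedSpace E V] [IsManifold 𝓘(ℝ, E) ∞ V]
  [TopologicalSpace W] [ChartedSpace F W] [IsManifold 𝓘(ℝ, F) ∞ W]
  {Φ : V → ℂ} {ι : ℝ × V × R2 → W} {φ : R2 → W → W} {m : W → ℂ} {h : W → ℝ}
  {f : ℝ → V → V} {a : ℝ × V → ℝ} {σ : W → F →L[ℝ] F →L[ℝ] ℝ}

/-- The plane as the complex line. -/
noncomputable def normL : R2 →L[ℝ] ℂ :=
  (ContinuousLinearMap.proj (R := ℝ) (φ := fun _ : Fin 2 => ℝ) 0).smulRight (1 : ℂ) -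
    (ContinuousLinearMap.proj (R := ℝ) (φ := fun _ : Fin 2 => ℝ) 1).smulRight Complex.I

theorem norm_pr_L (ξ t : R2) : pr ξ (normL t) = dotProduct t ξ := by
  simp [pr_apply, normL, dotProduct, Fin.sum_univ_two]
  ring

theorem norm_pr_ext {z w : ℂ} (hzw : ∀ ξ, pr ξ z = pr ξ w) : z = w := by
  have h0 := hzw ![1, 0]
  have h1 := hzw ![0, 1]
  simp only [pr_apply, Matrix.cons_val_zero, Matrix.cons_val_one, one_mul, zero_mul, sub_zero,
    zero_sub, neg_inj] at h0 h1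
  exact Complex.ext h0 h1

omit [FiniteDimensional ℝ F] [IsManifold 𝓘(ℝ, F) ∞ W] in
theorem norm_dif {μ : W → R2} (hμ : ContMDiff 𝓘(ℝ, F) 𝓘(ℝ, R2) ∞ μ) (c : ℂ) (x : W) (w : F) :
    dif F ℂ (fun z => normL (μ z) - c) x w = normL (dif F R2 μ x w) := by
  have h1 : MDifferentiableAt 𝓘(ℝ, F) 𝓘(ℝ, R2) μ x := (hμ x).mdifferentiableAt (by simp)
  have h2 : HasFDerivAt (fun t : R2 => normL t - c) normL (μ x) :=
    normL.hasFDerivAt.sub_const c
  have h3 := dif_comp (g := fun t : R2 => normL t - c) (f := μ) (x := x)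
    h2.differentiableAt.mdifferentiableAt h1
  rw [h3, dif_fderiv, h2.fderiv]
  rfl

omit [FiniteDimensional ℝ F] [IsManifold 𝓘(ℝ, F) ∞ W] in
theorem norm_smooth {μ : W → R2} (hμ : ContMDiff 𝓘(ℝ, F) 𝓘(ℝ, R2) ∞ μ) (c : ℂ) :
    ContMDiff 𝓘(ℝ, F) 𝓘(ℝ, ℂ) ∞ (fun z => normL (μ z) - c) := by
  have h2 : ContDiff ℝ ∞ (fun t : R2 => normL t - c) := normL.contDiff.sub contDiff_const
  exact h2.contMDiff.comp hμ

omit [FiniteDimensional ℝ E] [IsManifold 𝓘(ℝ, E) ∞ V] in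
theorem norm_symp (α : V → E →L[ℝ] ℝ) (s : ℝ) (v : V) (ξ : R2) (b : ℝ × E × R2) :
    -symp α Φ s v (0, 0, ξ) b =
      pr ξ ((Real.exp s : ℂ) * ((b.1 : ℂ) * Φ v + dif E ℂ Φ v b.2.1)) := by
  rw [pr_apply]
  simp only [symp, bour, extD, map_zero, zero_apply, Complex.mul_re,
    Complex.mul_im, Complex.ofReal_re, Complex.ofReal_im, Complex.add_re, Complex.add_im,
    Complex.zero_re, Complex.zero_im]
  ring

theorem norm_end {α : V → E →L[ℝ] ℝ} {μ : W → R2}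
    (hF : IsEquivariantFilling α Φ σ ι φ μ) (hΦ : ContMDiff 𝓘(ℝ, E) 𝓘(ℝ, ℂ) ∞ Φ)
    (y : ℝ × V × R2) (hy : 0 < y.1) :
    HasMFDerivAt (I3 E) 𝓘(ℝ, ℂ)
      (fun z : ℝ × V × R2 => (normL (μ (ι z)) - 0) - (Real.exp z.1 : ℂ) * Φ z.2.1) y 0 := by
  have hm : MDifferentiableAt 𝓘(ℝ, F) 𝓘(ℝ, ℂ) (fun z => normL (μ z) - 0) (ι y) :=
    (norm_smooth hF.smooth 0 (ι y)).mdifferentiableAt (by simp)
  have hι : MDifferentiableAt (I3 E) 𝓘(ℝ, F) ι y :=
    (hF.isEnd.localDiffeo y hy).contMDiffAt.mdifferentiableAt (by simp)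
  have h1 : MDifferentiableAt (I3 E) 𝓘(ℝ, ℂ) (fun z => normL (μ (ι z)) - 0) y := hm.comp y hι
  obtain ⟨h2, h3⟩ := hasMFDerivAt_expPhi hΦ y
  have h4 := h1.hasMFDerivAt.sub h2.hasMFDerivAt
  refine h4.congr_mfderiv ?_
  refine ContinuousLinearMap.ext fun b : ℝ × E × R2 => ?_
  have h5 := hF.isEnd.dif_dEnd hy hm b
  have h6 : dif F ℂ (fun z => normL (μ z) - 0) (ι y) (dEnd E F ι y b) =
      (Real.exp y.1 : ℂ) * ((b.1 : ℂ) * Φ y.2.1 + dif E ℂ Φ y.2.1 b.2.1) := by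
    refine norm_pr_ext fun ξ => ?_
    rw [norm_dif hF.smooth, norm_pr_L, hF.hamiltonian, hF.isEnd.gen_eq hy, hF.form y hy,
      norm_symp]
  have h7 := h3 b
  exact sub_eq_zero.2 (h5.symm.trans (h6.trans h7.symm))

/-- Normalisation of the moment map. -/
theorem IsEquivariantFilling.exists_core [ConnectedSpace V] {α : V → E →L[ℝ] ℝ} {μ : W → R2}
    (hF : IsEquivariantFilling α Φ σ ι φ μ) (hΦ : ContMDiff 𝓘(ℝ, E) 𝓘(ℝ, ℂ) ∞ Φ) :
    ∃ m : W → ℂ, Core E F Φ ι φ m ∧ Ham σ φ m := by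
  obtain ⟨v0⟩ : Nonempty V := inferInstance
  have hU : IsOpen {y : ℝ × V × R2 | 0 < y.1} := isOpen_lt continuous_const continuous_fst
  have hc : IsPreconnected {y : ℝ × V × R2 | 0 < y.1} := by
    have h1 : IsPreconnected (Ioi (0 : ℝ) ×ˢ (univ : Set (V × R2))) :=
      isPreconnected_Ioi.prod isPreconnected_univ
    have h2 : {y : ℝ × V × R2 | 0 < y.1} = Ioi (0 : ℝ) ×ˢ (univ : Set (V × R2)) := by
      ext y
      simp
    rw [h2]
    exact h1
  refine ⟨fun z => normL (μ z) - (normL (μ (ι (1, v0, 0))) - (Real.exp 1 : ℂ) * Φ v0),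
    ⟨hF.action, hF.isEnd, hΦ, norm_smooth hF.smooth _, fun y hy => ?_, fun t x => ?_⟩,
    ⟨hF.symplectic, fun x ξ w => ?_⟩⟩
  · have h1 := const_of_mfderiv hU hc (fun z hz => norm_end hF hΦ z hz) (x := y)
      (y := (1, v0, 0)) hy (show (0 : ℝ) < 1 from one_pos)
    simp only [sub_zero] at h1
    rw [← h1]
    ring
  · simp only [hF.invariant]
  · rw [norm_dif hF.smooth, norm_pr_L, hF.hamiltonian]

end Pool.Agent.P.MP_49bf82_gt
end

-- part Pool.Agent.P.MP_49bf82_gt.SFields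
section

open Manifold Set Filter Topology
open scoped ContDiff

namespace Pool.Agent.P.MP_49bf82_gt

open Pool.Agent.P.MP_e3ee0c_gt

variable {E F : Type*} [NormedAddCommGroup E] [NormedSpace ℝ E] [FiniteDimensional ℝ E]
  [NormedAddCommGroup F] [NormedSpace ℝ F] [FiniteDimensional ℝ F]
  {V W : Type*} [TopologicalSpace V] [ChartedSpace E V] [IsManifold 𝓘(ℝ, E) ∞ V]
  [TopologicalSpace W] [ChartedSpace F W] [IsManifold 𝓘(ℝ, F) ∞ W]
  {Φ : V → ℂ} {ι : ℝ × V × R2 → W} {φ : R2 → W → W} {m : W → ℂ} {h : W → ℝ}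
  {σ : W → F →L[ℝ] F →L[ℝ] ℝ} {A : W → F →L[ℝ] R2} {ρ N : ℝ} {α : V → E →L[ℝ] ℝ}

/-- The pairing with c as a functional on the plane. -/
noncomputable def prL (c : ℂ) : R2 →L[ℝ] ℝ :=
  c.re • ContinuousLinearMap.proj (R := ℝ) (φ := fun _ : Fin 2 => ℝ) 0 -
    c.im • ContinuousLinearMap.proj (R := ℝ) (φ := fun _ : Fin 2 => ℝ) 1

theorem prL_apply (c : ℂ) (ξ : R2) : prL c ξ = pr ξ c := by
  simp [prL, pr_apply, mul_comm]

/-- The locally Hamiltonian lift of the constant field c. -/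
noncomputable def Dc (σ : W → F →L[ℝ] F →L[ℝ] ℝ) (A : W → F →L[ℝ] R2) (c : ℂ) : W → F :=
  dual σ fun x => (prL c).comp (A x)

theorem Conn.adm (hA : Conn E ι φ m h ρ N A) (hσ : IsSymplectic σ) (c : ℂ) {x : W}
    (hx : ‖m x‖ ≤ ρ ∨ N ≤ h x) : Adm σ m (Dc σ A c) x := by
  obtain ⟨θ, h1, h2⟩ := hA.loc x hx
  obtain ⟨h3, h4⟩ := spull_lin h1 h2 (prL c)
  exact adm_dual hσ h3 h4

theorem Conn.dinv (hA : Conn E ι φ m h ρ N A) (hH : Ham σ φ m) (hc : Core E F Φ ι φ m) (c : ℂ)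
    {x : W} (hx : ‖m x‖ ≤ ρ ∨ N ≤ h x) (t : R2) :
    dif F F (φ t) x (Dc σ A c x) = Dc σ A c (φ t x) :=
  hH.dual_inv hc.action hc.smooth fun u => by
    simp only [ContinuousLinearMap.comp_apply, hA.inv x hx]

theorem Conn.dm (hA : Conn E ι φ m h ρ N A) (hH : Ham σ φ m) (c : ℂ) {x : W}
    (hx : ‖m x‖ ≤ ρ ∨ N ≤ h x) : dif F ℂ m x (Dc σ A c x) = c :=
  norm_pr_ext fun ξ => by
    rw [Dc, hH.dif_dual, ContinuousLinearMap.comp_apply, hA.gen x hx, prL_apply]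

variable (F) in
/-- The form on the end is the symplectisation form. -/
def OnEnd (α : V → E →L[ℝ] ℝ) (Φ : V → ℂ) (σ : W → F →L[ℝ] F →L[ℝ] ℝ) (ι : ℝ × V × R2 → W) : Prop :=
  ∀ y : ℝ × V × R2, 0 < y.1 → ∀ a b,
    σ (ι y) (dEnd E F ι y a) (dEnd E F ι y b) = symp α Φ y.1 y.2.1 a b

theorem Conn.dh (hA : Conn E ι φ m h ρ N A) (hσ : IsSymplectic σ) (hc : Core E F Φ ι φ m)
    (hh : IsHeight F ι φ h) (hf : OnEnd F α Φ σ ι) (c : ℂ) :
    ∃ C, ∀ x, ‖m x‖ ≤ ρ → |dif F ℝ h x (Dc σ A c x)| ≤ C := by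
  have hK : IsCompact ({x | h x ≤ N} ∩ {x | ‖m x‖ ≤ ρ ∨ N ≤ h x}) :=
    (hh.compact N).inter_right ((isClosed_le hc.smooth.continuous.norm continuous_const).union
      (isClosed_le continuous_const hh.smooth.continuous))
  obtain ⟨C, hC⟩ := hK.exists_bound_of_continuousOn (f := fun x => dif F ℝ h x (Dc σ A c x))
    fun x hx => ((hA.adm hσ c hx.2).vf.dif_apply (hh.smooth x)).continuousAt.continuousWithinAt
  refine ⟨C, fun x hx => ?_⟩
  by_cases h1 : h x ≤ N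
  · exact hC x ⟨h1, Or.inl hx⟩
  have hN := hA.big
  have h2 := not_le.1 h1
  obtain ⟨y, hy, rfl⟩ := hh.big x (by linarith)
  rw [hh.onEnd y hy] at h2
  have h3 : h (ι (N, y.2.1, y.2.2)) = N := hh.onEnd (N, y.2.1, y.2.2) (by simp only; linarith)
  have h4 := hC _ ⟨h3.le, Or.inr h3.ge⟩
  have p0 : 0 < ((N, y.2.1, y.2.2) : ℝ × V × R2).1 := by simp only; linarith
  have p1 : 0 < y.1 := by linarith
  obtain ⟨b, hb⟩ := (hc.isEnd.bijective p0).2 (Dc σ A c (ι (N, y.2.1, y.2.2)))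
  have h5 : Dc σ A c (ι y) = dEnd E F ι y (Real.exp (N - y.1) • b) := by
    refine sigma_ext hσ (x := ι y) fun w => ?_
    obtain ⟨d, rfl⟩ := (hc.isEnd.bijective p1).2 w
    have a1 := hf _ p0 b d
    rw [hb, Dc, dual_spec hσ, ContinuousLinearMap.comp_apply, hA.far _ le_rfl] at a1
    rw [Dc, dual_spec hσ, ContinuousLinearMap.comp_apply, hA.far _ h2.le, map_smul, map_smul,
      smul_apply, hf y p1, a1, smul_eq_mul, symp, symp, ← mul_assoc, ← Real.exp_add,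
      sub_add_cancel]
  rw [← hb, hh.dif_h hc.isEnd (by simp only; linarith), Real.norm_eq_abs] at h4
  rw [h5, hh.dif_h hc.isEnd (by linarith), Prod.smul_fst, smul_eq_mul, abs_mul,
    abs_of_pos (Real.exp_pos _)]
  exact (mul_le_of_le_one_left (abs_nonneg _) (Real.exp_le_one_iff.2 (by linarith))).trans h4

/-- Interpolation of two fields by a function of m. -/
noncomputable def mix (ψ : ContDiffBump (0 : ℂ)) (m : W → ℂ) (D Y : W → F) (x : W) : F :=
  ψ (m x) • D x + (1 - ψ (m x)) • Y x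

section mix

variable {ψ : ContDiffBump (0 : ℂ)} {D Y : W → F} {x : W}

omit [FiniteDimensional ℝ F] [TopologicalSpace W] [ChartedSpace F W] [IsManifold 𝓘(ℝ, F) ∞ W]

theorem mix_out (hx : ψ.rOut ≤ ‖m x‖) : mix ψ m D Y x = Y x := by
  rw [mix, ψ.zero_of_le_dist (by rwa [dist_zero_right]), zero_smul, sub_zero, one_smul, zero_add]

theorem mix_in (hx : ‖m x‖ ≤ ψ.rIn) : mix ψ m D Y x = D x := by
  rw [mix, ψ.one_of_mem_closedBall (by rwa [mem_closedBall_zero_iff]), one_smul, sub_self,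
    zero_smul, add_zero]

theorem mix_eq (hx : D x = Y x) : mix ψ m D Y x = Y x := by
  rw [mix, hx, ← add_smul, add_sub_cancel, one_smul]

theorem mix_mem {S : Set F} (hS : Convex ℝ S) (hD : ‖m x‖ ≤ ψ.rOut → D x ∈ S) (hY : Y x ∈ S) :
    mix ψ m D Y x ∈ S := by
  rcases le_total ‖m x‖ ψ.rOut with h1 | h1
  · exact hS (hD h1) hY ψ.nonneg (sub_nonneg.2 ψ.le_one) (add_sub_cancel _ _)
  · rwa [mix_out h1]

end mix

variable {ψ : ContDiffBump (0 : ℂ)} {D Y : W → F} {x : W}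

theorem mix_vf (hm : ContMDiff 𝓘(ℝ, F) 𝓘(ℝ, ℂ) ∞ m) (hD : ∀ x, ‖m x‖ ≤ ψ.rOut → VFAt D x)
    (hY : VF Y) : VF (mix ψ m D Y) := by
  intro x
  rcases le_or_gt ‖m x‖ ψ.rOut with h1 | h1
  · have h2 : ContMDiffAt 𝓘(ℝ, F) 𝓘(ℝ, ℝ) ∞ (fun z => ψ (m z)) x := ψ.contDiff.contMDiff.comp hm x
    exact ((hD x h1).smul h2).add ((hY x).smul (contMDiffAt_const.sub h2))
  · refine (hY x).congr ?_
    filter_upwards [hm.continuous.norm.continuousAt.eventually (lt_mem_nhds h1)] with z hz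
    exact mix_out hz.le

omit [FiniteDimensional ℝ F] [IsManifold 𝓘(ℝ, F) ∞ W] in
theorem mix_inv (hi : ∀ t x, m (φ t x) = m x)
    (hD : ∀ x, ‖m x‖ ≤ ψ.rOut → ∀ t, dif F F (φ t) x (D x) = D (φ t x)) (hY : Inv φ Y) :
    Inv φ (mix ψ m D Y) := by
  intro t x
  rcases le_total ‖m x‖ ψ.rOut with h1 | h1
  · simp only [mix, map_add, map_smul, hi, hD x h1, hY t x]
  · rw [mix_out h1, mix_out (by rwa [hi]), hY t x]

theorem mix_adm_in (hm : ContMDiff 𝓘(ℝ, F) 𝓘(ℝ, ℂ) ∞ m) (hx : ‖m x‖ < ψ.rIn)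
    (hD : Adm σ m D x) : Adm σ m (mix ψ m D Y) x := by
  refine hD.congr ?_
  filter_upwards [hm.continuous.norm.continuousAt.eventually (gt_mem_nhds hx)] with z hz
  exact mix_in hz.le

theorem mix_adm (hσ : IsSymplectic σ) (hm : ContMDiff 𝓘(ℝ, F) 𝓘(ℝ, ℂ) ∞ m)
    (hD : ‖m x‖ ≤ ψ.rOut → Adm σ m D x) (hY : ψ.rIn ≤ ‖m x‖ → Adm σ m Y x) :
    Adm σ m (mix ψ m D Y) x := by
  rcases lt_or_ge ‖m x‖ ψ.rIn with h1 | h1
  · exact mix_adm_in hm h1 (hD (h1.trans ψ.rIn_lt_rOut).le)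
  rcases le_or_gt ‖m x‖ ψ.rOut with h2 | h2
  · exact ((hD h2).smul hσ hm ψ.contDiff).add hσ
      ((hY h1).smul hσ hm (k := fun z => 1 - ψ z) (contDiff_const.sub ψ.contDiff))
  · refine (hY h1).congr ?_
    filter_upwards [hm.continuous.norm.continuousAt.eventually (lt_mem_nhds h2)] with z hz
    exact mix_out hz.le

/-- A flow that translates m and preserves the form on the levels inside a disc. -/
theorem Conn.exists_trans [T2Space W] [SigmaCompactSpace W] {r : ℝ} (hr : 0 < r)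
    (hA : Conn E ι φ m h (r + 1) N A) (hH : Ham σ φ m) (hc : Core E F Φ ι φ m)
    (hh : IsHeight F ι φ h) (hf : OnEnd F α Φ σ ι) (hs : ∀ x, Function.Surjective (dif F ℂ m x))
    {c : ℂ} (hc1 : ‖c‖ = 1) : ∃ (P : ℝ → W → W) (C : ℝ), Mover F φ h C P ∧
      (∀ s x, m (P s x) = m x + s * c) ∧ ∀ s x, ‖m x‖ + |s| < r → PK σ m (P s) x := by
  obtain ⟨Y, C, h1, h2, h3, h4⟩ := hc.exists_lift hh hs c
  obtain ⟨C', h5⟩ := hA.dh hH.symplectic hc hh hf c
  let ψ : ContDiffBump (0 : ℂ) := ⟨r, r + 1, hr, lt_add_one r⟩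
  have h6 : ∀ x, mix ψ m (Dc σ A c) Y x ∈
      {u : F | dif F ℂ m x u = c ∧ |dif F ℝ h x u| ≤ max C C'} := fun x =>
    mix_mem (fields_convex m h x c _).1
      (fun hx => ⟨hA.dm hH c (Or.inl hx), (h5 x hx).trans (le_max_right _ _)⟩)
      ⟨h3 x, (h4 x).trans (le_max_left _ _)⟩
  obtain ⟨P, hP, hM⟩ := exists_mover
    (mix_vf (ψ := ψ) hc.smooth (fun x hx => (hA.adm hH.symplectic c (Or.inl hx)).vf) h1) hc.action
    (mix_inv hc.invariant (fun x hx => hA.dinv hH hc c (Or.inl hx)) h2) hh.smooth hh.compact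
    fun x => (h6 x).2
  have h7 := hP.translate hc.smooth fun x => (h6 x).1
  refine ⟨P, _, hM, h7, fun s x hx => hP.pk hH.symplectic hc.smooth (L := fun s z => z + s * c)
    (fun s => differentiable_id.add_const _) h7 fun t ht => ?_⟩
  have h8 : ‖m (P t x)‖ < r := by
    rw [h7]
    have a1 := norm_add_le (m x) (t * c)
    rw [norm_mul, hc1, mul_one, Complex.norm_real, Real.norm_eq_abs] at a1
    have a2 : |t| ≤ |s| := by simpa using abs_sub_left_of_mem_uIcc ht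
    linarith
  exact mix_adm_in hc.smooth h8 (hA.adm hH.symplectic c (Or.inl (by linarith)))

end Pool.Agent.P.MP_49bf82_gt
end

-- part Pool.Agent.P.MP_49bf82_gt.Far
section

open Manifold Set Filter Topology
open scoped ContDiff RealInnerProductSpace

namespace Pool.Agent.P.MP_49bf82_gt

open Pool.Agent.P.MP_e3ee0c_gt

variable {E F : Type*} [NormedAddCommGroup E] [NormedSpace ℝ E] [FiniteDimensional ℝ E]
  [NormedAddCommGroup F] [NormedSpace ℝ F] [FiniteDimensional ℝ F]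
  {V W : Type*} [TopologicalSpace V] [ChartedSpace E V] [IsManifold 𝓘(ℝ, E) ∞ V]
  [TopologicalSpace W] [ChartedSpace F W] [IsManifold 𝓘(ℝ, F) ∞ W]
  {Φ : V → ℂ} {ι : ℝ × V × R2 → W} {φ : R2 → W → W} {m : W → ℂ} {h : W → ℝ}
  {f : ℝ → V → V} {a : ℝ × V → ℝ} {σ : W → F →L[ℝ] F →L[ℝ] ℝ}

variable {Z Y : W → F} {Q : ℝ → W → W}

theorem IsFlow.eq_ft [T2Space W] (hQ : IsFlow Y Q) (hY : VF Y) (ht : Turn E Φ f a)
    (hZ : IsRot ι f a Z) (hYZ : ∀ y : ℝ × V × R2, 3 ≤ y.1 → Y (ι y) = Z (ι y)) {y : ℝ × V × R2}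
    {b c : ℝ} (h0 : (0 : ℝ) ∈ Ioo b c) (hy : ∀ t ∈ Ioo b c, 3 ≤ (ft f a t y).1) :
    ∀ t ∈ Ioo b c, Q t (ι y) = ι (ft f a t y) := by
  intro t htt
  have key := hQ.eqOn hY (γ := fun s => ι (ft f a s y)) h0 (fun t ht' => by
    have h3 := hy t ht'
    rw [hYZ _ h3]
    exact hZ.curve y t (by linarith)) t htt
  simpa [ht.ft_zero] using key

theorem IsFlow.far [CompactSpace V] [T2Space W] (hQ : IsFlow Y Q) (hY : VF Y)
    (hc : Core E F Φ ι φ m) (hh : IsHeight F ι φ h) (ht : Turn E Φ f a) (hZ : IsRot ι f a Z)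
    (hYZ : ∀ y : ℝ × V × R2, 3 ≤ y.1 → Y (ι y) = Z (ι y)) (R : ℝ) :
    ∃ N₀, ∀ q, ‖m q‖ ≤ R → N₀ ≤ h q → Q 1 q = q ∧ (m q = 0 → ∀ s, Q s q = q) := by
  obtain ⟨δ, hδ, hδ'⟩ := ht.exists_delta hc.smoothV.continuous
  obtain ⟨M, hM⟩ := ((isCompact_Icc (a := (-1 : ℝ)) (b := 2)).prod
    (isCompact_univ (X := V))).exists_bound_of_continuousOn ht.smooth.continuous.continuousOn
  refine ⟨max (3 + |M|) (|R| / δ), fun q hq hN => ?_⟩
  have hM0 := abs_nonneg M
  have h1 : 3 + |M| ≤ h q := (le_max_left _ _).trans hN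
  have h2 : |R| / δ ≤ h q := (le_max_right _ _).trans hN
  obtain ⟨y, hy, rfl⟩ := hh.big q (by linarith)
  rw [hh.onEnd y hy] at h1 h2
  have hm := hc.onEnd y (by linarith)
  constructor
  · have hn : Real.exp y.1 * ‖Φ y.2.1‖ ≤ R := by
      have := hq
      rw [hm, norm_mul, Complex.norm_real, Real.norm_eq_abs, abs_of_pos (Real.exp_pos _)] at this
      exact this
    have hlt : ‖Φ y.2.1‖ < δ := by
      by_contra hcon
      have hge : δ ≤ ‖Φ y.2.1‖ := not_lt.mp hcon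
      have e1 : y.1 + 1 ≤ Real.exp y.1 := Real.add_one_le_exp _
      have e2 : |R| ≤ y.1 * δ := by rwa [div_le_iff₀ hδ] at h2
      have e3 : Real.exp y.1 * δ ≤ Real.exp y.1 * ‖Φ y.2.1‖ :=
        mul_le_mul_of_nonneg_left hge (Real.exp_pos _).le
      have e4 : (y.1 + 1) * δ ≤ Real.exp y.1 * δ := mul_le_mul_of_nonneg_right e1 hδ.le
      have e5 := le_abs_self R
      nlinarith
    obtain ⟨hf1, ha1⟩ := hδ' _ hlt
    have key := hQ.eq_ft hY ht hZ hYZ (y := y) (b := -1) (c := 2) (by norm_num) (fun t htt => by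
      have := hM (t, y.2.1) ⟨⟨htt.1.le, htt.2.le⟩, mem_univ _⟩
      rw [Real.norm_eq_abs] at this
      have e1 := le_abs_self (a (t, y.2.1))
      have e2 := le_abs_self M
      show 3 ≤ y.1 - a (t, y.2.1)
      linarith) 1 (by norm_num)
    rw [key]
    simp [ft, hf1, ha1]
  · intro h0 s
    have hΦ : Φ y.2.1 = 0 := by
      rw [hm] at h0
      rcases mul_eq_zero.mp h0 with h' | h'
      · exact absurd h' (by exact_mod_cast (Real.exp_pos _).ne')
      · exact h'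
    have hs := abs_nonneg s
    have key := hQ.eq_ft hY ht hZ hYZ (y := y) (b := -(|s| + 1)) (c := |s| + 1)
      ⟨by linarith, by linarith⟩ (fun t _ => by
        show 3 ≤ y.1 - a (t, y.2.1)
        rw [ht.fix t _ hΦ]
        linarith) s ⟨by linarith [neg_abs_le s], by linarith [le_abs_self s]⟩
    rw [key]
    simp [ft, ht.fix s _ hΦ, ht.flow.fix s _ hΦ]

theorem Core.exists_radius (hc : Core E F Φ ι φ m) (hh : IsHeight F ι φ h) :
    ∃ R > 0, (∀ x, ‖m x‖ = R → 3 < h x) ∧ ∀ v, Φ v ≠ 0 → 3 < Real.log (R / ‖Φ v‖) := by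
  obtain ⟨M, hM⟩ := (hh.compact 3).exists_bound_of_continuousOn hc.smooth.continuous.continuousOn
  have hM0 := abs_nonneg M
  have hM1 := le_abs_self M
  refine ⟨|M| + 1, by linarith, fun x hx => ?_, fun v hv => ?_⟩
  · by_contra hcon
    have := hM x (not_lt.mp hcon)
    linarith
  · have h3 : h (ι (3, v, 0)) = 3 := hh.onEnd (3, v, 0) (by norm_num)
    have := hM (ι (3, v, 0)) h3.le
    rw [hc.onEnd (3, v, 0) (by norm_num), norm_mul, Complex.norm_real, Real.norm_eq_abs,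
      abs_of_pos (Real.exp_pos _)] at this
    have hp : 0 < ‖Φ v‖ := norm_pos_iff.mpr hv
    rw [Real.lt_log_iff_exp_lt (div_pos (by linarith) hp), lt_div_iff₀ hp]
    have e : Real.exp 3 * ‖Φ v‖ ≤ M := this
    linarith

theorem IsFlow.one [T2Space W] (hQ : IsFlow Y Q) (hY : VF Y) (ht : Turn E Φ f a)
    (hZ : IsRot ι f a Z) (hYZ : ∀ y : ℝ × V × R2, 3 ≤ y.1 → Y (ι y) = Z (ι y)) {R : ℝ}
    (hR : 0 < R) (hR' : ∀ v, Φ v ≠ 0 → 3 < Real.log (R / ‖Φ v‖)) {v : V} (hv : Φ v ≠ 0) :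
    ∃ s, 0 < s ∧ Q 1 (ι (Real.log (R / ‖Φ v‖), v, 0)) = ι (s, f 1 v, 0) := by
  have hp : 0 < ‖Φ v‖ := norm_pos_iff.mpr hv
  have h3 : ∀ t, 3 < (ft f a t (Real.log (R / ‖Φ v‖), v, (0 : R2))).1 := by
    intro t
    have e := congrArg norm (ht.ft_exp t (Real.log (R / ‖Φ v‖), v, (0 : R2)))
    have e1 : ‖Complex.exp (2 * Real.pi * Complex.I * t)‖ = 1 := by
      rw [show (2 * Real.pi * Complex.I * t : ℂ) = ((2 * Real.pi * t : ℝ) : ℂ) * Complex.I by
        push_cast; ring]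
      exact Complex.norm_exp_ofReal_mul_I _
    rw [norm_mul, norm_mul, norm_mul, e1, one_mul, Complex.norm_real, Complex.norm_real,
      Real.norm_eq_abs, Real.norm_eq_abs, abs_of_pos (Real.exp_pos _),
      abs_of_pos (Real.exp_pos _)] at e
    have e2 : Real.exp (Real.log (R / ‖Φ v‖)) * ‖Φ v‖ = R := by
      rw [Real.exp_log (div_pos hR hp), div_mul_cancel₀ _ hp.ne']
    set z := ft f a t (Real.log (R / ‖Φ v‖), v, (0 : R2)) with hz
    have e3 : Real.exp z.1 * ‖Φ z.2.1‖ = R := e.trans e2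
    have hz0 : Φ z.2.1 ≠ 0 := by
      intro h0
      rw [h0, norm_zero, mul_zero] at e3
      exact hR.ne e3
    have hp' : 0 < ‖Φ z.2.1‖ := norm_pos_iff.mpr hz0
    have e4 : R / ‖Φ z.2.1‖ = Real.exp z.1 := by
      rw [div_eq_iff hp'.ne', e3]
    have := hR' _ hz0
    rwa [e4, Real.log_exp] at this
  have key := hQ.eq_ft hY ht hZ hYZ (y := (Real.log (R / ‖Φ v‖), v, (0 : R2))) (b := -1) (c := 2)
    (by norm_num) (fun t _ => (h3 t).le) 1 (by norm_num)
  exact ⟨(ft f a 1 (Real.log (R / ‖Φ v‖), v, (0 : R2))).1, by linarith [h3 1], key⟩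

end Pool.Agent.P.MP_49bf82_gt
end

-- part Pool.Agent.P.MP_49bf82_gt.SPage
section

open Manifold Set Filter Topology
open scoped ContDiff

namespace Pool.Agent.P.MP_49bf82_gt

open Pool.Agent.P.MP_e3ee0c_gt

variable {E F : Type*} [NormedAddCommGroup E] [NormedSpace ℝ E] [FiniteDimensional ℝ E]
  [NormedAddCommGroup F] [NormedSpace ℝ F] [FiniteDimensional ℝ F]
  {V W : Type*} [TopologicalSpace V] [ChartedSpace E V] [IsManifold 𝓘(ℝ, E) ∞ V]
  [TopologicalSpace W] [ChartedSpace F W] [IsManifold 𝓘(ℝ, F) ∞ W]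
  {Φ : V → ℂ} {ι : ℝ × V × R2 → W} {φ : R2 → W → W} {m : W → ℂ} {h : W → ℝ}
  {σ : W → F →L[ℝ] F →L[ℝ] ℝ} {α : V → E →L[ℝ] ℝ} {p : W → V}
  {f : ℝ → V → V} {a : ℝ × V → ℝ}

theorem ray_deriv {G : Type*} [NormedAddCommGroup G] [NormedSpace ℝ G] {g : ℂ → G} {z : ℂ}
    (hg : DifferentiableAt ℝ g z) (c : ℝ) {k : ℝ → G} {d : G} (hk : HasDerivAt k d 1)
    (e : ∀ t : ℝ, 0 < t → g (t * z) = k t) : fderiv ℝ g z (c * z) = c • d := by
  have h1 : HasDerivAt (fun t : ℝ => (t : ℂ) * z) z 1 := by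
    simpa using (Complex.ofRealCLM.hasDerivAt (x := 1)).mul_const z
  have h2 : HasFDerivAt g (fderiv ℝ g z) (((1 : ℝ) : ℂ) * z) := by
    simpa using hg.hasFDerivAt
  have h3 := (HasFDerivAt.comp_hasDerivAt (f := fun t : ℝ => (t : ℂ) * z) 1 h2 h1).unique
    (hk.congr_of_eventuallyEq ((lt_mem_nhds one_pos).mono fun t ht => e t ht))
  rw [← Complex.real_smul, map_smul, h3]

omit [FiniteDimensional ℝ E] in
theorem page_eq (hΦ : ContMDiff 𝓘(ℝ, E) 𝓘(ℝ, ℂ) ∞ Φ) {v : V} (hα : Sm α v) (hv : Φ v ≠ 0)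
    {u w : E} {c d : ℝ} (hu : dif E ℂ Φ v u = c * Φ v) (hw : dif E ℂ Φ v w = d * Φ v) :
    ‖Φ v‖ * pageForm α Φ v u w = extD α v u w - c * α v w + d * α v u := by
  have hn : ‖Φ v‖ ≠ 0 := norm_ne_zero_iff.2 hv
  have h1 : ContDiffAt ℝ ∞ (fun z : ℂ => ‖z‖⁻¹) (Φ v) := (contDiffAt_norm ℝ hv).inv hn
  have h2 : ∀ (u : E) (c : ℝ), dif E ℂ Φ v u = c * Φ v →
      dif E ℝ (fun w => ‖Φ w‖⁻¹) v u = c * -‖Φ v‖⁻¹ := by
    intro u c hu
    rw [dif_comp (g := fun z : ℂ => ‖z‖⁻¹) (h1.differentiableAt (by simp)).mdifferentiableAt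
      (hΦ.mdifferentiableAt (by simp)), ContinuousLinearMap.comp_apply, hu, dif_fderiv]
    refine ray_deriv (h1.differentiableAt (by simp)) c (k := fun t => t⁻¹ * ‖Φ v‖⁻¹)
      (by simpa using (hasDerivAt_inv (one_ne_zero (α := ℝ))).mul_const ‖Φ v‖⁻¹) fun t ht => ?_
    rw [norm_mul, Complex.norm_real, Real.norm_of_nonneg ht.le, mul_inv]
  rw [pageForm, (hα.smul (c := fun w => ‖Φ w‖⁻¹) (h1.contMDiffAt.comp v (hΦ v))).2, h2 u c hu, h2 w d hw]
  field_simp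
  ring

variable (E F) in
/-- The projection of the end to V. -/
def IsProj (ι : ℝ × V × R2 → W) (p : W → V) : Prop :=
  ∀ y : ℝ × V × R2, 0 < y.1 → p (ι y) = y.2.1 ∧ ContMDiffAt 𝓘(ℝ, F) 𝓘(ℝ, E) ∞ p (ι y)

theorem IsProj.dif_p (hp : IsProj E F ι p) (he : IsEnd E F ι φ) {y : ℝ × V × R2} (hy : 0 < y.1)
    (b : ℝ × E × R2) : dif F E p (ι y) (dEnd E F ι y b) = b.2.1 := by
  have h1 := mfderiv_comp y ((hp y hy).2.mdifferentiableAt (by simp)) (endd_mdiff he hy)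
  have h2 := (HasMFDerivAt.comp y (hasMFDerivAt_fst (I := 𝓘(ℝ, E)) (I' := 𝓘(ℝ, R2)) y.2)
    (hasMFDerivAt_snd (I := 𝓘(ℝ, ℝ)) (I' := 𝓘(ℝ, E).prod 𝓘(ℝ, R2)) y)).congr_of_eventuallyEq
      (f₁ := p ∘ ι) ((endd_pos hy).mono fun z hz => (hp z hz).1)
  exact congrArg (fun L : (ℝ × E × R2) →L[ℝ] E => L b) (h1.symm.trans h2.mfderiv)

theorem spage_ker (hc : Core E F Φ ι φ m) {y : ℝ × V × R2} (hy : 0 < y.1) {b : ℝ × E × R2}
    (hb : dif F ℂ m (ι y) (dEnd E F ι y b) = 0) :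
    dif E ℂ Φ y.2.1 b.2.1 = ((-b.1 : ℝ) : ℂ) * Φ y.2.1 := by
  rw [hc.dif_m hy, mul_eq_zero] at hb
  have := hb.resolve_left (Complex.ofReal_ne_zero.2 (Real.exp_pos _).ne')
  rw [Complex.ofReal_neg, neg_mul]
  exact eq_neg_of_add_eq_zero_right this

theorem page_tangent (hc : Core E F Φ ι φ m) (hp : IsProj E F ι p) {y : ℝ × V × R2} (hy : 0 < y.1)
    {u : F} (hu : dif F ℂ m (ι y) u = 0) : PageTangent Φ (p (ι y)) (dif F E p (ι y) u) := by
  obtain ⟨b, rfl⟩ := (hc.isEnd.bijective hy).2 u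
  rw [hp.dif_p hc.isEnd hy, (hp y hy).1]
  exact ⟨_, spage_ker hc hy hu⟩

/-- On a level of m the form is a multiple of the pulled back page form. -/
theorem sigma_ker (hc : Core E F Φ ι φ m) (hp : IsProj E F ι p) (hf : OnEnd F α Φ σ ι)
    (hα : ∀ v, Sm α v) {y : ℝ × V × R2} (hy : 0 < y.1) (h0 : m (ι y) ≠ 0) {u w : F}
    (hu : dif F ℂ m (ι y) u = 0) (hw : dif F ℂ m (ι y) w = 0) :
    σ (ι y) u w = ‖m (ι y)‖ * pageForm α Φ (p (ι y)) (dif F E p (ι y) u) (dif F E p (ι y) w) := by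
  obtain ⟨b, rfl⟩ := (hc.isEnd.bijective hy).2 u
  obtain ⟨d, rfl⟩ := (hc.isEnd.bijective hy).2 w
  have h1 := spage_ker hc hy hu
  have h2 := spage_ker hc hy hw
  rw [hc.onEnd y hy] at h0
  rw [hp.dif_p hc.isEnd hy, hp.dif_p hc.isEnd hy, (hp y hy).1, hf y hy, hc.onEnd y hy, norm_mul,
    Complex.norm_real, Real.norm_of_nonneg (Real.exp_pos _).le, mul_assoc,
    page_eq hc.smoothV (hα _) (right_ne_zero_of_mul h0) h1 h2, symp, h1, h2]
  simp only [bour, Complex.mul_re, Complex.mul_im, Complex.ofReal_re, Complex.ofReal_im]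
  ring

theorem Core.exists_outer (hc : Core E F Φ ι φ m) (hh : IsHeight F ι φ h) :
    ∃ R > 0, (∀ x, R ≤ ‖m x‖ → 3 < h x) ∧
      (∀ y : ℝ × V × R2, R ≤ Real.exp y.1 * ‖Φ y.2.1‖ → 3 < y.1) ∧
      ∀ r, R ≤ r → ∀ v, Φ v ≠ 0 → 3 < Real.log (r / ‖Φ v‖) := by
  obtain ⟨M, hM⟩ := (hh.compact 3).exists_bound_of_continuousOn hc.smooth.continuous.continuousOn
  have hM0 := abs_nonneg M
  have hM1 := le_abs_self M
  have key : ∀ y : ℝ × V × R2, |M| + 1 ≤ Real.exp y.1 * ‖Φ y.2.1‖ → 3 < y.1 := by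
    intro y hy
    by_contra hcon
    have h3 : h (ι (3, y.2.1, 0)) = 3 := hh.onEnd (3, y.2.1, 0) (by norm_num)
    have := hM (ι (3, y.2.1, 0)) h3.le
    rw [hc.onEnd (3, y.2.1, 0) (by norm_num), norm_mul, Complex.norm_real,
      Real.norm_of_nonneg (Real.exp_pos _).le] at this
    have h4 := mul_le_mul_of_nonneg_right (Real.exp_le_exp.2 (not_lt.1 hcon)) (norm_nonneg (Φ y.2.1))
    simp only at this
    linarith
  refine ⟨|M| + 1, by linarith, fun x hx => ?_, key, fun r hr v hv => ?_⟩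
  · by_contra hcon
    have := hM x (not_lt.mp hcon)
    linarith
  · have hp : 0 < ‖Φ v‖ := norm_pos_iff.mpr hv
    refine key (Real.log (r / ‖Φ v‖), v, 0) ?_
    simp only
    rwa [Real.exp_log (div_pos (by linarith) hp), div_mul_cancel₀ _ hp.ne']

theorem norm_turn (s : ℝ) : ‖Complex.exp (2 * Real.pi * Complex.I * s)‖ = 1 := by
  rw [show (2 * Real.pi * Complex.I * s : ℂ) = ((2 * Real.pi * s : ℝ) : ℂ) * Complex.I by
    push_cast; ring]
  exact Complex.norm_exp_ofReal_mul_I _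

/-- The lifted monodromy flow is admissible on far levels of m. -/
theorem IsFlow.adm_outer [T2Space W] {Y Z : W → F} {Q : ℝ → W → W} (hQ : IsFlow Y Q) (hY : VF Y)
    (hσ : IsSymplectic σ) (hc : Core E F Φ ι φ m) (hh : IsHeight F ι φ h) (hp : IsProj E F ι p)
    (hf : OnEnd F α Φ σ ι) (hα : ∀ v, Sm α v) (ht : Turn E Φ f a) (hZ : IsRot ι f a Z)
    (hYZ : ∀ y : ℝ × V × R2, 3 ≤ y.1 → Y (ι y) = Z (ι y))
    (hm : ∀ x, dif F ℂ m x (Y x) = 2 * Real.pi * Complex.I * m x)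
    (hs : ∀ t, PageSymplectic α Φ (f t)) {R : ℝ} (hR : 0 < R) (r1 : ∀ x, R ≤ ‖m x‖ → 3 < h x)
    (r2 : ∀ y : ℝ × V × R2, R ≤ Real.exp y.1 * ‖Φ y.2.1‖ → 3 < y.1) {x : W} (hx : R < ‖m x‖) :
    Adm σ m Y x := by
  have hrot := hQ.rotate hc.smooth hm
  have hn : ∀ s z, ‖m (Q s z)‖ = ‖m z‖ := fun s z => by rw [hrot, norm_mul, norm_turn, one_mul]
  have hE : ∀ z, R ≤ ‖m z‖ → ∃ y : ℝ × V × R2, 0 < y.1 ∧ ι y = z := fun z hz => by
    obtain ⟨y, hy, e⟩ := hh.big z (by linarith [r1 z hz])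
    exact ⟨y, by linarith, e⟩
  have hpq : ∀ s z, R ≤ ‖m z‖ → p (Q s z) = f s (p z) := by
    intro s z hz
    obtain ⟨y, hy, rfl⟩ := hE z hz
    have h3 : ∀ t, 3 < (ft f a t y).1 := fun t => r2 _ (by
      have e := congrArg norm (ht.ft_exp t y)
      rw [norm_mul, norm_mul, norm_turn, one_mul, ← hc.onEnd y hy, Complex.norm_real,
        Real.norm_of_nonneg (Real.exp_pos _).le] at e
      rwa [e])
    have hs0 := abs_nonneg s
    rw [hQ.eq_ft hY ht hZ hYZ (y := y) (b := -(|s| + 1)) (c := |s| + 1)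
      ⟨by linarith, by linarith⟩ (fun t _ => (h3 t).le) s
      ⟨by linarith [neg_abs_le s], by linarith [le_abs_self s]⟩,
      (hp _ (by linarith [h3 s])).1, (hp y hy).1]
    rfl
  refine hQ.adm hY hσ fun t => ?_
  have hk : ∀ u, dif F ℂ m x u = 0 → dif F ℂ m (Q t x) (dif F F (Q t) x u) = 0 := fun u hu =>
    ker_pres hc.smooth (hQ.slice t x) (L := fun z => Complex.exp (2 * Real.pi * Complex.I * t) * z)
      (differentiable_id.const_mul _) (hrot t) hu
  refine ⟨hQ.slice t x, hk, fun u v hu hv => ?_⟩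
  obtain ⟨y', hy', e'⟩ := hE (Q t x) (by rw [hn]; exact hx.le)
  obtain ⟨y, hy, rfl⟩ := hE x hx.le
  have m0 : m (ι y) ≠ 0 := norm_pos_iff.1 (hR.trans hx)
  have a1 := sigma_ker hc hp hf hα hy' (norm_pos_iff.1 (by rw [e', hn]; exact hR.trans hx))
    (by rw [e']; exact hk u hu) (by rw [e']; exact hk v hv)
  have a2 : (fun z => p (Q t z)) =ᶠ[𝓝 (ι y)] fun z => f t (p z) := by
    filter_upwards [hc.smooth.continuous.norm.continuousAt.eventually (lt_mem_nhds hx)] with z hz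
    exact hpq t z hz.le
  have a3 := dif_congr (E := F) (F := E) a2
  have a4 : MDifferentiableAt 𝓘(ℝ, F) 𝓘(ℝ, E) p (Q t (ι y)) := by
    rw [← e']
    exact (hp y' hy').2.mdifferentiableAt (by simp)
  rw [dif_comp a4 (hQ.slice t _), dif_comp
    ((mflowb_slice (ht.flow.smooth (t, _))).mdifferentiableAt (by simp))
    ((hp y hy).2.mdifferentiableAt (by simp))] at a3
  have a5 : ∀ w, dif F E p (Q t (ι y)) (dif F F (Q t) (ι y) w) =
      dif E E (f t) (p (ι y)) (dif F E p (ι y) w) := fun w =>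
    congrArg (fun L : F →L[ℝ] E => L w) a3
  rw [e'] at a1
  rw [a1, sigma_ker hc hp hf hα hy m0 hu hv, hn, a5, a5, hpq t _ hx.le,
    hs t _ ?_ _ _ (page_tangent hc hp hy hu) (page_tangent hc hp hy hv)]
  rw [(hp y hy).1]
  rw [hc.onEnd y hy] at m0
  exact right_ne_zero_of_mul m0

end Pool.Agent.P.MP_49bf82_gt
end

-- part Pool.Agent.P.MP_49bf82_gt.SRot
section

open Manifold Set Filter Topology
open scoped ContDiff

namespace Pool.Agent.P.MP_49bf82_gt

open Pool.Agent.P.MP_e3ee0c_gt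

variable {E F : Type*} [NormedAddCommGroup E] [NormedSpace ℝ E] [FiniteDimensional ℝ E]
  [NormedAddCommGroup F] [NormedSpace ℝ F] [FiniteDimensional ℝ F]
  {V W : Type*} [TopologicalSpace V] [ChartedSpace E V] [IsManifold 𝓘(ℝ, E) ∞ V]
  [TopologicalSpace W] [ChartedSpace F W] [IsManifold 𝓘(ℝ, F) ∞ W]
  {Φ : V → ℂ} {ι : ℝ × V × R2 → W} {φ : R2 → W → W} {m : W → ℂ} {h : W → ℝ}
  {σ : W → F →L[ℝ] F →L[ℝ] ℝ} {α : V → E →L[ℝ] ℝ} {p : W → V}
  {f : ℝ → V → V} {a : ℝ × V → ℝ} {A : W → F →L[ℝ] R2} {ρ N : ℝ} {Z : W → F}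

variable (E) in
/-- The generator of a flow on V. -/
noncomputable def genV (f : ℝ → V → V) (v : V) : E := dif ℝ E (fun t => f t v) 0 1

theorem srot_md (hf : IsMonodromyFlow E Φ f) (v : V) :
    HasMFDerivAt 𝓘(ℝ, ℝ) 𝓘(ℝ, E) (fun t => f t v) 0 ((1 : ℝ →L[ℝ] ℝ).smulRight (genV E f v)) :=
  rotf_has ((hf.smooth.comp (contMDiff_id.prodMk contMDiff_const) 0).mdifferentiableAt (by simp))

theorem srot_vf (hf : IsMonodromyFlow E Φ f) : VF (genV E f) := by
  intro v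
  have h2 := push (J := 𝓘(ℝ, E)) (I₁ := 𝓘(ℝ, ℝ)) (I₂ := 𝓘(ℝ, E))
    (fun (w : V) (s : ℝ) => f s w) (fun _ => 0) (fun _ => 1) (x₀ := v)
    (hf.smooth.comp (contMDiff_snd.prodMk contMDiff_fst) (v, 0)) contMDiffAt_const
  exact h2.congr_of_eventuallyEq (.of_forall fun w => rotf_mk (hf.zero w).symm rfl)

theorem srot_cartan (hf : IsMonodromyFlow E Φ f) {v : V} (hα : Sm α v)
    (hv : ∀ t u, α (f t v) (dif E E (f t) v u) = α v u) (u : E) :
    extD α v (genV E f v) u = -dif E ℝ (fun w => α w (genV E f w)) v u := by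
  have h1 : Fam f (genV E f) v :=
    ⟨.of_forall hf.smooth, .of_forall hf.zero, .of_forall (srot_md hf)⟩
  have h2 := h1.lie_one hα u
  simp only [hv] at h2
  have h3 := h2.unique (hasDerivAt_const _ _)
  rw [(hα.apply (srot_vf hf v)).2] at h3
  linarith

theorem srot_Z (hZ : IsRot ι f a Z) (ht : Turn E Φ f a) (he : IsEnd E F ι φ) {y : ℝ × V × R2}
    (hy : 0 < y.1) (ha : ∀ t, a (t, y.2.1) = 0) :
    Z (ι y) = dEnd E F ι y (0, genV E f y.2.1, 0) := by
  have h1 := rotf_zero hZ ht hy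
  have h2 := (hasMFDerivAt_const (I := 𝓘(ℝ, ℝ)) (I' := 𝓘(ℝ, ℝ)) y.1 (0 : ℝ)).prodMk
    ((srot_md ht.flow y.2.1).prodMk
      (hasMFDerivAt_const (I := 𝓘(ℝ, ℝ)) (I' := 𝓘(ℝ, R2)) y.2.2 (0 : ℝ)))
  have h0 : ∀ z, z = y → HasMFDerivAt (I3 E) 𝓘(ℝ, F) ι z (dEnd E F ι y) := by
    rintro _ rfl
    exact (endd_mdiff he hy).hasMFDerivAt
  have h3 := (HasMFDerivAt.comp (0 : ℝ) (h0 _ (by simp [ht.flow.zero])) h2).congr_of_eventuallyEq
    (f₁ := fun s => ι (ft f a s y)) (.of_forall fun s => by simp [ft, ha])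
  have h4 := congrArg (fun L : ℝ →L[ℝ] F => L 1) (hasMFDerivAt_unique h1 h3)
  have h5 : (1 : ℝ) • Z (ι y) = dEnd E F ι y (0, (1 : ℝ) • genV E f y.2.1, 0) := h4
  rwa [one_smul, one_smul] at h5

theorem exists_ham (hc : Core E F Φ ι φ m) (hh : IsHeight F ι φ h) {g : V → ℝ}
    (hg : ContMDiff 𝓘(ℝ, E) 𝓘(ℝ, ℝ) ∞ g) :
    ∃ K : W → ℝ, ContMDiff 𝓘(ℝ, F) 𝓘(ℝ, ℝ) ∞ K ∧ (∀ t x, K (φ t x) = K x) ∧
      ∀ y : ℝ × V × R2, 4 < y.1 → ∀ b, dif F ℝ K (ι y) (dEnd E F ι y b) =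
        -(Real.exp y.1 * (b.1 * g y.2.1 + dif E ℝ g y.2.1 b.2.1)) := by
  have h0 : ContMDiff (I3 E) 𝓘(ℝ, ℝ) ∞ fun y : ℝ × V × R2 => -(Real.exp y.1 * g y.2.1) :=
    ((Real.contDiff_exp.contMDiff.comp contMDiff_fst).mul
      (hg.comp (contMDiff_fst.comp contMDiff_snd))).neg
  obtain ⟨H, h1, -⟩ := hc.isEnd.descend (fun y _ => h0 y) (fun _ _ _ _ _ => rfl) (0 : ℝ)
  have hsm : ContMDiff 𝓘(ℝ, F) 𝓘(ℝ, ℝ) ∞ fun x => Real.smoothTransition (h x - 3) * H x := by
    intro x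
    by_cases hx : 2 ≤ h x
    · obtain ⟨y, hy, rfl⟩ := hh.big x hx
      exact ((Real.smoothTransition.contDiff.comp (contDiff_id.sub contDiff_const)).contMDiff.comp
        hh.smooth _).mul (h1 y (by linarith)).2
    · refine (contMDiffAt_const (c := (0 : ℝ))).congr_of_eventuallyEq ?_
      filter_upwards [(hh.smooth.continuous.continuousAt (x := x)).eventually
        (gt_mem_nhds (not_le.1 hx))] with z hz
      rw [Real.smoothTransition.zero_of_nonpos (by linarith), zero_mul]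
  refine ⟨_, hsm, fun t x => ?_, fun y hy b => ?_⟩
  · rw [hh.invariant]
    by_cases hx : 2 ≤ h x
    · obtain ⟨y, hy, rfl⟩ := hh.big x hx
      have p0 : 0 < y.1 := by linarith
      rw [show φ t (ι y) = ι (y.1, y.2.1, y.2.2 + t) from hc.isEnd.equivariant _ _ _ t p0,
        (h1 y p0).1, (h1 (y.1, y.2.1, y.2.2 + t) p0).1]
    · rw [Real.smoothTransition.zero_of_nonpos (by linarith), zero_mul, zero_mul]
  · rw [hc.isEnd.dif_dEnd (by linarith) (hsm.mdifferentiableAt (by simp))]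
    have a1 := HasMFDerivAt.comp y (Real.hasDerivAt_exp y.1).hasFDerivAt.hasMFDerivAt
      (hasMFDerivAt_fst (I := 𝓘(ℝ, ℝ)) (I' := 𝓘(ℝ, E).prod 𝓘(ℝ, R2)) y)
    have a2 := HasMFDerivAt.comp y (hasMF_dif (hg.mdifferentiableAt (x := y.2.1) (by simp)))
      (HasMFDerivAt.comp y (hasMFDerivAt_fst (I := 𝓘(ℝ, E)) (I' := 𝓘(ℝ, R2)) y.2)
        (hasMFDerivAt_snd (I := 𝓘(ℝ, ℝ)) (I' := 𝓘(ℝ, E).prod 𝓘(ℝ, R2)) y))
    have a3 := (a1.mul' a2).neg.congr_of_eventuallyEq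
      (f₁ := fun z => Real.smoothTransition (h (ι z) - 3) * H (ι z))
      ((endd_pos hy).mono fun z hz => by
        show Real.smoothTransition (h (ι z) - 3) * H (ι z) = -(Real.exp z.1 * g z.2.1)
        rw [hh.onEnd z (by linarith), Real.smoothTransition.one_of_one_le (by linarith), one_mul,
          (h1 z (by linarith)).1])
    refine (congrArg (fun L : (ℝ × E × R2) →L[ℝ] ℝ => L b) a3.mfderiv).trans ?_
    show -(Real.exp y.1 * dif E ℝ g y.2.1 b.2.1 + (b.1 • Real.exp y.1) * g y.2.1) = _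
    rw [smul_eq_mul]
    ring

theorem Core.exists_far [CompactSpace V] (hc : Core E F Φ ι φ m) {q : V → Prop}
    (hq : ∀ᶠ v in 𝓝ˢ {v | Φ v = 0}, q v) (ρ : ℝ) :
    ∃ N, ∀ y : ℝ × V × R2, 0 < y.1 → N ≤ y.1 → ‖m (ι y)‖ ≤ ρ → q y.2.1 := by
  obtain ⟨O, hO, h1, h2⟩ := mem_nhdsSet_iff_exists.1 hq
  obtain ⟨δ, hδ, h3⟩ := hO.isClosed_compl.isCompact.exists_forall_le' (a := 0)
    hc.smoothV.continuous.norm.continuousOn fun w hw => norm_pos_iff.2 fun h0 => hw (h1 h0)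
  refine ⟨|ρ| / δ, fun y hy hN hm => h2 ?_⟩
  by_contra hv
  rw [hc.onEnd y hy, norm_mul, Complex.norm_real, Real.norm_of_nonneg (Real.exp_pos _).le] at hm
  have e1 := mul_le_mul (Real.add_one_le_exp y.1) (h3 _ hv) hδ.le (Real.exp_pos _).le
  rw [div_le_iff₀ hδ] at hN
  nlinarith [le_abs_self ρ]

/-- An admissible rotation field on a disc that is the lifted monodromy field near the binding. -/
theorem Conn.exists_inner [CompactSpace V] (hA : Conn E ι φ m h ρ N A) (hH : Ham σ φ m)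
    (hc : Core E F Φ ι φ m) (hh : IsHeight F ι φ h) (hf : OnEnd F α Φ σ ι) (hα : ∀ v, Sm α v)
    (ht : Turn E Φ f a) (hZ : IsRot ι f a Z) (hs : IsSymplecticMonodromyFlow α Φ f) :
    ∃ (D : W → F) (N' : ℝ), ∀ x, ‖m x‖ ≤ ρ → Adm σ m D x ∧
      (∀ t, dif F F (φ t) x (D x) = D (φ t x)) ∧
      dif F ℂ m x (D x) = 2 * Real.pi * Complex.I * m x ∧ (N' ≤ h x → D x = Z x) := by
  have hσ := hH.symplectic
  obtain ⟨K, k1, k2, k3⟩ := exists_ham hc hh (g := fun v => α v (genV E f v))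
    fun v => ((hα v).apply (srot_vf ht.flow v)).1
  obtain ⟨N₁, hN₁⟩ := hc.exists_far hs.strict ρ
  refine ⟨fun x => ((-(2 * Real.pi) * (m x).im) • Dc σ A 1 x +
    (2 * Real.pi * (m x).re) • Dc σ A Complex.I x) + dual σ (dif F ℝ K) x,
    max (max N 5) N₁, fun x hx => ⟨?_, fun t => ?_, ?_, fun hx' => ?_⟩⟩
  · exact (((hA.adm hσ 1 (Or.inl hx)).smul hσ hc.smooth (k := fun z => -(2 * Real.pi) * z.im)
      (contDiff_const.mul Complex.imCLM.contDiff)).add hσ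
      ((hA.adm hσ Complex.I (Or.inl hx)).smul hσ hc.smooth (k := fun z => 2 * Real.pi * z.re)
      (contDiff_const.mul Complex.reCLM.contDiff))).add hσ (adm_dual hσ (k1 x) EventuallyEq.rfl)
  · simp only [map_add, map_smul, hA.dinv hH hc _ (Or.inl hx), hc.invariant,
      hH.dual_inv hc.action hc.smooth (fields_inv hc.action k1 k2 t x)]
  · have a1 : dif F ℂ m x (dual σ (dif F ℝ K) x) = 0 := norm_pr_ext fun ξ => by
      rw [hH.dif_dual, dif_gen_inv hc.action k1 k2, map_zero]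
    simp only [map_add, map_smul, hA.dm hH _ (Or.inl hx), a1]
    apply Complex.ext <;> simp
  · have n1 : N ≤ h x := ((le_max_left _ _).trans (le_max_left _ _)).trans hx'
    have n2 : 5 ≤ h x := ((le_max_right _ _).trans (le_max_left _ _)).trans hx'
    have n3 : N₁ ≤ h x := (le_max_right _ _).trans hx'
    obtain ⟨y, hy, rfl⟩ := hh.big x (by linarith)
    rw [hh.onEnd y hy] at n1 n2 n3
    have p0 : 0 < y.1 := by linarith
    have st := hN₁ y p0 n3 hx
    have ha : ∀ t, a (t, y.2.1) = 0 := fun t => by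
      by_cases h0 : Φ y.2.1 = 0
      · exact ht.fix t _ h0
      · have := (st t).1
        rw [ht.turn, cocycle_norm, mul_eq_right₀ (norm_ne_zero_iff.2 h0)] at this
        exact Real.exp_eq_one_iff _ |>.1 this
    have z1 := srot_Z hZ ht hc.isEnd p0 ha
    have z2 := hZ.dif_m ht hc p0
    rw [z1, hc.dif_m p0] at z2
    refine sigma_ext hσ (x := ι y) fun w => ?_
    obtain ⟨b, rfl⟩ := (hc.isEnd.bijective p0).2 w
    have z3 := congrArg Complex.re z2
    have z4 := congrArg Complex.im z2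
    rw [z1, hf y p0, symp, srot_cartan ht.flow (hα _) fun t => (st t).2]
    simp only [map_add, map_smul, add_apply, smul_apply, Dc, dual_spec hσ,
      ContinuousLinearMap.comp_apply, hA.far y n1, k3 y (by linarith), prL_apply, pr_apply, bour,
      smul_eq_mul]
    simp at z3 z4 ⊢
    rw [← Complex.ofReal_exp, Complex.ofReal_re] at z3 z4
    linear_combination (-b.2.2 0) * z3 + b.2.2 1 * z4

end Pool.Agent.P.MP_49bf82_gt
end

-- part Pool.Agent.P.MP_49bf82_gt.STurn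
section

open Manifold Set Filter Topology
open scoped ContDiff

namespace Pool.Agent.P.MP_49bf82_gt

open Pool.Agent.P.MP_e3ee0c_gt

variable {E F : Type*} [NormedAddCommGroup E] [NormedSpace ℝ E] [FiniteDimensional ℝ E]
  [NormedAddCommGroup F] [NormedSpace ℝ F] [FiniteDimensional ℝ F]
  {V W : Type*} [TopologicalSpace V] [ChartedSpace E V] [IsManifold 𝓘(ℝ, E) ∞ V]
  [TopologicalSpace W] [ChartedSpace F W] [IsManifold 𝓘(ℝ, F) ∞ W]
  {Φ : V → ℂ} {ι : ℝ × V × R2 → W} {φ : R2 → W → W} {m : W → ℂ} {h : W → ℝ}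
  {σ : W → F →L[ℝ] F →L[ℝ] ℝ} {α : V → E →L[ℝ] ℝ} {p : W → V}
  {f : ℝ → V → V} {a : ℝ × V → ℝ} {A : W → F →L[ℝ] R2} {ρ N : ℝ} {Z : W → F}

/-- A flow that rotates m, preserves the form on all levels and lifts the monodromy flow. -/
theorem Conn.exists_turner [CompactSpace V] [T2Space W] [SigmaCompactSpace W]
    (hA : Conn E ι φ m h ρ N A) (hH : Ham σ φ m) (hc : Core E F Φ ι φ m) (hh : IsHeight F ι φ h)
    (hp : IsProj E F ι p) (hf : OnEnd F α Φ σ ι) (hα : ∀ v, Sm α v)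
    (hsur : ∀ x, Function.Surjective (dif F ℂ m x)) (ht : Turn E Φ f a)
    (hs : IsSymplecticMonodromyFlow α Φ f) {R : ℝ} (hR : 0 < R) (hρ : R + 2 ≤ ρ)
    (r1 : ∀ x, R ≤ ‖m x‖ → 3 < h x)
    (r2 : ∀ y : ℝ × V × R2, R ≤ Real.exp y.1 * ‖Φ y.2.1‖ → 3 < y.1)
    (r3 : ∀ v, Φ v ≠ 0 → 3 < Real.log ((R + 2) / ‖Φ v‖)) [Nonempty W] :
    ∃ (Q : ℝ → W → W) (C N₀ : ℝ), Mover F φ h C Q ∧
      (∀ s x, m (Q s x) = Complex.exp (2 * Real.pi * Complex.I * s) * m x) ∧
      (∀ s x, PK σ m (Q s) x) ∧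
      (∀ q, ‖m q‖ ≤ R + 2 → N₀ ≤ h q → Q 1 q = q ∧ (m q = 0 → ∀ s, Q s q = q)) ∧
      ∀ v, Φ v ≠ 0 → ∃ s, 0 < s ∧
        Q 1 (ι (Real.log ((R + 2) / ‖Φ v‖), v, 0)) = ι (s, f 1 v, 0) := by
  have hσ := hH.symplectic
  obtain ⟨Z, hZ⟩ := ht.exists_rot hc.isEnd hc.action
  obtain ⟨Y, C, c1, c2, c3, c4, c5⟩ := hc.exists_rot hh hsur ht hZ
  obtain ⟨Q₀, q, q'⟩ := exists_mover c1 hc.action c2 hh.smooth hh.compact c4
  obtain ⟨N₀, hN₀⟩ := q.far c1 hc hh ht hZ c5 (R + 2)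
  obtain ⟨D, N', hD⟩ := hA.exists_inner hH hc hh hf hα ht hZ hs
  let ψ : ContDiffBump (0 : ℂ) := ⟨R + 1, R + 2, by linarith, by linarith⟩
  have hD' := fun x (hx : ‖m x‖ ≤ ψ.rOut) => hD x (hx.trans hρ)
  have v1 : VF (mix ψ m D Y) := mix_vf hc.smooth (fun x hx => (hD' x hx).1.vf) c1
  have v2 : ∀ x, max N' 3 ≤ h x → mix ψ m D Y x = Y x := fun x hx => by
    rcases le_total ‖m x‖ ψ.rOut with h1 | h1
    · have n1 := (le_max_right _ _).trans hx
      refine mix_eq (((hD' x h1).2.2.2 ((le_max_left _ _).trans hx)).trans ?_)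
      obtain ⟨y, hy, rfl⟩ := hh.big x (by linarith)
      exact (c5 y (by rwa [hh.onEnd y hy] at n1)).symm
    · exact mix_out h1
  have v3 : ∀ x, dif F ℂ m x (mix ψ m D Y x) = 2 * Real.pi * Complex.I * m x := fun x =>
    mix_mem (S := dif F ℂ m x ⁻¹' {2 * Real.pi * Complex.I * m x})
      ((convex_singleton _).linear_preimage (dif F ℂ m x).toLinearMap)
      (fun hx => (hD' x hx).2.2.1) (c3 x)
  obtain ⟨C', hC'⟩ := (hh.compact (max N' 3)).exists_bound_of_continuousOn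
    (f := fun x => dif F ℝ h x (mix ψ m D Y x))
    fun x _ => ((v1 x).dif_apply (hh.smooth x)).continuousAt.continuousWithinAt
  obtain ⟨Q, hQ, hM⟩ := exists_mover v1 hc.action
    (mix_inv hc.invariant (fun x hx => (hD' x hx).2.1) c2) hh.smooth hh.compact (C := max C C')
    fun x => by
      rcases le_total (h x) (max N' 3) with h1 | h1
      · exact (hC' x h1).trans (le_max_right _ _)
      · rw [v2 x h1]
        exact (c4 x).trans (le_max_left _ _)
  have hrot := hQ.rotate hc.smooth v3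
  refine ⟨Q, _, max N₀ (max N' 3 + |C| * 2), hM, hrot, fun s x => hQ.pk hσ hc.smooth
    (L := fun s z => Complex.exp (2 * Real.pi * Complex.I * s) * z)
    (fun s => differentiable_id.const_mul _) hrot fun r _ =>
      mix_adm hσ hc.smooth (fun hx => (hD' _ hx).1) fun hx =>
        q.adm_outer c1 hσ hc hh hp hf hα ht hZ c5 c3 hs.pages hR r1 r2
          (lt_of_lt_of_le (lt_add_one R) hx), fun x hx hN => ?_, fun v hv => ?_⟩
  · obtain ⟨a1, a2⟩ := hN₀ x hx ((le_max_left _ _).trans hN)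
    have n1 := (le_max_right _ _).trans hN
    have hC := abs_nonneg C
    constructor
    · rw [hQ.agree q v1 (a := -1) (b := 2) (by norm_num) (fun t ht' => v2 _ ?_) 1 (by norm_num), a1]
      have b1 := (abs_le.1 (q'.height t x)).1
      have b2 : C * |t| ≤ |C| * 2 := mul_le_mul (le_abs_self C)
        (abs_le.2 ⟨by linarith [ht'.1], ht'.2.le⟩) (abs_nonneg t) hC
      linarith
    · intro h0 s
      have hs0 := abs_nonneg s
      rw [hQ.agree q v1 (a := -(|s| + 1)) (b := |s| + 1) ⟨by linarith, by linarith⟩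
        (fun t _ => v2 _ (by rw [a2 h0]; linarith)) s
        ⟨by linarith [neg_abs_le s], by linarith [le_abs_self s]⟩, a2 h0]
  · obtain ⟨s, s0, s1⟩ := q.one c1 ht hZ c5 (by linarith) r3 hv
    refine ⟨s, s0, Eq.trans (hQ.agree q v1 (a := -1) (b := 2) (by norm_num)
      (fun t _ => mix_out ?_) 1 (by norm_num)) s1⟩
    have hn : 0 < ‖Φ v‖ := norm_pos_iff.2 hv
    rw [q.rotate hc.smooth c3, norm_mul, norm_turn, one_mul,
      hc.onEnd _ (by simp only; linarith [r3 v hv]), norm_mul, Complex.norm_real,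
      Real.norm_of_nonneg (Real.exp_pos _).le, Real.exp_log (div_pos (by linarith) hn),
      div_mul_cancel₀ _ hn.ne']

end Pool.Agent.P.MP_49bf82_gt
end

-- part Pool.Agent.P.MP_49bf82_gt.Iso
section

open Manifold Set Filter Topology
open scoped ContDiff RealInnerProductSpace

namespace Pool.Agent.P.MP_49bf82_gt

open Pool.Agent.P.MP_e3ee0c_gt

variable {F : Type*} [NormedAddCommGroup F] [NormedSpace ℝ F] [FiniteDimensional ℝ F]
  {W : Type*} [TopologicalSpace W] [ChartedSpace F W] [IsManifold 𝓘(ℝ, F) ∞ W]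

variable {φ : R2 → W → W} {m : W → ℂ} {h : W → ℝ}

/-- translation of the moment value by `-r w` -/
def isoT (P₁ P₂ : ℝ → W → W) (r : ℝ) (w : ℂ) (x : W) : W := P₂ (-(r * w.im)) (P₁ (-(r * w.re)) x)

/-- the inverse translation -/
def isoT' (P₁ P₂ : ℝ → W → W) (r : ℝ) (w : ℂ) (x : W) : W := P₁ (r * w.re) (P₂ (r * w.im) x)

/-- the rotation conjugated by the translation -/
def isoA (m : W → ℂ) (P₁ P₂ Q : ℝ → W → W) (r s : ℝ) (x : W) : W :=
  isoT' P₁ P₂ r (m x) (Q s (isoT P₁ P₂ r (m x) x))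

omit [FiniteDimensional ℝ F] [IsManifold 𝓘(ℝ, F) ∞ W] in
theorem iso_neg {P : ℝ → W → W} {C : ℝ} (hP : Mover F φ h C P) (s : ℝ) (x : W) :
    P (-s) (P s x) = x := by
  rw [← hP.add, neg_add_cancel, hP.zero]

omit [FiniteDimensional ℝ F] [IsManifold 𝓘(ℝ, F) ∞ W] in
theorem iso_neg' {P : ℝ → W → W} {C : ℝ} (hP : Mover F φ h C P) (s : ℝ) (x : W) :
    P s (P (-s) x) = x := by
  rw [← hP.add, add_neg_cancel, hP.zero]

omit [FiniteDimensional ℝ F] [IsManifold 𝓘(ℝ, F) ∞ W] in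
theorem iso_smooth {P : ℝ → W → W} {C : ℝ} (hP : Mover F φ h C P) {a : ℝ × W → ℝ} {x : ℝ × W → W}
    (ha : ContMDiff (𝓘(ℝ, ℝ).prod 𝓘(ℝ, F)) 𝓘(ℝ, ℝ) ∞ a)
    (hx : ContMDiff (𝓘(ℝ, ℝ).prod 𝓘(ℝ, F)) 𝓘(ℝ, F) ∞ x) :
    ContMDiff (𝓘(ℝ, ℝ).prod 𝓘(ℝ, F)) 𝓘(ℝ, F) ∞ fun q => P (a q) (x q) :=
  hP.smooth.comp (ha.prodMk hx)

theorem exists_isotopy (hm : ContMDiff 𝓘(ℝ, F) 𝓘(ℝ, ℂ) ∞ m) (hi : ∀ t x, m (φ t x) = m x)
    {P₁ P₂ Q : ℝ → W → W} {C₁ C₂ C₃ : ℝ} (hP₁ : Mover F φ h C₁ P₁) (hP₂ : Mover F φ h C₂ P₂)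
    (hQ : Mover F φ h C₃ Q) (h1 : ∀ s x, m (P₁ s x) = m x + s * 1)
    (h2 : ∀ s x, m (P₂ s x) = m x + s * Complex.I)
    (h3 : ∀ s x, m (Q s x) = Complex.exp (2 * Real.pi * Complex.I * s) * m x) {R N₀ : ℝ}
    (far : ∀ q, ‖m q‖ ≤ R → N₀ ≤ h q → Q 1 q = q ∧ (m q = 0 → ∀ s, Q s q = q)) :
    ∃ G G' : ℝ → W → W, Isotopy F φ m G G' ∧ (∀ x, G 1 x = Q 1 x) ∧
      ∃ N, ∀ τ x, ‖m x‖ ≤ R → N ≤ h x → G τ x = x := by
  have TT : ∀ r w x, isoT P₁ P₂ r w (isoT' P₁ P₂ r w x) = x := fun r w x => by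
    simp only [isoT, isoT', iso_neg hP₁, iso_neg hP₂]
  have TT' : ∀ r w x, isoT' P₁ P₂ r w (isoT P₁ P₂ r w x) = x := fun r w x => by
    simp only [isoT, isoT', iso_neg' hP₁, iso_neg' hP₂]
  have mT : ∀ r w x, m (isoT P₁ P₂ r w x) = m x - r * w := fun r w x => by
    simp only [isoT, h1, h2]
    apply Complex.ext <;> simp <;> ring
  have mT' : ∀ r w x, m (isoT' P₁ P₂ r w x) = m x + r * w := fun r w x => by
    simp only [isoT', h1, h2]
    apply Complex.ext <;> simp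
  have mA : ∀ r s x, (r = 1 ∨ s = 1 ∨ s = -1) → m (isoA m P₁ P₂ Q r s x) = m x := by
    intro r s x hrs
    simp only [isoA, mT', h3, mT]
    rcases hrs with rfl | rfl | rfl
    · simp
    · simp
    · simp [Complex.exp_neg]
  have AA : ∀ r s x, (r = 1 ∨ s = 1 ∨ s = -1) →
      isoA m P₁ P₂ Q r (-s) (isoA m P₁ P₂ Q r s x) = x := by
    intro r s x hrs
    rw [isoA, mA r s x hrs, isoA, TT, iso_neg hQ, TT']
  have Ae : ∀ r s t x, isoA m P₁ P₂ Q r s (φ t x) = φ t (isoA m P₁ P₂ Q r s x) := by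
    intro r s t x
    simp only [isoA, isoT, isoT', hi, hP₁.equiv, hP₂.equiv, hQ.equiv]
  have As : ∀ {a b : ℝ × W → ℝ} {x : ℝ × W → W},
      ContMDiff (𝓘(ℝ, ℝ).prod 𝓘(ℝ, F)) 𝓘(ℝ, ℝ) ∞ a → ContMDiff (𝓘(ℝ, ℝ).prod 𝓘(ℝ, F)) 𝓘(ℝ, ℝ) ∞ b →
      ContMDiff (𝓘(ℝ, ℝ).prod 𝓘(ℝ, F)) 𝓘(ℝ, F) ∞ x →
      ContMDiff (𝓘(ℝ, ℝ).prod 𝓘(ℝ, F)) 𝓘(ℝ, F) ∞ fun q => isoA m P₁ P₂ Q (a q) (b q) (x q) := by
    intro a b x ha hb hx
    have hre : ContMDiff (𝓘(ℝ, ℝ).prod 𝓘(ℝ, F)) 𝓘(ℝ, ℝ) ∞ fun q => a q * (m (x q)).re :=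
      ha.mul (Complex.reCLM.contDiff.contMDiff.comp (hm.comp hx))
    have him : ContMDiff (𝓘(ℝ, ℝ).prod 𝓘(ℝ, F)) 𝓘(ℝ, ℝ) ∞ fun q => a q * (m (x q)).im :=
      ha.mul (Complex.imCLM.contDiff.contMDiff.comp (hm.comp hx))
    exact iso_smooth hP₁ hre (iso_smooth hP₂ him (iso_smooth hQ hb
      (iso_smooth hP₂ him.neg (iso_smooth hP₁ hre.neg hx))))
  have ht : ContMDiff (𝓘(ℝ, ℝ).prod 𝓘(ℝ, F)) 𝓘(ℝ, ℝ) ∞
      fun q : ℝ × W => Real.smoothTransition q.1 :=
    (Real.smoothTransition.contDiff (n := ⊤)).contMDiff.comp contMDiff_fst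
  have ht1 : ContMDiff (𝓘(ℝ, ℝ).prod 𝓘(ℝ, F)) 𝓘(ℝ, ℝ) ∞
      fun q : ℝ × W => 1 - Real.smoothTransition q.1 := contMDiff_const.sub ht
  have hT : ∀ r x, 0 ≤ r → r ≤ 1 → ‖m x‖ ≤ R → N₀ + (|C₁| + |C₂|) * |R| ≤ h x →
      ‖m (isoT P₁ P₂ r (m x) x)‖ ≤ R ∧ N₀ ≤ h (isoT P₁ P₂ r (m x) x) := by
    intro r x r0 r1 hR hN
    constructor
    · rw [mT, show m x - r * m x = ((1 - r : ℝ) : ℂ) * m x by push_cast; ring, norm_mul,
        Complex.norm_real, Real.norm_of_nonneg (by linarith)]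
      nlinarith [norm_nonneg (m x)]
    · have a1 := hP₁.height (-(r * (m x).re)) x
      have a2 := hP₂.height (-(r * (m x).im)) (P₁ (-(r * (m x).re)) x)
      have b1 : |-(r * (m x).re)| ≤ |R| := by
        rw [abs_neg, abs_mul, abs_of_nonneg r0]
        nlinarith [Complex.abs_re_le_norm (m x), le_abs_self R, abs_nonneg (m x).re]
      have b2 : |-(r * (m x).im)| ≤ |R| := by
        rw [abs_neg, abs_mul, abs_of_nonneg r0]
        nlinarith [Complex.abs_im_le_norm (m x), le_abs_self R, abs_nonneg (m x).im]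
      have c1 : C₁ * |-(r * (m x).re)| ≤ |C₁| * |R| :=
        mul_le_mul (le_abs_self _) b1 (abs_nonneg _) (abs_nonneg _)
      have c2 : C₂ * |-(r * (m x).im)| ≤ |C₂| * |R| :=
        mul_le_mul (le_abs_self _) b2 (abs_nonneg _) (abs_nonneg _)
      have d1 := (abs_le.1 (a1.trans c1)).1
      have d2 := (abs_le.1 (a2.trans c2)).1
      unfold isoT
      linarith
  refine ⟨fun τ x => isoA m P₁ P₂ Q (1 - Real.smoothTransition τ) 1
      (isoA m P₁ P₂ Q 1 (-(1 - Real.smoothTransition τ)) x),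
    fun τ x => isoA m P₁ P₂ Q 1 (1 - Real.smoothTransition τ)
      (isoA m P₁ P₂ Q (1 - Real.smoothTransition τ) (-1) x),
    ⟨As ht1 contMDiff_const (As contMDiff_const ht1.neg contMDiff_snd),
      As contMDiff_const ht1 (As ht1 contMDiff_const contMDiff_snd), fun τ x => ?_, fun τ x => ?_,
      fun x => ?_, fun τ x => ?_, fun τ t x => by rw [Ae, Ae]⟩, fun x => ?_,
    N₀ + (|C₁| + |C₂|) * |R|, fun τ x hR hN => ?_⟩
  · rw [AA _ 1 _ (Or.inr (Or.inl rfl))]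
    simpa only [neg_neg] using AA 1 (-(1 - Real.smoothTransition τ)) x (Or.inl rfl)
  · rw [AA 1 _ _ (Or.inl rfl)]
    simpa only [neg_neg] using AA _ (-1) x (Or.inr (Or.inr rfl))
  · rw [Real.smoothTransition.zero, sub_zero]
    simpa only [neg_neg] using AA 1 (-1) x (Or.inl rfl)
  · rw [mA _ _ _ (Or.inr (Or.inl rfl)), mA _ _ _ (Or.inl rfl)]
  · have : isoA m P₁ P₂ Q 1 0 x = x := by rw [isoA, hQ.zero, TT']
    simp only [Real.smoothTransition.one, sub_self, neg_zero, this]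
    simp [isoA, isoT, isoT', hP₁.zero, hP₂.zero]
  · have a1 := hT 1 x zero_le_one le_rfl hR hN
    have a2 := hT (1 - Real.smoothTransition τ) x (by linarith [Real.smoothTransition.le_one τ])
      (by linarith [Real.smoothTransition.nonneg τ]) hR hN
    have b1 : isoA m P₁ P₂ Q 1 (-(1 - Real.smoothTransition τ)) x = x := by
      rw [isoA, (far _ a1.1 a1.2).2 (by simp [mT]), TT']
    show isoA m P₁ P₂ Q _ 1 (isoA m P₁ P₂ Q 1 _ x) = x
    rw [b1, isoA, (far _ a2.1 a2.2).1, TT']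

end Pool.Agent.P.MP_49bf82_gt
end

-- part Pool.Agent.P.MP_49bf82_gt.SIso
section

open Manifold Set Filter Topology
open scoped ContDiff

namespace Pool.Agent.P.MP_49bf82_gt

open Pool.Agent.P.MP_e3ee0c_gt

variable {F : Type*} [NormedAddCommGroup F] [NormedSpace ℝ F] [FiniteDimensional ℝ F]
  {W : Type*} [TopologicalSpace W] [ChartedSpace F W] [IsManifold 𝓘(ℝ, F) ∞ W]

variable {φ : R2 → W → W} {m : W → ℂ} {h : W → ℝ} {σ : W → F →L[ℝ] F →L[ℝ] ℝ}

omit [FiniteDimensional ℝ F] [IsManifold 𝓘(ℝ, F) ∞ W] in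
theorem pk_param (hm : ContMDiff 𝓘(ℝ, F) 𝓘(ℝ, ℂ) ∞ m) {B : ℂ × W → W}
    (hB : ContMDiff (𝓘(ℝ, ℂ).prod 𝓘(ℝ, F)) 𝓘(ℝ, F) ∞ B) {x : W}
    (hk : PK σ m (fun z => B (m x, z)) x) : PK σ m (fun z => B (m z, z)) x := by
  have h0 := (hB.mdifferentiableAt (x := (m x, x)) (by simp)).hasMFDerivAt
  have h1 := HasMFDerivAt.comp (f := fun z => (m z, z)) x h0
    ((hasMF_dif (hm.mdifferentiableAt (by simp))).prodMk (hasMFDerivAt_id x))
  have h2 := HasMFDerivAt.comp (f := fun z => (m x, z)) x h0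
    ((hasMFDerivAt_const (m x) x).prodMk (hasMFDerivAt_id x))
  have e : ∀ u, dif F ℂ m x u = 0 →
      dif F F (fun z => B (m z, z)) x u = dif F F (fun z => B (m x, z)) x u := fun u hu => by
    refine (congrArg (fun L : F →L[ℝ] F => L u) h1.mfderiv).trans
      (Eq.trans ?_ (congrArg (fun L : F →L[ℝ] F => L u) h2.mfderiv).symm)
    show mfderiv (𝓘(ℝ, ℂ).prod 𝓘(ℝ, F)) 𝓘(ℝ, F) B (m x, x) (dif F ℂ m x u, u) =
      mfderiv (𝓘(ℝ, ℂ).prod 𝓘(ℝ, F)) 𝓘(ℝ, F) B (m x, x) (0, u)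
    rw [hu]
  exact ⟨h1.mdifferentiableAt, fun u hu => by rw [e u hu]; exact hk.ker u hu,
    fun u v hu hv => by rw [e u hu, e v hv]; exact hk.form u v hu hv⟩

omit [FiniteDimensional ℝ F] [IsManifold 𝓘(ℝ, F) ∞ W] in
theorem pk_isoA (hm : ContMDiff 𝓘(ℝ, F) 𝓘(ℝ, ℂ) ∞ m)
    {P₁ P₂ Q : ℝ → W → W} {C₁ C₂ C₃ : ℝ} (hP₁ : Mover F φ h C₁ P₁) (hP₂ : Mover F φ h C₂ P₂)
    (hQ : Mover F φ h C₃ Q) (h1 : ∀ s x, m (P₁ s x) = m x + s * 1)
    (h2 : ∀ s x, m (P₂ s x) = m x + s * Complex.I) (h3 : ∀ s x, ‖m (Q s x)‖ = ‖m x‖) {R : ℝ}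
    (k1 : ∀ s x, ‖m x‖ + |s| ≤ 5 * R → PK σ m (P₁ s) x)
    (k2 : ∀ s x, ‖m x‖ + |s| ≤ 5 * R → PK σ m (P₂ s) x) (k3 : ∀ s x, PK σ m (Q s) x)
    {r : ℝ} (r0 : 0 ≤ r) (r1 : r ≤ 1) (s : ℝ) {x : W} (hx : ‖m x‖ ≤ R) :
    PK σ m (isoA m P₁ P₂ Q r s) x := by
  have sm : ∀ {P : ℝ → W → W} {C : ℝ}, Mover F φ h C P → ∀ {a : ℂ × W → ℝ} {y : ℂ × W → W},
      ContMDiff (𝓘(ℝ, ℂ).prod 𝓘(ℝ, F)) 𝓘(ℝ, ℝ) ∞ a → ContMDiff (𝓘(ℝ, ℂ).prod 𝓘(ℝ, F)) 𝓘(ℝ, F) ∞ y →
      ContMDiff (𝓘(ℝ, ℂ).prod 𝓘(ℝ, F)) 𝓘(ℝ, F) ∞ fun q => P (a q) (y q) :=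
    fun hP _ _ ha hy => hP.smooth.comp (ha.prodMk hy)
  have hre : ContMDiff (𝓘(ℝ, ℂ).prod 𝓘(ℝ, F)) 𝓘(ℝ, ℝ) ∞ fun q : ℂ × W => r * q.1.re :=
    contMDiff_const.mul (Complex.reCLM.contDiff.contMDiff.comp contMDiff_fst)
  have him : ContMDiff (𝓘(ℝ, ℂ).prod 𝓘(ℝ, F)) 𝓘(ℝ, ℝ) ∞ fun q : ℂ × W => r * q.1.im :=
    contMDiff_const.mul (Complex.imCLM.contDiff.contMDiff.comp contMDiff_fst)
  refine pk_param (B := fun q => isoT' P₁ P₂ r q.1 (Q s (isoT P₁ P₂ r q.1 q.2))) hm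
    (sm hP₁ hre (sm hP₂ him (sm hQ contMDiff_const (sm hP₂ him.neg (sm hP₁ hre.neg contMDiff_snd)))))
    ?_
  have n1 : ∀ s x, ‖m (P₁ s x)‖ ≤ ‖m x‖ + |s| := fun s x => by
    rw [h1]
    simpa using norm_add_le (m x) (s * 1)
  have n2 : ∀ s x, ‖m (P₂ s x)‖ ≤ ‖m x‖ + |s| := fun s x => by
    rw [h2]
    simpa using norm_add_le (m x) (s * Complex.I)
  have b1 : |r * (m x).re| ≤ R := by
    rw [abs_mul, abs_of_nonneg r0]
    nlinarith [Complex.abs_re_le_norm (m x), abs_nonneg (m x).re]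
  have b2 : |r * (m x).im| ≤ R := by
    rw [abs_mul, abs_of_nonneg r0]
    nlinarith [Complex.abs_im_le_norm (m x), abs_nonneg (m x).im]
  have b3 := abs_neg (r * (m x).re)
  have b4 := abs_neg (r * (m x).im)
  have R0 := (norm_nonneg _).trans hx
  have a1 := n1 (-(r * (m x).re)) x
  have a2 := n2 (-(r * (m x).im)) (P₁ (-(r * (m x).re)) x)
  have a3 := h3 s (P₂ (-(r * (m x).im)) (P₁ (-(r * (m x).re)) x))
  have a4 := n2 (r * (m x).im) (Q s (P₂ (-(r * (m x).im)) (P₁ (-(r * (m x).re)) x)))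
  have c1 := (k2 (-(r * (m x).im)) _ (by linarith)).comp (k1 (-(r * (m x).re)) x (by linarith))
  have c2 := (k2 (r * (m x).im) _ (by linarith)).comp ((k3 s _).comp c1)
  exact ((k1 (r * (m x).re) _ (by linarith)).comp c2 :)

omit [FiniteDimensional ℝ F] [IsManifold 𝓘(ℝ, F) ∞ W] in
theorem exists_isotopy_pk (hm : ContMDiff 𝓘(ℝ, F) 𝓘(ℝ, ℂ) ∞ m) (hi : ∀ t x, m (φ t x) = m x)
    {P₁ P₂ Q : ℝ → W → W} {C₁ C₂ C₃ : ℝ} (hP₁ : Mover F φ h C₁ P₁) (hP₂ : Mover F φ h C₂ P₂)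
    (hQ : Mover F φ h C₃ Q) (h1 : ∀ s x, m (P₁ s x) = m x + s * 1)
    (h2 : ∀ s x, m (P₂ s x) = m x + s * Complex.I)
    (h3 : ∀ s x, m (Q s x) = Complex.exp (2 * Real.pi * Complex.I * s) * m x) {R N₀ : ℝ}
    (far : ∀ q, ‖m q‖ ≤ R → N₀ ≤ h q → Q 1 q = q ∧ (m q = 0 → ∀ s, Q s q = q))
    (k1 : ∀ s x, ‖m x‖ + |s| ≤ 5 * R → PK σ m (P₁ s) x)
    (k2 : ∀ s x, ‖m x‖ + |s| ≤ 5 * R → PK σ m (P₂ s) x) (k3 : ∀ s x, PK σ m (Q s) x)
    (h4 : ∀ s x, ‖m (Q s x)‖ = ‖m x‖) :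
    ∃ G G' : ℝ → W → W, Isotopy F φ m G G' ∧ (∀ x, G 1 x = Q 1 x) ∧
      (∀ τ x, ‖m x‖ ≤ R → PK σ m (G τ) x) ∧ ∃ N, ∀ τ x, ‖m x‖ ≤ R → N ≤ h x → G τ x = x := by
  have TT : ∀ r w x, isoT P₁ P₂ r w (isoT' P₁ P₂ r w x) = x := fun r w x => by
    simp only [isoT, isoT', iso_neg hP₁, iso_neg hP₂]
  have TT' : ∀ r w x, isoT' P₁ P₂ r w (isoT P₁ P₂ r w x) = x := fun r w x => by
    simp only [isoT, isoT', iso_neg' hP₁, iso_neg' hP₂]
  have mT : ∀ r w x, m (isoT P₁ P₂ r w x) = m x - r * w := fun r w x => by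
    simp only [isoT, h1, h2]
    apply Complex.ext <;> simp <;> ring
  have mT' : ∀ r w x, m (isoT' P₁ P₂ r w x) = m x + r * w := fun r w x => by
    simp only [isoT', h1, h2]
    apply Complex.ext <;> simp
  have mA : ∀ r s x, (r = 1 ∨ s = 1 ∨ s = -1) → m (isoA m P₁ P₂ Q r s x) = m x := by
    intro r s x hrs
    simp only [isoA, mT', h3, mT]
    rcases hrs with rfl | rfl | rfl
    · simp
    · simp
    · simp [Complex.exp_neg]
  have AA : ∀ r s x, (r = 1 ∨ s = 1 ∨ s = -1) →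
      isoA m P₁ P₂ Q r (-s) (isoA m P₁ P₂ Q r s x) = x := by
    intro r s x hrs
    rw [isoA, mA r s x hrs, isoA, TT, iso_neg hQ, TT']
  have Ae : ∀ r s t x, isoA m P₁ P₂ Q r s (φ t x) = φ t (isoA m P₁ P₂ Q r s x) := by
    intro r s t x
    simp only [isoA, isoT, isoT', hi, hP₁.equiv, hP₂.equiv, hQ.equiv]
  have As : ∀ {a b : ℝ × W → ℝ} {x : ℝ × W → W},
      ContMDiff (𝓘(ℝ, ℝ).prod 𝓘(ℝ, F)) 𝓘(ℝ, ℝ) ∞ a → ContMDiff (𝓘(ℝ, ℝ).prod 𝓘(ℝ, F)) 𝓘(ℝ, ℝ) ∞ b →
      ContMDiff (𝓘(ℝ, ℝ).prod 𝓘(ℝ, F)) 𝓘(ℝ, F) ∞ x →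
      ContMDiff (𝓘(ℝ, ℝ).prod 𝓘(ℝ, F)) 𝓘(ℝ, F) ∞ fun q => isoA m P₁ P₂ Q (a q) (b q) (x q) := by
    intro a b x ha hb hx
    have hre : ContMDiff (𝓘(ℝ, ℝ).prod 𝓘(ℝ, F)) 𝓘(ℝ, ℝ) ∞ fun q => a q * (m (x q)).re :=
      ha.mul (Complex.reCLM.contDiff.contMDiff.comp (hm.comp hx))
    have him : ContMDiff (𝓘(ℝ, ℝ).prod 𝓘(ℝ, F)) 𝓘(ℝ, ℝ) ∞ fun q => a q * (m (x q)).im :=
      ha.mul (Complex.imCLM.contDiff.contMDiff.comp (hm.comp hx))
    exact iso_smooth hP₁ hre (iso_smooth hP₂ him (iso_smooth hQ hb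
      (iso_smooth hP₂ him.neg (iso_smooth hP₁ hre.neg hx))))
  have ht : ContMDiff (𝓘(ℝ, ℝ).prod 𝓘(ℝ, F)) 𝓘(ℝ, ℝ) ∞
      fun q : ℝ × W => Real.smoothTransition q.1 :=
    (Real.smoothTransition.contDiff (n := ⊤)).contMDiff.comp contMDiff_fst
  have ht1 : ContMDiff (𝓘(ℝ, ℝ).prod 𝓘(ℝ, F)) 𝓘(ℝ, ℝ) ∞
      fun q : ℝ × W => 1 - Real.smoothTransition q.1 := contMDiff_const.sub ht
  have hT : ∀ r x, 0 ≤ r → r ≤ 1 → ‖m x‖ ≤ R → N₀ + (|C₁| + |C₂|) * |R| ≤ h x →
      ‖m (isoT P₁ P₂ r (m x) x)‖ ≤ R ∧ N₀ ≤ h (isoT P₁ P₂ r (m x) x) := by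
    intro r x r0 r1 hR hN
    constructor
    · rw [mT, show m x - r * m x = ((1 - r : ℝ) : ℂ) * m x by push_cast; ring, norm_mul,
        Complex.norm_real, Real.norm_of_nonneg (by linarith)]
      nlinarith [norm_nonneg (m x)]
    · have a1 := hP₁.height (-(r * (m x).re)) x
      have a2 := hP₂.height (-(r * (m x).im)) (P₁ (-(r * (m x).re)) x)
      have b1 : |-(r * (m x).re)| ≤ |R| := by
        rw [abs_neg, abs_mul, abs_of_nonneg r0]
        nlinarith [Complex.abs_re_le_norm (m x), le_abs_self R, abs_nonneg (m x).re]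
      have b2 : |-(r * (m x).im)| ≤ |R| := by
        rw [abs_neg, abs_mul, abs_of_nonneg r0]
        nlinarith [Complex.abs_im_le_norm (m x), le_abs_self R, abs_nonneg (m x).im]
      have c1 : C₁ * |-(r * (m x).re)| ≤ |C₁| * |R| :=
        mul_le_mul (le_abs_self _) b1 (abs_nonneg _) (abs_nonneg _)
      have c2 : C₂ * |-(r * (m x).im)| ≤ |C₂| * |R| :=
        mul_le_mul (le_abs_self _) b2 (abs_nonneg _) (abs_nonneg _)
      have d1 := (abs_le.1 (a1.trans c1)).1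
      have d2 := (abs_le.1 (a2.trans c2)).1
      unfold isoT
      linarith
  refine ⟨fun τ x => isoA m P₁ P₂ Q (1 - Real.smoothTransition τ) 1
      (isoA m P₁ P₂ Q 1 (-(1 - Real.smoothTransition τ)) x),
    fun τ x => isoA m P₁ P₂ Q 1 (1 - Real.smoothTransition τ)
      (isoA m P₁ P₂ Q (1 - Real.smoothTransition τ) (-1) x),
    ⟨As ht1 contMDiff_const (As contMDiff_const ht1.neg contMDiff_snd),
      As contMDiff_const ht1 (As ht1 contMDiff_const contMDiff_snd), fun τ x => ?_, fun τ x => ?_,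
      fun x => ?_, fun τ x => ?_, fun τ t x => by rw [Ae, Ae]⟩, fun x => ?_,
    fun τ x hx => (pk_isoA hm hP₁ hP₂ hQ h1 h2 h4 k1 k2 k3
      (by linarith [Real.smoothTransition.le_one τ]) (by linarith [Real.smoothTransition.nonneg τ])
      1 (by rwa [mA _ _ _ (Or.inl rfl)])).comp
      (pk_isoA hm hP₁ hP₂ hQ h1 h2 h4 k1 k2 k3 zero_le_one le_rfl _ hx),
    N₀ + (|C₁| + |C₂|) * |R|, fun τ x hR hN => ?_⟩
  · rw [AA _ 1 _ (Or.inr (Or.inl rfl))]
    simpa only [neg_neg] using AA 1 (-(1 - Real.smoothTransition τ)) x (Or.inl rfl)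
  · rw [AA 1 _ _ (Or.inl rfl)]
    simpa only [neg_neg] using AA _ (-1) x (Or.inr (Or.inr rfl))
  · rw [Real.smoothTransition.zero, sub_zero]
    simpa only [neg_neg] using AA 1 (-1) x (Or.inl rfl)
  · rw [mA _ _ _ (Or.inr (Or.inl rfl)), mA _ _ _ (Or.inl rfl)]
  · have : isoA m P₁ P₂ Q 1 0 x = x := by rw [isoA, hQ.zero, TT']
    simp only [Real.smoothTransition.one, sub_self, neg_zero, this]
    simp [isoA, isoT, isoT', hP₁.zero, hP₂.zero]
  · have a1 := hT 1 x zero_le_one le_rfl hR hN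
    have a2 := hT (1 - Real.smoothTransition τ) x (by linarith [Real.smoothTransition.le_one τ])
      (by linarith [Real.smoothTransition.nonneg τ]) hR hN
    have b1 : isoA m P₁ P₂ Q 1 (-(1 - Real.smoothTransition τ)) x = x := by
      rw [isoA, (far _ a1.1 a1.2).2 (by simp [mT]), TT']
    show isoA m P₁ P₂ Q _ 1 (isoA m P₁ P₂ Q 1 _ x) = x
    rw [b1, isoA, (far _ a2.1 a2.2).1, TT']

end Pool.Agent.P.MP_49bf82_gt
end

-- part Pool.Agent.P.MP_49bf82_gt.Desc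
section

open Manifold Set Filter Topology
open scoped ContDiff RealInnerProductSpace

namespace Pool.Agent.P.MP_49bf82_gt

open Pool.Agent.P.MP_e3ee0c_gt

variable {E F : Type*} [NormedAddCommGroup E] [NormedSpace ℝ E] [FiniteDimensional ℝ E]
  [NormedAddCommGroup F] [NormedSpace ℝ F] [FiniteDimensional ℝ F]
  {V W : Type*} [TopologicalSpace V] [ChartedSpace E V] [IsManifold 𝓘(ℝ, E) ∞ V]
  [TopologicalSpace W] [ChartedSpace F W] [IsManifold 𝓘(ℝ, F) ∞ W]
  {Φ : V → ℂ} {ι : ℝ × V × R2 → W} {φ : R2 → W → W} {m : W → ℂ} {h : W → ℝ}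
  {f : ℝ → V → V} {a : ℝ × V → ℝ} {σ : W → F →L[ℝ] F →L[ℝ] ℝ}

omit [FiniteDimensional ℝ F] [IsManifold 𝓘(ℝ, F) ∞ W] in
theorem desc_symm {G G' : ℝ → W → W} (hG : Isotopy F φ m G G') : Isotopy F φ m G' G where
  smooth := hG.smooth'
  smooth' := hG.smooth
  left := hG.right
  right := hG.left
  zero x := by
    have := hG.left 0 x
    rwa [hG.zero] at this
  pres τ x := by
    have := hG.pres τ (G' τ x)
    rw [hG.right] at this
    exact this.symm
  equiv τ t x := by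
    have h1 : φ t x = G τ (φ t (G' τ x)) := by rw [hG.equiv, hG.right]
    rw [h1, hG.left]

/-- The section of the level of radius R. -/
noncomputable def descJ (Φ : V → ℂ) (ι : ℝ × V × R2 → W) (R : ℝ) (v : V) : W :=
  ι (Real.log (R / ‖Φ v‖), v, 0)

open Classical in
/-- The descended isotopy. -/
noncomputable def descG (Φ : V → ℂ) (ι : ℝ × V × R2 → W) (R : ℝ) (p : W → V)
    (G : ℝ → W → W) (τ : ℝ) (v : V) : V :=
  if Φ v = 0 then v else p (G τ (descJ Φ ι R v))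

omit [FiniteDimensional ℝ E] [FiniteDimensional ℝ F] [IsManifold 𝓘(ℝ, E) ∞ V]
  [IsManifold 𝓘(ℝ, F) ∞ W] in
theorem desc_m (hc : Core E F Φ ι φ m) {R : ℝ} (hR : 0 < R)
    (hR₂ : ∀ v, Φ v ≠ 0 → 3 < Real.log (R / ‖Φ v‖)) {v : V} (hv : Φ v ≠ 0) :
    m (descJ Φ ι R v) = ((R / ‖Φ v‖ : ℝ) : ℂ) * Φ v ∧ ‖m (descJ Φ ι R v)‖ = R := by
  have hn : 0 < ‖Φ v‖ := norm_pos_iff.2 hv
  have h1 : m (descJ Φ ι R v) = ((R / ‖Φ v‖ : ℝ) : ℂ) * Φ v := by
    have := hc.onEnd (Real.log (R / ‖Φ v‖), v, 0) (by linarith [hR₂ v hv])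
    rw [descJ, this]
    simp only
    rw [Real.exp_log (div_pos hR hn)]
  refine ⟨h1, ?_⟩
  rw [h1, norm_mul, Complex.norm_real, Real.norm_of_nonneg (div_pos hR hn).le]
  field_simp

omit [FiniteDimensional ℝ E] [FiniteDimensional ℝ F] [IsManifold 𝓘(ℝ, E) ∞ V]
  [IsManifold 𝓘(ℝ, F) ∞ W] in
theorem desc_key (hc : Core E F Φ ι φ m) (hh : IsHeight F ι φ h)
    {G G' : ℝ → W → W} (hG : Isotopy F φ m G G') {R : ℝ} (hR : 0 < R)
    (hR₁ : ∀ x, ‖m x‖ = R → 3 < h x) (hR₂ : ∀ v, Φ v ≠ 0 → 3 < Real.log (R / ‖Φ v‖))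
    {p : W → V} (hp : ∀ y : ℝ × V × R2, 0 < y.1 → p (ι y) = y.2.1) (τ : ℝ) {v : V}
    (hv : Φ v ≠ 0) :
    (∃ y : ℝ × V × R2, 0 < y.1 ∧ ι y = G τ (descJ Φ ι R v)) ∧
    Φ (p (G τ (descJ Φ ι R v))) ≠ 0 ∧
    (∃ u, G τ (descJ Φ ι R v) = φ u (descJ Φ ι R (p (G τ (descJ Φ ι R v))))) ∧
    ∃ c : ℝ, 0 < c ∧ Φ (p (G τ (descJ Φ ι R v))) = c * Φ v := by
  obtain ⟨h1, h2⟩ := desc_m hc hR hR₂ hv
  have hn : 0 < ‖Φ v‖ := norm_pos_iff.2 hv
  have h3 : 3 < h (G τ (descJ Φ ι R v)) := hR₁ _ (by rw [hG.pres, h2])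
  obtain ⟨⟨s, w, u⟩, hs, hy⟩ := hh.big _ (by linarith : 2 ≤ h (G τ (descJ Φ ι R v)))
  simp only at hs
  have hs0 : 0 < s := by linarith
  have hw : p (G τ (descJ Φ ι R v)) = w := by rw [← hy]; exact hp _ hs0
  have h4 : (Real.exp s : ℂ) * Φ w = ((R / ‖Φ v‖ : ℝ) : ℂ) * Φ v := by
    have := hc.onEnd (s, w, u) hs0
    rw [hy, hG.pres, h1] at this
    exact this.symm
  have he : (Real.exp s : ℂ) ≠ 0 := Complex.ofReal_ne_zero.2 (Real.exp_pos s).ne'
  have h5 : Φ w = (((Real.exp s)⁻¹ * (R / ‖Φ v‖) : ℝ) : ℂ) * Φ v := by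
    rw [Complex.ofReal_mul, mul_assoc, ← h4, Complex.ofReal_inv, ← mul_assoc,
      inv_mul_cancel₀ he, one_mul]
  have hcpos : 0 < (Real.exp s)⁻¹ * (R / ‖Φ v‖) :=
    mul_pos (inv_pos.2 (Real.exp_pos s)) (div_pos hR hn)
  have h6 : ‖Φ w‖ = (Real.exp s)⁻¹ * R := by
    rw [h5, norm_mul, Complex.norm_real, Real.norm_of_nonneg hcpos.le]
    field_simp
  have h7 : Real.log (R / ‖Φ w‖) = s := by
    rw [h6]
    have : R / ((Real.exp s)⁻¹ * R) = Real.exp s := by field_simp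
    rw [this, Real.log_exp]
  rw [hw]
  refine ⟨⟨(s, w, u), hs0, hy⟩, ?_, ⟨u, ?_⟩, _, hcpos, h5⟩
  · rw [h5]
    exact mul_ne_zero (Complex.ofReal_ne_zero.2 hcpos.ne') hv
  · rw [← hy, descJ, h7, hc.isEnd.equivariant _ _ _ _ hs0, zero_add]

omit [FiniteDimensional ℝ E] [FiniteDimensional ℝ F] [IsManifold 𝓘(ℝ, E) ∞ V]
  [IsManifold 𝓘(ℝ, F) ∞ W] in
theorem desc_inv (hc : Core E F Φ ι φ m) (hh : IsHeight F ι φ h)
    {G G' : ℝ → W → W} (hG : Isotopy F φ m G G') {R : ℝ} (hR : 0 < R)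
    (hR₁ : ∀ x, ‖m x‖ = R → 3 < h x) (hR₂ : ∀ v, Φ v ≠ 0 → 3 < Real.log (R / ‖Φ v‖))
    {p : W → V} (hp : ∀ y : ℝ × V × R2, 0 < y.1 → p (ι y) = y.2.1) (τ : ℝ) (v : V) :
    descG Φ ι R p G' τ (descG Φ ι R p G τ v) = v := by
  by_cases hv : Φ v = 0
  · simp [descG, hv]
  obtain ⟨-, h1, ⟨u, hu⟩, -⟩ := desc_key hc hh hG hR hR₁ hR₂ hp τ hv
  have e1 : descG Φ ι R p G τ v = p (G τ (descJ Φ ι R v)) := by simp [descG, hv]
  rw [e1]
  set w := p (G τ (descJ Φ ι R v)) with hw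
  have e2 : descG Φ ι R p G' τ w = p (G' τ (descJ Φ ι R w)) := by simp [descG, h1]
  rw [e2]
  have h2 : descJ Φ ι R v = φ u (G' τ (descJ Φ ι R w)) := by
    rw [← (desc_symm hG).equiv, ← hu, hG.left]
  have h3 : G' τ (descJ Φ ι R w) = φ (-u) (descJ Φ ι R v) := by
    rw [h2, ← hc.action.add, neg_add_cancel, hc.action.zero]
  have hs : 0 < Real.log (R / ‖Φ v‖) := by linarith [hR₂ v hv]
  rw [h3, descJ, hc.isEnd.equivariant _ _ _ _ hs]
  exact hp _ hs

omit [FiniteDimensional ℝ E] [FiniteDimensional ℝ F] [IsManifold 𝓘(ℝ, E) ∞ V]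
  [IsManifold 𝓘(ℝ, F) ∞ W] in
theorem desc_near (hc : Core E F Φ ι φ m) (hh : IsHeight F ι φ h)
    {G : ℝ → W → W} {R N : ℝ} (hR : 0 < R)
    (hR₂ : ∀ v, Φ v ≠ 0 → 3 < Real.log (R / ‖Φ v‖))
    (hN : ∀ τ x, ‖m x‖ ≤ R → N ≤ h x → G τ x = x)
    {p : W → V} (hp : ∀ y : ℝ × V × R2, 0 < y.1 → p (ι y) = y.2.1) (τ : ℝ) {v : V}
    (hv : ‖Φ v‖ < R * Real.exp (-N)) : descG Φ ι R p G τ v = v := by
  by_cases h0 : Φ v = 0
  · simp [descG, h0]
  have e1 : descG Φ ι R p G τ v = p (G τ (descJ Φ ι R v)) := by simp [descG, h0]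
  have hn : 0 < ‖Φ v‖ := norm_pos_iff.2 h0
  have h3 := hR₂ v h0
  have h4 : h (descJ Φ ι R v) = Real.log (R / ‖Φ v‖) := hh.onEnd _ (by simp only; linarith)
  have h5 : N ≤ Real.log (R / ‖Φ v‖) := by
    rw [Real.le_log_iff_exp_le (div_pos hR hn), le_div_iff₀ hn]
    have h6 : Real.exp N * ‖Φ v‖ ≤ Real.exp N * (R * Real.exp (-N)) :=
      mul_le_mul_of_nonneg_left hv.le (Real.exp_pos N).le
    have h7 : Real.exp N * (R * Real.exp (-N)) = R := by
      rw [Real.exp_neg]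
      field_simp
    linarith
  rw [e1, hN τ _ (desc_m hc hR hR₂ h0).2.le (by rw [h4]; exact h5)]
  exact hp _ (by simp only; linarith)

omit [FiniteDimensional ℝ E] [FiniteDimensional ℝ F] [IsManifold 𝓘(ℝ, E) ∞ V]
  [IsManifold 𝓘(ℝ, F) ∞ W] in
theorem desc_j_smooth (hc : Core E F Φ ι φ m) {R : ℝ} (hR : 0 < R)
    (hR₂ : ∀ v, Φ v ≠ 0 → 3 < Real.log (R / ‖Φ v‖)) {v : V} (hv : Φ v ≠ 0) :
    ContMDiffAt 𝓘(ℝ, E) 𝓘(ℝ, F) ∞ (descJ Φ ι R) v := by
  have hn : 0 < ‖Φ v‖ := norm_pos_iff.2 hv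
  have h1 : ContDiffAt ℝ ∞ (fun z : ℂ => Real.log (R / ‖z‖)) (Φ v) :=
    (contDiffAt_const.div (contDiffAt_norm ℝ hv) hn.ne').log (div_pos hR hn).ne'
  have h2 : ContMDiffAt 𝓘(ℝ, E) 𝓘(ℝ, ℝ) ∞ (fun w => Real.log (R / ‖Φ w‖)) v :=
    h1.contMDiffAt.comp v (hc.smoothV v)
  have h3 : ContMDiffAt 𝓘(ℝ, E) (I3 E) ∞
      (fun w => ((Real.log (R / ‖Φ w‖), w, 0) : ℝ × V × R2)) v :=
    h2.prodMk (contMDiffAt_id.prodMk contMDiffAt_const)
  have h4 := (hc.isEnd.localDiffeo (Real.log (R / ‖Φ v‖), v, 0)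
    (by simp only; linarith [hR₂ v hv])).contMDiffAt
  exact h4.comp v h3

omit [FiniteDimensional ℝ E] [FiniteDimensional ℝ F] [IsManifold 𝓘(ℝ, E) ∞ V]
  [IsManifold 𝓘(ℝ, F) ∞ W] in
theorem desc_smooth (hc : Core E F Φ ι φ m) (hh : IsHeight F ι φ h)
    {G G' : ℝ → W → W} (hG : Isotopy F φ m G G') {R N : ℝ} (hR : 0 < R)
    (hR₁ : ∀ x, ‖m x‖ = R → 3 < h x) (hR₂ : ∀ v, Φ v ≠ 0 → 3 < Real.log (R / ‖Φ v‖))
    (hN : ∀ τ x, ‖m x‖ ≤ R → N ≤ h x → G τ x = x)
    {p : W → V} (hp : ∀ y : ℝ × V × R2, 0 < y.1 → p (ι y) = y.2.1)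
    (hp' : ∀ y : ℝ × V × R2, 0 < y.1 → ContMDiffAt 𝓘(ℝ, F) 𝓘(ℝ, E) ∞ p (ι y)) :
    ContMDiff (𝓘(ℝ, ℝ).prod 𝓘(ℝ, E)) 𝓘(ℝ, E) ∞
      (fun q : ℝ × V => descG Φ ι R p G q.1 q.2) := by
  rintro ⟨τ, v⟩
  have hΦ : Continuous fun q : ℝ × V => Φ q.2 := hc.smoothV.continuous.comp continuous_snd
  by_cases hv : Φ v = 0
  · refine contMDiffAt_snd.congr_of_eventuallyEq ?_
    have : ∀ᶠ q : ℝ × V in 𝓝 (τ, v), ‖Φ q.2‖ < R * Real.exp (-N) :=
      (isOpen_lt hΦ.norm continuous_const).mem_nhds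
        (by simp only [mem_ofPred_eq, hv, norm_zero]; positivity)
    filter_upwards [this] with q hq
    exact desc_near hc hh hR hR₂ hN hp q.1 hq
  · obtain ⟨⟨y, hy, hy'⟩, -⟩ := desc_key hc hh hG hR hR₁ hR₂ hp τ hv
    have h1 : ContMDiffAt (𝓘(ℝ, ℝ).prod 𝓘(ℝ, E)) (𝓘(ℝ, ℝ).prod 𝓘(ℝ, F)) ∞
        (fun q : ℝ × V => (q.1, descJ Φ ι R q.2)) (τ, v) :=
      contMDiffAt_fst.prodMk (ContMDiffAt.comp (g := descJ Φ ι R) (f := Prod.snd) (τ, v)
        (desc_j_smooth hc hR hR₂ hv) contMDiffAt_snd)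
    have h2 := (hG.smooth (τ, descJ Φ ι R v)).comp (τ, v) h1
    have h3 := hp' y hy
    rw [hy'] at h3
    have h4 := h3.comp (τ, v) h2
    refine h4.congr_of_eventuallyEq ?_
    have : ∀ᶠ q : ℝ × V in 𝓝 (τ, v), Φ q.2 ≠ 0 :=
      (isOpen_ne_fun hΦ continuous_const).mem_nhds hv
    filter_upwards [this] with q hq
    simp [descG, hq]

/-- An equivariant isotopy of a far level of the moment map descends to V. -/
theorem Core.descent [Nonempty V] (hc : Core E F Φ ι φ m) (hh : IsHeight F ι φ h)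
    {G G' : ℝ → W → W} (hG : Isotopy F φ m G G') {R N : ℝ} (hR : 0 < R)
    (hR₁ : ∀ x, ‖m x‖ = R → 3 < h x) (hR₂ : ∀ v, Φ v ≠ 0 → 3 < Real.log (R / ‖Φ v‖))
    (hN : ∀ τ x, ‖m x‖ ≤ R → N ≤ h x → G τ x = x) {ψ : V → V} (h0 : ∀ v, Φ v = 0 → ψ v = v)
    (h1 : ∀ v, Φ v ≠ 0 → ∃ s, 0 < s ∧ G 1 (ι (Real.log (R / ‖Φ v‖), v, 0)) = ι (s, ψ v, 0)) :
    SmoothlyTrivial E Φ ψ := by
  obtain ⟨p, hp, -⟩ := hc.isEnd.descend (J := 𝓘(ℝ, E)) (g := fun y : ℝ × V × R2 => y.2.1)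
    (fun y _ => contMDiffAt_fst.comp y contMDiffAt_snd) (fun _ _ _ _ _ => rfl)
    (Classical.arbitrary V)
  have hp1 : ∀ y : ℝ × V × R2, 0 < y.1 → p (ι y) = y.2.1 := fun y hy => (hp y hy).1
  have hp2 := fun y hy => (hp y hy).2
  have hN' : ∀ τ x, ‖m x‖ ≤ R → N ≤ h x → G' τ x = x := by
    intro τ x h1 h2
    have := hG.left τ x
    rwa [hN τ x h1 h2] at this
  refine ⟨descG Φ ι R p G, descG Φ ι R p G', desc_smooth hc hh hG hR hR₁ hR₂ hN hp1 hp2,
    desc_smooth hc hh (desc_symm hG) hR hR₁ hR₂ hN' hp1 hp2,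
    fun τ v => ⟨desc_inv hc hh hG hR hR₁ hR₂ hp1 τ v,
      desc_inv hc hh (desc_symm hG) hR hR₁ hR₂ hp1 τ v⟩, fun v => ?_, fun τ v => ?_, ?_⟩
  · by_cases hv : Φ v = 0
    · simp [descG, hv, h0 v hv]
    · obtain ⟨s, hs, hs'⟩ := h1 v hv
      constructor
      · simp only [descG, hv, if_false, hG.zero]
        exact hp1 _ (by simp only; linarith [hR₂ v hv])
      · simp only [descG, hv, if_false, descJ, hs']
        exact hp1 _ hs
  · by_cases hv : Φ v = 0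
    · exact ⟨1, one_pos, by simp [descG, hv]⟩
    · obtain ⟨-, -, -, c, hc0, hc1⟩ := desc_key hc hh hG hR hR₁ hR₂ hp1 τ hv
      exact ⟨c, hc0, by simpa [descG, hv] using hc1⟩
  · have : ∀ᶠ v in 𝓝ˢ {v | Φ v = 0}, ‖Φ v‖ < R * Real.exp (-N) := by
      refine (isOpen_lt hc.smoothV.continuous.norm continuous_const).mem_nhdsSet.2 ?_
      intro v hv
      simp only [mem_ofPred_eq] at hv ⊢
      rw [hv, norm_zero]
      positivity
    filter_upwards [this] with v hv τ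
    exact desc_near hc hh hR hR₂ hN hp1 τ hv

end Pool.Agent.P.MP_49bf82_gt
end

-- part Pool.Agent.P.MP_49bf82_gt.BochA
section

open Manifold Set Filter Topology
open scoped ContDiff RealInnerProductSpace

namespace Pool.Agent.P.MP_49bf82_gt

open Pool.Agent.P.MP_e3ee0c_gt

variable {F : Type*} [NormedAddCommGroup F] [NormedSpace ℝ F] [FiniteDimensional ℝ F]
  {W : Type*} [TopologicalSpace W] [ChartedSpace F W] [IsManifold 𝓘(ℝ, F) ∞ W]

variable {ψ : R2 → W → W}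

omit [FiniteDimensional ℝ F] in
theorem bocha_smooth (h : IsAction F ψ) (p : W) {t : R2} {z : F} (hz : z ∈ (chartAt F p).target)
    (ht : ψ t ((chartAt F p).symm z) ∈ (chartAt F p).source) :
    ContDiffAt ℝ ∞ (fun q : R2 × F => chartAt F p (ψ q.1 ((chartAt F p).symm q.2))) (t, z) := by
  have h1 : ContMDiffAt 𝓘(ℝ, R2 × F) (𝓘(ℝ, R2).prod 𝓘(ℝ, F)) ∞
      (fun q : R2 × F => (q.1, (chartAt F p).symm q.2)) (t, z) :=
    contDiff_fst.contMDiff.contMDiffAt.prodMk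
      (ContMDiffAt.comp (f := fun q : R2 × F => q.2) (t, z) (chart_symm_smooth p hz)
        contDiff_snd.contMDiff.contMDiffAt)
  have h2 : ContMDiffAt 𝓘(ℝ, R2 × F) 𝓘(ℝ, F) ∞
      (fun q : R2 × F => ψ q.1 ((chartAt F p).symm q.2)) (t, z) :=
    ContMDiffAt.comp (f := fun q : R2 × F => (q.1, (chartAt F p).symm q.2)) (t, z)
      (h.smooth _) h1
  exact contMDiffAt_iff_contDiffAt.1
    (ContMDiffAt.comp (f := fun q : R2 × F => ψ q.1 ((chartAt F p).symm q.2)) (t, z)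
      (chart_smooth p ht) h2)

omit [FiniteDimensional ℝ F] in
theorem bocha_smooth_self (h : IsAction F ψ) {p : W} (hp : ∀ t, ψ t p = p) (t : R2) :
    ContDiffAt ℝ ∞ (fun q : R2 × F => chartAt F p (ψ q.1 ((chartAt F p).symm q.2)))
      (t, chartAt F p p) := by
  refine bocha_smooth h p (mem_chart_target F p) ?_
  rw [(chartAt F p).left_inv (mem_chart_source F p), hp]
  exact mem_chart_source F p

theorem bocha_fderiv (h : IsAction F ψ) {p : W} (hp : ∀ t, ψ t p = p) (t : R2) :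
    fderiv ℝ (fun z => chartAt F p (ψ t ((chartAt F p).symm z))) (chartAt F p p)
      = dif F F (ψ t) p := by
  have e : (chartAt F p).symm (chartAt F p p) = p := (chartAt F p).left_inv (mem_chart_source F p)
  have d1 : MDifferentiableAt 𝓘(ℝ, F) 𝓘(ℝ, F) (chartAt F p).symm (chartAt F p p) :=
    (chart_symm_smooth p (mem_chart_target F p)).mdifferentiableAt (by simp)
  have d2 : MDifferentiableAt 𝓘(ℝ, F) 𝓘(ℝ, F) (ψ t) ((chartAt F p).symm (chartAt F p p)) :=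
    (h.smooth_at t _).mdifferentiableAt (by simp)
  have d3 : MDifferentiableAt 𝓘(ℝ, F) 𝓘(ℝ, F) (chartAt F p)
      (ψ t ((chartAt F p).symm (chartAt F p p))) := by
    rw [e, hp]
    exact (chart_smooth p (mem_chart_source F p)).mdifferentiableAt (by simp)
  rw [← dif_fderiv, dif_comp (f := fun z => ψ t ((chartAt F p).symm z)) d3 (d2.comp _ d1),
    dif_comp d2 d1, e, hp, dif_chart_self]
  ext u
  simp [dif_chart_symm_self]

theorem bocha_all (h : IsAction F ψ) {S : Set W} {x : W}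
    (hx : ∀ t ∈ Metric.closedBall (0 : R2) 1, ψ t x ∈ S) (t : R2) : ψ t x ∈ S := by
  have e : t = rv (fun i => ⌊t i⌋) + fun i => Int.fract (t i) := by
    funext i
    exact (Int.floor_add_fract (t i)).symm
  rw [e, h.rv_add]
  refine hx _ ?_
  rw [mem_closedBall_zero_iff, pi_norm_le_iff_of_nonneg zero_le_one]
  intro i
  rw [Real.norm_of_nonneg (Int.fract_nonneg _)]
  exact (Int.fract_lt_one _).le

theorem bocha_open (h : IsAction F ψ) {S : Set W} (hS : IsOpen S) :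
    IsOpen {x | ∀ t, ψ t x ∈ S} := by
  rw [isOpen_iff_mem_nhds]
  intro x hx
  have hc : Continuous fun z : W × R2 => ψ z.2 z.1 := h.smooth.continuous.comp continuous_swap
  have h1 := (isCompact_closedBall (0 : R2) 1).eventually_forall_of_forall_eventually (x₀ := x)
    (P := fun y t => ψ t y ∈ S) fun t _ => hc.continuousAt.preimage_mem_nhds (hS.mem_nhds (hx t))
  filter_upwards [h1] with y hy
  exact bocha_all h hy

/-- The linearised action at a fixed point is smooth in the group. -/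
theorem IsAction.dif_smooth (h : IsAction F ψ) {p : W} (hp : ∀ t, ψ t p = p) :
    ContDiff ℝ ∞ (fun t => dif F F (ψ t) p) := by
  simp only [← bocha_fderiv h hp]
  exact contDiff_iff_contDiffAt.2 fun t =>
    ContDiffAt.fderiv (f := fun (t : R2) z => chartAt F p (ψ t ((chartAt F p).symm z)))
      (bocha_smooth_self h hp t) contDiffAt_const (by simp)

/-- The averaged chart. -/
theorem IsAction.exists_psi (h : IsAction F ψ) {p : W} (hp : ∀ t, ψ t p = p) :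
    ∃ (Ψ : W → F) (U : Set W), IsOpen U ∧ p ∈ U ∧ Ψ p = 0 ∧
      (∀ x ∈ U, ContMDiffAt 𝓘(ℝ, F) 𝓘(ℝ, F) ∞ Ψ x) ∧ (∀ u, dif F F Ψ p u = u) ∧
      ∀ x ∈ U, ∀ t, Ψ (ψ t x) = dif F F (ψ t) p (Ψ x) := by
  have : CompleteSpace F := FiniteDimensional.complete ℝ F
  have hρ := h.dif_smooth hp
  have hadd : ∀ s t u, dif F F (ψ (s + t)) p u = dif F F (ψ s) p (dif F F (ψ t) p u) := by
    intro s t u
    rw [h.dif_add, hp]
  set g : R2 × F → F := fun q => dif F F (ψ (-q.1)) p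
    (chartAt F p (ψ q.1 ((chartAt F p).symm q.2)) - chartAt F p p) with hg
  have hgs : ∀ x ∈ (chartAt F p).source, ∀ t, ψ t x ∈ (chartAt F p).source →
      ContDiffAt ℝ ∞ g (t, chartAt F p x) := by
    intro x hx t ht
    refine ContDiffAt.clm_apply (hρ.comp contDiff_fst.neg).contDiffAt
      (ContDiffAt.sub (bocha_smooth h p ((chartAt F p).map_source hx) ?_) contDiffAt_const)
    rwa [(chartAt F p).left_inv hx]
  set Ψ : W → F := fun x => ∫ t in cube 2,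
    dif F F (ψ (-t)) p (chartAt F p (ψ t x) - chartAt F p p) with hΨ
  have hev : ∀ x ∈ (chartAt F p).source,
      Ψ =ᶠ[𝓝 x] fun y => (fun z => ∫ t in cube 2, g (t, z)) (chartAt F p y) := by
    intro x hx
    filter_upwards [(chartAt F p).open_source.mem_nhds hx] with y hy
    simp only [hΨ, hg, (chartAt F p).left_inv hy]
  have hpU : ∀ t, ψ t p ∈ (chartAt F p).source := fun t => by
    rw [hp]
    exact mem_chart_source F p
  refine ⟨Ψ, {x | ∀ t, ψ t x ∈ (chartAt F p).source}, bocha_open h (chartAt F p).open_source,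
    hpU, by simp [hΨ, hp], fun x hx => ?_, fun u => ?_, fun x hx s => ?_⟩
  · have hx0 : x ∈ (chartAt F p).source := by simpa [h.zero] using hx 0
    refine ContMDiffAt.congr_of_eventuallyEq ?_ (hev x hx0)
    exact ContMDiffAt.comp (g := fun z => ∫ t in cube 2, g (t, z)) x
      (avg_contDiffAt fun t _ => hgs x hx0 t (hx t)).contMDiffAt (chart_smooth p hx0)
  · have hp0 := mem_chart_source F p
    have h1 := avg_hasFDerivAt (g := g) (w₀ := chartAt F p p)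
      fun t _ => (hgs p hp0 t (hpU t)).of_le (by simp)
    have h2 : ∀ t, (fderiv ℝ g (t, chartAt F p p)).comp (ContinuousLinearMap.inr ℝ R2 F)
        = ContinuousLinearMap.id ℝ F := by
      intro t
      have a1 : HasFDerivAt (fun w => g (t, w))
          ((fderiv ℝ g (t, chartAt F p p)).comp (ContinuousLinearMap.inr ℝ R2 F))
          (chartAt F p p) :=
        ((hgs p hp0 t (hpU t)).differentiableAt (by simp)).hasFDerivAt.comp _
          (hasFDerivAt_prodMk_right t (chartAt F p p))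
      have a2 : DifferentiableAt ℝ (fun z => chartAt F p (ψ t ((chartAt F p).symm z)))
          (chartAt F p p) :=
        ((bocha_smooth_self h hp t).differentiableAt (by simp)).comp _
          (hasFDerivAt_prodMk_right t (chartAt F p p)).differentiableAt
      have a3 := a2.hasFDerivAt
      rw [bocha_fderiv h hp] at a3
      have a4 : HasFDerivAt (fun w => g (t, w)) ((dif F F (ψ (-t)) p).comp (dif F F (ψ t) p))
          (chartAt F p p) :=
        (dif F F (ψ (-t)) p).hasFDerivAt.comp _ (a3.sub_const (chartAt F p p))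
      rw [a1.unique a4]
      ext v
      rw [ContinuousLinearMap.comp_apply, ← hadd, neg_add_cancel, h.dif_zero]
      rfl
    simp only [h2, avg_const] at h1
    rw [dif_congr (hev p hp0), dif_comp (g := fun z => ∫ t in cube 2, g (t, z))
      h1.differentiableAt.mdifferentiableAt
      ((chart_smooth p hp0).mdifferentiableAt (by simp)), dif_fderiv, h1.fderiv, dif_chart_self]
    rfl
  · have hc : Continuous fun t => dif F F (ψ (-t)) p (chartAt F p (ψ t x) - chartAt F p p) := by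
      refine (hρ.continuous.comp continuous_neg).clm_apply (Continuous.sub ?_ continuous_const)
      exact (chartAt F p).continuousOn.comp_continuous (h.smooth_orbit x).continuous hx
    have hper : ∀ (m : Fin 2 → ℤ) (t : R2),
        dif F F (ψ (-(rv m + t))) p (chartAt F p (ψ (rv m + t) x) - chartAt F p p)
          = dif F F (ψ (-t)) p (chartAt F p (ψ t x) - chartAt F p p) := by
      intro m t
      have e : -(rv m + t) = rv (-m) + -t := by
        funext i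
        simp [rv, add_comm]
      rw [e, h.rv_add, h.rv_add]
    have h1 := avg_translate
      (f := fun t => dif F F (ψ (-t)) p (chartAt F p (ψ t x) - chartAt F p p)) hper s
    have hc' : Continuous fun t =>
        dif F F (ψ (-(s + t))) p (chartAt F p (ψ (s + t) x) - chartAt F p p) :=
      hc.comp (continuous_const_add s)
    simp only [hΨ]
    rw [← h1, ← ContinuousLinearMap.integral_comp_comm _ (integrableOn_cube hc')]
    refine MeasureTheory.integral_congr_ae (Eventually.of_forall fun t => ?_)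
    have e : s + -(s + t) = -t := by abel
    simp only
    rw [← hadd, ← h.add, add_comm t s, e]

end Pool.Agent.P.MP_49bf82_gt
end

-- part Pool.Agent.P.MP_49bf82_gt.InvIP
section

open Manifold Set Filter Topology
open scoped ContDiff RealInnerProductSpace

namespace Pool.Agent.P.MP_49bf82_gt

open Pool.Agent.P.MP_e3ee0c_gt

variable {F : Type*} [NormedAddCommGroup F] [NormedSpace ℝ F] [FiniteDimensional ℝ F]

theorem invip_form (B : LinearMap.BilinForm ℝ F) (hs : ∀ u v, B u v = B v u)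
    (hp : ∀ u, u ≠ 0 → 0 < B u u) :
    ∃ (n : ℕ) (L : F ≃L[ℝ] EuclideanSpace ℝ (Fin n)), ∀ u v, ⟪L u, L v⟫ = B u v := by
  obtain ⟨b, hb⟩ := LinearMap.BilinForm.exists_orthogonal_basis (B := B) ⟨fun u v => hs u v⟩
  have hb' : ∀ i j, i ≠ j → B (b i) (b j) = 0 := fun i j h => hb h
  have hq : ∀ i, 0 < √(B (b i) (b i)) := fun i => Real.sqrt_pos.2 (hp _ (b.ne_zero i))
  have hu : ∀ i, IsUnit (√(B (b i) (b i)))⁻¹ := fun i => (inv_pos.2 (hq i)).ne'.isUnit
  have hc : ∀ i j, B (b.isUnitSMul hu i) (b.isUnitSMul hu j) = if i = j then 1 else 0 := by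
    intro i j
    rw [Module.Basis.isUnitSMul_apply, Module.Basis.isUnitSMul_apply, map_smul, map_smul,
      LinearMap.smul_apply, smul_eq_mul, smul_eq_mul]
    split_ifs with h
    · subst h
      have h1 := Real.mul_self_sqrt (hp _ (b.ne_zero i)).le
      have h2 := (hq i).ne'
      generalize √(B (b i) (b i)) = q at h1 h2
      rw [← h1]
      field_simp
    · rw [hb' i j h, mul_zero, mul_zero]
  generalize b.isUnitSMul hu = c at hc
  refine ⟨_, (c.equivFun.trans (WithLp.linearEquiv 2 ℝ _).symm).toContinuousLinearEquiv,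
    fun u v => ?_⟩
  conv_rhs => rw [← c.sum_repr u, ← c.sum_repr v]
  simp only [map_sum, map_smul, LinearMap.sum_apply, LinearMap.smul_apply, hc, smul_eq_mul,
    mul_ite, mul_one, mul_zero, Finset.sum_ite_eq', Finset.mem_univ, if_true]
  rw [PiLp.inner_apply]
  refine Finset.sum_congr rfl fun i _ => ?_
  simp

/-- A continuous representation of the torus is orthogonal in suitable coordinates. -/
theorem exists_orth {ρ : R2 → F →L[ℝ] F} (hc : Continuous ρ) (h0 : ∀ u, ρ 0 u = u)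
    (hadd : ∀ s t u, ρ (s + t) u = ρ s (ρ t u)) (hper : ∀ (k : Fin 2 → ℤ) u, ρ (rv k) u = u) :
    ∃ (n : ℕ) (L : F ≃L[ℝ] EuclideanSpace ℝ (Fin n)),
      ∀ t u v, ⟪L (ρ t u), L (ρ t v)⟫ = ⟪L u, L v⟫ := by
  let L0 := toEuclidean (E := F)
  have c1 : ∀ u v, Continuous fun t => ⟪L0 (ρ t u), L0 (ρ t v)⟫ := fun u v =>
    (L0.continuous.comp (hc.clm_apply continuous_const)).inner
      (L0.continuous.comp (hc.clm_apply continuous_const))
  let B : LinearMap.BilinForm ℝ F := LinearMap.mk₂ ℝ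
    (fun u v => ∫ t in cube 2, ⟪L0 (ρ t u), L0 (ρ t v)⟫)
    (fun u u' v => by
      simp only [map_add, inner_add_left]
      exact MeasureTheory.integral_add (integrableOn_cube (c1 u v)) (integrableOn_cube (c1 u' v)))
    (fun a u v => by
      simp only [map_smul, real_inner_smul_left, smul_eq_mul]
      exact MeasureTheory.integral_const_mul _ _)
    (fun u v v' => by
      simp only [map_add, inner_add_right]
      exact MeasureTheory.integral_add (integrableOn_cube (c1 u v)) (integrableOn_cube (c1 u v')))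
    (fun a u v => by
      simp only [map_smul, real_inner_smul_right, smul_eq_mul]
      exact MeasureTheory.integral_const_mul _ _)
  have hB : ∀ u v, B u v = ∫ t in cube 2, ⟪L0 (ρ t u), L0 (ρ t v)⟫ := fun u v => rfl
  obtain ⟨n, L, hL⟩ := invip_form B (fun u v => by
    rw [hB, hB]
    simp only [real_inner_comm]) fun u hu => by
    rw [hB]
    refine lt_of_le_of_ne (MeasureTheory.integral_nonneg fun t => real_inner_self_nonneg)
      (avg_ne_zero (c1 u u) fun t h => hu ?_).symm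
    have h1 : ρ t u = 0 := by simpa using h
    have h2 := hadd (-t) t u
    rwa [neg_add_cancel, h0, h1, map_zero] at h2
  refine ⟨n, L, fun s u v => ?_⟩
  rw [hL, hL, hB, hB, ← avg_translate (f := fun t => ⟪L0 (ρ t u), L0 (ρ t v)⟫)
    (fun m t => by simp only [hadd, hper]) s]
  simp only [← hadd, add_comm s]

/-- The generators of a differentiable orthogonal representation are skew and commute. -/
theorem gen_orth {G : Type*} [NormedAddCommGroup G] [InnerProductSpace ℝ G]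
    {ρ : R2 → G →L[ℝ] G} {A : R2 →L[ℝ] G →L[ℝ] G} (hd : HasFDerivAt ρ A 0) (h0 : ∀ u, ρ 0 u = u)
    (hadd : ∀ s t u, ρ (s + t) u = ρ s (ρ t u)) (ho : ∀ t u v, ⟪ρ t u, ρ t v⟫ = ⟪u, v⟫) :
    (∀ ξ u v, ⟪A ξ u, v⟫ = -⟪u, A ξ v⟫) ∧ ∀ ξ η u, A ξ (A η u) = A η (A ξ u) := by
  have d1 : ∀ w, HasFDerivAt (fun s => ρ s w) ((ContinuousLinearMap.apply ℝ G w).comp A) 0 :=
    fun w => (ContinuousLinearMap.apply ℝ G w).hasFDerivAt.comp 0 hd
  constructor
  · intro ξ u v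
    have h1 := (d1 u).inner ℝ (d1 v)
    simp only [ho] at h1
    have h2 := congrArg (fun T => T ξ) (h1.unique (hasFDerivAt_const _ _))
    simp only [ContinuousLinearMap.comp_apply, ContinuousLinearMap.prod_apply, fderivInnerCLM_apply,
      ContinuousLinearMap.apply_apply, h0, zero_apply] at h2
    linarith
  · have h3 : ∀ t ξ u, A ξ (ρ t u) = ρ t (A ξ u) := fun t ξ u => by
      have h1 := (ρ t).hasFDerivAt.comp 0 (d1 u)
      have h2 : (ρ t ∘ fun s => ρ s u) = fun s => ρ s (ρ t u) := by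
        funext s
        show ρ t (ρ s u) = _
        rw [← hadd, ← hadd, add_comm]
      rw [h2] at h1
      exact congrArg (fun T => T ξ) ((d1 (ρ t u)).unique h1)
    intro ξ η u
    have h1 := (A ξ).hasFDerivAt.comp 0 (d1 u)
    have h2 : (A ξ ∘ fun s => ρ s u) = fun s => ρ s (A ξ u) := funext fun s => h3 s ξ u
    rw [h2] at h1
    exact congrArg (fun T => T η) (h1.unique (d1 (A ξ u)))

end Pool.Agent.P.MP_49bf82_gt
end

-- part Pool.Agent.P.MP_49bf82_gt.BochB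
section

open Manifold Set Filter Topology
open scoped ContDiff RealInnerProductSpace

namespace Pool.Agent.P.MP_49bf82_gt

open Pool.Agent.P.MP_e3ee0c_gt

variable {F : Type*} [NormedAddCommGroup F] [NormedSpace ℝ F] [FiniteDimensional ℝ F]
  {W : Type*} [TopologicalSpace W] [ChartedSpace F W] [IsManifold 𝓘(ℝ, F) ∞ W]

variable {ψ : R2 → W → W}

/-- Inverse function theorem. -/
theorem exists_schart {G : Type*} [NormedAddCommGroup G] [InnerProductSpace ℝ G]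
    [FiniteDimensional ℝ G] {Ψ : W → G} {U : Set W} {p : W} (hU : IsOpen U) (hp : p ∈ U)
    (h0 : Ψ p = 0) (hs : ∀ x ∈ U, ContMDiffAt 𝓘(ℝ, F) 𝓘(ℝ, G) ∞ Ψ x) (L : F ≃L[ℝ] G)
    (hL : ∀ u, dif F G Ψ p u = L u) :
    ∃ e : OpenPartialHomeomorph W G, SChart F e p ∧ e.source ⊆ U ∧ EqOn e Ψ e.source := by
  have : CompleteSpace F := FiniteDimensional.complete ℝ F
  let c := chartAt F p
  let f : F → G := fun z => Ψ (c.symm z)
  let O : Set F := c.target ∩ c.symm ⁻¹' U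
  have hO : IsOpen O := c.isOpen_inter_preimage_symm hU
  have hpc : p ∈ c.source := mem_chart_source F p
  have hpO : c p ∈ O := ⟨c.map_source hpc, by
    show c.symm (c p) ∈ U
    rwa [c.left_inv hpc]⟩
  have hf : ∀ z ∈ O, ContDiffAt ℝ ∞ f z := fun z hz =>
    contMDiffAt_iff_contDiffAt.1 ((hs _ hz.2).comp z (chart_symm_smooth p hz.1))
  have hfO : ContDiffOn ℝ ∞ f O := fun z hz => (hf z hz).contDiffWithinAt
  have hd : fderiv ℝ f (c p) = (L : F →L[ℝ] G) := by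
    rw [← dif_fderiv]
    have h1 : MDifferentiableAt 𝓘(ℝ, F) 𝓘(ℝ, G) Ψ (c.symm (c p)) :=
      (hs _ hpO.2).mdifferentiableAt (by simp)
    have h2 : MDifferentiableAt 𝓘(ℝ, F) 𝓘(ℝ, F) c.symm (c p) :=
      (chart_symm_smooth p hpO.1).mdifferentiableAt (by simp)
    ext u
    rw [show dif F G f (c p) = _ from dif_comp h1 h2, ContinuousLinearMap.comp_apply,
      dif_chart_symm_self, c.left_inv hpc, hL]
    rfl
  let O' : Set F := O ∩ fderiv ℝ f ⁻¹' range ((↑) : (F ≃L[ℝ] G) → F →L[ℝ] G)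
  have hO' : IsOpen O' := (hfO.continuousOn_fderiv_of_isOpen hO (by simp)).isOpen_inter_preimage hO
    ContinuousLinearEquiv.isOpen
  have hf' : HasFDerivAt f (L : F →L[ℝ] G) (c p) :=
    hd ▸ ((hf _ hpO).differentiableAt (by simp)).hasFDerivAt
  let e0 := (hf _ hpO).toOpenPartialHomeomorph f hf' (by simp)
  let e1 := e0.restrOpen O' hO'
  have he1 : (e1 : F → G) = f := rfl
  have hs1 : e1.source ⊆ O' := fun z hz => hz.2
  have hp1 : c p ∈ e1.source :=
    ⟨(hf _ hpO).mem_toOpenPartialHomeomorph_source hf' (by simp), hpO, ⟨L, hd.symm⟩⟩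
  have hsrc : ∀ x ∈ (c.trans e1).source, x ∈ c.source ∧ c x ∈ e1.source := fun x hx => hx
  have hsub : (c.trans e1).source ⊆ U := fun x hx => by
    have h1 : c.symm (c x) ∈ U := (hs1 (hsrc x hx).2).1.2
    rwa [c.left_inv (hsrc x hx).1] at h1
  have heq : EqOn (c.trans e1) Ψ (c.trans e1).source := fun x hx => by
    show Ψ (c.symm (c x)) = Ψ x
    rw [c.left_inv (hsrc x hx).1]
  refine ⟨c.trans e1, ⟨⟨hpc, hp1⟩, ?_, fun x hx => ?_, fun y hy => ?_⟩, hsub, heq⟩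
  · rw [heq ⟨hpc, hp1⟩, h0]
  · exact (hs x (hsub hx)).congr_of_eventuallyEq
      (heq.eventuallyEq_of_mem ((c.trans e1).open_source.mem_nhds hx))
  · have hy1 : y ∈ e1.target := hy.1
    have hz : e1.symm y ∈ O' := hs1 (e1.map_target hy1)
    obtain ⟨L', hL'⟩ := hz.2
    have h1 : HasFDerivAt e1 (L' : F →L[ℝ] G) (e1.symm y) := by
      rw [he1, hL']; exact ((hf _ hz.1).differentiableAt (by simp)).hasFDerivAt
    have h2 : ContDiffAt ℝ ∞ e1.symm y := e1.contDiffAt_symm hy1 h1 (hf _ hz.1)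
    exact (chart_symm_smooth p hz.1.1).comp y (contMDiffAt_iff_contDiffAt.2 h2)

/-- Bochner linearisation. -/
theorem IsAction.bochner (h : IsAction F ψ) {p : W} (hp : ∀ t, ψ t p = p) :
    ∃ (n : ℕ) (e : OpenPartialHomeomorph W (EuclideanSpace ℝ (Fin n)))
      (A : R2 →L[ℝ] EuclideanSpace ℝ (Fin n) →L[ℝ] EuclideanSpace ℝ (Fin n)), IsLin F ψ p e A := by
  obtain ⟨Ψ, U, hU, hpU, h0, hs, hd, heq⟩ := h.exists_psi hp
  let ρ : R2 → F →L[ℝ] F := fun t => dif F F (ψ t) p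
  have hρ : ContDiff ℝ ∞ ρ := h.dif_smooth hp
  have hρ0 : ∀ u, ρ 0 u = u := h.dif_zero p
  have hρa : ∀ s t u, ρ (s + t) u = ρ s (ρ t u) := fun s t u => by
    have := h.dif_add s t p u
    rwa [hp] at this
  obtain ⟨n, L, hL⟩ := exists_orth hρ.continuous hρ0 hρa (fun k u => by
    have e : ψ (rv k) = ψ 0 := by simpa using h.rv_add k 0
    show dif F F (ψ (rv k)) p u = u
    rw [e]; exact hρ0 u)
  let ρ' : R2 → EuclideanSpace ℝ (Fin n) →L[ℝ] EuclideanSpace ℝ (Fin n) := fun t =>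
    (L : F →L[ℝ] _).comp ((ρ t).comp (L.symm : _ →L[ℝ] F))
  have hρ' : ContDiff ℝ ∞ ρ' := contDiff_const.clm_comp (hρ.clm_comp contDiff_const)
  have hA : HasFDerivAt ρ' (fderiv ℝ ρ' 0) 0 := (hρ'.differentiable (by simp) 0).hasFDerivAt
  obtain ⟨hskew, hcomm⟩ := gen_orth hA (fun u => by simp [ρ', hρ0])
    (fun s t u => by simp [ρ', hρa]) (fun t u v => by simp [ρ', hL])
  have hLs : ContMDiff 𝓘(ℝ, F) 𝓘(ℝ, EuclideanSpace ℝ (Fin n)) ∞ L :=
    (L : F →L[ℝ] EuclideanSpace ℝ (Fin n)).contMDiff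
  obtain ⟨e, he, heU, heΨ⟩ := exists_schart (F := F) (Ψ := fun x => L (Ψ x)) hU hpU
    (by simp [h0]) (fun x hx => (hLs _).comp x (hs x hx)) L (fun u => by
      rw [dif_comp ((hLs _).mdifferentiableAt (by simp)) ((hs p hpU).mdifferentiableAt (by simp)),
        ContinuousLinearMap.comp_apply, hd, dif_fderiv, L.fderiv]
      rfl)
  refine ⟨n, e, fderiv ℝ ρ' 0, he, hskew, hcomm, fun x hx ξ => ?_⟩
  have ho := h.smooth_orbit x
  have hev : (fun t => e (ψ t x)) =ᶠ[𝓝 0] fun t => ρ' t (e x) := by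
    have h1 : ∀ᶠ t in 𝓝 (0 : R2), ψ t x ∈ e.source :=
      ho.continuous.continuousAt.eventually_mem (by
        rw [h.zero]; exact e.open_source.mem_nhds hx)
    filter_upwards [h1] with t ht
    rw [heΨ ht, heΨ hx]
    simp [ρ', ρ, heq x (heU hx) t]
  have h1 : MDifferentiableAt 𝓘(ℝ, F) 𝓘(ℝ, EuclideanSpace ℝ (Fin n)) e (ψ 0 x) := by
    rw [h.zero]; exact (he.smooth x hx).mdifferentiableAt (by simp)
  have h2 := dif_comp (f := fun t => ψ t x) (x := 0) h1 ((ho 0).mdifferentiableAt (by simp))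
  rw [dif_congr hev, dif_fderiv, (hA.clm_apply (hasFDerivAt_const (e x) 0)).fderiv, h.zero] at h2
  have h3 := congrArg (fun M : R2 →L[ℝ] EuclideanSpace ℝ (Fin n) => M ξ) h2
  simp only [ContinuousLinearMap.comp_zero, zero_add, ContinuousLinearMap.flip_apply,
    ContinuousLinearMap.comp_apply] at h3
  exact h3.symm

end Pool.Agent.P.MP_49bf82_gt
end

-- part Pool.Agent.P.MP_49bf82_gt.Trans
section

open Manifold Set Filter Topology
open scoped ContDiff RealInnerProductSpace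

namespace Pool.Agent.P.MP_49bf82_gt

open Pool.Agent.P.MP_e3ee0c_gt

variable {F : Type*} [NormedAddCommGroup F] [NormedSpace ℝ F] [FiniteDimensional ℝ F]
  {W : Type*} [TopologicalSpace W] [ChartedSpace F W] [IsManifold 𝓘(ℝ, F) ∞ W]

variable {G : Type*} [NormedAddCommGroup G] [InnerProductSpace ℝ G] [FiniteDimensional ℝ G]

variable {σ : W → F →L[ℝ] F →L[ℝ] ℝ} {e : OpenPartialHomeomorph W G} {p : W}

omit [FiniteDimensional ℝ F] [IsManifold 𝓘(ℝ, F) ∞ W] [FiniteDimensional ℝ G] in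
theorem trans_md (h : SChart F e p) {x : W} (hx : x ∈ e.source) :
    MDifferentiableAt 𝓘(ℝ, F) 𝓘(ℝ, G) e x ∧ MDifferentiableAt 𝓘(ℝ, G) 𝓘(ℝ, F) e.symm (e x) :=
  ⟨(h.smooth x hx).mdifferentiableAt (by simp),
    (h.smooth_symm _ (e.map_source hx)).mdifferentiableAt (by simp)⟩

omit [FiniteDimensional ℝ F] [FiniteDimensional ℝ G] in
theorem trans_bil {S : G → F →L[ℝ] F →L[ℝ] ℝ} {D : G → G →L[ℝ] F} {y : G}
    (hS : ContDiffAt ℝ 1 S y) (hD : ContDiffAt ℝ 1 D y) :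
    ContDiffAt ℝ 1 (fun z => (S z).bilinearComp (D z) (D z)) y := by
  have h1 : ContDiffAt ℝ 1 (fun z => ((ContinuousLinearMap.compL ℝ G F ℝ).flip (D z)).comp
      ((S z).comp (D z))) y :=
    (contDiffAt_const.clm_apply hD).clm_comp (hS.clm_comp hD)
  refine h1.congr_of_eventuallyEq (Eventually.of_forall fun z => ?_)
  ext u v
  simp

theorem SChart.symm_dif (h : SChart F e p) {x : W} (hx : x ∈ e.source) (u : F) :
    dif G F e.symm (e x) (dif F G e x u) = u := by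
  obtain ⟨h1, h2⟩ := trans_md h hx
  have h3 := dif_comp h2 h1
  rw [dif_congr (g := id) (e.eventually_left_inverse hx)] at h3
  have h4 : dif F F (id : W → W) x = ContinuousLinearMap.id ℝ F := mfderiv_id
  exact (congrArg (fun L : F →L[ℝ] F => L u) (h3.symm.trans h4))

theorem SChart.dif_symm (h : SChart F e p) {x : W} (hx : x ∈ e.source) (v : G) :
    dif F G e x (dif G F e.symm (e x) v) = v := by
  obtain ⟨h1, h2⟩ := trans_md h hx
  have h3 := dif_comp (g := e) (f := e.symm) (x := e x) (by rwa [e.left_inv hx]) h2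
  rw [dif_congr (g := id) (e.eventually_right_inverse' hx), e.left_inv hx] at h3
  have h4 : dif G G (id : G → G) (e x) = ContinuousLinearMap.id ℝ G := mfderiv_id
  exact (congrArg (fun L : G →L[ℝ] G => L v) (h3.symm.trans h4))

/-- The derivative of a function with given Hamiltonian vector, in the chart. -/
theorem SChart.hasFDerivAt (h : SChart F e p) {g : W → ℝ} {x : W} (hx : x ∈ e.source)
    (hg : MDifferentiableAt 𝓘(ℝ, F) 𝓘(ℝ, ℝ) g x) {X : F} (hX : ∀ w, dif F ℝ g x w = -σ x X w) :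
    HasFDerivAt (g ∘ e.symm) (-(pull σ e (e x) (dif F G e x X))) (e x) := by
  obtain ⟨-, h2⟩ := trans_md h hx
  have hg' : MDifferentiableAt 𝓘(ℝ, F) 𝓘(ℝ, ℝ) g (e.symm (e x)) := by rwa [e.left_inv hx]
  have h3 : DifferentiableAt ℝ (g ∘ e.symm) (e x) :=
    mdifferentiableAt_iff_differentiableAt.1 (hg'.comp (e x) h2)
  have h4 : fderiv ℝ (g ∘ e.symm) (e x) = -(pull σ e (e x) (dif F G e x X)) := by
    rw [← dif_fderiv]
    refine (dif_comp hg' h2).trans ?_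
    ext v
    simp only [pull, ContinuousLinearMap.comp_apply, neg_apply,
      ContinuousLinearMap.bilinearComp_apply, e.left_inv hx, h.symm_dif hx, hX]
  exact h4 ▸ h3.hasFDerivAt

theorem SChart.model (h : SChart F e p) (hσ : IsSymplectic σ) {g : W → ℝ}
    (hg : ContMDiff 𝓘(ℝ, F) 𝓘(ℝ, ℝ) ∞ g) {X : W → F} (hX : ∀ x w, dif F ℝ g x w = -σ x (X x) w)
    {A : G →L[ℝ] G} (hA : ∀ u v, ⟪A u, v⟫ = -⟪u, A v⟫)
    (hl : ∀ x ∈ e.source, dif F G e x (X x) = A (e x)) : Model A (pull σ e) (g ∘ e.symm) := by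
  have h0 : (0 : G) ∈ e.target := h.zero ▸ e.map_source h.mem
  have hp : e.symm 0 = p := by rw [← h.zero, e.left_inv h.mem]
  refine ⟨hA, fun u v => ?_, fun u hu => ?_, ?_, ?_⟩
  · simp only [pull, ContinuousLinearMap.bilinearComp_apply]
    exact hσ.skew _ _ _
  · have h1 : dif G F e.symm (e p) u = 0 := hσ.nondeg p _ fun w => by
      have := hu (dif F G e p w)
      simp only [pull, ContinuousLinearMap.bilinearComp_apply, hp] at this
      rwa [← h.zero, h.symm_dif h.mem] at this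
    rw [← h.dif_symm h.mem u, h1, map_zero]
  · have h1 : ContDiffAt ℝ ∞ (fun y => chartAt F p (e.symm y)) 0 :=
      contMDiffAt_iff_contDiffAt.1
        ((chart_smooth p (hp ▸ mem_chart_source F p)).comp 0 (h.smooth_symm 0 h0))
    have h2 : ContDiffAt ℝ 1 (fun y => chartForm σ p (chartAt F p (e.symm y))) 0 :=
      (ContDiffAt.comp (g := chartForm σ p) 0 (by rw [hp]; exact hσ.smooth p) h1).of_le
        (by norm_cast)
    refine (trans_bil h2 (h1.fderiv_right (by norm_cast))).congr_of_eventuallyEq ?_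
    have h3 : ∀ᶠ y in 𝓝 (0 : G), e.symm y ∈ (chartAt F p).source :=
      (e.continuousAt_symm h0).eventually_mem
        ((chartAt F p).open_source.mem_nhds (hp ▸ mem_chart_source F p))
    filter_upwards [h3, e.open_target.mem_nhds h0] with y a1 a2
    ext u v
    rw [← dif_fderiv, dif_comp ((chart_smooth p a1).mdifferentiableAt (by simp))
      ((h.smooth_symm y a2).mdifferentiableAt (by simp))]
    simp only [pull, ContinuousLinearMap.bilinearComp_apply, ContinuousLinearMap.comp_apply,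
      chartForm_apply σ p a1]
  · filter_upwards [e.open_target.mem_nhds h0] with y a1
    have h1 := h.hasFDerivAt (σ := σ) (e.map_target a1) ((hg _).mdifferentiableAt (by simp))
      (hX _)
    rwa [hl _ (e.map_target a1), e.right_inv a1] at h1

end Pool.Agent.P.MP_49bf82_gt
end

-- part Pool.Agent.P.MP_49bf82_gt.LinA
section

open Manifold Set Filter Topology
open scoped ContDiff RealInnerProductSpace

namespace Pool.Agent.P.MP_49bf82_gt

open Pool.Agent.P.MP_e3ee0c_gt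

variable {G : Type*} [NormedAddCommGroup G] [InnerProductSpace ℝ G] [FiniteDimensional ℝ G]

section
variable {ι : Type*} [Fintype ι] (b : OrthonormalBasis ι ℝ G)

/-- the diagonal operator with entries f -/
noncomputable def linaD (f : ι → ℝ) : G →L[ℝ] G :=
  ∑ i, f i • (innerSL ℝ (b i)).smulRight (b i)

omit [FiniteDimensional ℝ G] in
theorem lina_apply (f : ι → ℝ) (y : G) : linaD b f y = ∑ i, (f i * ⟪b i, y⟫) • b i := by
  simp [linaD, smul_smul]

omit [FiniteDimensional ℝ G] in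
theorem lina_coord (f : ι → ℝ) (y : G) (j : ι) : ⟪b j, linaD b f y⟫ = f j * ⟪b j, y⟫ := by
  rw [lina_apply]
  exact b.orthonormal.inner_right_fintype _ j

omit [FiniteDimensional ℝ G] in
theorem lina_ext {y z : G} (h : ∀ j, ⟪b j, y⟫ = ⟪b j, z⟫) : y = z := by
  rw [← b.sum_repr' y, ← b.sum_repr' z]
  exact Finset.sum_congr rfl fun j _ => by rw [h j]

omit [FiniteDimensional ℝ G] in
theorem lina_inner (y z : G) : ⟪y, z⟫ = ∑ i, ⟪b i, y⟫ * ⟪b i, z⟫ := by
  rw [← b.sum_inner_mul_inner y z]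
  exact Finset.sum_congr rfl fun i _ => by rw [real_inner_comm]

end

theorem lina_gap {ι : Type*} [Fintype ι] (c : ι → ℝ) :
    ∃ l : ℝ, 0 < l ∧ ∀ i, c i ≠ 0 → l ≤ |c i| := by
  have : ∀ᶠ l in 𝓝[>] (0 : ℝ), ∀ i, c i ≠ 0 → l ≤ |c i| := by
    refine eventually_all.2 fun i => ?_
    by_cases hi : c i = 0
    · exact Eventually.of_forall fun _ h => absurd hi h
    · filter_upwards [mem_nhdsWithin_of_mem_nhds (Iic_mem_nhds (abs_pos.2 hi))] with _ h _ using h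
  obtain ⟨l, h1, h2⟩ := (this.and self_mem_nhdsWithin).exists
  exact ⟨l, h2, h1⟩

/-- Spectral decomposition of the symmetric form B (A u) v. -/
theorem Pair.exists_split {A : G →L[ℝ] G} {B : G →L[ℝ] G →L[ℝ] ℝ} (h : Pair A B) :
    ∃ N P l, Split A B N P l := by
  classical
  obtain ⟨S, hS⟩ : ∃ S : G →ₗ[ℝ] G, ∀ u v, ⟪S u, v⟫ = B (A u) v := by
    refine ⟨{ toFun := fun u => (InnerProductSpace.toDual ℝ G).symm (B (A u))
              map_add' := fun u v => by rw [map_add, map_add, map_add]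
              map_smul' := fun c u => by simp }, fun u v => ?_⟩
    exact InnerProductSpace.toDual_symm_apply
  have hsym : S.IsSymmetric := fun u v => by
    rw [hS, real_inner_comm, hS, h.symm]
  obtain ⟨b, c, hb⟩ : ∃ (b : OrthonormalBasis (Fin (Module.finrank ℝ G)) ℝ G)
      (c : Fin (Module.finrank ℝ G) → ℝ), ∀ i, S (b i) = c i • b i :=
    ⟨hsym.eigenvectorBasis rfl, hsym.eigenvalues rfl,
      fun i => hsym.apply_eigenvectorBasis rfl i⟩
  have hc : ∀ j y, ⟪b j, S y⟫ = c j * ⟪b j, y⟫ := fun j y => by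
    rw [← hsym, hb, real_inner_smul_left]
  have hB : ∀ y z, B (A y) z = ∑ i, c i * ⟪b i, y⟫ * ⟪b i, z⟫ := fun y z => by
    rw [← hS, lina_inner b]
    exact Finset.sum_congr rfl fun i _ => by rw [hc]
  have hker : ∀ z, S z = 0 → A z = 0 := fun z hz =>
    h.nondeg _ fun v => by rw [← hS, hz, inner_zero_left]
  obtain ⟨l, hl, hl'⟩ := lina_gap c
  obtain ⟨n, hn⟩ : ∃ n : Fin (Module.finrank ℝ G) → ℝ, ∀ i, n i = if 0 < c i then 1 else 0 :=
    ⟨_, fun _ => rfl⟩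
  obtain ⟨p, hp⟩ : ∃ p : Fin (Module.finrank ℝ G) → ℝ, ∀ i, p i = if c i < 0 then 1 else 0 :=
    ⟨_, fun _ => rfl⟩
  have tri : ∀ i, (0 < c i ∧ l ≤ c i ∧ n i = 1 ∧ p i = 0) ∨ (c i ≤ -l ∧ n i = 0 ∧ p i = 1) ∨
      (c i = 0 ∧ n i = 0 ∧ p i = 0) := by
    intro i
    rcases lt_trichotomy 0 (c i) with h1 | h1 | h1
    · have := hl' i h1.ne'
      rw [abs_of_pos h1] at this
      exact Or.inl ⟨h1, this, by rw [hn, if_pos h1], by rw [hp, if_neg h1.le.not_gt]⟩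
    · exact Or.inr (Or.inr ⟨h1.symm, by rw [hn, if_neg h1.ge.not_gt],
        by rw [hp, if_neg h1.le.not_gt]⟩)
    · have := hl' i h1.ne
      rw [abs_of_neg h1] at this
      exact Or.inr (Or.inl ⟨by linarith, by rw [hn, if_neg h1.le.not_gt], by rw [hp, if_pos h1]⟩)
  refine ⟨linaD b n, linaD b p, l, hl, fun y => ?_, fun y => ?_, fun y => ?_, fun y => ?_,
    fun y => ?_, fun y => ?_, fun y => ?_, fun y z => ⟨?_, ?_⟩, ?_⟩
  · have : A (y - linaD b n y - linaD b p y) = 0 := by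
      refine hker _ (lina_ext b fun j => ?_)
      rw [hc, inner_sub_right, inner_sub_right, lina_coord, lina_coord, inner_zero_right]
      rcases tri j with ⟨-, -, h1, h2⟩ | ⟨-, h1, h2⟩ | ⟨h0, -, -⟩
      · rw [h1, h2]; ring
      · rw [h1, h2]; ring
      · rw [h0, zero_mul]
    rw [map_sub, map_sub, sub_sub, sub_eq_zero] at this
    exact this
  · refine lina_ext b fun j => ?_
    rw [lina_coord, lina_coord]
    rcases tri j with ⟨-, -, h1, -⟩ | ⟨-, h1, -⟩ | ⟨-, h1, -⟩ <;> rw [h1] <;> ring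
  · refine lina_ext b fun j => ?_
    rw [lina_coord, lina_coord]
    rcases tri j with ⟨-, -, -, h1⟩ | ⟨-, -, h1⟩ | ⟨-, -, h1⟩ <;> rw [h1] <;> ring
  · refine lina_ext b fun j => ?_
    rw [lina_coord, lina_coord, inner_zero_right]
    rcases tri j with ⟨-, -, h1, h2⟩ | ⟨-, h1, h2⟩ | ⟨-, h1, h2⟩ <;> rw [h1, h2] <;> ring
  · refine lina_ext b fun j => ?_
    rw [lina_coord, lina_coord, inner_zero_right]
    rcases tri j with ⟨-, -, h1, h2⟩ | ⟨-, h1, h2⟩ | ⟨-, h1, h2⟩ <;> rw [h1, h2] <;> ring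
  · rw [hB, ← real_inner_self_eq_norm_sq, lina_inner b, Finset.mul_sum]
    refine Finset.sum_le_sum fun j _ => ?_
    rw [lina_coord]
    rcases tri j with ⟨-, h0, h1, -⟩ | ⟨-, h1, -⟩ | ⟨-, h1, -⟩
    · rw [h1, one_mul, mul_assoc]
      exact mul_le_mul_of_nonneg_right h0 (mul_self_nonneg _)
    · rw [h1]; simp
    · rw [h1]; simp
  · rw [hB, ← real_inner_self_eq_norm_sq, lina_inner b, ← neg_mul, Finset.mul_sum]
    refine Finset.sum_le_sum fun j _ => ?_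
    rw [lina_coord]
    rcases tri j with ⟨-, -, -, h1⟩ | ⟨h0, -, h1⟩ | ⟨-, -, h1⟩
    · rw [h1]; simp
    · rw [h1, one_mul, mul_assoc]
      exact mul_le_mul_of_nonneg_right h0 (mul_self_nonneg _)
    · rw [h1]; simp
  · rw [hB]
    refine Finset.sum_eq_zero fun j _ => ?_
    rw [lina_coord, lina_coord]
    rcases tri j with ⟨-, -, h1, h2⟩ | ⟨-, h1, h2⟩ | ⟨-, h1, h2⟩ <;> rw [h1, h2] <;> ring
  · rw [hB]
    refine Finset.sum_eq_zero fun j _ => ?_
    rw [lina_coord, lina_coord]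
    rcases tri j with ⟨-, -, h1, h2⟩ | ⟨-, h1, h2⟩ | ⟨-, h1, h2⟩ <;> rw [h1, h2] <;> ring
  · rintro ⟨y, hy⟩
    obtain ⟨i, hi⟩ : ∃ i, 0 < c i := by
      by_contra hcon
      refine hy (lina_ext b fun j => ?_)
      rw [lina_coord, inner_zero_right, hn, if_neg fun h' => hcon ⟨j, h'⟩, zero_mul]
    have hfix : ∀ w, S w = c i • w → linaD b n w = w := fun w hw => by
      refine lina_ext b fun j => ?_
      rw [lina_coord]
      have h1 := hc j w
      rw [hw, real_inner_smul_right] at h1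
      by_cases h2 : ⟪b j, w⟫ = 0
      · rw [h2, mul_zero]
      · rw [hn, if_pos (mul_right_cancel₀ h2 h1 ▸ hi), one_mul]
    have hcomm : S (A (b i)) = c i • A (b i) := by
      rw [← map_smul, ← hb]
      refine ext_inner_right ℝ fun v => ?_
      rw [hS, h.skewA, hS, h.symm, h.skew]
    have h11 : ⟪b i, b i⟫ = 1 := by
      rw [real_inner_self_eq_norm_sq, b.orthonormal.1 i, one_pow]
    have hne : A (b i) ≠ 0 := by
      intro h0
      have h1 := hS (b i) (b i)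
      rw [h0, map_zero, hb, real_inner_smul_left, h11, mul_one] at h1
      exact hi.ne' h1
    have horth : ⟪b i, A (b i)⟫ = 0 := by
      have h1 := h.skewA (b i) (b i)
      rw [real_inner_comm] at h1
      linarith
    have hli : LinearIndependent ℝ
        ![(⟨b i, b i, hfix _ (hb i)⟩ : LinearMap.range (linaD b n : G →ₗ[ℝ] G)),
          ⟨A (b i), A (b i), hfix _ hcomm⟩] := by
      rw [LinearIndependent.pair_iff]
      intro s t hst
      have h1 : s • b i + t • A (b i) = 0 := congrArg Subtype.val hst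
      have h2 := congrArg (fun w => ⟪b i, w⟫) h1
      simp only [inner_add_right, real_inner_smul_right, h11, horth, inner_zero_right, mul_one,
        mul_zero, add_zero] at h2
      rw [h2, zero_smul, zero_add] at h1
      exact ⟨h2, (smul_eq_zero.1 h1).resolve_right hne⟩
    have := hli.cardinal_lift_le_rank
    simp only [Cardinal.mk_fintype, Fintype.card_fin, Cardinal.lift_natCast, Cardinal.lift_uzero]
      at this
    exact lt_of_lt_of_le Cardinal.one_lt_two this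

end Pool.Agent.P.MP_49bf82_gt
end

-- part Pool.Agent.P.MP_49bf82_gt.QuadA
section

open Manifold Set Filter Topology
open scoped ContDiff RealInnerProductSpace

namespace Pool.Agent.P.MP_49bf82_gt

open Pool.Agent.P.MP_e3ee0c_gt

variable {G : Type*} [NormedAddCommGroup G] [InnerProductSpace ℝ G] [FiniteDimensional ℝ G]

variable {A : G →L[ℝ] G} {Ω : G → G →L[ℝ] G →L[ℝ] ℝ} {g : G → ℝ}

omit [FiniteDimensional ℝ G] in
theorem quada_ball (h : Model A Ω g) {ε : ℝ} (hε : 0 < ε) :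
    ∃ r > 0, ∀ y, ‖y‖ < r → HasFDerivAt g (-(Ω y (A y))) y ∧ ‖Ω y - Ω 0‖ ≤ ε := by
  have h1 : ∀ᶠ y in 𝓝 (0 : G), ‖Ω y - Ω 0‖ ≤ ε := by
    have := h.smooth.continuousAt.eventually (Metric.closedBall_mem_nhds (Ω 0) hε)
    filter_upwards [this] with y hy
    exact (dist_eq_norm (Ω y) (Ω 0)).symm.trans_le hy
  obtain ⟨r, hr, H⟩ := Metric.eventually_nhds_iff.1 (h.deriv.and h1)
  exact ⟨r, hr, fun y hy => H (by rwa [dist_zero_right])⟩

omit [FiniteDimensional ℝ G] in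
theorem quada_mvt {r : ℝ} (H : ∀ y, ‖y‖ < r → HasFDerivAt g (-(Ω y (A y))) y) {z w : G}
    (hr : ‖z‖ + ‖w‖ < r) : ∃ c : ℝ, 0 < c ∧ c < 1 ∧ ‖z + c • w‖ < r ∧
      g (z + w) - g z = -(Ω (z + c • w) (A (z + c • w)) w) := by
  have hb : ∀ s ∈ Icc (0 : ℝ) 1, ‖z + s • w‖ < r := by
    intro s hs
    have a1 : ‖s • w‖ ≤ ‖w‖ := by
      rw [norm_smul, Real.norm_of_nonneg hs.1]
      exact mul_le_of_le_one_left (norm_nonneg _) hs.2
    linarith [norm_add_le z (s • w)]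
  have hd : ∀ s ∈ Icc (0 : ℝ) 1, HasDerivAt (fun s : ℝ => g (z + s • w))
      (-(Ω (z + s • w) (A (z + s • w)) w)) s := by
    intro s hs
    have c1 : HasDerivAt (fun s : ℝ => z + s • w) w s := by
      simpa using ((hasDerivAt_id s).smul_const w).const_add z
    exact (H _ (hb s hs)).comp_hasDerivAt s c1
  obtain ⟨c, hc, e⟩ := exists_hasDerivAt_eq_slope (fun s : ℝ => g (z + s • w))
    (fun s => -(Ω (z + s • w) (A (z + s • w)) w)) zero_lt_one
    (fun s hs => (hd s hs).continuousAt.continuousWithinAt)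
    (fun s hs => hd s (Ioo_subset_Icc_self hs))
  refine ⟨c, hc.1, hc.2, hb c (Ioo_subset_Icc_self hc), ?_⟩
  rw [e]
  simp

omit [FiniteDimensional ℝ G] in
theorem quada_err {B C : G →L[ℝ] G →L[ℝ] ℝ} {ε : ℝ} (h : ‖C - B‖ ≤ ε) (u v : G) :
    |C (A u) v - B (A u) v| ≤ ε * ‖A‖ * (‖u‖ * ‖v‖) := by
  have e : C (A u) v - B (A u) v = (C - B) (A u) v := rfl
  have hε : 0 ≤ ε := (norm_nonneg (C - B)).trans h
  rw [e, ← Real.norm_eq_abs]
  calc ‖(C - B) (A u) v‖ ≤ ‖C - B‖ * ‖A u‖ * ‖v‖ := (C - B).le_opNorm₂ _ _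
    _ ≤ ε * (‖A‖ * ‖u‖) * ‖v‖ := by
      refine mul_le_mul_of_nonneg_right ?_ (norm_nonneg _)
      exact mul_le_mul h (A.le_opNorm u) (norm_nonneg _) hε
    _ = ε * ‖A‖ * (‖u‖ * ‖v‖) := by ring

/-- Symmetry of the second derivative. -/
theorem Model.pair (h : Model A Ω g) : Pair A (Ω 0) := by
  refine ⟨h.skewA, h.skew, h.nondeg, fun u v => ?_⟩
  have hΩ : HasFDerivAt Ω (fderiv ℝ Ω 0) 0 :=
    (h.smooth.differentiableAt one_ne_zero).hasFDerivAt
  have hd := (hΩ.clm_apply (A.hasFDerivAt (x := 0))).neg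
  have := second_derivative_symmetric_of_eventually_of_real h.deriv hd u v
  simpa using this

theorem Model.neg_dir (h : Model A Ω g) {u : G} (hu : 0 < Ω 0 (A u) u) :
    ∀ᶠ τ in 𝓝[>] (0 : ℝ), g (τ • u) < g 0 := by
  have hK : 0 < ‖A‖ * (‖u‖ * ‖u‖) + 1 := by positivity
  obtain ⟨r, hr, H⟩ := quada_ball h (div_pos hu hK)
  have h1 : ∀ᶠ τ in 𝓝 (0 : ℝ), ‖τ • u‖ < r := by
    have c : Continuous fun τ : ℝ => ‖τ • u‖ := by fun_prop
    exact c.continuousAt.eventually_lt continuousAt_const (by simpa using hr)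
  filter_upwards [h1.filter_mono nhdsWithin_le_nhds, self_mem_nhdsWithin] with τ h2 (hτ : 0 < τ)
  obtain ⟨c, c0, -, hc, e⟩ := quada_mvt (fun y hy => (H y hy).1) (z := 0) (w := τ • u)
    (by simpa using h2)
  have b := (abs_le.1 (quada_err (A := A) (H _ hc).2 u u)).1
  have b2 : Ω 0 (A u) u / (‖A‖ * (‖u‖ * ‖u‖) + 1) * ‖A‖ * (‖u‖ * ‖u‖) < Ω 0 (A u) u := by
    rw [mul_assoc, div_mul_eq_mul_div, div_lt_iff₀ hK]
    exact mul_lt_mul_of_pos_left (lt_add_one _) hu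
  have b3 : 0 < Ω (0 + c • τ • u) (A u) u := by linarith
  generalize Ω (0 + c • τ • u) = C at e b3
  simp only [zero_add, map_smul, smul_apply, smul_eq_mul] at e
  have b4 : 0 < τ * (c * (τ * C (A u) u)) := by positivity
  linarith

/-- The three estimates on a small ball. Write y = z + n + p with n = N y, p = P y. -/
theorem Model.estimates (h : Model A Ω g) {N P : G →L[ℝ] G} {l : ℝ} (hs : Split A (Ω 0) N P l) :
    ∃ η > 0, ∃ r > 0, (∀ y, ‖y‖ < r → DifferentiableAt ℝ g y) ∧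
      ∀ y, ‖y - N y - P y‖ + ‖N y‖ + ‖P y‖ < r →
        (N y ≠ 0 → ‖P y‖ ≤ η * ‖N y‖ → g y < g 0) ∧
        (N y = 0 → g 0 ≤ g y ∧ (P y ≠ 0 → g 0 < g y)) ∧
        (P y ≠ 0 → η * ‖N y‖ ≤ ‖P y‖ → 0 < fderiv ℝ g y (P y)) := by
  have hl := hs.pos
  obtain ⟨K, hK⟩ : ∃ K, K = ‖Ω 0‖ * ‖A‖ := ⟨_, rfl⟩
  have K0 : 0 ≤ K := by rw [hK]; positivity
  obtain ⟨η, η0, η1, ηK⟩ : ∃ η : ℝ, 0 < η ∧ η ≤ 1 ∧ K * η ≤ l / 4 := by
    refine ⟨min 1 (l / 4 / (K + 1)), lt_min one_pos (by positivity), min_le_left _ _, ?_⟩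
    have a1 : min 1 (l / 4 / (K + 1)) ≤ l / 4 / (K + 1) := min_le_right _ _
    rw [le_div_iff₀ (by positivity)] at a1
    have a2 : 0 ≤ min 1 (l / 4 / (K + 1)) := le_min one_pos.le (by positivity)
    nlinarith
  obtain ⟨ε, ε0, hε⟩ : ∃ ε : ℝ, 0 < ε ∧ ε * ‖A‖ * 16 ≤ l * η := by
    refine ⟨l * η / 16 / (‖A‖ + 1), by positivity, ?_⟩
    rw [div_mul_eq_mul_div, div_mul_eq_mul_div, div_le_iff₀ (by positivity)]
    have : 0 < l * η := by positivity
    nlinarith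
  obtain ⟨a, ha⟩ : ∃ a, a = ε * ‖A‖ := ⟨_, rfl⟩
  have a0 : 0 ≤ a := by rw [ha]; positivity
  rw [← ha] at hε
  have a1 : a * 16 ≤ l := hε.trans (mul_le_of_le_one_right hl.le η1)
  obtain ⟨r, hr, H⟩ := quada_ball h ε0
  refine ⟨η, η0, r, hr, fun y hy => (H y hy).1.differentiableAt, fun y hy => ?_⟩
  have hAz : A (y - N y - P y) = 0 := by
    rw [map_sub, map_sub, hs.ker y]
    abel
  have hw := norm_add_le (N y) (P y)
  have hy' : y = y - N y - P y + (N y + P y) := by abel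
  have o1 := (hs.orth y y).1
  have o2 := (hs.orth y y).2
  have hbig := hs.big y
  have hsmall := hs.small y
  have hlow : -(K * (‖P y‖ * ‖P y‖)) ≤ Ω 0 (A (P y)) (P y) := by
    have := quada_err (A := A) (B := 0) (C := Ω 0) (ε := ‖Ω 0‖)
      (congrArg norm (sub_zero (Ω 0))).le (P y) (P y)
    rw [← hK] at this
    simpa using (abs_le.1 this).1
  have hAy : A y = A (N y + P y) := by rw [map_add, hs.ker y]
  generalize y - N y - P y = z at hy hy' hAz
  generalize N y = n at *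
  generalize P y = p at *
  have n0 := norm_nonneg n
  have p0 := norm_nonneg p
  have z0 := norm_nonneg z
  have w0 := norm_nonneg (n + p)
  have hz : g z = g 0 := by
    obtain ⟨c, -, -, -, e⟩ := quada_mvt (fun y hy => (H y hy).1) (z := 0) (w := z)
      (by rw [norm_zero]; linarith)
    rw [map_add, map_zero, map_smul, hAz] at e
    simp only [zero_add, smul_zero, map_zero, zero_apply, neg_zero] at e
    linarith
  obtain ⟨c, c0, -, hc, e⟩ := quada_mvt (fun y hy => (H y hy).1) (z := z) (w := n + p)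
    (by linarith)
  have b := abs_le.1 (quada_err (A := A) (H _ hc).2 (n + p) (n + p))
  rw [← ha] at b
  generalize Ω (z + c • (n + p)) = C at e b
  rw [← hy', hz, map_add A z, hAz, zero_add, map_smul, map_smul, smul_apply,
    smul_eq_mul] at e
  have hB : Ω 0 (A (n + p)) (n + p) = Ω 0 (A n) n + Ω 0 (A p) p := by
    simp only [map_add, add_apply, o1, o2]
    ring
  rw [hB] at b
  refine ⟨fun hn hp => ?_, fun hn => ?_, fun hp hn => ?_⟩
  · have n1 : 0 < ‖n‖ := norm_pos_iff.2 hn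
    have t0 : η * ‖n‖ ≤ ‖n‖ := mul_le_of_le_one_left n0 η1
    have t1 : ‖n + p‖ * ‖n + p‖ ≤ 2 * ‖n‖ * (2 * ‖n‖) :=
      mul_self_le_mul_self w0 (by linarith)
    have t2 : ‖p‖ * ‖p‖ ≤ η * ‖n‖ * ‖n‖ := mul_le_mul hp (hp.trans t0) p0 (by positivity)
    have t3 := mul_le_mul_of_nonneg_left t1 a0
    have t4 := mul_le_mul_of_nonneg_left t2 K0
    have q : 0 < ‖n‖ * ‖n‖ := mul_pos n1 n1
    have t5 := mul_le_mul_of_nonneg_right ηK q.le
    have t6 := mul_le_mul_of_nonneg_right a1 q.le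
    have t7 := mul_pos hl q
    have t8 : 0 < C (A (n + p)) (n + p) := by nlinarith [b.1]
    have t9 := mul_pos c0 t8
    linarith
  · subst hn
    simp only [zero_add, map_zero] at b e
    have q : 0 ≤ ‖p‖ * ‖p‖ := mul_nonneg p0 p0
    have t6 := mul_le_mul_of_nonneg_right a1 q
    have t8 : C (A p) p ≤ -(l / 2 * (‖p‖ * ‖p‖)) := by nlinarith [b.2, mul_nonneg hl.le q]
    have t9 := mul_le_mul_of_nonneg_left t8 c0.le
    constructor
    · have : 0 ≤ c * (l / 2 * (‖p‖ * ‖p‖)) := by positivity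
      linarith
    · intro hp
      have p1 : 0 < ‖p‖ := norm_pos_iff.2 hp
      have : 0 < c * (l / 2 * (‖p‖ * ‖p‖)) := by positivity
      linarith
  · have p1 : 0 < ‖p‖ := norm_pos_iff.2 hp
    have hyr : ‖y‖ < r := by
      rw [hy']
      linarith [norm_add_le z (n + p)]
    have d := (abs_le.1 (quada_err (A := A) (H y hyr).2 (n + p) p)).2
    rw [← ha] at d
    have hB2 : Ω 0 (A (n + p)) p = Ω 0 (A p) p := by
      simp only [map_add, add_apply, o1, zero_add]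
    rw [hB2] at d
    rw [(H y hyr).1.fderiv, hAy, neg_apply]
    have t0 : η * ‖p‖ ≤ ‖p‖ := mul_le_of_le_one_left p0 η1
    have t1 : η * ‖n + p‖ ≤ 2 * ‖p‖ := by nlinarith [mul_le_mul_of_nonneg_left hw η0.le]
    have t2 : a * 16 * ‖n + p‖ ≤ l * (2 * ‖p‖) := by
      calc a * 16 * ‖n + p‖ ≤ l * η * ‖n + p‖ := mul_le_mul_of_nonneg_right hε w0
        _ = l * (η * ‖n + p‖) := by ring
        _ ≤ l * (2 * ‖p‖) := mul_le_mul_of_nonneg_left t1 hl.le
    have t3 := mul_le_mul_of_nonneg_right t2 p0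
    have t4 := mul_pos hl (mul_pos p1 p1)
    nlinarith

end Pool.Agent.P.MP_49bf82_gt
end

-- part Pool.Agent.P.MP_49bf82_gt.QuadB
section

open Manifold Set Filter Topology
open scoped ContDiff RealInnerProductSpace

namespace Pool.Agent.P.MP_49bf82_gt

open Pool.Agent.P.MP_e3ee0c_gt

variable {G : Type*} [NormedAddCommGroup G] [InnerProductSpace ℝ G] [FiniteDimensional ℝ G]

variable {A : G →L[ℝ] G} {Ω : G → G →L[ℝ] G →L[ℝ] ℝ} {g : G → ℝ}

/-- The adapted norm. -/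
noncomputable def quadbNu (N P : G →L[ℝ] G) (y : G) : ℝ := ‖y - N y - P y‖ + ‖N y‖ + ‖P y‖

omit [FiniteDimensional ℝ G] in
theorem quadb_cont (N P : G →L[ℝ] G) : Continuous (quadbNu N P) := by
  unfold quadbNu
  fun_prop

omit [FiniteDimensional ℝ G] in
theorem quadb_zero (N P : G →L[ℝ] G) : quadbNu N P 0 = 0 := by
  simp [quadbNu]

omit [FiniteDimensional ℝ G] in
theorem quadb_norm_le (N P : G →L[ℝ] G) (y : G) : ‖y‖ ≤ quadbNu N P y := by
  have h : y = (y - N y - P y) + N y + P y := by abel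
  calc ‖y‖ = ‖(y - N y - P y) + N y + P y‖ := by rw [← h]
    _ ≤ _ := norm_add₃_le

omit [FiniteDimensional ℝ G] in
/-- The point z + n + t p and its components. -/
theorem quadb_slide {B : G →L[ℝ] G →L[ℝ] ℝ} {N P : G →L[ℝ] G} {l : ℝ} (hs : Split A B N P l)
    (y : G) {t : ℝ} (h0 : 0 ≤ t) (h1 : t ≤ 1) :
    N (y - P y + t • P y) = N y ∧ P (y - P y + t • P y) = t • P y ∧
      quadbNu N P (y - P y + t • P y) ≤ quadbNu N P y := by
  have e1 : N (y - P y + t • P y) = N y := by simp [hs.NP]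
  have e2 : P (y - P y + t • P y) = t • P y := by simp [hs.PP]
  refine ⟨e1, e2, ?_⟩
  unfold quadbNu
  rw [e1, e2]
  have e3 : y - P y + t • P y - N y - t • P y = y - N y - P y := by abel
  rw [e3, norm_smul, Real.norm_of_nonneg h0]
  have := mul_le_of_le_one_left (norm_nonneg (P y)) h1
  linarith

omit [FiniteDimensional ℝ G] in
/-- The point n + t z and its components. -/
theorem quadb_shrink {B : G →L[ℝ] G →L[ℝ] ℝ} {N P : G →L[ℝ] G} {l : ℝ} (hs : Split A B N P l)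
    (y : G) {t : ℝ} (h0 : 0 ≤ t) (h1 : t ≤ 1) :
    N (N y + t • (y - N y - P y)) = N y ∧ P (N y + t • (y - N y - P y)) = 0 ∧
      quadbNu N P (N y + t • (y - N y - P y)) ≤ quadbNu N P y := by
  have e1 : N (N y + t • (y - N y - P y)) = N y := by simp [hs.NP, hs.NN]
  have e2 : P (N y + t • (y - N y - P y)) = 0 := by simp [hs.PP, hs.PN]
  refine ⟨e1, e2, ?_⟩
  unfold quadbNu
  rw [e1, e2]
  have e3 : N y + t • (y - N y - P y) - N y - 0 = t • (y - N y - P y) := by abel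
  rw [e3, norm_smul, Real.norm_of_nonneg h0, norm_zero]
  have := mul_le_of_le_one_left (norm_nonneg (y - N y - P y)) h1
  have := norm_nonneg (P y)
  linarith

omit [FiniteDimensional ℝ G] in
/-- g increases along the slide in the cone around the range of P. -/
theorem quadb_mono {B : G →L[ℝ] G →L[ℝ] ℝ} {N P : G →L[ℝ] G} {l η r : ℝ} (hs : Split A B N P l)
    (hd : ∀ y, ‖y‖ < r → DifferentiableAt ℝ g y)
    (h3 : ∀ y, quadbNu N P y < r → P y ≠ 0 → η * ‖N y‖ ≤ ‖P y‖ → 0 < fderiv ℝ g y (P y))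
    {y : G} (hy : quadbNu N P y < r) (hp : P y ≠ 0) {t : ℝ} (ht : 0 < t)
    (hc : η * ‖N y‖ ≤ t * ‖P y‖) :
    StrictMonoOn (fun s : ℝ => g (y - P y + s • P y)) (Icc t 1) := by
  have key : ∀ s ∈ Icc t 1, HasDerivAt (fun s : ℝ => g (y - P y + s • P y))
      (fderiv ℝ g (y - P y + s • P y) (P y)) s := by
    intro s hs'
    obtain ⟨-, -, e3⟩ := quadb_slide hs y (ht.le.trans hs'.1) hs'.2
    have hg := (hd _ (((quadb_norm_le N P _).trans e3).trans_lt hy)).hasFDerivAt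
    have hl : HasDerivAt (fun s : ℝ => y - P y + s • P y) (P y) s := by
      simpa using ((hasDerivAt_id s).smul_const (P y)).const_add (y - P y)
    exact hg.comp_hasDerivAt s hl
  refine strictMonoOn_of_deriv_pos (convex_Icc t 1)
    (fun s hs' => (key s hs').continuousAt.continuousWithinAt) ?_
  intro s hs'
  have hs'' : s ∈ Icc t 1 := interior_subset hs'
  rw [(key s hs'').deriv]
  have hs0 : 0 < s := ht.trans_le hs''.1
  obtain ⟨e1, e2, e3⟩ := quadb_slide hs y hs0.le hs''.2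
  have h := h3 _ (e3.trans_lt hy) (by rw [e2]; exact smul_ne_zero hs0.ne' hp) (by
    rw [e1, e2, norm_smul, Real.norm_of_nonneg hs0.le]
    exact hc.trans (mul_le_mul_of_nonneg_right hs''.1 (norm_nonneg _)))
  rw [e2, map_smul, smul_eq_mul] at h
  exact (pos_iff_pos_of_mul_pos h).1 hs0

theorem Model.min (h : Model A Ω g) (h0 : ∀ u, Ω 0 (A u) u ≤ 0) : IsLocalMin g 0 := by
  obtain ⟨N, P, l, hs⟩ := h.pair.exists_split
  obtain ⟨η, -, r, hr, -, he⟩ := h.estimates hs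
  have hN : ∀ y, N y = 0 := by
    intro y
    have h1 := (hs.big y).trans (h0 (N y))
    have h2 : ‖N y‖ ^ 2 ≤ 0 := by
      by_contra hc
      exact absurd h1 (not_le.2 (mul_pos hs.pos (not_le.1 hc)))
    exact norm_eq_zero.1 (pow_eq_zero_iff (two_ne_zero) |>.1 (le_antisymm h2 (by positivity)))
  have hU : {y | quadbNu N P y < r} ∈ 𝓝 (0 : G) :=
    (isOpen_lt (quadb_cont N P) continuous_const).mem_nhds (by
      show quadbNu N P 0 < r
      rw [quadb_zero]; exact hr)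
  filter_upwards [hU] with y hy
  exact ((he y hy).2.1 (hN y)).1

theorem Model.good (h : Model A Ω g) (h0 : ∃ u, 0 < Ω 0 (A u) u) {T : Set G} (hT : T ∈ 𝓝 0) :
    Good g 0 T := by
  have hpair := h.pair
  obtain ⟨N, P, l, hs⟩ := hpair.exists_split
  obtain ⟨η, hη, r0, hr0, hd0, he0⟩ := h.estimates hs
  obtain ⟨ρ, hρ, hρT⟩ := Metric.mem_nhds_iff.1 hT
  have hN0 : ∃ y, N y ≠ 0 := by
    by_contra hc
    push Not at hc
    obtain ⟨u, hu⟩ := h0
    have e1 : A u = A (P u) := by rw [hs.ker u, hc u, map_zero, zero_add]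
    have e2 : Ω 0 (A u) u = Ω 0 (A (P u)) (P u) := by
      calc Ω 0 (A u) u = Ω 0 (A (P u)) u := by rw [← e1]
        _ = Ω 0 (A u) (P u) := hpair.symm _ _
        _ = Ω 0 (A (P u)) (P u) := by rw [← e1]
    have e3 := hs.small u
    have e4 : 0 ≤ l * ‖P u‖ ^ 2 := mul_nonneg hs.pos.le (by positivity)
    linarith
  set r := Min.min r0 ρ with hrdef
  have hr : 0 < r := lt_min hr0 hρ
  have hr1 : r ≤ r0 := min_le_left _ _
  have hr2 : r ≤ ρ := min_le_right _ _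
  have hd : ∀ y, ‖y‖ < r → DifferentiableAt ℝ g y := fun y hy => hd0 y (hy.trans_le hr1)
  have c1 : ∀ y, quadbNu N P y < r → N y ≠ 0 → ‖P y‖ ≤ η * ‖N y‖ → g y < g 0 :=
    fun y hy => (he0 y (hy.trans_le hr1)).1
  have c2 : ∀ y, quadbNu N P y < r → N y = 0 → g 0 ≤ g y ∧ (P y ≠ 0 → g 0 < g y) :=
    fun y hy => (he0 y (hy.trans_le hr1)).2.1
  have c3 : ∀ y, quadbNu N P y < r → P y ≠ 0 → η * ‖N y‖ ≤ ‖P y‖ → 0 < fderiv ℝ g y (P y) :=
    fun y hy => (he0 y (hy.trans_le hr1)).2.2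
  have hUo : IsOpen {y | quadbNu N P y < r} := isOpen_lt (quadb_cont N P) continuous_const
  have c0 : ∀ y, quadbNu N P y < r → N y ≠ 0 → P y = 0 → g y < g 0 := fun y hy hn hp =>
    c1 y hy hn (by rw [hp, norm_zero]; positivity)
  refine ⟨{y | quadbNu N P y < r}, hUo, ?_, ?_, ?_, ?_⟩
  · show quadbNu N P 0 < r
    rw [quadb_zero]; exact hr
  · intro y hy
    exact hρT (mem_ball_zero_iff.2 (((quadb_norm_le N P y).trans_lt hy).trans_le hr2))
  · set M := LinearMap.range (N : G →ₗ[ℝ] G) with hM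
    set E : Set G := (fun q : M × ℝ => q.2 • (q.1 : G)) '' (Metric.sphere 0 1 ×ˢ Ioo 0 r) with hE
    have hEc : IsPreconnected E :=
      ((isPreconnected_sphere (hs.rank hN0) (0 : M) 1).prod isPreconnected_Ioo).image _
        (by fun_prop)
    have hES : E ⊆ {y | quadbNu N P y < r} ∩ {y | g y < g 0} := by
      rintro _ ⟨⟨⟨u, w, rfl⟩, s⟩, ⟨hu, hs1⟩, rfl⟩
      have hu1 : ‖N w‖ = 1 := by simpa using hu
      have e1 : N (s • N w) = s • N w := by rw [map_smul, hs.NN]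
      have e2 : P (s • N w) = 0 := by rw [map_smul, hs.PN, smul_zero]
      have e3 : quadbNu N P (s • N w) < r := by
        unfold quadbNu
        rw [e1, e2, norm_smul, hu1, Real.norm_of_nonneg hs1.1.le]
        simpa using hs1.2
      refine ⟨e3, c0 _ e3 ?_ e2⟩
      show N (s • N w) ≠ 0
      rw [e1]
      refine smul_ne_zero hs1.1.ne' ?_
      intro hw
      rw [hw, norm_zero] at hu1
      exact zero_ne_one hu1
    have hEN : ∀ y, N y ≠ 0 → ‖N y‖ < r → N y ∈ E := by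
      intro y hn hlt
      have hpos : 0 < ‖N y‖ := norm_pos_iff.2 hn
      refine ⟨(⟨‖N y‖⁻¹ • N y, M.smul_mem _ ⟨y, rfl⟩⟩, ‖N y‖), ⟨?_, hpos, hlt⟩, ?_⟩
      · rw [mem_sphere_zero_iff_norm]
        show ‖‖N y‖⁻¹ • N y‖ = 1
        rw [norm_smul, norm_inv, norm_norm, inv_mul_cancel₀ hpos.ne']
      · show ‖N y‖ • ‖N y‖⁻¹ • N y = N y
        rw [smul_smul, mul_inv_cancel₀ hpos.ne', one_smul]
    by_cases hne : ({y | quadbNu N P y < r} ∩ {y | g y < g 0}).Nonempty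
    swap
    · rw [not_nonempty_iff_eq_empty.1 hne]
      exact isPreconnected_empty
    have hNn : ∀ y, quadbNu N P y < r → g y < g 0 → N y ≠ 0 ∧ ‖N y‖ < r := by
      intro y hy hg
      refine ⟨fun hn => absurd (c2 y hy hn).1 (not_le.2 hg), lt_of_le_of_lt ?_ hy⟩
      unfold quadbNu
      have := norm_nonneg (y - N y - P y)
      have := norm_nonneg (P y)
      linarith
    obtain ⟨x, hx1, hx2⟩ := hne
    refine isPreconnected_of_forall (N x) ?_
    rintro y ⟨hy1, hy2⟩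
    obtain ⟨hn, hlt⟩ := hNn y hy1 hy2
    refine ⟨(E ∪ (fun t : ℝ => N y + t • (y - N y - P y)) '' Icc 0 1) ∪
      (fun t : ℝ => y - P y + t • P y) '' Icc 0 1, ?_, ?_, ?_, ?_⟩
    · refine union_subset (union_subset hES ?_) ?_
      · rintro _ ⟨t, ht, rfl⟩
        obtain ⟨e1, e2, e3⟩ := quadb_shrink hs y ht.1 ht.2
        exact ⟨e3.trans_lt hy1, c0 _ (e3.trans_lt hy1) (by rw [e1]; exact hn) e2⟩
      · rintro _ ⟨t, ht, rfl⟩
        obtain ⟨e1, e2, e3⟩ := quadb_slide hs y ht.1 ht.2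
        refine ⟨e3.trans_lt hy1, ?_⟩
        by_cases hc : t * ‖P y‖ ≤ η * ‖N y‖
        · refine c1 _ (e3.trans_lt hy1) (by rw [e1]; exact hn) ?_
          rw [e1, e2, norm_smul, Real.norm_of_nonneg ht.1]
          exact hc
        · have hc' := not_le.1 hc
          have hpos : 0 < t * ‖P y‖ := lt_of_le_of_lt (by positivity) hc'
          have ht0 : 0 < t := lt_of_le_of_ne ht.1 (by rintro rfl; simp at hpos)
          have hp : P y ≠ 0 := by rintro hp; simp [hp] at hpos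
          have hm := (quadb_mono hs hd c3 hy1 hp ht0 hc'.le).monotoneOn
            ⟨le_rfl, ht.2⟩ ⟨ht.2, le_rfl⟩ ht.2
          simp only [one_smul, sub_add_cancel] at hm
          exact lt_of_le_of_lt hm hy2
    · exact Or.inl (Or.inl (hEN x (hNn x hx1 hx2).1 (hNn x hx1 hx2).2))
    · exact Or.inr ⟨1, ⟨zero_le_one, le_rfl⟩, by simp⟩
    · refine IsPreconnected.union (y - P y) (Or.inr ⟨1, ⟨zero_le_one, le_rfl⟩, ?_⟩)
        ⟨0, ⟨le_rfl, zero_le_one⟩, by simp⟩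
        (IsPreconnected.union (N y) (hEN y hn hlt) ⟨0, ⟨le_rfl, zero_le_one⟩, by simp⟩ hEc
          (isPreconnected_Icc.image _ (by fun_prop))) (isPreconnected_Icc.image _ (by fun_prop))
      show N y + (1 : ℝ) • (y - N y - P y) = y - P y
      rw [one_smul]
      abel
  · rintro y ⟨hy1, hy2⟩
    have hy2' : g y = g 0 := hy2
    by_cases hn : N y = 0
    · have hp : P y = 0 := by
        by_contra hp
        exact absurd hy2' ((c2 y hy1 hn).2 hp).ne'
      obtain ⟨w, hw⟩ := hN0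
      have ht : Tendsto (fun s : ℝ => y + s • N w) (𝓝[>] 0) (𝓝 y) := by
        have hc : Continuous (fun s : ℝ => y + s • N w) := by fun_prop
        have := hc.tendsto 0
        simp only [zero_smul, add_zero] at this
        exact this.mono_left nhdsWithin_le_nhds
      refine mem_closure_of_tendsto ht ?_
      filter_upwards [ht.eventually (hUo.mem_nhds hy1), self_mem_nhdsWithin] with s h1 h2
      refine ⟨h1, c0 _ h1 ?_ ?_⟩
      · rw [map_add, map_smul, hn, zero_add, hs.NN]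
        exact smul_ne_zero (ne_of_gt h2) hw
      · rw [map_add, map_smul, hp, hs.PN, smul_zero, add_zero]
    · have hc : η * ‖N y‖ < ‖P y‖ := by
        by_contra hc
        exact absurd hy2' (c1 y hy1 hn (not_lt.1 hc)).ne
      have hpos : 0 < η * ‖N y‖ := mul_pos hη (norm_pos_iff.2 hn)
      have hpp : 0 < ‖P y‖ := hpos.trans hc
      have ht0 : 0 < η * ‖N y‖ / ‖P y‖ := div_pos hpos hpp
      have ht1 : η * ‖N y‖ / ‖P y‖ < 1 := (div_lt_one hpp).2 hc
      have hm := quadb_mono hs hd c3 hy1 (norm_pos_iff.1 hpp) ht0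
        (le_of_eq (div_mul_cancel₀ _ hpp.ne').symm)
      have ht : Tendsto (fun s : ℝ => y - P y + s • P y) (𝓝[<] 1) (𝓝 y) := by
        have hc : Continuous (fun s : ℝ => y - P y + s • P y) := by fun_prop
        have := hc.tendsto 1
        simp only [one_smul, sub_add_cancel] at this
        exact this.mono_left nhdsWithin_le_nhds
      refine mem_closure_of_tendsto ht ?_
      filter_upwards [ht.eventually (hUo.mem_nhds hy1), Ioo_mem_nhdsLT ht1] with s h1 h2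
      refine ⟨h1, ?_⟩
      have := hm ⟨h2.1.le, h2.2.le⟩ ⟨ht1.le, le_rfl⟩ h2.2
      simp only [one_smul, sub_add_cancel] at this
      exact lt_of_lt_of_eq this hy2'

end Pool.Agent.P.MP_49bf82_gt
end

-- part Pool.Agent.P.MP_49bf82_gt.LinB
section

open Manifold Set Filter Topology
open scoped ContDiff RealInnerProductSpace

namespace Pool.Agent.P.MP_49bf82_gt

open Pool.Agent.P.MP_e3ee0c_gt

variable {G : Type*} [NormedAddCommGroup G] [InnerProductSpace ℝ G] [FiniteDimensional ℝ G]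

theorem exists_eigen {T : G →L[ℝ] G} (hT : ∀ u v, ⟪T u, v⟫ = ⟪u, T v⟫) (M : Submodule ℝ G)
    (hM : ∀ u ∈ M, T u ∈ M) (h0 : ∃ u ∈ M, u ≠ 0) : ∃ u ∈ M, u ≠ 0 ∧ ∃ c : ℝ, T u = c • u := by
  obtain ⟨u, hu, hu0⟩ := h0
  have : Nontrivial M := ⟨⟨⟨u, hu⟩, 0, fun e => hu0 (congrArg Subtype.val e)⟩⟩
  have hS : (T : G →ₗ[ℝ] G).IsSymmetric := hT
  obtain ⟨v, hv⟩ := ((hS.restrict_invariant (V := M) hM).hasEigenvalue_iSup_of_finiteDimensional
    ).exists_hasEigenvector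
  exact ⟨v, v.2, fun e => hv.2 (Subtype.ext e), _, congrArg Subtype.val hv.apply_eq_smul⟩

/-- B is nondegenerate on the kernel of A. -/
theorem Pair.ker_pair {A : G →L[ℝ] G} {B : G →L[ℝ] G →L[ℝ] ℝ} (h : Pair A B) {x : G}
    (hx : A x = 0) (h0 : x ≠ 0) : ∃ v, A v = 0 ∧ B x v ≠ 0 := by
  by_contra hn
  push Not at hn
  refine h0 (h.nondeg x fun v => ?_)
  obtain ⟨y, ⟨w, rfl⟩, z, hz, rfl⟩ :=
    (LinearMap.range (A : G →ₗ[ℝ] G)).exists_add_mem_mem_orthogonal v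
  have h1 : A z = 0 := by
    rw [← inner_self_eq_zero (𝕜 := ℝ), h.skewA, real_inner_comm, neg_eq_zero]
    exact hz _ ⟨A z, rfl⟩
  rw [map_add, hn z h1, add_zero, h.skew]
  show -B (A w) x = 0
  rw [h.symm, hx, map_zero, zero_apply, neg_zero]

theorem linb_pos {S : G →L[ℝ] G} (hS : ∀ u v, ⟪S u, v⟫ = ⟪u, S v⟫) {u : G} (hu : 0 < ⟪S u, u⟫) :
    ∃ (l : ℝ) (w : G), 0 < l ∧ w ≠ 0 ∧ S w = l • w := by
  have hS' : (S : G →ₗ[ℝ] G).IsSymmetric := hS
  by_contra hn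
  push Not at hn
  refine absurd hu (not_lt.2 ?_)
  rw [← (hS'.eigenvectorBasis rfl).sum_inner_mul_inner]
  refine Finset.sum_nonpos fun i _ => ?_
  have h1 : S (hS'.eigenvectorBasis rfl i)
      = hS'.eigenvalues rfl i • hS'.eigenvectorBasis rfl i := hS'.apply_eigenvectorBasis rfl i
  have h2 : hS'.eigenvalues rfl i ≤ 0 := not_lt.1 fun h3 =>
    hn _ _ h3 ((hS'.eigenvectorBasis rfl).orthonormal.ne_zero i) h1
  rw [hS, h1, real_inner_smul_right, real_inner_comm u, mul_assoc]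
  exact mul_nonpos_of_nonpos_of_nonneg h2 (mul_self_nonneg _)

/-- The eigenspace of T for the value l. -/
def linbE (T : G →L[ℝ] G) (l : ℝ) : Submodule ℝ G where
  carrier := {u | T u = l • u}
  add_mem' := fun {a b} (ha : T a = l • a) (hb : T b = l • b) => show T (a + b) = l • (a + b) by
    rw [map_add, ha, hb, smul_add]
  zero_mem' := show T 0 = l • (0 : G) by rw [map_zero, smul_zero]
  smul_mem' := fun c {a} (ha : T a = l • a) => show T (c • a) = l • (c • a) by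
    rw [map_smul, ha, smul_comm]

omit [FiniteDimensional ℝ G] in
theorem linb_mem {T U : G →L[ℝ] G} {l : ℝ} (h : ∀ u, T (U u) = U (T u)) {u : G}
    (hu : u ∈ linbE T l) : U u ∈ linbE T l := by
  have h1 : T u = l • u := hu
  show T (U u) = l • U u
  rw [h, h1, map_smul]

/-- A direction of descent that is killed by some generator. -/
theorem exists_common {A : R2 →L[ℝ] G →L[ℝ] G} {B : G →L[ℝ] G →L[ℝ] ℝ} (h : ∀ ξ, Pair (A ξ) B)
    (hc : ∀ ξ η u, A ξ (A η u) = A η (A ξ u)) {θ : R2} (hθ : θ 1 ≠ 0)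
    (h0 : ∃ u, 0 < B (A θ u) u) : ∃ u ξ, ξ ≠ 0 ∧ A ξ u = 0 ∧ 0 < B (A θ u) u := by
  obtain ⟨S, hS⟩ : ∃ S : G →L[ℝ] G, ∀ u v, ⟪S u, v⟫ = B (A θ u) v :=
    ⟨InnerProductSpace.continuousLinearMapOfBilin (𝕜 := ℝ) (B.comp (A θ)),
      fun u v => InnerProductSpace.continuousLinearMapOfBilin_apply _ u v⟩
  have sS : ∀ u v, ⟪S u, v⟫ = ⟪u, S v⟫ := fun u v => by
    rw [real_inner_comm (S v), hS, hS, (h θ).symm]
  have cS : ∀ ξ u, S (A ξ u) = A ξ (S u) := fun ξ u => ext_inner_right ℝ fun v => by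
    rw [hS, hc, (h ξ).symm, (h ξ).skew, (h ξ).skewA, hS]
  have sA : ∀ ξ u v, ⟪((A θ).comp (A ξ)) u, v⟫ = ⟪u, ((A θ).comp (A ξ)) v⟫ := fun ξ u v => by
    show ⟪A θ (A ξ u), v⟫ = ⟪u, A θ (A ξ v)⟫
    rw [(h θ).skewA, (h ξ).skewA, neg_neg, hc]
  have cT : ∀ ξ u, ((A θ).comp (A θ)) (A ξ u) = A ξ (((A θ).comp (A θ)) u) := fun ξ u => by
    show A θ (A θ (A ξ u)) = A ξ (A θ (A θ u))
    rw [hc θ ξ, hc θ ξ]
  obtain ⟨u₀, hu₀⟩ := h0
  obtain ⟨l, w₀, hl, hw₀, e₀⟩ := linb_pos sS (u := u₀) (by rwa [hS])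
  obtain ⟨w, hw, hw0, k₁, e₁⟩ := exists_eigen (sA θ) (linbE S l)
    (fun u hu => linb_mem (cS θ) (linb_mem (cS θ) hu)) ⟨w₀, e₀, hw₀⟩
  have hk : k₁ ≠ 0 := by
    rintro rfl
    have h1 : A θ (A θ w) = 0 := by rw [← zero_smul ℝ w]; exact e₁
    have h2 : A θ w = 0 := by
      rw [← inner_self_eq_zero (𝕜 := ℝ), (h θ).skewA, h1, inner_zero_right, neg_zero]
    have h3 : S w = l • w := hw
    have h4 : S w = 0 := ext_inner_right ℝ fun v => by
      rw [hS, h2, map_zero, zero_apply, inner_zero_left]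
    rw [h4] at h3
    exact smul_ne_zero hl.ne' hw0 h3.symm
  obtain ⟨u, hu, hu0, k, e⟩ := exists_eigen (sA ![1, 0]) (linbE S l ⊓ linbE ((A θ).comp (A θ)) k₁)
    (fun u hu => ⟨linb_mem (cS θ) (linb_mem (cS _) hu.1), linb_mem (cT θ) (linb_mem (cT _) hu.2)⟩)
    ⟨w, ⟨hw, e₁⟩, hw0⟩
  refine ⟨u, k₁ • ![1, 0] - k • θ, fun e0 => ?_, ?_, ?_⟩
  · have a0 := congrFun e0 0
    have a1 := congrFun e0 1
    simp [hθ] at a0 a1
    simp [a1, hk] at a0
  · have h1 : A θ (A θ (A ![1, 0] u)) = k₁ • A ![1, 0] u := linb_mem (cT _) hu.2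
    have h2 : A θ (A ![1, 0] u) = k • u := e
    rw [h2, map_smul] at h1
    rw [map_sub, map_smul, map_smul, sub_apply, smul_apply,
      smul_apply, h1, sub_self]
  · have h1 : S u = l • u := hu.1
    rw [← hS, h1, real_inner_smul_left]
    exact mul_pos hl (real_inner_self_pos.2 hu0)

end Pool.Agent.P.MP_49bf82_gt
end

-- part Pool.Agent.P.MP_49bf82_gt.Reg
section

open Manifold Set Filter Topology
open scoped ContDiff RealInnerProductSpace

namespace Pool.Agent.P.MP_49bf82_gt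

open Pool.Agent.P.MP_e3ee0c_gt

variable {F : Type*} [NormedAddCommGroup F] [NormedSpace ℝ F] [FiniteDimensional ℝ F]
  {W : Type*} [TopologicalSpace W] [ChartedSpace F W] [IsManifold 𝓘(ℝ, F) ∞ W]

theorem good_of_fderiv {g : F → ℝ} {x : F} (hg : ContDiffAt ℝ 1 g x) (h : fderiv ℝ g x ≠ 0)
    {T : Set F} (hT : T ∈ 𝓝 x) : Good g x T := by
  obtain ⟨v, hv⟩ : ∃ v, fderiv ℝ g x v < 0 := by
    obtain ⟨w, hw⟩ : ∃ w, fderiv ℝ g x w ≠ 0 := by
      by_contra hc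
      exact h (ContinuousLinearMap.ext fun w => by_contra fun hw => hc ⟨w, hw⟩)
    rcases lt_or_gt_of_ne hw with h1 | h1
    · exact ⟨w, h1⟩
    · exact ⟨-w, by rw [map_neg]; linarith⟩
  have c1 : ContinuousAt (fun z => fderiv ℝ g z v) x :=
    (hg.continuousAt_fderiv (by simp)).clm_apply continuousAt_const
  have e1 : ∀ᶠ z in 𝓝 x, z ∈ T ∧ DifferentiableAt ℝ g z ∧ fderiv ℝ g z v < 0 := by
    filter_upwards [hT, hg.eventually (by simp), c1.eventually_lt_const hv] with z a b c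
    exact ⟨a, b.differentiableAt (by simp), c⟩
  obtain ⟨R, hR, hball⟩ := Metric.eventually_nhds_iff_ball.1 e1
  have slide : ∀ (y : F) (s : ℝ), (∀ t ∈ Icc (0 : ℝ) s, y + t • v ∈ Metric.ball x R) →
      StrictAntiOn (fun t : ℝ => g (y + t • v)) (Icc 0 s) := by
    intro y s hs
    have hd : ∀ t ∈ Icc (0 : ℝ) s,
        HasDerivAt (fun t : ℝ => g (y + t • v)) (fderiv ℝ g (y + t • v) v) t := by
      intro t ht
      have h1 : HasDerivAt (fun t : ℝ => y + t • v) v t := by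
        simpa using ((hasDerivAt_id t).smul_const v).const_add y
      exact (hball _ (hs t ht)).2.1.hasFDerivAt.comp_hasDerivAt t h1
    refine strictAntiOn_of_deriv_neg (convex_Icc 0 s)
      (fun t ht => (hd t ht).continuousAt.continuousWithinAt) fun t ht => ?_
    have ht' := interior_subset ht
    rw [(hd t ht').deriv]
    exact (hball _ (hs t ht')).2.2
  set d : ℝ := R / (2 * (‖v‖ + 1)) with hd
  have hd0 : 0 < d := by positivity
  have hdv : ∀ s ∈ Icc (0 : ℝ) d, dist (x + s • v) x ≤ R / 2 := by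
    intro s hs
    rw [dist_self_add_left, norm_smul, Real.norm_of_nonneg hs.1]
    have h1 : d * (‖v‖ + 1) = R / 2 := by
      rw [hd]
      field_simp
    nlinarith [hs.1, hs.2, norm_nonneg v]
  have hmem : ∀ s ∈ Icc (0 : ℝ) d, x + s • v ∈ Metric.ball x R := fun s hs =>
    (hdv s hs).trans_lt (half_lt_self hR)
  have hlt : g (x + d • v) < g x := by
    simpa using slide x d hmem ⟨le_rfl, hd0.le⟩ ⟨hd0.le, le_rfl⟩ hd0
  have e2 : ∀ᶠ z in 𝓝 (x + d • v), g z < g x :=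
    (hball _ (hmem d ⟨hd0.le, le_rfl⟩)).2.1.continuousAt.eventually_lt_const hlt
  obtain ⟨r0, hr0, hb0⟩ := Metric.eventually_nhds_iff_ball.1 e2
  set r : ℝ := min r0 (R / 2) with hr
  have hr1 : 0 < r := lt_min hr0 (half_pos hR)
  have hb : ∀ z ∈ Metric.ball (x + d • v) r, g z < g x := fun z hz =>
    hb0 z (Metric.ball_subset_ball (min_le_left _ _) hz)
  set U : Set F := ⋃ s ∈ Icc (0 : ℝ) d, Metric.ball (x + s • v) r with hU
  have hUR : U ⊆ Metric.ball x R := by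
    intro y hy
    obtain ⟨s, hs, hy⟩ := mem_iUnion₂.1 hy
    have h1 := dist_triangle y (x + s • v) x
    have h2 : dist y (x + s • v) < r := hy
    have h3 : r ≤ R / 2 := min_le_right _ _
    have h4 := hdv s hs
    exact (show dist y x < R by linarith)
  have hmove : ∀ (y : F) (s t : ℝ), y ∈ Metric.ball (x + s • v) r →
      y + t • v ∈ Metric.ball (x + (s + t) • v) r := by
    intro y s t hy
    rw [Metric.mem_ball, add_smul, ← add_assoc, dist_add_right]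
    exact hy
  have hin : ∀ (y : F) (s : ℝ), s ∈ Icc (0 : ℝ) d → y ∈ Metric.ball (x + s • v) r →
      ∀ t ∈ Icc (0 : ℝ) (d - s), y + t • v ∈ U := fun y s hs hy t ht =>
    mem_iUnion₂.2 ⟨s + t, ⟨add_nonneg hs.1 ht.1, by linarith [ht.2]⟩, hmove y s t hy⟩
  have hdown : ∀ (y : F) (s : ℝ), s ∈ Icc (0 : ℝ) d → y ∈ Metric.ball (x + s • v) r →
      ∀ t ∈ Ioc (0 : ℝ) (d - s), g (y + t • v) < g y := by
    intro y s hs hy t ht
    simpa using slide y (d - s) (fun t ht => hUR (hin y s hs hy t ht))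
      ⟨le_rfl, sub_nonneg.2 hs.2⟩ ⟨ht.1.le, ht.2⟩ ht.1
  have hBU : Metric.ball (x + d • v) r ⊆ U := fun z hz => mem_iUnion₂.2 ⟨d, ⟨hd0.le, le_rfl⟩, hz⟩
  refine ⟨U, isOpen_biUnion fun _ _ => Metric.isOpen_ball,
    mem_iUnion₂.2 ⟨0, ⟨le_rfl, hd0.le⟩, by simpa using hr1⟩, fun y hy => (hball y (hUR hy)).1,
    isPreconnected_of_forall (x + d • v) fun y hy => ?_, fun y hy => ?_⟩
  · obtain ⟨s, hs, hys⟩ := mem_iUnion₂.1 hy.1
    have hy2 : g y < g x := hy.2
    refine ⟨(fun t : ℝ => y + t • v) '' Icc 0 (d - s) ∪ Metric.ball (x + d • v) r, ?_,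
      Or.inr (Metric.mem_ball_self hr1), Or.inl ⟨0, ⟨le_rfl, sub_nonneg.2 hs.2⟩, by simp⟩, ?_⟩
    · rintro z (⟨t, ht, rfl⟩ | hz)
      · refine ⟨hin y s hs hys t ht, ?_⟩
        rcases ht.1.eq_or_lt with h0 | h0
        · simpa [← h0] using hy2
        · exact (hdown y s hs hys t ⟨h0, ht.2⟩).trans hy2
      · exact ⟨hBU hz, hb z hz⟩
    · refine IsPreconnected.union (y + (d - s) • v) ⟨d - s, ⟨sub_nonneg.2 hs.2, le_rfl⟩, rfl⟩ ?_
        (isPreconnected_Icc.image _ (by fun_prop)) (convex_ball _ _).isPreconnected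
      simpa using hmove y s (d - s) hys
  · obtain ⟨s, hs, hys⟩ := mem_iUnion₂.1 hy.1
    have hy2 : g y = g x := hy.2
    have hsd : 0 < d - s := by
      rcases hs.2.eq_or_lt with h0 | h0
      · exact absurd hy2 (hb y (h0 ▸ hys)).ne
      · exact sub_pos.2 h0
    have ht : Tendsto (fun t : ℝ => y + t • v) (𝓝[>] 0) (𝓝 y) := by
      have h1 : Continuous fun t : ℝ => y + t • v := by fun_prop
      simpa using (h1.tendsto 0).mono_left (nhdsWithin_le_nhds (s := Ioi 0))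
    refine mem_closure_of_tendsto ht ?_
    filter_upwards [Ioc_mem_nhdsGT hsd] with t ht
    exact ⟨hin y s hs hys t ⟨ht.1.le, ht.2⟩, (hdown y s hs hys t ht).trans_eq hy2⟩

theorem Good.chart {X Y : Type*} [TopologicalSpace X] [TopologicalSpace Y]
    (e : OpenPartialHomeomorph X Y) {g : X → ℝ} {x : X} (hx : x ∈ e.source) {T : Set X}
    (h : Good (g ∘ e.symm) (e x) (e.target ∩ e.symm ⁻¹' T)) : Good g x T := by
  obtain ⟨U, hU, hxU, hUT, hc, hd⟩ := h
  have hx' : (g ∘ e.symm) (e x) = g x := by simp [e.left_inv hx]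
  rw [hx'] at hc hd
  have himg : (e.source ∩ e ⁻¹' U) ∩ {y | g y < g x} =
      e.symm '' (U ∩ {z | (g ∘ e.symm) z < g x}) := by
    ext y
    constructor
    · rintro ⟨⟨h1, h2⟩, h3⟩
      refine ⟨e y, ⟨h2, ?_⟩, e.left_inv h1⟩
      change g (e.symm (e y)) < g x
      rw [e.left_inv h1]
      exact h3
    · rintro ⟨z, ⟨h1, h2⟩, rfl⟩
      refine ⟨⟨e.map_target (hUT h1).1, ?_⟩, h2⟩
      change e (e.symm z) ∈ U
      rw [e.right_inv (hUT h1).1]
      exact h1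
  refine ⟨e.source ∩ e ⁻¹' U, e.isOpen_inter_preimage hU, ⟨hx, hxU⟩, fun y hy => ?_, ?_,
    fun y hy => ?_⟩
  · have h1 : e.symm (e y) ∈ T := (hUT hy.2).2
    rwa [e.left_inv hy.1] at h1
  · rw [himg]
    exact hc.image _ (e.continuousOn_symm.mono fun z hz => (hUT hz.1).1)
  · rw [himg]
    have h1 : e y ∈ closure (U ∩ {z | (g ∘ e.symm) z < g x}) := by
      refine hd ⟨hy.1.2, ?_⟩
      change g (e.symm (e y)) = g x
      rw [e.left_inv hy.1.1]
      exact hy.2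
    have h2 := (e.continuousAt_symm (e.map_source hy.1.1)).continuousWithinAt.mem_closure_image h1
    rwa [e.left_inv hy.1.1] at h2

theorem Good.congr {X : Type*} [TopologicalSpace X] {g g' : X → ℝ} {x : X} {T : Set X}
    (h : Good g x T) (he : EqOn g g' T) : Good g' x univ := by
  obtain ⟨U, hU, hxU, hUT, hc, hd⟩ := h
  have h1 : U ∩ {y | g' y < g' x} = U ∩ {y | g y < g x} := by
    ext y
    refine and_congr_right fun hy => ?_
    change g' y < g' x ↔ g y < g x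
    rw [he (hUT hy), he (hUT hxU)]
  have h2 : U ∩ {y | g' y = g' x} = U ∩ {y | g y = g x} := by
    ext y
    refine and_congr_right fun hy => ?_
    change g' y = g' x ↔ g y = g x
    rw [he (hUT hy), he (hUT hxU)]
  exact ⟨U, hU, hxU, subset_univ _, h1 ▸ hc, h1 ▸ h2 ▸ hd⟩

theorem isLocalMin_chart {X Y : Type*} [TopologicalSpace X] [TopologicalSpace Y]
    (e : OpenPartialHomeomorph X Y) {g : X → ℝ} {x : X} (hx : x ∈ e.source)
    (h : IsLocalMin (g ∘ e.symm) (e x)) : IsLocalMin g x := by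
  have h1 : ∀ᶠ y in 𝓝 x, g (e.symm (e x)) ≤ g (e.symm (e y)) := (e.continuousAt hx).eventually h
  filter_upwards [h1, e.open_source.mem_nhds hx] with y hy hy'
  rwa [e.left_inv hx, e.left_inv hy'] at hy

theorem good_of_dif {g : W → ℝ} {x : W} (hg : ContMDiffAt 𝓘(ℝ, F) 𝓘(ℝ, ℝ) ∞ g x)
    (h : dif F ℝ g x ≠ 0) {T : Set W} (hT : T ∈ 𝓝 x) : Good g x T := by
  have hx := mem_chart_source F x
  have hx' := (chartAt F x).map_source hx
  have hl := (chartAt F x).left_inv hx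
  have s1 := chart_symm_smooth (E := F) x hx'
  have hg' : ContMDiffAt 𝓘(ℝ, F) 𝓘(ℝ, ℝ) ∞ g ((chartAt F x).symm (chartAt F x x)) := by
    rw [hl]
    exact hg
  refine Good.chart (chartAt F x) hx (good_of_fderiv
    ((contMDiffAt_iff_contDiffAt.1 (hg'.comp _ s1)).of_le (by simp)) (fun h0 => h ?_) ?_)
  · have h1 := dif_comp (hg'.mdifferentiableAt (by simp)) (s1.mdifferentiableAt (by simp))
    rw [dif_fderiv, hl] at h1
    ext v
    have h2 := congrArg (fun L : F →L[ℝ] ℝ => L v) (h1.symm.trans h0)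
    simpa [dif_chart_symm_self] using h2
  · refine inter_mem ((chartAt F x).open_target.mem_nhds hx')
      (((chartAt F x).continuousAt_symm hx').preimage_mem_nhds ?_)
    rw [hl]
    exact hT

end Pool.Agent.P.MP_49bf82_gt
end

-- part Pool.Agent.P.MP_49bf82_gt.CritA
section

open Manifold Set Filter Topology
open scoped ContDiff RealInnerProductSpace

namespace Pool.Agent.P.MP_49bf82_gt

open Pool.Agent.P.MP_e3ee0c_gt

variable {F : Type*} [NormedAddCommGroup F] [NormedSpace ℝ F] [FiniteDimensional ℝ F]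
  {W : Type*} [TopologicalSpace W] [ChartedSpace F W] [IsManifold 𝓘(ℝ, F) ∞ W]

variable {φ : R2 → W → W} {m : W → ℂ} {σ : W → F →L[ℝ] F →L[ℝ] ℝ}

theorem Ham.dif_pr (hH : Ham σ φ m) (hm : ContMDiff 𝓘(ℝ, F) 𝓘(ℝ, ℂ) ∞ m) (ξ : R2) :
    ContMDiff 𝓘(ℝ, F) 𝓘(ℝ, ℝ) ∞ (fun x => pr ξ (m x)) ∧
      ∀ x w, dif F ℝ (fun x => pr ξ (m x)) x w = -σ x (gen F φ ξ x) w := by
  refine ⟨(pr ξ).contMDiff.comp hm, fun x w => ?_⟩
  rw [dif_comp (E := F) (F := ℂ) (G := ℝ) (g := pr ξ) (f := m)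
    (((pr ξ).contMDiff (n := ∞)).mdifferentiableAt (by simp))
    (hm.mdifferentiableAt (by simp)), dif_fderiv, ContinuousLinearMap.fderiv]
  exact hH.ham x ξ w

/-- A linearised field vanishes along a line in the kernel. -/
theorem crita_kill {G : Type*} [NormedAddCommGroup G] [InnerProductSpace ℝ G]
    [FiniteDimensional ℝ G] {e : OpenPartialHomeomorph W G} {p : W} (he : SChart F e p)
    {X : W → F} {A : G →L[ℝ] G} (hl : ∀ x ∈ e.source, dif F G e x (X x) = A (e x)) {v : G}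
    (hv : A v = 0) : ∀ᶠ s in 𝓝 (0 : ℝ), X (e.symm (s • v)) = 0 := by
  have h0 : (0 : G) ∈ e.target := he.zero ▸ e.map_source he.mem
  have hc : Continuous fun s : ℝ => s • v := by fun_prop
  have ht : ∀ᶠ s in 𝓝 (0 : ℝ), s • v ∈ e.target :=
    hc.continuousAt.eventually_mem (e.open_target.mem_nhds (by simpa using h0))
  filter_upwards [ht] with s hs
  have h1 := he.symm_dif (e.map_target hs) (X (e.symm (s • v)))
  rw [hl _ (e.map_target hs), e.right_inv hs, map_smul, hv, smul_zero, map_zero] at h1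
  exact h1.symm

omit [FiniteDimensional ℝ F] [IsManifold 𝓘(ℝ, F) ∞ W] in
theorem crita_symm {G : Type*} [NormedAddCommGroup G] [InnerProductSpace ℝ G]
    {e : OpenPartialHomeomorph W G} {p : W} (he : SChart F e p) : e.symm 0 = p := by
  rw [← he.zero]
  exact e.left_inv he.mem

theorem crita_model {G : Type*} [NormedAddCommGroup G] [InnerProductSpace ℝ G]
    [FiniteDimensional ℝ G] (hH : Ham σ φ m) (hm : ContMDiff 𝓘(ℝ, F) 𝓘(ℝ, ℂ) ∞ m)
    {e : OpenPartialHomeomorph W G} {p : W} {A : R2 →L[ℝ] G →L[ℝ] G} (he : IsLin F φ p e A)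
    (ξ : R2) : Model (A ξ) (pull σ e) ((fun z => pr ξ (m z)) ∘ e.symm) :=
  he.chart.model hH.symplectic (hH.dif_pr hm ξ).1 (hH.dif_pr hm ξ).2 (he.skew ξ)
    fun x hx => he.gen x hx ξ

/-- At a critical point the component of the moment map has a local minimum or is good. -/
theorem Ham.crit_good [T2Space W] (hH : Ham σ φ m) (hφ : IsAction F φ)
    (hm : ContMDiff 𝓘(ℝ, F) 𝓘(ℝ, ℂ) ∞ m) {x : W} (hx : gen F φ theta x = 0) {T : Set W}
    (hT : T ∈ 𝓝 x) :
    IsLocalMin (fun z => pr theta (m z)) x ∨ Good (fun z => pr theta (m z)) x T := by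
  obtain ⟨n, e, A, he⟩ := hφ.bochner (hφ.fix_theta (hφ.fix_of_gen hx))
  have hM := crita_model hH hm he theta
  by_cases h0 : ∃ u, 0 < pull σ e 0 (A theta u) u
  · refine Or.inr (Good.chart e he.chart.mem ?_)
    rw [he.chart.zero]
    refine hM.good h0 ?_
    have h1 : (0 : EuclideanSpace ℝ (Fin n)) ∈ e.target := he.chart.zero ▸ e.map_source he.chart.mem
    refine inter_mem (e.open_target.mem_nhds h1) ((e.continuousAt_symm h1).preimage_mem_nhds ?_)
    rwa [crita_symm he.chart]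
  · refine Or.inl (isLocalMin_chart e he.chart.mem ?_)
    rw [he.chart.zero]
    exact hM.min fun u => not_lt.1 fun h => h0 ⟨u, h⟩

/-- A minimum on the set of points with infinite stabiliser is fixed by the torus. -/
theorem Ham.min_fixed [T2Space W] (hH : Ham σ φ m) (hφ : IsAction F φ)
    (hm : ContMDiff 𝓘(ℝ, F) 𝓘(ℝ, ℂ) ∞ m) {p : W} (hp : ∃ ξ, ξ ≠ 0 ∧ gen F φ ξ p = 0)
    (hmin : ∀ x, (∃ ξ, ξ ≠ 0 ∧ gen F φ ξ x = 0) → pr theta (m p) ≤ pr theta (m x)) :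
    gen F φ theta p = 0 := by
  by_contra hne
  obtain ⟨ξ, hξ, hp⟩ := hp
  obtain ⟨k, hk, hfix⟩ := hφ.fix_circle hξ (hφ.fix_of_gen hp)
  obtain ⟨hψ, hgen⟩ := hφ.circle k
  obtain ⟨n, e, A, he⟩ := hψ.bochner (p := p) fun t => hfix (t 0)
  have hl : ∀ x ∈ e.source, dif F (EuclideanSpace ℝ (Fin n)) e x (gen F φ (rv k) x) =
      A ![1, 0] (e x) := fun x hx => by rw [← hgen]; exact he.gen x hx _
  have hP := (he.chart.model hH.symplectic (hH.dif_pr hm (rv k)).1 (hH.dif_pr hm (rv k)).2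
    (he.skew ![1, 0]) hl).pair
  have hx0 : dif F (EuclideanSpace ℝ (Fin n)) e p (gen F φ theta p) ≠ 0 := by
    intro h
    have h1 := he.chart.symm_dif he.chart.mem (gen F φ theta p)
    rw [h, map_zero] at h1
    exact hne h1.symm
  have hA : A ![1, 0] (dif F (EuclideanSpace ℝ (Fin n)) e p (gen F φ theta p)) = 0 := by
    have g0 : φ ((0 : ℝ) • theta) p = p := by rw [zero_smul, hφ.zero]
    have h1 := hasDerivAt_comp_curve (g := e) (hφ.gen_curve theta p 0) (by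
      rw [g0]
      exact (he.chart.smooth p he.chart.mem).mdifferentiableAt (by simp))
    beta_reduce at h1
    rw [g0] at h1
    have h2 := (A ![1, 0]).hasFDerivAt.comp_hasDerivAt (0 : ℝ) h1
    have h3 : ∀ᶠ s in 𝓝 (0 : ℝ), φ (s • theta) p ∈ e.source :=
      (hφ.gen_curve theta p).continuous.continuousAt.eventually_mem
        (e.open_source.mem_nhds (by rw [g0]; exact he.chart.mem))
    refine h2.unique
      ((hasDerivAt_const (0 : ℝ) (0 : EuclideanSpace ℝ (Fin n))).congr_of_eventuallyEq ?_)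
    filter_upwards [h3] with s hs
    show A ![1, 0] (e (φ (s • theta) p)) = 0
    rw [← hl _ hs, ← hφ.gen_inv (rv k) (s • theta) p, hφ.gen_of_fix hfix, map_zero, map_zero]
  obtain ⟨v, hv, hB⟩ := hP.ker_pair hA hx0
  have h1 := he.chart.hasFDerivAt he.chart.mem
    ((hH.dif_pr hm theta).1.mdifferentiableAt (by simp)) ((hH.dif_pr hm theta).2 p)
  rw [he.chart.zero] at h1
  have h2 : HasDerivAt (fun s : ℝ => s • v) v 0 := by
    simpa using (hasDerivAt_id (0 : ℝ)).smul_const v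
  have h3 := HasFDerivAt.comp_hasDerivAt_of_eq (0 : ℝ) h1 h2 (zero_smul ℝ v).symm
  refine hB (neg_eq_zero.1 (IsLocalMin.hasDerivAt_eq_zero ?_ h3))
  filter_upwards [crita_kill he.chart hl hv] with s hs
  show pr theta (m (e.symm ((0 : ℝ) • v))) ≤ pr theta (m (e.symm (s • v)))
  rw [zero_smul, crita_symm he.chart]
  exact hmin _ ⟨rv k, hk, hs⟩

/-- and is a local minimum. -/
theorem Ham.min_local [T2Space W] (hH : Ham σ φ m) (hφ : IsAction F φ)
    (hm : ContMDiff 𝓘(ℝ, F) 𝓘(ℝ, ℂ) ∞ m) {p : W} (hp : gen F φ theta p = 0)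
    (hmin : ∀ x, (∃ ξ, ξ ≠ 0 ∧ gen F φ ξ x = 0) → pr theta (m p) ≤ pr theta (m x)) :
    IsLocalMin (fun z => pr theta (m z)) p := by
  obtain ⟨n, e, A, he⟩ := hφ.bochner (hφ.fix_theta (hφ.fix_of_gen hp))
  have hM := crita_model hH hm he
  refine isLocalMin_chart e he.chart.mem ?_
  rw [he.chart.zero]
  refine (hM theta).min fun u => not_lt.1 fun h => ?_
  obtain ⟨v, ξ, hξ, hv, h0⟩ := exists_common (fun ξ => (hM ξ).pair) he.comm (θ := theta)
    (by simp [theta]) ⟨u, h⟩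
  obtain ⟨s, h1, h2⟩ := (((hM theta).neg_dir h0).and
    ((crita_kill he.chart (fun x hx => he.gen x hx ξ) hv).filter_mono nhdsWithin_le_nhds)).exists
  refine absurd h1 (not_lt.2 ?_)
  show pr theta (m (e.symm 0)) ≤ pr theta (m (e.symm (s • v)))
  rw [crita_symm he.chart]
  exact hmin _ ⟨ξ, hξ, h2⟩

end Pool.Agent.P.MP_49bf82_gt
end

-- part Pool.Agent.P.MP_49bf82_gt.Top
section

open Manifold Set Filter Topology
open scoped ContDiff RealInnerProductSpace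

namespace Pool.Agent.P.MP_49bf82_gt

open Pool.Agent.P.MP_e3ee0c_gt

theorem top_link {X : Type*} [TopologicalSpace X] [LocallyConnectedSpace X] {g : X → ℝ}
    (hg : Continuous g) {A : Set X} (hA : IsPreconnected A) {I : Set ℝ}
    (hI : ∀ a ∈ I, ∀ b ∈ I, max a b ∈ I) (h : ∀ x ∈ A, ∃ c ∈ I, g x < c) {p q : X} (hp : p ∈ A)
    (hq : q ∈ A) : ∃ c ∈ I, q ∈ connectedComponentIn {y | g y < c} p := by
  refine hA.induction₂' (fun x y => ∃ c ∈ I, y ∈ connectedComponentIn {y | g y < c} x)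
    (fun x hx => ?_) ?_ hp hq
  · obtain ⟨c, hc, hx'⟩ := h x hx
    have o : IsOpen (connectedComponentIn {y | g y < c} x) :=
      (isOpen_lt hg continuous_const).connectedComponentIn
    have m : x ∈ connectedComponentIn {y | g y < c} x := mem_connectedComponentIn hx'
    filter_upwards [mem_nhdsWithin_of_mem_nhds (o.mem_nhds m)] with y hy
    exact ⟨⟨c, hc, hy⟩, c, hc, connectedComponentIn_eq hy ▸ m⟩
  · rintro x y z - - - ⟨a, ha, h1⟩ ⟨b, hb, h2⟩
    have k1 := connectedComponentIn_mono x (F := {y | g y < a}) (G := {y | g y < max a b})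
      (fun w (hw : g w < a) => hw.trans_le (le_max_left a b)) h1
    have k2 := connectedComponentIn_mono y (F := {y | g y < b}) (G := {y | g y < max a b})
      (fun w (hw : g w < b) => hw.trans_le (le_max_right a b)) h2
    exact ⟨max a b, hI a ha b hb, connectedComponentIn_eq k1 ▸ k2⟩

theorem top_not_min {X : Type*} [TopologicalSpace X] {g : X → ℝ} {A : Set X} {x : X}
    (hA : ∀ y ∈ A, g y < g x) (hx : x ∈ closure A) : ¬ IsLocalMin g x := fun h => by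
  obtain ⟨y, h1, h2⟩ := mem_closure_iff_nhds.1 hx _ h
  exact absurd (hA y h2) (not_lt.2 h1)

/-- Mountain pass: a proper function that is good at every point above the level of a local
minimum which is not a local minimum has no smaller value. -/
theorem pass {X : Type*} [TopologicalSpace X] [T2Space X] [ConnectedSpace X]
    [LocallyConnectedSpace X] {g : X → ℝ} (hg : Continuous g) (hc : ∀ c, IsCompact {x | g x ≤ c})
    {p q : X} (hq : g q < g p) (hp : IsLocalMin g p)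
    (hloc : ∀ x, g p ≤ g x → IsLocalMin g x ∨ Good g x univ) : False := by
  let S : Set ℝ := {c | q ∈ connectedComponentIn {y | g y < c} p}
  have Sn : S.Nonempty := by
    obtain ⟨c, -, h⟩ := top_link hg isPreconnected_univ (I := univ) (fun _ _ _ _ => mem_univ _)
      (fun x _ => ⟨g x + 1, mem_univ _, lt_add_one _⟩) (mem_univ p) (mem_univ q)
    exact ⟨c, h⟩
  have Sb : g p ∈ lowerBounds S := fun c h =>
    le_of_lt (connectedComponentIn_nonempty_iff.1 ⟨q, h⟩ : p ∈ {y | g y < c})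
  obtain ⟨m, m1, m2, m3⟩ : ∃ m, g p ≤ m ∧ (∀ c ∈ S, m ≤ c) ∧ ∀ c, m < c → c ∈ S := by
    refine ⟨sInf S, le_csInf Sn Sb, fun c h => csInf_le ⟨_, Sb⟩ h, fun c h => ?_⟩
    obtain ⟨a, ha, hac⟩ := exists_lt_of_csInf_lt Sn h
    exact connectedComponentIn_mono p (fun w hw => lt_trans hw hac) ha
  have oO : IsOpen {y | g y < m} := isOpen_lt hg continuous_const
  have cl : IsClosed {y | g y ≤ m} := isClosed_le hg continuous_const
  set A := connectedComponentIn {y | g y < m} q with hAd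
  have As : A ⊆ {y | g y < m} := connectedComponentIn_subset _ _
  have qA : q ∈ A := mem_connectedComponentIn (hq.trans_le m1)
  have Ds : closure A ⊆ {y | g y ≤ m} :=
    closure_minimal (fun y hy => show g y ≤ m from le_of_lt (As hy)) cl
  have grab : ∀ B : Set X, IsPreconnected B → B ⊆ {y | g y < m} → (B ∩ A).Nonempty → B ⊆ A := by
    rintro B h1 h2 ⟨y, y1, y2⟩
    rw [hAd, connectedComponentIn_eq y2]
    exact h1.subset_connectedComponentIn y1 h2
  have low : ∀ x ∈ closure A, g x < m → x ∈ A := fun x hx h => by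
    have k : x ∈ connectedComponentIn {y | g y < m} x := mem_connectedComponentIn h
    exact grab _ isPreconnected_connectedComponentIn (connectedComponentIn_subset _ _)
      (mem_closure_iff.1 hx _ oO.connectedComponentIn k) k
  have rel : ∀ x ∈ closure A, ∃ U, IsOpen U ∧ x ∈ U ∧ U ∩ {y | g y ≤ m} ⊆ closure A := by
    intro x hx
    rcases lt_or_eq_of_le (show g x ≤ m from Ds hx) with h | h
    · exact ⟨A, oO.connectedComponentIn, low x hx h, fun y hy => subset_closure hy.1⟩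
    · obtain ⟨U, u1, u2, -, u3, u4⟩ := (hloc x (h ▸ m1)).resolve_left
        (top_not_min (fun y hy => h ▸ As hy) hx)
      rw [h] at u3 u4
      obtain ⟨y, y1, y2⟩ := mem_closure_iff.1 hx U u1 u2
      have k := grab _ u3 inter_subset_right ⟨y, ⟨y1, As y2⟩, y2⟩
      refine ⟨U, u1, u2, fun z hz => ?_⟩
      rcases lt_or_eq_of_le (show g z ≤ m from hz.2) with e | e
      · exact subset_closure (k ⟨hz.1, e⟩)
      · exact closure_mono k (u4 ⟨hz.1, e⟩)
  have pD : p ∉ closure A := fun hx => by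
    rcases lt_or_eq_of_le m1 with h | h
    · obtain ⟨c, c1, c2⟩ := top_link hg (A := A) isPreconnected_connectedComponentIn (I := Iio m)
        (fun a ha b hb => mem_Iio.2 (max_lt ha hb)) (fun x hx => (exists_between (As hx)).imp
          fun c k => ⟨k.2, k.1⟩) (low p hx h) qA
      exact absurd (m2 c c2) (not_le.2 c1)
    · exact top_not_min (fun y hy => h ▸ As hy) hx hp
  have c2 : IsClosed ({y | g y ≤ m} \ closure A) := by
    rw [← isOpen_compl_iff, isOpen_iff_forall_mem_open]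
    intro x hx
    by_cases h : x ∈ closure A
    · obtain ⟨U, u1, u2, u3⟩ := rel x h
      exact ⟨U, fun y hy k => k.2 (u3 ⟨hy, k.1⟩), u1, u2⟩
    · exact ⟨{y | g y ≤ m}ᶜ, fun y hy k => hy k.1, cl.isOpen_compl, fun k => hx ⟨k, h⟩⟩
  obtain ⟨u, v, uo, vo, h1, h2, huv⟩ := SeparatedNhds.of_isCompact_isCompact
    ((hc m).of_isClosed_subset isClosed_closure Ds) ((hc m).of_isClosed_subset c2 sdiff_subset)
    disjoint_sdiff_right
  obtain ⟨a, a1, a2⟩ := ((hc (m + 1)).diff (uo.union vo)).exists_forall_le' (a := m)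
    hg.continuousOn fun x hx => lt_of_not_ge fun k => hx.2 (by
      by_cases h : x ∈ closure A
      · exact Or.inl (h1 h)
      · exact Or.inr (h2 ⟨k, h⟩))
  have hm : m < min a (m + 1) := lt_min a1 (lt_add_one m)
  have sub : connectedComponentIn {y | g y < min a (m + 1)} p ⊆ u ∪ v := fun x hx => by
    have k : g x < min a (m + 1) :=
      connectedComponentIn_subset {y | g y < min a (m + 1)} p hx
    by_contra n
    exact absurd (a2 x ⟨(k.trans_le (min_le_right _ _)).le, n⟩)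
      (not_le.2 (k.trans_le (min_le_left _ _)))
  have := isPreconnected_connectedComponentIn.subset_left_of_subset_union uo vo huv sub
    ⟨q, m3 _ hm, h1 (subset_closure qA)⟩ (mem_connectedComponentIn (m1.trans_lt hm))
  exact disjoint_left.1 huv this (h2 ⟨m1, pD⟩)

end Pool.Agent.P.MP_49bf82_gt
end

-- part Pool.Agent.P.MP_49bf82_gt.CritB
section

open Manifold Set Filter Topology
open scoped ContDiff RealInnerProductSpace

namespace Pool.Agent.P.MP_49bf82_gt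

open Pool.Agent.P.MP_e3ee0c_gt

variable {E F : Type*} [NormedAddCommGroup E] [NormedSpace ℝ E] [FiniteDimensional ℝ E]
  [NormedAddCommGroup F] [NormedSpace ℝ F] [FiniteDimensional ℝ F]
  {V W : Type*} [TopologicalSpace V] [ChartedSpace E V] [IsManifold 𝓘(ℝ, E) ∞ V]
  [TopologicalSpace W] [ChartedSpace F W] [IsManifold 𝓘(ℝ, F) ∞ W]
  {Φ : V → ℂ} {ι : ℝ × V × R2 → W} {φ : R2 → W → W} {m : W → ℂ} {h : W → ℝ}
  {f : ℝ → V → V} {a : ℝ × V → ℝ} {σ : W → F →L[ℝ] F →L[ℝ] ℝ}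

theorem critb_k : ∃ k k' : ℝ → ℝ, ContDiff ℝ ∞ k ∧ (∀ x, HasDerivAt k (k' x) x) ∧
    (∀ x ≤ 0, k x = 0) ∧ (∀ x ≥ 1, k x = x ^ 2) ∧ (∀ x, k x ≤ x ^ 2) ∧ (∀ x ≥ 0, 0 ≤ k' x) ∧
    ∀ x ≥ 1, 2 * x ≤ k' x := by
  have hs : ContDiff ℝ ∞ Real.smoothTransition := Real.smoothTransition.contDiff
  have hd : ∀ x, 0 ≤ deriv Real.smoothTransition x := fun x =>
    Real.smoothTransition.monotone.deriv_nonneg
  refine ⟨fun x => x ^ 2 * Real.smoothTransition x,
    fun x => 2 * x * Real.smoothTransition x + x ^ 2 * deriv Real.smoothTransition x,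
    (contDiff_id.pow 2).mul hs, fun x => ?_, fun x hx => ?_, fun x hx => ?_, fun x => ?_,
    fun x hx => ?_, fun x hx => ?_⟩
  · have h1 : HasDerivAt (fun x : ℝ => x ^ 2) (2 * x) x := by simpa using hasDerivAt_pow 2 x
    exact h1.mul (hs.differentiable (by simp) x).hasDerivAt
  · simp [Real.smoothTransition.zero_of_nonpos hx]
  · simp [Real.smoothTransition.one_of_one_le hx]
  · exact mul_le_of_le_one_right (sq_nonneg x) (Real.smoothTransition.le_one x)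
  · have := Real.smoothTransition.nonneg x
    have := hd x
    positivity
  · have := mul_nonneg (sq_nonneg x) (hd x)
    simp only [Real.smoothTransition.one_of_one_le hx]
    linarith

omit [FiniteDimensional ℝ F] [IsManifold 𝓘(ℝ, F) ∞ W] in
theorem critb_pr (hm : ContMDiff 𝓘(ℝ, F) 𝓘(ℝ, ℂ) ∞ m) (ξ : R2) :
    ContMDiff 𝓘(ℝ, F) 𝓘(ℝ, ℝ) ∞ (fun x => pr ξ (m x)) ∧
      ∀ x w, dif F ℝ (fun x => pr ξ (m x)) x w = pr ξ (dif F ℂ m x w) := by
  refine ⟨(pr ξ).contDiff.contMDiff.comp hm, fun x w => ?_⟩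
  rw [dif_comp (g := pr ξ) (pr ξ).differentiableAt.mdifferentiableAt
    (hm.mdifferentiableAt (by simp)), dif_fderiv, ContinuousLinearMap.fderiv]
  rfl

theorem critb_pr_mul (ξ : R2) (r : ℝ) (z : ℂ) : pr ξ ((r : ℂ) * z) = r * pr ξ z := by
  rw [← Complex.real_smul, map_smul, smul_eq_mul]

theorem critb_pr_end (hc : Core E F Φ ι φ m) {y : ℝ × V × R2} (hy : 0 < y.1) (b : ℝ × E × R2) :
    pr theta (dif F ℂ m (ι y) (dEnd E F ι y b)) = Real.exp y.1 *
      (b.1 * pr theta (Φ y.2.1) + dif E ℝ (fun v => pr theta (Φ v)) y.2.1 b.2.1) := by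
  rw [hc.dif_m hy, critb_pr_mul, map_add, critb_pr_mul, (critb_pr hc.smoothV theta).2]

theorem critb_gap [CompactSpace V] (hc : Core E F Φ ι φ m) (hH : Ham σ φ m) :
    ∃ δ > 0, ∀ v, dif E ℝ (fun v => pr theta (Φ v)) v = 0 → δ ≤ |pr theta (Φ v)| := by
  refine exists_gap (critb_pr hc.smoothV theta).1 fun v hv h0 => ?_
  have hy : (0 : ℝ) < ((1, v, 0) : ℝ × V × R2).1 := one_pos
  obtain ⟨w, hw⟩ := hH.surjective_end hc.isEnd _ hy 1
  obtain ⟨b, rfl⟩ := (hc.isEnd.bijective hy).2 w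
  have := critb_pr_end hc hy b
  rw [hw, hv, h0] at this
  simp [pr_apply, theta] at this

omit [FiniteDimensional ℝ F] [IsManifold 𝓘(ℝ, F) ∞ W] in
theorem critb_dif {G : W → ℝ} (hG : ContMDiff 𝓘(ℝ, F) 𝓘(ℝ, ℝ) ∞ G)
    (hh : ContMDiff 𝓘(ℝ, F) 𝓘(ℝ, ℝ) ∞ h) {k : ℝ → ℝ} {d R : ℝ} {x : W}
    (hk : HasDerivAt k d (Real.exp (h x) - R)) (w : F) :
    dif F ℝ (fun z => G z + k (Real.exp (h z) - R)) x w =
      dif F ℝ G x w + d * Real.exp (h x) * dif F ℝ h x w := by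
  have h1 : HasDerivAt (fun s => k (Real.exp s - R)) (d * Real.exp (h x)) (h x) :=
    HasDerivAt.comp (h := fun s => Real.exp s - R) (h x) hk
      ((Real.hasDerivAt_exp (h x)).sub_const R)
  have h2 := h1.hasFDerivAt.hasMFDerivAt.comp x (hasMF_dif (hh.mdifferentiableAt (by simp)))
  have h3 := (hasMF_dif (hG.mdifferentiableAt (x := x) (by simp))).add h2
  have h4 : dif F ℝ (fun z => G z + k (Real.exp (h z) - R)) x = _ := h3.mfderiv
  rw [h4]
  show dif F ℝ G x w + dif F ℝ h x w • (d * Real.exp (h x)) = _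
  rw [smul_eq_mul]
  ring

/-- A proper modification of the component of the moment map: equal to it below the height
log R, with critical values above that height at most c. -/
theorem Core.exists_proper [CompactSpace V] (hc : Core E F Φ ι φ m) (hH : Ham σ φ m)
    (hh : IsHeight F ι φ h) (c : ℝ) : ∃ R₀, ∀ R ≥ R₀, ∃ g : W → ℝ,
      ContMDiff 𝓘(ℝ, F) 𝓘(ℝ, ℝ) ∞ g ∧ (∀ b, IsCompact {x | g x ≤ b}) ∧
      (∀ x, h x ≤ Real.log R → g x = pr theta (m x)) ∧
      ∀ x, 3 ≤ h x → dif F ℝ g x = 0 → Real.log R ≤ h x → g x < c := by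
  obtain ⟨k, k', hk, hk', k0, k1, kle, kpos, kbig⟩ := critb_k
  obtain ⟨δ, hδ, hgap⟩ := critb_gap hc hH
  obtain ⟨M₀, hM₀⟩ := isCompact_univ.exists_bound_of_continuousOn
    (critb_pr hc.smoothV theta).1.continuous.continuousOn
  obtain ⟨M, hM0, hM⟩ : ∃ M, 0 ≤ M ∧ ∀ v, -M ≤ pr theta (Φ v) :=
    ⟨max M₀ 0, le_max_right _ _, fun v => by
      have := abs_le.1 ((hM₀ v trivial).trans (le_max_left M₀ 0))
      exact this.1⟩
  have hG := (critb_pr hc.smooth theta).1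
  refine ⟨max 1 (((1 + M) ^ 2 - c) / δ + 1), fun R hR => ?_⟩
  have hR1 : 1 ≤ R := (le_max_left _ _).trans hR
  have hR2 : (1 + M) ^ 2 - c < R * δ := by
    have : ((1 + M) ^ 2 - c) / δ < R := by linarith [(le_max_right _ _).trans hR]
    exact (div_lt_iff₀ hδ).1 this
  have hsm : ContMDiff 𝓘(ℝ, F) 𝓘(ℝ, ℝ) ∞ fun x => pr theta (m x) + k (Real.exp (h x) - R) :=
    hG.add ((hk.comp (Real.contDiff_exp.sub contDiff_const)).contMDiff.comp hh.smooth)
  have hval : ∀ y : ℝ × V × R2, 2 ≤ y.1 →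
      pr theta (m (ι y)) = Real.exp y.1 * pr theta (Φ y.2.1) := fun y hy => by
    rw [hc.onEnd y (by linarith), critb_pr_mul]
  refine ⟨fun x => pr theta (m x) + k (Real.exp (h x) - R), hsm, fun b => ?_, fun x hx => ?_,
    fun x h3 hx hl => ?_⟩
  · refine (hh.compact (max 2 (R + (M + |b| + M * R + 1)))).of_isClosed_subset
      (isClosed_le hsm.continuous continuous_const) fun x hx => ?_
    by_contra hn
    have hn' : max 2 (R + (M + |b| + M * R + 1)) < h x := not_le.1 hn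
    obtain ⟨y, hy, rfl⟩ := hh.big x ((le_max_left _ _).trans hn'.le)
    have hx' : pr theta (m (ι y)) + k (Real.exp (h (ι y)) - R) ≤ b := hx
    have h2 := (le_max_right _ _).trans_lt hn'
    rw [hh.onEnd y hy] at hx' h2
    have h3 := Real.add_one_le_exp y.1
    have h4 := abs_nonneg b
    have h5 := le_abs_self b
    have h6 : 0 ≤ M * R := by positivity
    have h7 := hM y.2.1
    rw [hval y hy, k1 _ (by linarith)] at hx'
    obtain ⟨t, ht⟩ : ∃ t, Real.exp y.1 = t + R := ⟨Real.exp y.1 - R, by ring⟩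
    rw [ht] at hx' h3
    have h8 : M + |b| + M * R + 1 < t := by linarith
    have h9 : -M * (t + R) ≤ (t + R) * pr theta (Φ y.2.1) := by nlinarith
    nlinarith
  · have : Real.exp (h x) ≤ R := by
      rw [← Real.exp_log (by linarith : 0 < R)]
      exact Real.exp_le_exp.2 hx
    simp only [k0 _ (by linarith : Real.exp (h x) - R ≤ 0), add_zero]
  · obtain ⟨y, hy, rfl⟩ := hh.big x (by linarith)
    have hR3 : R ≤ Real.exp (h (ι y)) := by
      rw [← Real.exp_log (by linarith : 0 < R)]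
      exact Real.exp_le_exp.2 hl
    have key : ∀ b : ℝ × E × R2, b.1 * pr theta (Φ y.2.1) +
        dif E ℝ (fun v => pr theta (Φ v)) y.2.1 b.2.1 + k' (Real.exp y.1 - R) * b.1 = 0 := by
      intro b
      have h1 := critb_dif hG hh.smooth (hk' (Real.exp (h (ι y)) - R)) (dEnd E F ι y b)
      rw [hx, (critb_pr hc.smooth theta).2, critb_pr_end hc (by linarith),
        hh.dif_h hc.isEnd (by rw [hh.onEnd y hy] at h3; linarith), hh.onEnd y hy] at h1
      have h2 : Real.exp y.1 * (b.1 * pr theta (Φ y.2.1) +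
          dif E ℝ (fun v => pr theta (Φ v)) y.2.1 b.2.1 + k' (Real.exp y.1 - R) * b.1) = 0 := by
        have h0 : (0 : F →L[ℝ] ℝ) (dEnd E F ι y b) = 0 := rfl
        linarith
      exact (mul_eq_zero.1 h2).resolve_left (Real.exp_pos _).ne'
    have e1 : pr theta (Φ y.2.1) = -k' (Real.exp y.1 - R) := by
      have := key (1, 0, 0)
      simp only [map_zero] at this
      linarith
    have e2 : dif E ℝ (fun v => pr theta (Φ v)) y.2.1 = 0 := by
      ext η
      simpa using key (0, η, 0)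
    show pr theta (m (ι y)) + k (Real.exp (h (ι y)) - R) < c
    rw [hh.onEnd y hy] at hR3 ⊢
    rw [hval y hy]
    obtain ⟨t, ht⟩ : ∃ t, Real.exp y.1 = t + R := ⟨Real.exp y.1 - R, by ring⟩
    rw [ht] at hR3 e1 ⊢
    rw [add_sub_cancel_right] at e1 ⊢
    have ht0 : 0 ≤ t := by linarith
    have e3 := kpos t ht0
    have e4 := hgap _ e2
    rw [abs_of_nonpos (by linarith)] at e4
    have e5 : t ≤ 1 + M := by
      by_contra hn
      have := kbig t (by linarith)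
      have := hM y.2.1
      linarith
    have e6 : k t ≤ (1 + M) ^ 2 := (kle t).trans (by gcongr)
    nlinarith

/-- The moment map is a submersion. -/
theorem Core.surjective [CompactSpace V] [T2Space W] [ConnectedSpace W] (hc : Core E F Φ ι φ m)
    (hH : Ham σ φ m) (hh : IsHeight F ι φ h) (hneg : ∃ v, pr theta (Φ v) < 0) (x : W) :
    Function.Surjective (dif F ℂ m x) := by
  by_contra hx
  obtain ⟨v, hv⟩ := hneg
  have hG := hH.dif_pr hc.smooth theta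
  have hZ : IsCompact {x | ¬ Function.Surjective (dif F ℂ m x)} := by
    refine (hh.compact 2).of_isClosed_subset (isOpen_surjective hc.smooth).isClosed_compl
      fun z hz => ?_
    by_contra hn
    obtain ⟨y, hy, rfl⟩ := hh.big z (not_le.1 hn).le
    exact hz (hH.surjective_end hc.isEnd y (by linarith))
  obtain ⟨p, hp, hmin⟩ := hZ.exists_isMinOn ⟨x, hx⟩ hG.1.continuous.continuousOn
  have hiff : ∀ z, ¬ Function.Surjective (dif F ℂ m z) ↔ ∃ ξ, ξ ≠ 0 ∧ gen F φ ξ z = 0 := by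
    intro z
    rw [hH.surjective_iff]
    push Not
    exact ⟨fun ⟨ξ, a, b⟩ => ⟨ξ, b, a⟩, fun ⟨ξ, a, b⟩ => ⟨ξ, b, a⟩⟩
  have hmin' : ∀ z, (∃ ξ, ξ ≠ 0 ∧ gen F φ ξ z = 0) → pr theta (m p) ≤ pr theta (m z) :=
    fun z hz => hmin ((hiff z).2 hz)
  have hloc := hH.min_local hc.action hc.smooth
    (hH.min_fixed hc.action hc.smooth ((hiff p).1 hp) hmin') hmin'
  have hp2 : h p < 2 := by
    by_contra hn
    obtain ⟨y, hy, rfl⟩ := hh.big p (not_lt.1 hn)
    exact hp (hH.surjective_end hc.isEnd y (by linarith))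
  obtain ⟨R₀, hR₀⟩ := hc.exists_proper hH hh (pr theta (m p))
  obtain ⟨R, hR1, hR2, hR3⟩ : ∃ R, R₀ ≤ R ∧ Real.exp 3 ≤ R ∧
      R * pr theta (Φ v) < pr theta (m p) := by
    refine ⟨max (max R₀ (Real.exp 3)) (pr theta (m p) / pr theta (Φ v) + 1),
      (le_max_left _ _).trans (le_max_left _ _), (le_max_right _ _).trans (le_max_left _ _), ?_⟩
    rw [← div_lt_iff_of_neg hv]
    exact (lt_add_one _).trans_le (le_max_right _ _)
  have hR0 : 0 < R := (Real.exp_pos 3).trans_le hR2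
  have hl : 3 ≤ Real.log R := (Real.le_log_iff_exp_le hR0).2 hR2
  obtain ⟨g, hg, hgc, hge, hgx⟩ := hR₀ R hR1
  have hT : IsOpen {z | h z < Real.log R} := isOpen_lt hh.smooth.continuous continuous_const
  have hev : ∀ z, h z < Real.log R → (fun z => pr theta (m z)) =ᶠ[𝓝 z] g := fun z hz => by
    filter_upwards [hT.mem_nhds hz] with w hw
    exact (hge w (le_of_lt hw)).symm
  have hgp : g p = pr theta (m p) := hge p (by linarith)
  have : LocallyConnectedSpace W := ChartedSpace.locallyConnectedSpace F W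
  refine pass (q := ι (Real.log R, v, 0)) hg.continuous hgc ?_
    (hloc.congr (hev p (by linarith))) fun z hz => ?_
  · rw [hgp, hge _ (hh.onEnd (Real.log R, v, 0) (by simp only; linarith)).le,
      hc.onEnd _ (by simp only; linarith), critb_pr_mul, Real.exp_log hR0]
    exact hR3
  · by_cases hd : dif F ℝ g z = 0
    · by_cases hz' : h z < Real.log R
      · have h0 : gen F φ theta z = 0 := by
          refine hH.symplectic.nondeg z _ fun w => ?_
          have := hG.2 z w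
          rw [dif_congr (hev z hz'), hd] at this
          simpa using this
        rcases hH.crit_good hc.action hc.smooth h0 (hT.mem_nhds hz') with h1 | h1
        · exact Or.inl (h1.congr (hev z hz'))
        · exact Or.inr (h1.congr fun w hw => (hge w (le_of_lt hw)).symm)
      · have := hgx z (by linarith) hd (not_lt.1 hz')
        linarith
    · exact Or.inr (good_of_dif (hg z) hd univ_mem)

end Pool.Agent.P.MP_49bf82_gt
end

-- part Pool.Agent.P.MP_49bf82_gt.SMain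
section

open Manifold Set Filter Topology
open scoped ContDiff

namespace Pool.Agent.P.MP_49bf82_gt

open Pool.Agent.P.MP_e3ee0c_gt

variable {E F : Type*} [NormedAddCommGroup E] [NormedSpace ℝ E] [FiniteDimensional ℝ E]
  [NormedAddCommGroup F] [NormedSpace ℝ F] [FiniteDimensional ℝ F]
  {V W : Type*} [TopologicalSpace V] [ChartedSpace E V] [IsManifold 𝓘(ℝ, E) ∞ V]
  [TopologicalSpace W] [ChartedSpace F W] [IsManifold 𝓘(ℝ, F) ∞ W]
  {Φ : V → ℂ} {ι : ℝ × V × R2 → W} {φ : R2 → W → W} {m : W → ℂ} {h : W → ℝ}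
  {σ : W → F →L[ℝ] F →L[ℝ] ℝ} {α : V → E →L[ℝ] ℝ} {p : W → V} {f : ℝ → V → V}

theorem desc_pages (hc : Core E F Φ ι φ m) (hh : IsHeight F ι φ h) (hp : IsProj E F ι p)
    (hf : OnEnd F α Φ σ ι) (hα : ∀ v, Sm α v) {G G' : ℝ → W → W} (hG : Isotopy F φ m G G') {R : ℝ}
    (hR : 0 < R) (hR₁ : ∀ x, ‖m x‖ = R → 3 < h x)
    (hR₂ : ∀ v, Φ v ≠ 0 → 3 < Real.log (R / ‖Φ v‖))
    (hk : ∀ τ x, ‖m x‖ ≤ R → PK σ m (G τ) x) (τ : ℝ) : PageSymplectic α Φ (descG Φ ι R p G τ) := by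
  intro v hv a b ha hb
  have hn : ‖Φ v‖ ≠ 0 := norm_ne_zero_iff.2 hv
  have ev : ∀ᶠ w in 𝓝 v, Φ w ≠ 0 := hc.smoothV.continuous.continuousAt.eventually_ne hv
  have j1 := (desc_j_smooth hc hR hR₂ hv).mdifferentiableAt (by simp)
  have p0 : 0 < ((Real.log (R / ‖Φ v‖), v, 0) : ℝ × V × R2).1 := by
    simp only
    linarith [hR₂ v hv]
  have m1 := (desc_m hc hR hR₂ hv).2
  have g1 : DifferentiableAt ℝ (fun z : ℂ => ((R / ‖z‖ : ℝ) : ℂ) * z) (Φ v) :=
    (Complex.ofRealCLM.differentiableAt.comp _ ((contDiffAt_const.div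
      (contDiffAt_norm ℝ (n := 1) hv) hn).differentiableAt (by simp))).mul differentiableAt_id
  have k0 : ∀ u, PageTangent Φ v u → dif F ℂ m (descJ Φ ι R v) (dif E F (descJ Φ ι R) v u) = 0 := by
    rintro u ⟨c, hu⟩
    have a1 := dif_comp (g := m) (hc.smooth.mdifferentiableAt (by simp)) j1
    rw [dif_congr (g := fun w => ((R / ‖Φ w‖ : ℝ) : ℂ) * Φ w)
      (ev.mono fun w hw => (desc_m hc hR hR₂ hw).1),
      dif_comp (g := fun z : ℂ => ((R / ‖z‖ : ℝ) : ℂ) * z) g1.mdifferentiableAt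
        (hc.smoothV.mdifferentiableAt (by simp))] at a1
    have a2 := congrArg (fun L : E →L[ℝ] ℂ => L u) a1
    simp only [ContinuousLinearMap.comp_apply, hu, dif_fderiv] at a2
    rw [← a2, ray_deriv g1 c (hasDerivAt_const _ (((R / ‖Φ v‖ : ℝ) : ℂ) * Φ v)) fun t ht => ?_,
      smul_zero]
    have : (t : ℂ) ≠ 0 := Complex.ofReal_ne_zero.2 ht.ne'
    rw [norm_mul, Complex.norm_real, Real.norm_of_nonneg ht.le]
    push_cast
    field_simp
  have k1 : ∀ u, dif F E p (descJ Φ ι R v) (dif E F (descJ Φ ι R) v u) = u := fun u => by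
    have a1 := dif_comp (g := p) (f := descJ Φ ι R) ((hp _ p0).2.mdifferentiableAt (by simp)) j1
    rw [dif_congr (f := fun w => p (descJ Φ ι R w)) (g := fun w => w) (ev.mono fun w hw => (hp (Real.log (R / ‖Φ w‖), w, 0)
      (by simp only; linarith [hR₂ w hw])).1)] at a1
    exact (congrArg (fun L : E →L[ℝ] E => L u) a1).symm.trans (dif_id' (fun _ => rfl) v u)
  obtain ⟨⟨y, hy, ey⟩, -⟩ := desc_key hc hh hG hR hR₁ hR₂ (fun y hy => (hp y hy).1) τ hv
  have pk := hk τ _ m1.le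
  have k2 : ∀ u, dif E E (descG Φ ι R p G τ) v u = dif F E p (G τ (descJ Φ ι R v))
      (dif F F (G τ) (descJ Φ ι R v) (dif E F (descJ Φ ι R) v u)) := fun u => by
    rw [dif_congr (g := fun w => p (G τ (descJ Φ ι R w))) (ev.mono fun w hw => by simp [descG, hw]),
      dif_comp (g := p) (f := fun w => G τ (descJ Φ ι R w))
        (by rw [← ey]; exact (hp y hy).2.mdifferentiableAt (by simp)) (pk.md.comp v j1),
      dif_comp pk.md j1]
    rfl
  have s1 : σ (descJ Φ ι R v) _ _ = ‖m (descJ Φ ι R v)‖ * pageForm α Φ (p (descJ Φ ι R v))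
      (dif F E p (descJ Φ ι R v) _) (dif F E p (descJ Φ ι R v) _) :=
    sigma_ker hc hp hf hα p0 (norm_pos_iff.1 (hR.trans_eq m1.symm)) (k0 a ha) (k0 b hb)
  have s2 := sigma_ker hc hp hf hα hy (norm_pos_iff.1 (by rw [ey, hG.pres, m1]; exact hR))
    (by rw [ey]; exact pk.ker _ (k0 a ha)) (by rw [ey]; exact pk.ker _ (k0 b hb))
  rw [ey, pk.form _ _ (k0 a ha) (k0 b hb), s1, hG.pres, m1, k1, k1, ← k2, ← k2,
    show p (descJ Φ ι R v) = v from (hp _ p0).1] at s2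
  rw [show descG Φ ι R p G τ v = p (G τ (descJ Φ ι R v)) by simp [descG, hv]]
  exact (mul_left_cancel₀ hR.ne' s2).symm

theorem main_symplectic [CompactSpace V] [ConnectedSpace V] [T2Space W] [ConnectedSpace W]
    {μ : W → R2} (hα : ∀ v, Sm α v) (hΦ : ContMDiff 𝓘(ℝ, E) 𝓘(ℝ, ℂ) ∞ Φ)
    (hF : IsEquivariantFilling α Φ σ ι φ μ) (hf : IsSymplecticMonodromyFlow α Φ f) :
    SymplecticallyTrivial α Φ (f 1) := by
  obtain ⟨m, hc, hH⟩ := hF.exists_core hΦ
  obtain ⟨h, hh⟩ := hc.isEnd.exists_height hc.action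
  have : SigmaCompactSpace W := by
    refine SigmaCompactSpace.of_countable {K | ∃ n : ℕ, K = {x | h x ≤ n}}
      ((countable_range fun n : ℕ => {x | h x ≤ n}).mono ?_) ?_ ?_
    · rintro _ ⟨n, rfl⟩; exact ⟨n, rfl⟩
    · rintro _ ⟨n, rfl⟩; exact hh.compact n
    · refine eq_univ_of_forall fun x => ?_
      obtain ⟨n, hn⟩ := exists_nat_ge (h x)
      exact ⟨_, ⟨n, rfl⟩, hn⟩
  have hd := hc.dense_ne (hH.surjective_end hc.isEnd)
  have hs := hc.surjective hH hh (hf.flow.exists_neg hd)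
  obtain ⟨a, ht⟩ := hf.flow.exists_turn hd
  obtain ⟨p, hp, -⟩ := hc.isEnd.descend (J := 𝓘(ℝ, E)) (g := fun y : ℝ × V × R2 => y.2.1)
    (fun y _ => contMDiffAt_fst.comp y contMDiffAt_snd) (fun _ _ _ _ _ => rfl)
    (Classical.arbitrary V)
  obtain ⟨R, hR0, r1, r2, r3⟩ := hc.exists_outer hh
  obtain ⟨N₁, A, hA⟩ := hc.exists_conn hh hs (5 * (R + 2) + 1 + 1)
  obtain ⟨P₁, C₁, a1, a2, a3⟩ := hA.exists_trans (by linarith) hH hc hh hF.form hs (c := 1) norm_one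
  obtain ⟨P₂, C₂, b1, b2, b3⟩ := hA.exists_trans (by linarith) hH hc hh hF.form hs Complex.norm_I
  have hR₂ := r3 (R + 2) (by linarith)
  obtain ⟨Q, C₃, N₀, c1, c2, c3, c4, c5⟩ := hA.exists_turner hH hc hh hp hF.form hα hs ht hf hR0
    (by linarith) r1 r2 hR₂
  obtain ⟨G, G', hG, hG1, hk, N, hN⟩ := exists_isotopy_pk hc.smooth hc.invariant a1 b1 c1 a2 b2 c2 c4
    (fun s x hx => a3 s x (by linarith)) (fun s x hx => b3 s x (by linarith)) c3
    (fun s x => by rw [c2, norm_mul, norm_turn, one_mul])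
  have hR : 0 < R + 2 := by linarith
  have hR₁ : ∀ x, ‖m x‖ = R + 2 → 3 < h x := fun x hx => r1 x (by linarith)
  have hp1 : ∀ y : ℝ × V × R2, 0 < y.1 → p (ι y) = y.2.1 := fun y hy => (hp y hy).1
  have hp2 := fun y hy => (hp y hy).2
  have hN' : ∀ τ x, ‖m x‖ ≤ R + 2 → N ≤ h x → G' τ x = x := by
    intro τ x h1 h2
    have := hG.left τ x
    rwa [hN τ x h1 h2] at this
  refine ⟨descG Φ ι (R + 2) p G, descG Φ ι (R + 2) p G', desc_smooth hc hh hG hR hR₁ hR₂ hN hp1 hp2,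
    desc_smooth hc hh (desc_symm hG) hR hR₁ hR₂ hN' hp1 hp2,
    fun τ v => ⟨desc_inv hc hh hG hR hR₁ hR₂ hp1 τ v,
      desc_inv hc hh (desc_symm hG) hR hR₁ hR₂ hp1 τ v⟩, fun v => ?_, fun τ v => ?_,
    desc_pages hc hh hp hF.form hα hG hR hR₁ hR₂ hk, ?_⟩
  · by_cases hv : Φ v = 0
    · simp [descG, hv, hf.flow.fix 1 v hv]
    · obtain ⟨s, hs, hs'⟩ := c5 v hv
      constructor
      · simp only [descG, hv, if_false, hG.zero]
        exact hp1 _ (by simp only; linarith [hR₂ v hv])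
      · simp only [descG, hv, if_false, descJ, hG1, hs']
        exact hp1 _ hs
  · by_cases hv : Φ v = 0
    · exact ⟨1, one_pos, by simp [descG, hv]⟩
    · obtain ⟨-, -, -, c, hc0, hc1⟩ := desc_key hc hh hG hR hR₁ hR₂ hp1 τ hv
      exact ⟨c, hc0, by simpa [descG, hv] using hc1⟩
  · have : ∀ᶠ v in 𝓝ˢ {v | Φ v = 0}, ‖Φ v‖ < (R + 2) * Real.exp (-N) := by
      refine (isOpen_lt hc.smoothV.continuous.norm continuous_const).mem_nhdsSet.2 ?_
      intro v hv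
      simp only [mem_ofPred_eq] at hv ⊢
      rw [hv, norm_zero]
      positivity
    filter_upwards [this] with v hv τ
    exact desc_near hc hh hR hR₂ hN hp1 τ hv

end Pool.Agent.P.MP_49bf82_gt
end
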